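import Mathlib

/-!
Adic toolbox: evaluation of power series in adically complete rings, extensionality of
homomorphisms and derivations, finitely generated ideals acting on products, and Newton lemmas.
-/

namespace Pool.Agent.MP_f5cee0_ag.H4

open MvPowerSeries

section span

variable {σ R : Type*} [Finite σ] [CommRing R]

/-- The ideal generated by the variables. -/
noncomputable abbrev XI (σ R : Type*) [CommRing R] : Ideal (MvPowerSeries σ R) :=
  Ideal.span (Set.range X)

lemma mem_XI_pow (n : ℕ) (h : MvPowerSeries σ R)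
    (hh : ∀ d : σ →₀ ℕ, d.degree < n → coeff d h = 0) : h ∈ XI σ R ^ n := by
  have h1 : toAdicCompletion σ R h ∈
      (MvPolynomial.idealOfVars σ R ^ n • ⊤ : Submodule (MvPolynomial σ R)
        (AdicCompletion (MvPolynomial.idealOfVars σ R) (MvPolynomial σ R))) := by
    rw [AdicCompletion.pow_smul_top_eq_ker_eval (MvPolynomial.idealOfVars_fg σ R),
      LinearMap.mem_ker, AdicCompletion.eval_apply, toAdicCompletion_apply_eq_mk_truncTotal]
    have : truncTotal n h = 0 := by
      ext d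
      by_cases hd : d.degree < n
      · rw [coeff_truncTotal _ hd, hh d hd]; simp
      · rw [coeff_truncTotal_eq_zero _ (not_lt.mp hd)]; simp
    rw [this]; rfl
  have h2 : h ∈ (MvPolynomial.idealOfVars σ R ^ n • ⊤ : Submodule (MvPolynomial σ R)
      (MvPowerSeries σ R)) := by
    have h3 := Submodule.mem_map_of_mem
      (f := (toAdicCompletionAlgEquiv σ R).symm.toLinearMap) h1
    rw [Submodule.map_smul''] at h3
    have h4 : (toAdicCompletionAlgEquiv σ R).symm.toLinearMap (toAdicCompletion σ R h) = h := by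
      exact (toAdicCompletionAlgEquiv σ R).symm_apply_apply h
    rw [h4] at h3
    exact Submodule.smul_mono le_rfl le_top h3
  rw [Ideal.smul_top_eq_map, Submodule.restrictScalars_mem, Ideal.map_pow, Ideal.map_span] at h2
  have hset : ⇑(algebraMap (MvPolynomial σ R) (MvPowerSeries σ R)) '' Set.range MvPolynomial.X =
      Set.range X := by
    rw [← Set.range_comp]
    congr 1
    funext i
    exact MvPolynomial.coe_X i
  rwa [hset] at h2

lemma sub_trunc_mem (n : ℕ) (h : MvPowerSeries σ R) :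
    h - (truncTotal n h : MvPolynomial σ R) ∈ XI σ R ^ n := by
  apply mem_XI_pow
  intro d hd
  rw [map_sub, MvPolynomial.coeff_coe, coeff_truncTotal _ hd, sub_self]

lemma mem_XI_of_constantCoeff {h : MvPowerSeries σ R} (hh : constantCoeff h = 0) :
    h ∈ XI σ R := by
  have := mem_XI_pow 1 h (fun d hd => by
    have : d = 0 := by
      rw [Nat.lt_one_iff, Finsupp.degree_eq_zero_iff] at hd; exact hd
    subst this; simpa using hh)
  simpa using this

omit [Finite σ] in
lemma constantCoeff_of_mem_XI {h : MvPowerSeries σ R} (hh : h ∈ XI σ R) :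
    constantCoeff h = 0 := by
  have : XI σ R ≤ RingHom.ker (constantCoeff (σ := σ) (R := R)) := by
    rw [Ideal.span_le]; rintro _ ⟨i, rfl⟩; simp
  exact this hh

omit [Finite σ] in
lemma map_XI_pow {S : Type*} [CommRing S] (I : Ideal S) (φ : MvPowerSeries σ R →+* S)
    (hφ : ∀ i, φ (X i) ∈ I) (n : ℕ) {h : MvPowerSeries σ R} (hh : h ∈ XI σ R ^ n) :
    φ h ∈ I ^ n := by
  have h1 : (XI σ R).map φ ≤ I := by
    rw [Ideal.map_span, Ideal.span_le]
    rintro _ ⟨_, ⟨i, rfl⟩, rfl⟩; exact hφ i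
  have h2 := Ideal.mem_map_of_mem φ hh
  rw [Ideal.map_pow] at h2
  exact Ideal.pow_right_mono h1 n h2

end span

section ev

variable {σ R S : Type*} [Finite σ] [CommRing R] [CommRing S]

lemma exists_ev [Algebra R S] (I : Ideal S) [IsAdicComplete I S] (a : σ → S) (ha : ∀ i, a i ∈ I) :
    ∃ φ : MvPowerSeries σ R →ₐ[R] S, ∀ i, φ (X i) = a i := by
  have hle : ∀ n, MvPolynomial.idealOfVars σ R ^ n ≤
      (I ^ n).comap (MvPolynomial.aeval (R := R) a) := by
    intro n
    rw [← Ideal.map_le_iff_le_comap, Ideal.map_pow]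
    apply Ideal.pow_right_mono
    rw [Ideal.map_span, Ideal.span_le]
    rintro _ ⟨_, ⟨i, rfl⟩, rfl⟩; simpa using ha i
  let f : (n : ℕ) → MvPowerSeries σ R →ₐ[R] S ⧸ I ^ n := fun n =>
    (Ideal.quotientMapₐ (I ^ n) (MvPolynomial.aeval (R := R) a) (hle n)).comp
      ((truncTotalAlgHom σ R n).restrictScalars R)
  have hf0 : ∀ n h, f n h = Ideal.Quotient.mk _ (MvPolynomial.aeval a (truncTotal n h)) := by
    intro n h; rfl
  have hf : ∀ {m n : ℕ} (hle : m ≤ n),
      (Ideal.Quotient.factorₐ R (Ideal.pow_le_pow_right hle)).comp (f n) = f m := by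
    intro m n hmn
    ext h
    simp only [AlgHom.comp_apply, hf0]
    change Ideal.Quotient.mk _ _ = Ideal.Quotient.mk _ _
    rw [Ideal.Quotient.eq, ← map_sub]
    exact hle m (truncTotal_sub_truncTotal_mem_pow_idealOfVars hmn le_rfl h)
  refine ⟨IsAdicComplete.liftAlgHom I f hf, fun i => ?_⟩
  apply congrFun (IsHausdorff.funext' I (f := fun i => IsAdicComplete.liftAlgHom I f hf (X i))
    (g := a) ?_) i
  intro n i
  rw [IsAdicComplete.mk_liftAlgHom, hf0, Ideal.Quotient.eq]
  have h1 : truncTotal n (X i : MvPowerSeries σ R) - MvPolynomial.X i ∈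
      MvPolynomial.idealOfVars σ R ^ n := by
    rw [MvPolynomial.mem_pow_idealOfVars_iff']
    intro x hx
    rw [MvPolynomial.coeff_sub, coeff_truncTotal _ hx, ← MvPolynomial.coe_X,
      MvPolynomial.coeff_coe, sub_self]
  have := hle n h1
  simpa using this

/-- `𝔞` is closed for the `I`-adic topology. -/
def Closed (I 𝔞 : Ideal S) : Prop := ∀ s, (∀ n, s ∈ 𝔞 ⊔ I ^ n) → s ∈ 𝔞

lemma closed_bot (I : Ideal S) [h : IsHausdorff I S] : Closed I ⊥ := by
  intro s hs
  apply h.haus
  intro n
  have := hs n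
  rw [bot_sup_eq] at this
  rw [SModEq.zero]
  simpa using this

lemma hom_congr {I 𝔞 : Ideal S} (hcl : Closed I 𝔞) (φ ψ : MvPowerSeries σ R →+* S)
    (hC : ∀ r, φ (C r) - ψ (C r) ∈ 𝔞) (hX : ∀ i, φ (X i) - ψ (X i) ∈ 𝔞)
    (hφ : ∀ i, φ (X i) ∈ I) (hψ : ∀ i, ψ (X i) ∈ I) (h : MvPowerSeries σ R) :
    φ h - ψ h ∈ 𝔞 := by
  have hp : ∀ p : MvPolynomial σ R, φ p - ψ p ∈ 𝔞 := by
    have : ((Ideal.Quotient.mk 𝔞).comp φ).comp MvPolynomial.coeToMvPowerSeries.ringHom =
        ((Ideal.Quotient.mk 𝔞).comp ψ).comp MvPolynomial.coeToMvPowerSeries.ringHom := by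
      apply MvPolynomial.ringHom_ext
      · intro r
        simpa [Ideal.Quotient.eq] using hC r
      · intro i
        simpa [Ideal.Quotient.eq] using hX i
    intro p
    have := RingHom.congr_fun this p
    simpa [Ideal.Quotient.eq] using this
  apply hcl
  intro n
  have h1 := map_XI_pow I φ hφ n (sub_trunc_mem n h)
  have h2 := map_XI_pow I ψ hψ n (sub_trunc_mem n h)
  have : φ h - ψ h = (φ (truncTotal n h : MvPolynomial σ R) - ψ (truncTotal n h : MvPolynomial σ R))
      + (φ (h - (truncTotal n h : MvPolynomial σ R)) -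
        ψ (h - (truncTotal n h : MvPolynomial σ R))) := by
    simp only [map_sub]; ring
  rw [this]
  exact Submodule.add_mem_sup (hp _) (Ideal.sub_mem _ h1 h2)

lemma hom_ext (I : Ideal S) [IsHausdorff I S] (φ ψ : MvPowerSeries σ R →+* S)
    (hC : ∀ r, φ (C r) = ψ (C r)) (hX : ∀ i, φ (X i) = ψ (X i))
    (hφ : ∀ i, φ (X i) ∈ I) : φ = ψ := by
  ext h
  have := hom_congr (closed_bot I) φ ψ (fun r => by simp [hC]) (fun i => by simp [hX]) hφ
    (fun i => hX i ▸ hφ i) h
  simpa [sub_eq_zero] using this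

lemma algHom_ext [Algebra R S] (I : Ideal S) [IsHausdorff I S] (φ ψ : MvPowerSeries σ R →ₐ[R] S)
    (hX : ∀ i, φ (X i) = ψ (X i)) (hφ : ∀ i, φ (X i) ∈ I) : φ = ψ := by
  apply AlgHom.coe_ringHom_injective
  apply hom_ext I _ _ _ hX hφ
  intro r
  have h1 := φ.commutes r
  have h2 := ψ.commutes r
  rw [MvPowerSeries.algebraMap_apply] at h1 h2
  simp only [Algebra.algebraMap_self, RingHom.id_apply] at h1 h2
  simp [h1, h2]

/-- An approximate derivation vanishing on generators vanishes. -/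
lemma deriv_vanish {I 𝔞 : Ideal S} (hcl : Closed I 𝔞) (ν : MvPowerSeries σ R →+* S)
    (hν : ∀ i, ν (X i) ∈ I) (E : MvPowerSeries σ R →+ S)
    (hE : ∀ a b, E (a * b) - (ν a * E b + ν b * E a) ∈ 𝔞)
    (hC : ∀ r, E (C r) ∈ 𝔞) (hX : ∀ i, E (X i) ∈ 𝔞) (h : MvPowerSeries σ R) : E h ∈ 𝔞 := by
  have hmul : ∀ a b, E (a * b) = (E (a * b) - (ν a * E b + ν b * E a)) +
      (ν a * E b + ν b * E a) := fun a b => by ring
  have hp : ∀ p : MvPolynomial σ R, E p ∈ 𝔞 := by
    intro p
    induction p using MvPolynomial.induction_on with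
    | C r => simpa using hC r
    | add p q hp hq => simpa using 𝔞.add_mem hp hq
    | mul_X p i hp =>
      rw [MvPolynomial.coe_mul, MvPolynomial.coe_X, hmul]
      exact 𝔞.add_mem (hE _ _) (𝔞.add_mem (𝔞.mul_mem_left _ (hX i)) (𝔞.mul_mem_left _ hp))
  have hr : ∀ n, ∀ r ∈ XI σ R ^ (n + 1), E r ∈ 𝔞 ⊔ I ^ n := by
    intro n
    induction n with
    | zero => intro r _; simp
    | succ n ih =>
      intro r hr
      rw [pow_succ] at hr
      refine Submodule.mul_induction_on hr ?_ ?_
      · intro a ha b hb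
        rw [hmul]
        refine Ideal.add_mem _ (Ideal.mem_sup_left (hE _ _)) (Ideal.add_mem _ ?_ ?_)
        · exact Ideal.mem_sup_right (Ideal.mul_mem_right _ _ (map_XI_pow I ν hν _ ha))
        · have hb' : ν b ∈ I := by simpa using map_XI_pow I ν hν 1 (by simpa using hb)
          obtain ⟨s, hs, t, ht, hst⟩ := Submodule.mem_sup.mp (ih a ha)
          rw [← hst, mul_add]
          refine Submodule.add_mem_sup (𝔞.mul_mem_left _ hs) ?_
          rw [pow_succ']
          exact Ideal.mul_mem_mul hb' ht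
      · intro a b ha hb
        rw [map_add]; exact Ideal.add_mem _ ha hb
  apply hcl
  intro n
  have : E h = E (truncTotal (n + 1) h : MvPolynomial σ R) +
      E (h - (truncTotal (n + 1) h : MvPolynomial σ R)) := by
    rw [map_sub]; ring
  rw [this]
  exact Ideal.add_mem _ (Ideal.mem_sup_left (hp _)) (hr n _ (sub_trunc_mem _ h))

/-- Chain rule for approximate derivations along a homomorphism. -/
lemma deriv_congr [Fintype σ] {I 𝔞 : Ideal S} (hcl : Closed I 𝔞) (ν : MvPowerSeries σ R →+* S)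
    (hν : ∀ i, ν (X i) ∈ I) (D : MvPowerSeries σ R →+ S)
    (hD : ∀ a b, D (a * b) - (ν a * D b + ν b * D a) ∈ 𝔞)
    (hC : ∀ r, D (C r) ∈ 𝔞) (h : MvPowerSeries σ R) :
    D h - ∑ i, ν (pderiv R i h) * D (X i) ∈ 𝔞 := by
  classical
  let E : MvPowerSeries σ R →+ S :=
    { toFun := fun h => D h - ∑ i, ν (pderiv R i h) * D (X i)
      map_zero' := by simp
      map_add' := fun a b => by
        simp only [map_add, add_mul, Finset.sum_add_distrib]; ring }
  have hE : ∀ h, E h = D h - ∑ i, ν (pderiv R i h) * D (X i) := fun h => rfl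
  rw [← hE]
  apply deriv_vanish hcl ν hν E
  · intro a b
    have : E (a * b) - (ν a * E b + ν b * E a) = D (a * b) - (ν a * D b + ν b * D a) := by
      simp only [hE, Derivation.leibniz, smul_eq_mul, map_add, map_mul, add_mul,
        Finset.sum_add_distrib, mul_sub, Finset.mul_sum, mul_assoc]
      ring
    rw [this]; exact hD a b
  · intro r; simpa [hE] using hC r
  · intro i
    rw [hE, Finset.sum_eq_single i]
    · simp
    · intro j _ hj
      rw [pderiv_X_of_ne hj.symm]; simp
    · simp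

end ev

end Pool.Agent.MP_f5cee0_ag.H4
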