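import Pool.Agent.MP_f5cee0_ag.H4.DVR

/-!
Finiteness by complete Nakayama and the curve selection lemma for power series rings.
-/

namespace Pool.Agent.MP_f5cee0_ag.H4

open PowerSeries
open scoped nonZeroDivisors

lemma finite_of_nilpotent {σ K T : Type*} [Finite σ] [Field K] [CommRing T] [Algebra K T]
    (ψ : MvPowerSeries σ K →ₐ[K] T) (hsurj : Function.Surjective ψ) (N : ℕ)
    (hN : ∀ h ∈ XI σ K ^ N, ψ h = 0) : Module.Finite K T := by
  have h1 : Algebra.FiniteType K T := by
    refine Algebra.FiniteType.of_surjective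
      (ψ.comp (MvPolynomial.coeToMvPowerSeries.algHom K)) ?_
    intro t
    obtain ⟨h, rfl⟩ := hsurj t
    refine ⟨MvPowerSeries.truncTotal N h, ?_⟩
    have := hN _ (sub_trunc_mem N h)
    rw [map_sub, sub_eq_zero] at this
    rw [this]
    simp [MvPolynomial.coeToMvPowerSeries.algHom_apply]
  have h2 : Algebra.IsIntegral K T := ⟨fun t => by
    obtain ⟨h, rfl⟩ := hsurj t
    have h3 : h - algebraMap K _ (MvPowerSeries.constantCoeff h) ∈ XI σ K :=
      mem_XI_of_constantCoeff (by simp [MvPowerSeries.algebraMap_apply])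
    have h4 := hN _ (Ideal.pow_mem_pow h3 N)
    rw [map_pow] at h4
    have h5 : IsIntegral K (ψ (h - algebraMap K _ (MvPowerSeries.constantCoeff h))) :=
      ⟨Polynomial.X ^ N, Polynomial.monic_X_pow N, by simpa using h4⟩
    have h6 := h5.add (isIntegral_algebraMap (x := MvPowerSeries.constantCoeff h))
    simpa using h6⟩
  exact Algebra.IsIntegral.finite

lemma finite_of_quot {K Λ : Type*} [Field K] [CommRing Λ] [Algebra K Λ] [CBase K Λ]
    (O : Type*) [CommRing O] [Algebra Λ O] [Algebra K O] [IsScalarTower K Λ O]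
    [IsHausdorff (mx K Λ) O] (h : Module.Finite K (O ⧸ (mx K Λ).map (algebraMap Λ O))) :
    Module.Finite Λ O := by
  obtain ⟨n, s, hs⟩ := Module.Finite.exists_fin (R := K)
    (M := O ⧸ (mx K Λ).map (algebraMap Λ O))
  choose t ht using fun j => Ideal.Quotient.mk_surjective (s j)
  refine Module.Finite.of_surjective (Fintype.linearCombination Λ t) ?_
  apply surjective_of_red (mx K Λ)
  intro w
  have ha : Ideal.Quotient.mk _ w ∈ Submodule.span K (Set.range s) := hs ▸ Submodule.mem_top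
  obtain ⟨c, hc⟩ := (Submodule.mem_span_range_iff_exists_fun K).mp ha
  refine ⟨fun j => algebraMap K Λ (c j), ?_⟩
  rw [Ideal.smul_top_eq_map, Submodule.restrictScalars_mem, ← Ideal.Quotient.eq, ← hc,
    Fintype.linearCombination_apply, map_sum]
  refine Finset.sum_congr rfl fun j _ => ?_
  rw [algebraMap_smul, ← ht, ← Ideal.Quotient.mkₐ_eq_mk K, map_smul]

theorem exists_arc {σ K : Type*} [Finite σ] [Field K] [IsAlgClosed K] (p : ℕ) [ExpChar K p]
    (𝔮 : Ideal (MvPowerSeries σ K)) [𝔮.IsPrime] (h𝔮 : ¬ XI σ K ≤ 𝔮) :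
    ∃ β : MvPowerSeries σ K →ₐ[K] K⟦X⟧, (∀ h ∈ 𝔮, β h = 0) ∧ ∃ j, β (MvPowerSeries.X j) ≠ 0 := by
  obtain ⟨P, ⟨hP1, hP2, hP3⟩, hmax⟩ := set_has_maximal_iff_noetherian.mpr
    (inferInstance : IsNoetherian (MvPowerSeries σ K) (MvPowerSeries σ K))
    {P : Ideal (MvPowerSeries σ K) | P.IsPrime ∧ 𝔮 ≤ P ∧ ¬ XI σ K ≤ P} ⟨𝔮, ‹_›, le_rfl, h𝔮⟩
  obtain ⟨j, hj⟩ : ∃ j, MvPowerSeries.X j ∉ P := by
    by_contra h
    push Not at h
    apply hP3
    rw [Ideal.span_le]; rintro _ ⟨i, rfl⟩; exact h i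
  have hrad : XI σ K ≤ Ideal.radical (P ⊔ Ideal.span {MvPowerSeries.X j}) := by
    rw [Ideal.radical_eq_sInf, le_sInf_iff]
    rintro Q ⟨hQ1, hQ2⟩
    by_contra hne
    refine hmax Q ⟨hQ2, hP2.trans (le_sup_left.trans hQ1), hne⟩ (lt_of_le_of_ne
      (le_sup_left.trans hQ1) ?_)
    rintro rfl
    exact hj (hQ1 (Ideal.mem_sup_right (Ideal.mem_span_singleton_self _)))
  obtain ⟨N, hN⟩ := Ideal.exists_pow_le_of_le_radical_of_fg hrad
    (Submodule.fg_span (Set.finite_range _))
  let O := MvPowerSeries σ K ⧸ P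
  let ι : K⟦X⟧ →ₐ[K] O := (Ideal.Quotient.mkₐ K P).comp (toMvPowerSeries j)
  have hι : ι X = Ideal.Quotient.mk P (MvPowerSeries.X j) := by simp [ι]
  let : Algebra K⟦X⟧ O := ι.toRingHom.toAlgebra
  have : IsScalarTower K K⟦X⟧ O := IsScalarTower.of_algebraMap_eq fun c => (ι.commutes c).symm
  have hmap : (mx K K⟦X⟧).map (algebraMap K⟦X⟧ O) =
      Ideal.span {Ideal.Quotient.mk P (MvPowerSeries.X j)} := by
    rw [mx_ps, Ideal.map_span, Set.image_singleton, ← hι]; rfl
  have hz : Ideal.Quotient.mk P (MvPowerSeries.X j) ≠ 0 := by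
    rwa [Ne, Ideal.Quotient.eq_zero_iff_mem]
  have : IsHausdorff (mx K K⟦X⟧) O := by
    rw [← IsHausdorff.map_algebraMap_iff (S := O), hmap]
    apply IsHausdorff.of_isDomain
    rw [Ne, Ideal.span_singleton_eq_top]
    intro hu
    obtain ⟨u, hu⟩ := hu.exists_right_inv
    obtain ⟨u, rfl⟩ := Ideal.Quotient.mk_surjective u
    rw [← map_mul, ← map_one (Ideal.Quotient.mk P), Ideal.Quotient.eq] at hu
    apply hP1.ne_top
    apply Ideal.eq_top_of_isUnit_mem _ hu
    rw [MvPowerSeries.isUnit_iff_constantCoeff]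
    simp
  have : Module.Finite K⟦X⟧ O := by
    apply finite_of_quot (K := K)
    rw [hmap]
    let ψ : MvPowerSeries σ K →ₐ[K]
        O ⧸ Ideal.span {Ideal.Quotient.mk P (MvPowerSeries.X j)} :=
      (Ideal.Quotient.mkₐ K _).comp (Ideal.Quotient.mkₐ K P)
    refine finite_of_nilpotent (σ := σ) (K := K)
      (T := O ⧸ Ideal.span {Ideal.Quotient.mk P (MvPowerSeries.X j)}) ψ ?_ N ?_
    · exact Ideal.Quotient.mk_surjective.comp Ideal.Quotient.mk_surjective
    intro h hh
    obtain ⟨a, ha, b, hb, rfl⟩ := Submodule.mem_sup.mp (hN hh)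
    obtain ⟨c, rfl⟩ := Ideal.mem_span_singleton'.mp hb
    change Ideal.Quotient.mk _ (Ideal.Quotient.mk P _) = 0
    rw [Ideal.Quotient.eq_zero_iff_mem, map_add, Ideal.Quotient.eq_zero_iff_mem.mpr ha, zero_add,
      map_mul]
    exact Ideal.mul_mem_left _ _ (Ideal.mem_span_singleton_self _)
  have : FaithfulSMul K⟦X⟧ O := by
    rw [faithfulSMul_iff_algebraMap_injective, injective_iff_map_eq_zero]
    intro h hh
    by_contra h0
    obtain ⟨k, h', rfl, hh'⟩ := exists_X_pow_mul h0
    change ι _ = 0 at hh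
    rw [map_mul, map_pow, hι] at hh
    have hu' : IsUnit h' := isUnit_iff_constantCoeff.mpr (IsUnit.mk0 _ hh')
    exact mul_ne_zero (pow_ne_zero _ hz) (hu'.map ι).ne_zero hh
  obtain ⟨e, he⟩ := exists_embedding_ps K O p
  refine ⟨e.comp (Ideal.Quotient.mkₐ K P), fun h hh => ?_, j, fun h => hz (he ?_)⟩
  · change e (Ideal.Quotient.mk P h) = 0
    rw [Ideal.Quotient.eq_zero_iff_mem.mpr (hP2 hh), map_zero]
  · rw [map_zero]; exact h

/-- Restriction of a power series to the line through the origin with direction `c`. -/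
noncomputable def lineHom {σ K : Type*} [Finite σ] [Field K] (c : σ → K) :
    MvPowerSeries σ K →ₐ[K] K⟦X⟧ :=
  ev K (Ideal.span {X}) (fun i => C (c i) * X)

lemma lineHom_X {σ K : Type*} [Finite σ] [Field K] (c : σ → K) (i : σ) :
    lineHom c (MvPowerSeries.X i) = C (c i) * X :=
  ev_X _ (fun _ => Ideal.mul_mem_left _ _ (Ideal.mem_span_singleton_self _)) i

theorem exists_initial_form {σ K : Type*} [Finite σ] [Field K]
    (h : MvPowerSeries σ K) (hh : h ≠ 0) : ∃ p : MvPolynomial σ K, p ≠ 0 ∧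
      ∀ c : σ → K, MvPolynomial.eval c p ≠ 0 → lineHom c h ≠ 0 := by
  classical
  have hex : ∃ n, ∃ d : σ →₀ ℕ, d.degree = n ∧ MvPowerSeries.coeff d h ≠ 0 := by
    by_contra H
    push Not at H
    exact hh (MvPowerSeries.ext fun d => by simpa using H _ d rfl)
  obtain ⟨d0, hd0, hd0'⟩ := Nat.find_spec hex
  set n := Nat.find hex
  have hlow : ∀ d : σ →₀ ℕ, d.degree < n → MvPowerSeries.coeff d h = 0 := by
    intro d hd
    by_contra hne
    exact Nat.find_min hex hd ⟨d, rfl, hne⟩
  set p := MvPowerSeries.truncTotal (n + 1) h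
  refine ⟨p, fun h0 => hd0' ?_, fun c hc h0 => hc ?_⟩
  · rw [← MvPowerSeries.coeff_truncTotal (n := n + 1) _ (by omega)]
    change MvPolynomial.coeff d0 p = 0
    rw [h0]; simp
  · have h1 := map_XI_pow (Ideal.span {X}) (lineHom c).toRingHom (fun i => by
      change lineHom c _ ∈ _
      rw [lineHom_X]; exact Ideal.mul_mem_left _ _ (Ideal.mem_span_singleton_self _)) (n + 1)
      (sub_trunc_mem (n + 1) h)
    change lineHom c (h - p) ∈ _ at h1
    rw [map_sub, h0, zero_sub, neg_mem_iff, Ideal.span_singleton_pow, Ideal.mem_span_singleton,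
      X_pow_dvd_iff] at h1
    have h2 : lineHom c (p : MvPowerSeries σ K) = C (MvPolynomial.eval c p) * X ^ n := by
      have h3 : ∀ d ∈ p.support, d.degree = n := by
        intro d hd
        rw [MvPolynomial.mem_support_iff] at hd
        by_contra hne
        rcases lt_or_gt_of_ne hne with hlt | hgt
        · exact hd (by rw [MvPowerSeries.coeff_truncTotal _ (by omega), hlow d hlt])
        · exact hd (MvPowerSeries.coeff_truncTotal_eq_zero _ hgt)
      have h4 : (lineHom c).comp (MvPolynomial.coeToMvPowerSeries.algHom K) =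
          MvPolynomial.aeval (fun i => C (c i) * X) := by
        ext1 i
        simp [MvPolynomial.coeToMvPowerSeries.algHom_apply, lineHom_X]
      have h5 := AlgHom.congr_fun h4 p
      simp only [AlgHom.comp_apply, MvPolynomial.coeToMvPowerSeries.algHom_apply,
        Algebra.algebraMap_self, MvPowerSeries.map_id, RingHom.id_apply] at h5
      rw [h5, MvPolynomial.aeval_def, MvPolynomial.eval₂_eq, MvPolynomial.eval_eq, map_sum,
        Finset.sum_mul]
      refine Finset.sum_congr rfl fun d hd => ?_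
      rw [← h3 d hd, Finsupp.degree_apply]
      simp only [mul_pow, Finset.prod_mul_distrib, Finset.prod_pow_eq_pow_sum, map_mul, map_prod,
        map_pow, PowerSeries.algebraMap_apply, Algebra.algebraMap_self, RingHom.id_apply]
      ring
    have := h1 n (Nat.lt_succ_self n)
    rw [h2] at this
    simpa using this

/-- A nonzero power series does not vanish on some arc. -/
theorem exists_arc_ne_zero {σ K : Type*} [Finite σ] [Field K] [Infinite K]
    (h : MvPowerSeries σ K) (hh : h ≠ 0) :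
    ∃ β : MvPowerSeries σ K →ₐ[K] K⟦X⟧, β h ≠ 0 := by
  obtain ⟨p, hp, H⟩ := exists_initial_form h hh
  obtain ⟨c, hc⟩ : ∃ c, MvPolynomial.eval c p ≠ 0 := by
    by_contra h0
    push Not at h0
    exact hp (MvPolynomial.funext fun c => by simpa using h0 c)
  exact ⟨lineHom c, H c hc⟩

end Pool.Agent.MP_f5cee0_ag.H4
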