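import Pool.Agent.MP_f5cee0_ag.H4.Imm

/-!
A criterion for a finite map to be birational onto its image.
-/

namespace Pool.Agent.MP_f5cee0_ag.H4

open PowerSeries
open scoped TensorProduct nonZeroDivisors

universe u

lemma ann_of_torsion {A Λ M : Type u} [CommRing A] [CommRing Λ] [IsDomain Λ] [Algebra A Λ]
    [AddCommGroup M] [Module A M] [Module.Finite A M]
    (h : ∀ m : M, ∃ r : Λ, r ≠ 0 ∧ r ⊗ₜ[A] m = 0) :
    ∃ a : A, algebraMap A Λ a ≠ 0 ∧ ∀ m : M, a • m = 0 := by
  by_contra H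
  let L := FractionRing Λ
  let 𝔭 : Ideal A := RingHom.ker (algebraMap A Λ)
  have : 𝔭.IsPrime := RingHom.ker_isPrime _
  have h1 : Module.annihilator A M ≤ 𝔭 := by
    intro a ha
    by_contra hne
    exact H ⟨a, hne, Module.mem_annihilator.mp ha⟩
  have h2 := (Module.mem_support_iff_nontrivial_residueField_tensorProduct (R := A) (M := M)
    ⟨𝔭, this⟩).mp (Module.mem_support_iff_of_finite.mpr h1)
  let ι : 𝔭.ResidueField →ₐ[A] L := Ideal.ResidueField.liftₐ 𝔭 (Algebra.ofId A L)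
    (fun a ha => by
      rw [RingHom.mem_ker, Algebra.ofId_apply, IsScalarTower.algebraMap_apply A Λ L,
        RingHom.mem_ker.mp ha, map_zero])
    (fun a ha => by
      change IsUnit (algebraMap A L a)
      rw [isUnit_iff_ne_zero, IsScalarTower.algebraMap_apply A Λ L]
      simp only [ne_eq, FaithfulSMul.algebraMap_eq_zero_iff]
      exact ha)
  let := ι.toRingHom.toAlgebra
  have : IsScalarTower A 𝔭.ResidueField L :=
    IsScalarTower.of_algebraMap_eq fun a => (ι.commutes a).symm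
  have h3 : Nontrivial (L ⊗[A] M) := by
    rw [← (TensorProduct.AlgebraTensorModule.cancelBaseChange A 𝔭.ResidueField L L
      M).nontrivial_congr, Module.FaithfullyFlat.nontrivial_tensorProduct_iff_right]
    exact h2
  apply not_subsingleton (L ⊗[A] M)
  refine subsingleton_of_forall_eq 0 fun z => ?_
  induction z using TensorProduct.induction_on with
  | zero => rfl
  | add a b ha hb => rw [ha, hb, add_zero]
  | tmul l m =>
    obtain ⟨r, hr, hm⟩ := h m
    have h4 := congrArg (LinearMap.rTensor M (IsScalarTower.toAlgHom A Λ L).toLinearMap) hm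
    rw [LinearMap.rTensor_tmul, map_zero] at h4
    have h5 : algebraMap Λ L r ≠ 0 := by simpa using hr
    have h6 : l ⊗ₜ[A] m = (l * (algebraMap Λ L r)⁻¹) • (algebraMap Λ L r ⊗ₜ[A] m) := by
      rw [TensorProduct.smul_tmul', smul_eq_mul, inv_mul_cancel_right₀ h5]
    rw [h6]
    exact smul_eq_zero_of_right _ h4

lemma torsion_of_deriv {Λ Z : Type u} [CommRing Λ] [IsDomain Λ] [IsPrincipalIdealRing Λ]
    [CommRing Z] [Algebra Λ Z] [Module.Finite Λ Z] (I : Ideal Z) {w : Λ} (hw : w ≠ 0)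
    (h1 : ∀ 𝔭 : Ideal Z, 𝔭.IsPrime → ∀ z ∈ I, algebraMap Λ Z w * z ∈ 𝔭)
    (h2 : ∀ l : Z →ₗ[Λ] Λ, (∀ z ∈ I ^ 2, l z = 0) → ∀ z ∈ I, l z = 0) :
    ∀ z ∈ I, ∃ r : Λ, r ≠ 0 ∧ r • z = 0 := by
  have hn : IsNoetherianRing Z := IsNoetherianRing.of_finite Λ Z
  obtain ⟨n, hn⟩ := IsNoetherianRing.isNilpotent_nilradical Z
  have h3 : ∀ y ∈ I ^ n, w ^ n • y = 0 := by
    intro y hy
    have e1 : Ideal.span {algebraMap Λ Z w} * I ≤ nilradical Z := by
      rw [Ideal.span_singleton_mul_le_iff]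
      intro z hz
      rw [nilradical_eq_sInf, Ideal.mem_sInf]
      exact fun _ h𝔭 => h1 _ h𝔭 z hz
    have e2 := Ideal.pow_right_mono e1 n
    rw [hn, mul_pow] at e2
    rw [Algebra.smul_def, map_pow]
    exact e2 (Ideal.mul_mem_mul (Ideal.pow_mem_pow (Ideal.mem_span_singleton_self _) n) hy)
  have h4 : ∀ z ∈ I, ∃ r : Λ, r ≠ 0 ∧ r • z ∈ I ^ 2 := by
    intro z hz
    let S : Submodule Λ Z := (I ^ 2).restrictScalars Λ
    let T := Submodule.torsion Λ (Z ⧸ S)
    have e1 : T.mkQ (S.mkQ z) = 0 := by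
      rw [← Module.forall_dual_apply_eq_zero_iff Λ]
      intro φ
      exact h2 ((φ.comp T.mkQ).comp S.mkQ) (fun y hy => by
        have : S.mkQ y = 0 := (Submodule.Quotient.mk_eq_zero S).mpr hy
        rw [LinearMap.comp_apply, this, map_zero]) z hz
    obtain ⟨⟨r, hr⟩, hr'⟩ := (Submodule.Quotient.mk_eq_zero T).mp e1
    refine ⟨r, nonZeroDivisors.ne_zero hr, ?_⟩
    exact (Submodule.Quotient.mk_eq_zero S).mp hr'
  have h5 : ∀ k, ∀ z ∈ I, ∃ r : Λ, r ≠ 0 ∧ r • z ∈ I ^ (k + 1) := by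
    intro k
    induction k with
    | zero => exact fun z hz => ⟨1, one_ne_zero, by simpa using hz⟩
    | succ k ih =>
      intro z hz
      obtain ⟨r, hr, hrz⟩ := h4 z hz
      have : ∀ y ∈ I * I, ∃ r : Λ, r ≠ 0 ∧ r • y ∈ I ^ (k + 1 + 1) := by
        intro y hy
        refine Submodule.mul_induction_on hy ?_ ?_
        · intro a ha b hb
          obtain ⟨s, hs, hs'⟩ := ih a ha
          exact ⟨s, hs, by rw [← smul_mul_assoc, pow_succ]; exact Ideal.mul_mem_mul hs' hb⟩
        · rintro a b ⟨s, hs, hs'⟩ ⟨t, ht, ht'⟩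
          refine ⟨s * t, mul_ne_zero hs ht, ?_⟩
          rw [smul_add]
          refine Ideal.add_mem _ ?_ ?_
          · rw [mul_comm, mul_smul, Algebra.smul_def]; exact Ideal.mul_mem_left _ _ hs'
          · rw [mul_smul, Algebra.smul_def]; exact Ideal.mul_mem_left _ _ ht'
      obtain ⟨s, hs, hs'⟩ := this _ (by rw [← sq]; exact hrz)
      exact ⟨s * r, mul_ne_zero hs hr, by rw [mul_smul]; exact hs'⟩
  intro z hz
  obtain ⟨r, hr, hr'⟩ := h5 n z hz
  exact ⟨w ^ n * r, mul_ne_zero (pow_ne_zero _ hw) hr,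
    by rw [mul_smul]; exact h3 _ (Ideal.pow_le_pow_right (Nat.le_succ n) hr')⟩

theorem exists_conductor_of_arc {K A B : Type u} [Field K] [IsAlgClosed K] (p : ℕ) [ExpChar K p]
    [CommRing A] [CommRing B] [Algebra A B] [Module.Finite A B] [Algebra K A] [Algebra K B]
    [IsScalarTower K A B] (β : B →ₐ[K] K⟦X⟧)
    (huniq : ∀ β1 β2 : B →ₐ[K] K⟦X⟧,
      (∀ a, β1 (algebraMap A B a) = β2 (algebraMap A B a)) → β1 = β2)
    (hder : ∀ δ : B →+ K⟦X⟧, (∀ a b, δ (a * b) = β a * δ b + β b * δ a) →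
      (∀ a, δ (algebraMap A B a) = 0) → δ = 0) :
    ∃ a : A, β (algebraMap A B a) ≠ 0 ∧ ∀ b, ∃ a', algebraMap A B a' = algebraMap A B a * b := by
  let : Algebra A K⟦X⟧ := (β.toRingHom.comp (algebraMap A B)).toAlgebra
  have hA : ∀ a, algebraMap A K⟦X⟧ a = β (algebraMap A B a) := fun a => rfl
  have : IsScalarTower K A K⟦X⟧ := IsScalarTower.of_algebraMap_eq fun c => by
    rw [hA, ← IsScalarTower.algebraMap_apply, β.commutes]
  let βA : B →ₐ[A] K⟦X⟧ := { β.toRingHom with commutes' := fun _ => rfl }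
  let Z := K⟦X⟧ ⊗[A] B
  let μ : Z →ₐ[K⟦X⟧] K⟦X⟧ := Algebra.TensorProduct.lift (AlgHom.id _ _) βA fun _ _ => .all _ _
  have hμ : ∀ c b, μ (c ⊗ₜ b) = c * β b := fun c b => rfl
  have halg : ∀ c, algebraMap K⟦X⟧ Z c = c ⊗ₜ 1 := fun c => rfl
  have hmem : ∀ b, (1 ⊗ₜ b - algebraMap K⟦X⟧ Z (β b) : Z) ∈ RingHom.ker μ := fun b => by
    rw [RingHom.mem_ker, map_sub, hμ, μ.commutes]; simp
  have hA' : ∀ a, (1 ⊗ₜ (algebraMap A B a) : Z) = algebraMap K⟦X⟧ Z (β (algebraMap A B a)) := by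
    intro a
    rw [halg, ← hA, Algebra.algebraMap_eq_smul_one, Algebra.algebraMap_eq_smul_one,
      TensorProduct.smul_tmul]
  have hgen : ∀ {W : Type u} [AddCommGroup W] [Module K⟦X⟧ W] (l : Z →ₗ[K⟦X⟧] W),
      (∀ b, l (1 ⊗ₜ b - algebraMap K⟦X⟧ Z (β b)) = 0) → ∀ z ∈ RingHom.ker μ, l z = 0 := by
    intro W _ _ l hl
    have : ∀ z, l (z - algebraMap K⟦X⟧ Z (μ z)) = 0 := by
      intro z
      induction z using TensorProduct.induction_on with
      | zero => simp
      | add a b ha hb =>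
        rw [map_add, map_add, add_sub_add_comm, map_add, ha, hb, add_zero]
      | tmul c b =>
        have e : (c ⊗ₜ b - algebraMap K⟦X⟧ Z (μ (c ⊗ₜ b)) : Z) =
            c • (1 ⊗ₜ b - algebraMap K⟦X⟧ Z (β b)) := by
          rw [hμ, smul_sub, TensorProduct.smul_tmul', smul_eq_mul, mul_one, map_mul,
            ← Algebra.smul_def]
        rw [e, map_smul, hl, smul_zero]
    intro z hz
    have := this z
    rwa [RingHom.mem_ker.mp hz, map_zero, sub_zero] at this
  have key := torsion_of_deriv (RingHom.ker μ) (w := X) X_ne_zero (fun 𝔭 h𝔭 z hz => by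
      by_cases hX : algebraMap K⟦X⟧ Z X ∈ 𝔭
      · exact Ideal.mul_mem_right _ _ hX
      refine Ideal.mul_mem_left _ _ ?_
      have : FaithfulSMul K⟦X⟧ (Z ⧸ 𝔭) := by
        rw [faithfulSMul_iff_algebraMap_injective, injective_iff_map_eq_zero]
        intro r hr
        by_contra hr0
        obtain ⟨k, v, rfl, hv⟩ := exists_X_pow_mul hr0
        rw [map_mul, map_pow] at hr
        rcases mul_eq_zero.mp hr with h | h
        · exact hX (Ideal.Quotient.eq_zero_iff_mem.mp (eq_zero_of_pow_eq_zero h))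
        · exact ((isUnit_iff_constantCoeff.mpr (IsUnit.mk0 _ hv)).map _).ne_zero h
      obtain ⟨j, hj⟩ := exists_embedding_ps K (Z ⧸ 𝔭) p
      have h1 := huniq
        ((j.comp (Ideal.Quotient.mkₐ K 𝔭)).comp
          (Algebra.TensorProduct.includeRight.restrictScalars K))
        ((j.comp (IsScalarTower.toAlgHom K K⟦X⟧ (Z ⧸ 𝔭))).comp β) (fun a => by
          change j (Ideal.Quotient.mk 𝔭 (1 ⊗ₜ _)) = j (Ideal.Quotient.mk 𝔭 (algebraMap K⟦X⟧ Z _))
          rw [hA']; rfl)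
      have h2 := hgen (Ideal.Quotient.mkₐ K⟦X⟧ 𝔭).toLinearMap (fun b => by
        rw [map_sub, sub_eq_zero]
        exact hj (AlgHom.congr_fun h1 b)) z hz
      exact Ideal.Quotient.eq_zero_iff_mem.mp h2)
    (fun l hl => hgen l fun b => by
      have := hder
        { toFun := fun b => l (1 ⊗ₜ b - algebraMap K⟦X⟧ Z (β b))
          map_zero' := by simp
          map_add' := fun a b => by
            rw [← map_add, TensorProduct.tmul_add, map_add β, map_add (algebraMap K⟦X⟧ Z),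
              add_sub_add_comm] }
        (fun a b => by
          have e := hl _ (by rw [sq]; exact Ideal.mul_mem_mul (hmem a) (hmem b))
          simp only [AddMonoidHom.coe_mk, ZeroHom.coe_mk]
          rw [← smul_eq_mul (β a), ← smul_eq_mul (β b), ← map_smul, ← map_smul, ← map_add,
            ← sub_eq_zero, ← map_sub, ← e]
          congr 1
          have e1 : (1 ⊗ₜ (a * b) : Z) = (1 ⊗ₜ a) * (1 ⊗ₜ b) := by
            rw [Algebra.TensorProduct.tmul_mul_tmul, mul_one]
          have e2 : ∀ (c : K⟦X⟧) (z : Z), c • z = algebraMap K⟦X⟧ Z c * z :=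
            fun c z => Algebra.smul_def c z
          rw [e1, map_mul, map_mul, e2, e2]
          ring)
        (fun a => by
          simp only [AddMonoidHom.coe_mk, ZeroHom.coe_mk]
          rw [hA', sub_self, map_zero])
      exact DFunLike.congr_fun this b)
  let S := LinearMap.range (Algebra.linearMap A B)
  obtain ⟨a, ha, ha'⟩ := ann_of_torsion (A := A) (Λ := K⟦X⟧) (M := B ⧸ S) (fun m => by
    obtain ⟨b, rfl⟩ := S.mkQ_surjective m
    obtain ⟨r, hr, hr'⟩ := key _ (hmem b)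
    refine ⟨r, hr, ?_⟩
    have h1 := congrArg (LinearMap.lTensor K⟦X⟧ S.mkQ) hr'
    have h2 : S.mkQ 1 = 0 := (Submodule.Quotient.mk_eq_zero S).mpr ⟨1, by simp⟩
    rw [smul_sub, halg, TensorProduct.smul_tmul', TensorProduct.smul_tmul', map_sub,
      LinearMap.lTensor_tmul, LinearMap.lTensor_tmul, h2, TensorProduct.tmul_zero, sub_zero,
      map_zero, smul_eq_mul, mul_one] at h1
    exact h1)
  refine ⟨a, ha, fun b => ?_⟩
  have := ha' (S.mkQ b)
  rw [← map_smul, Algebra.smul_def] at this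
  exact (Submodule.Quotient.mk_eq_zero S).mp this

end Pool.Agent.MP_f5cee0_ag.H4
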