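import Pool.Agent.MP_f5cee0_ag.H4.Param

/-!
Construction of the normalisation data for a singularity in good coordinates.
-/

namespace Pool.Agent.MP_f5cee0_ag.H4

open PowerSeries
open scoped nonZeroDivisors

universe u

attribute [local instance] algD towerD normal_ps

variable {K : Type u} [Field K]

lemma nu_eq_of_algHom {r : ℕ} (ν : P2 K →ₐ[K] (Fin r → K⟦X⟧)) :
    (∀ j i, constantCoeff (ν (MvPowerSeries.X j) i) = 0) ∧
      nu K (ν (MvPowerSeries.X 0)) (ν (MvPowerSeries.X 1)) = ν := by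
  have h : ∀ j i, constantCoeff (ν (MvPowerSeries.X j) i) = 0 := fun j i =>
    algHom_mem_mx ((Pi.evalAlgHom K _ i).comp ν) (X_mem_mx j)
  refine ⟨h, AlgHom.ext fun a => funext fun i => ?_⟩
  have hv := vec_mem (I := JJ (mx K K)) (a := ν (MvPowerSeries.X 0) i)
    (b := ν (MvPowerSeries.X 1) i) (h 0 i) (h 1 i)
  have := algHom_ext (JJ (mx K K)) (evJ K ![ν (MvPowerSeries.X 0) i, ν (MvPowerSeries.X 1) i])
    ((Pi.evalAlgHom K _ i).comp ν) (fun j => by
      rw [evJ_X hv]; fin_cases j <;> rfl) (fun j => by rw [evJ_X hv]; exact hv j)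
  rw [nu_apply, this]
  rfl

lemma exists_compl {r : ℕ} (W : Submodule K (Fin r → K⟦X⟧)) {b : ℕ}
    (hb : ∀ v : Fin r → K⟦X⟧, (fun _ => X : Fin r → K⟦X⟧) ^ b * v ∈ W) : ∃ (δ : ℕ) (e : Fin δ → Fin r → K⟦X⟧),
      (∀ w ∈ W, ∀ c : Fin δ → K, w + ∑ j, c j • e j = 0 → c = 0) ∧
      ∀ v, ∃ w ∈ W, ∃ c : Fin δ → K, v = w + ∑ j, c j • e j := by
  have : Module.Finite K ((Fin r → K⟦X⟧) ⧸ W) := by
    refine Module.Finite.of_surjective
      (W.mkQ.comp (LinearMap.piMap fun _ : Fin r => pol K b)) fun q => ?_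
    obtain ⟨v, rfl⟩ := W.mkQ_surjective q
    choose a s h using fun i => div_surj b (v := (1 : K⟦X⟧)) (by simp) (v i)
    refine ⟨s, ((Submodule.Quotient.eq W).mpr ?_).symm⟩
    convert hb a using 1
    funext i
    simp only [Pi.sub_apply, Pi.mul_apply, Pi.pow_apply, ← h i, mul_one]
    exact add_sub_cancel_right _ _
  let b := Module.finBasis K ((Fin r → K⟦X⟧) ⧸ W)
  choose e he using fun j => W.mkQ_surjective (b j)
  have h1 : ∀ c : _ → K, W.mkQ (∑ j, c j • e j) = ∑ j, c j • b j := fun c => by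
    simp only [map_sum, map_smul, he]
  refine ⟨_, e, fun w hw c h => ?_, fun v => ⟨v - ∑ j, b.repr (W.mkQ v) j • e j, ?_, _,
    (sub_add_cancel _ _).symm⟩⟩
  · have h2 := congrArg W.mkQ h
    rw [map_add, h1, map_zero, Submodule.mkQ_apply, (Submodule.Quotient.mk_eq_zero W).mpr hw,
      zero_add] at h2
    exact funext (Fintype.linearIndependent_iff.mp b.linearIndependent c h2)
  · rw [← Submodule.Quotient.mk_eq_zero, ← Submodule.mkQ_apply, map_sub, h1, b.sum_repr, sub_self]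

theorem exists_data [IsAlgClosed K] {f : P2 K} (hred : IsReduced (QR f))
    (h0 : lineHom ![0, 1] f ≠ 0)
    (hy : Ideal.Quotient.mk (Ideal.span {f}) (MvPowerSeries.pderiv K 1 f) ∈ (QR f)⁰) :
    Nonempty (Data f) := by
  classical
  obtain ⟨m, v, hf, hv⟩ := exists_X_pow_mul h0
  have hW := weier_bij hv hf
  have hbij := eq0_bij hW
  obtain ⟨P, p, q, hP, hs, hk, hq, hc⟩ := exists_monogenic hW
  have hc0 : Polynomial.aeval (yq f) P.derivative ∈ (QR f)⁰ := by
    rw [hc, map_mul]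
    exact mul_mem ((isUnit_of_mul_eq hf hq).map _).mem_nonZeroDivisors hy
  have hcond := conductor_deriv (yq f) P hP hs hk hc0
  generalize Polynomial.aeval (yq f) P.derivative = c at hc0 hcond
  have htf : ∀ d : K⟦X⟧, d ≠ 0 → algebraMap K⟦X⟧ (QR f) d ∈ (QR f)⁰ := fun d hd =>
    algebraMap_mem_nonZeroDivisors (yq f) P hP hs hk hd
  have hfinX : Module.Finite K⟦X⟧ (QR f) := Module.Finite.of_surjective _ hbij.2
  let S := integralClosure (QR f) (FractionRing (QR f))
  have hinj : Function.Injective (algebraMap (QR f) S) :=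
    fun a b h => IsFractionRing.injective (QR f) (FractionRing (QR f)) (congrArg Subtype.val h)
  have hreg : ∀ a ∈ (QR f)⁰, ∀ ξ : S, algebraMap (QR f) S a * ξ = 0 → ξ = 0 :=
    fun a ha ξ h => Subtype.ext ((IsLocalization.map_units (FractionRing (QR f))
      (⟨a, ha⟩ : (QR f)⁰)).mul_right_eq_zero.mp (congrArg Subtype.val h))
  have hT' : ∀ ξ : S, ∃ a, algebraMap (QR f) S a = algebraMap (QR f) S c * ξ := fun ξ =>
    (hcond ξ (isIntegral_trans _ ξ.2)).imp fun a ha => Subtype.ext ha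
  choose T hT using hT'
  let T' : S →ₗ[QR f] QR f :=
    { toFun := T
      map_add' := fun a b => hinj (by rw [map_add, hT, hT, hT, mul_add])
      map_smul' := fun c a => hinj (by
        rw [hT, RingHom.id_apply, smul_eq_mul, map_mul, hT, Algebra.smul_def c a]; ring) }
  have hTi : Function.Injective (T'.restrictScalars K⟦X⟧) := by
    rw [injective_iff_map_eq_zero]
    intro ξ hξ
    refine hreg _ hc0 ξ ?_
    rw [← hT]
    exact (congrArg (algebraMap (QR f) S) hξ).trans (map_zero _)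
  have hfinS : Module.Finite K⟦X⟧ S := Module.Finite.of_injective _ hTi
  obtain ⟨r, ⟨Θ⟩⟩ := exists_pi_equiv htf hfinS
  let ν : P2 K →ₐ[K] (Fin r → K⟦X⟧) := (Θ.toAlgHom.comp (IsScalarTower.toAlgHom K (QR f) S)).comp
    (Ideal.Quotient.mkₐ K _)
  have hν : ∀ h, ν h = Θ (algebraMap (QR f) S (Ideal.Quotient.mk _ h)) := fun h => rfl
  obtain ⟨hxy, hnu⟩ := nu_eq_of_algHom ν
  have hker : ∀ h, ν h = 0 ↔ f ∣ h := fun h => by
    rw [hν, map_eq_zero_iff _ Θ.injective, map_eq_zero_iff _ hinj, Ideal.Quotient.eq_zero_iff_mem,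
      Ideal.mem_span_singleton]
  have hne : ∀ a ∈ (QR f)⁰, ∀ i, Θ (algebraMap (QR f) S a) i ≠ 0 := by
    intro a ha i hi
    have h1 := hreg a ha (Θ.symm (Pi.single i 1)) (Θ.injective (by
      rw [map_mul, Θ.apply_symm_apply, map_zero]
      funext j
      by_cases hj : j = i
      · subst hj; simp [hi]
      · simp [hj]))
    have h2 := congrFun ((Θ.apply_symm_apply _).symm.trans ((congrArg Θ h1).trans (map_zero Θ))) i
    simp at h2
  have hcN : ∀ w, ∃ h, ν h = Θ (algebraMap (QR f) S c) * w := fun w => by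
    obtain ⟨h, hh⟩ := Ideal.Quotient.mk_surjective (T (Θ.symm w))
    exact ⟨h, by rw [hν, hh, hT, map_mul, Θ.apply_symm_apply]⟩
  obtain ⟨a, w, haw⟩ := exists_pow_eq_mul (hxy 0) (hne c hc0)
  have hca : ∀ v, ∃ h, ν h = ν (MvPowerSeries.X 0) ^ a * v := fun v => by
    rw [haw, mul_assoc]; exact hcN _
  have hfy : ∀ i, ν (MvPowerSeries.pderiv K 1 f) i ≠ 0 := hne _ hy
  have hchain : ∀ h i, d⁄dX K (ν h i) =
      ν (MvPowerSeries.pderiv K 0 h) i * d⁄dX K (ν (MvPowerSeries.X 0) i) +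
        ν (MvPowerSeries.pderiv K 1 h) i * d⁄dX K (ν (MvPowerSeries.X 1) i) := fun h i => by
    have := derivative_evJ (K := K) (vec_mem (I := JJ (mx K K)) (a := ν (MvPowerSeries.X 0) i)
      (b := ν (MvPowerSeries.X 1) i) (hxy 0 i) (hxy 1 i)) h
    simp only [← nu_apply, hnu, Fin.sum_univ_two] at this
    exact this
  have hx' : ∀ i, d⁄dX K (ν (MvPowerSeries.X 0) i) ≠ 0 := by
    intro i hi
    have h1 := hchain f i
    rw [(hker f).mpr dvd_rfl, hi, Pi.zero_apply, map_zero, mul_zero, zero_add] at h1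
    have h2 := (mul_eq_zero.mp h1.symm).resolve_left (hfy i)
    have h3 : ∀ w, d⁄dX K ((Θ (algebraMap (QR f) S c) * w) i) = 0 := fun w => by
      obtain ⟨h, hh⟩ := hcN w
      rw [← hh, hchain, hi, h2, mul_zero, mul_zero, add_zero]
    have h4 := h3 1
    have h5 := h3 fun _ => X
    rw [mul_one] at h4
    rw [Pi.mul_apply, Derivation.leibniz, h4] at h5
    exact hne c hc0 i (by simpa using h5)
  have : Module.IsTorsionFree K⟦X⟧ S := Module.IsTorsionFree.of_smul_eq_zero fun d ξ h => by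
    by_cases hd : d = 0
    · exact Or.inl hd
    · exact Or.inr (hreg _ (htf d hd) ξ ((Algebra.smul_def d ξ).symm.trans h))
  have hrk : Module.finrank K⟦X⟧ S = m := by
    have e : Module.finrank K⟦X⟧ (QR f) = m := by
      rw [← (LinearEquiv.ofBijective _ hbij).finrank_eq]; simp
    rw [← e]
    exact le_antisymm (LinearMap.finrank_le_finrank_of_injective hTi)
      (LinearMap.finrank_le_finrank_of_injective
        (f := (IsScalarTower.toAlgHom K⟦X⟧ (QR f) S).toLinearMap) hinj)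
  let bs := Module.finBasisOfFinrankEq K⟦X⟧ S hrk
  have hbs : ∀ h : Fin m → K⟦X⟧, ∑ j, ν (iota K (h j)) * Θ (bs j) = Θ (∑ j, h j • bs j) := by
    intro h
    rw [map_sum]
    refine Finset.sum_congr rfl fun j _ => ?_
    rw [Algebra.smul_def, map_mul]
    rfl
  obtain ⟨b, w', hbw⟩ := exists_pow_eq_mul (x := fun _ => (X : K⟦X⟧)) (fun _ => by simp)
    (c := ν (MvPowerSeries.X 0) ^ a) (fun i => pow_ne_zero a fun h => hx' i (by rw [h, map_zero]))
  have hwr : ∀ h, ∃ s, ν (wr K m s) = ν h := fun h => by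
    obtain ⟨⟨q, s⟩, rfl⟩ := hW.2 h
    exact ⟨s, by rw [Wm_apply, map_add, map_mul, (hker f).mpr dvd_rfl, mul_zero, zero_add]⟩
  obtain ⟨δ, e, he1, he2⟩ := exists_compl (LinearMap.range (ν.toLinearMap.comp (wr K m))) (b := b)
    (fun v => by
      obtain ⟨h, hh⟩ := hca (w' * v)
      obtain ⟨s, hs⟩ := hwr h
      exact ⟨s, by rw [hbw, mul_assoc, ← hh, ← hs]; rfl⟩)
  exact ⟨{
    r := r
    x := ν (MvPowerSeries.X 0)
    y := ν (MvPowerSeries.X 1)
    hx := hxy 0
    hy := hxy 1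
    ker := by rw [hnu]; exact hker
    m := m
    hord := ⟨v, isUnit_iff_constantCoeff.mpr (IsUnit.mk0 _ hv), hf⟩
    weier_inj := fun q s h => Prod.ext_iff.mp (hW.1 (h.trans (map_zero (Wm m f)).symm) :
      (q, s) = 0)
    weier_surj := fun h => by
      obtain ⟨⟨q, s⟩, rfl⟩ := hW.2 h
      exact ⟨q, s, rfl⟩
    n := fun j => Θ (bs j)
    hn_inj := fun h hh => by
      rw [hnu, hbs, map_eq_zero_iff _ Θ.injective] at hh
      exact funext (Fintype.linearIndependent_iff.mp bs.linearIndependent h hh)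
    hn_surj := fun v => ⟨bs.repr (Θ.symm v), by rw [hnu, hbs, bs.sum_repr, Θ.apply_symm_apply]⟩
    δ := δ
    e := e
    he_inj := fun s c h => by
      rw [hnu] at h
      have h1 := he1 _ ⟨s, rfl⟩ c h
      refine ⟨?_, h1⟩
      simp only [h1, Pi.zero_apply, zero_smul, Finset.sum_const_zero, add_zero, hker] at h
      apply hbij.1
      rw [map_zero, eq0_apply, Ideal.Quotient.eq_zero_iff_mem, Ideal.mem_span_singleton]
      exact h
    he_surj := fun v => by
      obtain ⟨_, ⟨s, rfl⟩, c, h⟩ := he2 v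
      exact ⟨s, c, by rw [hnu]; exact h⟩
    hfy := by rw [hnu]; exact hfy
    hx' := hx'
    cond := ⟨a, by rw [hnu]; exact hca⟩ }⟩

end Pool.Agent.MP_f5cee0_ag.H4
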