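import Pool.Agent.MP_f5cee0_ag.H4.Delta

/-!
The derivative of the defining polynomial lies in the conductor; a depth-two property of
integral elements.
-/

namespace Pool.Agent.MP_f5cee0_ag.H4

open Polynomial
open scoped nonZeroDivisors

section T

variable {D X : Type*} [CommRing D] [IsDomain D] [CommRing X] [Algebra D X]

lemma exists_mul_eq_algebraMap {b : X} (hb : b ∈ X⁰) (hi : IsIntegral D b) :
    ∃ (d : D) (b' : X), d ≠ 0 ∧ b * b' = algebraMap D X d := by
  obtain ⟨q, hq, hqb⟩ := hi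
  obtain ⟨q', h1, h2⟩ := exists_eq_pow_rootMultiplicity_mul_and_not_dvd q hq.ne_zero 0
  simp only [map_zero, sub_zero] at h1 h2
  have h3 : aeval b q' = 0 := by
    have : aeval b q = 0 := hqb
    rw [h1, map_mul, map_pow, aeval_X] at this
    exact (mem_nonZeroDivisors_iff_left.mp (pow_mem hb _)) _ this
  refine ⟨q'.coeff 0, -aeval b q'.divX, fun h => h2 (X_dvd_iff.mpr h), ?_⟩
  have := congrArg (aeval b) (X_mul_divX_add q')
  rw [map_add, map_mul, aeval_X, aeval_C, h3] at this
  linear_combination -this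

lemma algebraMap_mem_nonZeroDivisors (y : X) (P : D[X]) (hP : P.Monic)
    (hsurj : Function.Surjective (aeval y : D[X] → X))
    (hker : ∀ h : D[X], aeval y h = 0 ↔ P ∣ h) {d : D} (hd : d ≠ 0) :
    algebraMap D X d ∈ X⁰ := by
  rw [mem_nonZeroDivisors_iff_left]
  intro a ha
  obtain ⟨h, rfl⟩ := hsurj a
  have hP0 : aeval y P = 0 := (hker P).mpr dvd_rfl
  have h1 : aeval y (h %ₘ P) = aeval y h := aeval_modByMonic_eq_self_of_root hP0
  rw [← h1] at ha ⊢
  have h2 : P ∣ C d * (h %ₘ P) := by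
    rw [← hker, map_mul, aeval_C, ha]
  have h3 : C d * (h %ₘ P) = 0 := by
    apply eq_zero_of_dvd_of_degree_lt h2
    refine lt_of_le_of_lt ?_ (degree_modByMonic_lt h hP)
    rw [← smul_eq_C_mul]; exact degree_smul_le _ _
  rw [mul_eq_zero] at h3
  rcases h3 with h3 | h3
  · exact absurd (C_eq_zero.mp h3) hd
  · rw [h3, map_zero]

theorem conductor_deriv [IsIntegrallyClosed D] (y : X) (P : D[X]) (hP : P.Monic)
    (hsurj : Function.Surjective (aeval y : D[X] → X))
    (hker : ∀ h : D[X], aeval y h = 0 ↔ P ∣ h) (hc : aeval y (derivative P) ∈ X⁰)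
    (ξ : FractionRing X) (hξ : IsIntegral D ξ) :
    ∃ a : X, algebraMap X _ a = algebraMap X _ (aeval y (derivative P)) * ξ := by
  classical
  let E := FractionRing D
  let Ω := AlgebraicClosure E
  have hinjΩ : Function.Injective (algebraMap D Ω) := by
    rw [IsScalarTower.algebraMap_eq D E Ω]
    exact (algebraMap E Ω).injective.comp (IsFractionRing.injective D E)
  have hP0 : aeval y P = 0 := (hker P).mpr dvd_rfl
  have hint : ∀ b : X, IsIntegral D b := by
    intro b
    obtain ⟨h, rfl⟩ := hsurj b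
    exact adjoin_le_integralClosure (⟨P, hP, hP0⟩ : IsIntegral D y)
      (aeval_mem_adjoin_singleton D y)
  -- homomorphisms attached to the roots
  have hev : ∀ θ : Ω, aeval θ P = 0 → ∃ φ : FractionRing X →ₐ[D] Ω,
      ∀ h : D[X], φ (algebraMap X _ (aeval y h)) = aeval θ h := by
    intro θ hθ
    let e := Ideal.quotientKerAlgEquivOfSurjective (f := (aeval y : D[X] →ₐ[D] X)) hsurj
    let ψ0 : (D[X] ⧸ RingHom.ker (aeval y : D[X] →ₐ[D] X)) →ₐ[D] Ω :=
      Ideal.Quotient.liftₐ _ (aeval θ) (fun a ha => by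
        obtain ⟨c, rfl⟩ := (hker a).mp ha
        rw [map_mul, hθ, zero_mul])
    let ψ : X →ₐ[D] Ω := ψ0.comp e.symm.toAlgHom
    have hψ : ∀ h : D[X], ψ (aeval y h) = aeval θ h := by
      intro h
      have : e.symm (aeval y h) = Ideal.Quotient.mk _ h := by
        rw [AlgEquiv.symm_apply_eq]; rfl
      change ψ0 (e.symm (aeval y h)) = _
      rw [this]; rfl
    have hu : ∀ b : X⁰, IsUnit (ψ b) := by
      intro b
      obtain ⟨d, b', hd, hb'⟩ := exists_mul_eq_algebraMap b.2 (hint b)
      apply IsUnit.mk0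
      intro h0
      have := congrArg ψ hb'
      rw [map_mul, h0, zero_mul, AlgHom.commutes] at this
      exact hd (hinjΩ (by rw [← this, map_zero]))
    refine ⟨IsLocalization.liftAlgHom (S := FractionRing X) hu, fun h => ?_⟩
    rw [IsLocalization.coe_liftAlgHom, IsLocalization.lift_eq]
    exact hψ h
  -- write `ξ = h(y) / d`
  obtain ⟨d, h, hd, hdh⟩ : ∃ (d : D) (h : D[X]), d ≠ 0 ∧
      algebraMap D _ d * ξ = algebraMap X _ (aeval y h) := by
    obtain ⟨⟨a, b⟩, rfl⟩ := IsLocalization.mk'_surjective X⁰ ξ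
    obtain ⟨d, b', hd, hb'⟩ := exists_mul_eq_algebraMap b.2 (hint b)
    obtain ⟨h, hh⟩ := hsurj (a * b')
    refine ⟨d, h, hd, ?_⟩
    rw [hh, IsScalarTower.algebraMap_apply D X, ← hb', map_mul, map_mul,
      ← IsLocalization.mk'_spec (FractionRing X) a b]
    ring
  have hev' : ∀ θ : Ω, aeval θ P = 0 → ∃ v : Ω, IsIntegral D v ∧ aeval θ (derivative P) ≠ 0 ∧
      algebraMap D Ω d * v = aeval θ h := by
    intro θ hθ
    obtain ⟨φ, hφ⟩ := hev θ hθ
    refine ⟨φ ξ, hξ.map φ, ?_, ?_⟩
    · rw [← hφ]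
      exact ((IsLocalization.map_units (FractionRing X) (⟨_, hc⟩ : X⁰)).map φ).ne_zero
    · rw [← hφ h, ← hdh, map_mul, AlgHom.commutes]
  choose! v hv1 hv2 hv3 using hev'
  -- the roots are simple
  set PΩ := P.map (algebraMap D Ω) with hPΩ
  have hPΩm : PΩ.Monic := hP.map _
  have hroot : ∀ θ ∈ PΩ.roots, aeval θ P = 0 := by
    intro θ hθ
    have := (mem_roots hPΩm.ne_zero).mp hθ
    rwa [IsRoot, hPΩ, eval_map_algebraMap] at this
  have hder : ∀ θ ∈ PΩ.roots, aeval θ (derivative P) ≠ 0 := fun θ hθ => hv2 θ (hroot θ hθ)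
  have hnodup : PΩ.roots.Nodup := by
    rw [Multiset.nodup_iff_count_le_one]
    intro θ
    rw [count_roots]
    by_contra hlt
    obtain ⟨h1, h2⟩ := (one_lt_rootMultiplicity_iff_isRoot hPΩm.ne_zero).mp (not_le.mp hlt)
    apply hder θ ((mem_roots hPΩm.ne_zero).mpr h1)
    rwa [IsRoot, hPΩ, derivative_map, eval_map_algebraMap] at h2
  set s := PΩ.roots.toFinset with hs
  have hnodal : PΩ = Lagrange.nodal s id := by
    rw [Lagrange.nodal_eq, Finset.prod_eq_multiset_prod, hs, Multiset.toFinset_val,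
      hnodup.dedup]
    exact (IsAlgClosed.splits PΩ).eq_prod_roots_of_monic hPΩm
  have hdeg : P.degree = s.card := by
    rw [← hP.degree_map (algebraMap D Ω), ← hPΩ, hnodal, Lagrange.degree_nodal]
  let G : Polynomial Ω := ∑ θ ∈ s, C (v θ) * Lagrange.nodal (s.erase θ) id
  have hGint : ∀ k, IsIntegral D (G.coeff k) := by
    have : G ∈ liftsRing (algebraMap (integralClosure D Ω) Ω) := by
      refine Subring.sum_mem _ fun θ hθ => Subring.mul_mem _ ?_ ?_
      · exact C'_mem_lifts ⟨⟨_, hv1 θ (hroot θ (Multiset.mem_toFinset.mp hθ))⟩, rfl⟩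
      · rw [Lagrange.nodal_eq]
        refine Subring.prod_mem _ fun θ' hθ' => Subring.sub_mem _ (X_mem_lifts _) ?_
        have h1 : θ' ∈ PΩ.roots := Multiset.mem_toFinset.mp (Finset.mem_of_mem_erase hθ')
        exact C'_mem_lifts ⟨⟨θ', P, hP, hroot θ' h1⟩, rfl⟩
    intro k
    obtain ⟨z, hz⟩ := (lifts_iff_coeff_lifts G).mp this k
    rw [← hz]; exact z.2
  set r := (derivative P * h) %ₘ P with hr
  have hrG : r.map (algebraMap D Ω) = C (algebraMap D Ω d) * G := by
    apply eq_of_degrees_lt_of_eval_finset_eq s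
    · refine lt_of_le_of_lt degree_map_le ?_
      rw [← hdeg]; exact degree_modByMonic_lt _ hP
    · rw [← smul_eq_C_mul]
      refine lt_of_le_of_lt (degree_smul_le _ _) ?_
      refine lt_of_le_of_lt (degree_sum_le _ _) ?_
      rw [Finset.sup_lt_iff (WithBot.bot_lt_coe _)]
      intro θ hθ
      rw [← smul_eq_C_mul]
      refine lt_of_le_of_lt (degree_smul_le _ _) ?_
      rw [Lagrange.degree_nodal]
      exact_mod_cast Finset.card_erase_lt_of_mem hθ
    · intro θ hθ
      have hθ' := hroot θ (Multiset.mem_toFinset.mp hθ)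
      rw [eval_map_algebraMap, hr, aeval_modByMonic_eq_self_of_root hθ', map_mul, eval_mul, eval_C]
      have h1 : G.eval θ = v θ * aeval θ (derivative P) := by
        rw [eval_finsetSum, Finset.sum_eq_single θ]
        · rw [eval_mul, eval_C]
          congr 1
          have := Lagrange.eval_nodal_derivative_eval_node_eq (v := id) hθ
          rw [← hnodal, hPΩ, derivative_map, eval_map_algebraMap] at this
          exact this.symm
        · intro θ' hθ' hne
          rw [eval_mul]
          have := Lagrange.eval_nodal_at_node (s := s.erase θ') (v := id) (i := θ)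
            (Finset.mem_erase.mpr ⟨hne.symm, hθ⟩)
          rw [id] at this
          rw [this, mul_zero]
        · intro h; exact absurd hθ h
      rw [h1, ← hv3 θ hθ']
      ring
  have hdvd : ∀ k, d ∣ r.coeff k := by
    intro k
    have h1 := congrArg (fun p => coeff p k) hrG
    simp only [coeff_map, coeff_C_mul] at h1
    have hdE : algebraMap D E d ≠ 0 := by simpa using hd
    have h2 : G.coeff k = algebraMap E Ω (algebraMap D E (r.coeff k) / algebraMap D E d) := by
      rw [map_div₀, ← IsScalarTower.algebraMap_apply, ← IsScalarTower.algebraMap_apply, h1]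
      have : algebraMap D Ω d ≠ 0 := fun h0 => hd (hinjΩ (by rw [h0, map_zero]))
      rw [mul_div_cancel_left₀ _ this]
    have h3 := hGint k
    rw [h2, isIntegral_algebraMap_iff (algebraMap E Ω).injective] at h3
    obtain ⟨c, hc'⟩ := IsIntegrallyClosed.algebraMap_eq_of_integral h3
    refine ⟨c, IsFractionRing.injective D E ?_⟩
    rw [map_mul, hc', mul_div_cancel₀ _ hdE]
  obtain ⟨r', hr'⟩ := (C_dvd_iff_dvd_coeff d r).mpr hdvd
  refine ⟨aeval y r', ?_⟩
  have hdu : IsUnit (algebraMap D (FractionRing X) d) := by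
    rw [IsScalarTower.algebraMap_apply D X]
    exact IsLocalization.map_units (FractionRing X)
      (⟨_, algebraMap_mem_nonZeroDivisors y P hP hsurj hker hd⟩ : X⁰)
  apply hdu.mul_left_cancel
  have h1 : aeval y r = aeval y (derivative P) * aeval y h := by
    rw [hr, aeval_modByMonic_eq_self_of_root hP0, map_mul]
  rw [mul_left_comm, hdh, ← map_mul, ← h1, hr', map_mul, aeval_C, map_mul,
    ← IsScalarTower.algebraMap_apply]

end T

section S2

variable {D Q : Type*} [CommRing D] [IsDomain D] [IsIntegrallyClosed D] [CommRing Q] [Algebra D Q]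

theorem isIntegral_of_two (hu : ∀ e : D, e ≠ 0 → IsUnit (algebraMap D Q e)) {w d : D}
    (hw : Prime w) (hwd : ¬ w ∣ d) {ζ : Q} (h1 : IsIntegral D (algebraMap D Q w * ζ))
    (h2 : IsIntegral D (algebraMap D Q d * ζ)) : IsIntegral D ζ := by
  let E := FractionRing D
  have hu' : ∀ y : D⁰, IsUnit (algebraMap D Q y) := fun y => hu y (nonZeroDivisors.ne_zero y.2)
  let : Algebra E Q := (IsLocalization.lift (S := E) hu').toAlgebra
  have : IsScalarTower D E Q := IsScalarTower.of_algebraMap_eq fun x =>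
    (IsLocalization.lift_eq (S := E) hu' x).symm
  have hd0 : d ≠ 0 := fun h => hwd (h ▸ dvd_zero w)
  have hscale : ∀ e : D, e ≠ 0 → ζ = algebraMap E Q (algebraMap D E e)⁻¹ * (algebraMap D Q e * ζ) := by
    intro e he
    have : algebraMap D E e ≠ 0 := by simpa using he
    rw [IsScalarTower.algebraMap_apply D E Q, ← mul_assoc, ← map_mul, inv_mul_cancel₀ this,
      map_one, one_mul]
  have hζE : IsIntegral E ζ := by
    rw [hscale w hw.ne_zero]
    exact isIntegral_algebraMap.mul h1.tower_top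
  set p := minpoly E ζ
  have hp : p.Monic := minpoly.monic hζE
  have key : ∀ e : D, e ≠ 0 → IsIntegral D (algebraMap D Q e * ζ) → ∀ k, ∃ α : D,
      algebraMap D E α = p.coeff k * algebraMap D E e ^ (p.natDegree - k) := by
    rintro e he ⟨q, hq, hqe⟩ k
    have he' : algebraMap D E e ≠ 0 := by simpa using he
    have h3 : aeval (algebraMap D Q e * ζ) (q.map (algebraMap D E)) = 0 := by
      rw [aeval_map_algebraMap]; exact hqe
    have h4 := scaleRoots_aeval_eq_zero (r := (algebraMap D E e)⁻¹) h3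
    rw [← hscale e he] at h4
    have h5 := scaleRoots_dvd _ _ (r := algebraMap D E e) (minpoly.dvd E ζ h4)
    rw [← scaleRoots_mul, inv_mul_cancel₀ he', scaleRoots_one] at h5
    obtain ⟨g, hg⟩ := IsIntegrallyClosed.eq_map_mul_C_of_dvd E hq h5
    rw [((monic_scaleRoots_iff _).mpr hp).leadingCoeff, C_1, mul_one] at hg
    exact ⟨g.coeff k, by rw [← coeff_map, hg, coeff_scaleRoots]⟩
  have hl : p ∈ lifts (algebraMap D E) := by
    rw [lifts_iff_coeff_lifts]
    intro k
    obtain ⟨α, hα⟩ := key w hw.ne_zero h1 k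
    obtain ⟨β, hβ⟩ := key d hd0 h2 k
    set j := p.natDegree - k
    have h3 : d ^ j * α = w ^ j * β := IsFractionRing.injective D E (by
      rw [map_mul, map_mul, hα, hβ, map_pow, map_pow]; ring)
    obtain ⟨α', rfl⟩ := hw.pow_dvd_of_dvd_mul_left j (fun h => hwd (hw.dvd_of_dvd_pow h))
      (⟨β, h3⟩ : w ^ j ∣ d ^ j * α)
    refine ⟨α', ?_⟩
    have hw' : algebraMap D E w ^ j ≠ 0 := pow_ne_zero _ (by simpa using hw.ne_zero)
    apply mul_left_cancel₀ hw'
    rw [← map_pow, ← map_mul, hα, map_pow]; ring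
  obtain ⟨p', hp1, -, hp2⟩ := lifts_and_natDegree_eq_and_monic hl hp
  refine ⟨p', hp2, ?_⟩
  rw [← aeval_def, ← aeval_map_algebraMap E, hp1]
  exact minpoly.aeval E ζ

end S2

end Pool.Agent.MP_f5cee0_ag.H4
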