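import Pool.Agent.MP_f5cee0_ag.H4.Geo

/-!
The main theorem for a singularity in good coordinates.
-/

namespace Pool.Agent.MP_f5cee0_ag.H4

open PowerSeries
open scoped nonZeroDivisors TensorProduct

universe u

attribute [local instance] algD towerD

variable {K : Type u} [Field K] {f : P2 K} {τ : ℕ} {g : Fin τ → P2 K}

lemma family_eq (f : P2 K) (g : Fin τ → P2 K) :
    family f g = Fam f g (fun k => (MvPowerSeries.X k : MvPowerSeries (Fin τ) K)) := rfl

lemma map_family (γ : MvPowerSeries (Fin τ) K →ₐ[K] K⟦X⟧) :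
    MvPowerSeries.map γ.toRingHom (family f g) = Fam f g (fun k => γ (MvPowerSeries.X k)) := by
  rw [family_eq, map_Fam]

lemma normal_ps : IsIntegrallyClosed K⟦X⟧ := (cn_ps (cn_field K)).isIntegrallyClosed

lemma normal_ps2 : IsIntegrallyClosed K⟦X⟧⟦X⟧ := (cn_ps (cn_ps (cn_field K))).isIntegrallyClosed

attribute [local instance] normal_ps normal_ps2

lemma Data.delta_eq (D : Data f) : delta K (QR f) = D.δ :=
  (D.isLift_self.normalisation (by ext d; rfl) D.nu_f).2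

lemma Data.base_mem (D : Data f) {Λ : Type u} [CommRing Λ] [Algebra K Λ] [CBase K Λ]
    [IsDomain Λ] {F : P2 Λ} (hF : MvPowerSeries.map (rho K Λ) F = f) (r : Λ) (hr : r ∈ Λ⁰) :
    algebraMap Λ (QR F) r ∈ (QR F)⁰ := by
  rw [IsScalarTower.algebraMap_apply Λ Λ⟦X⟧ (QR F)]
  exact D.alg_mem_nonZeroDivisors hF fun h =>
    nonZeroDivisors.ne_zero hr (C_injective (h.trans (map_zero _).symm))

lemma Data.delta_generic (D : Data f) {Λ : Type u} [CommRing Λ] [Algebra K Λ] [CBase K Λ]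
    [IsDomain Λ] {F : P2 Λ} (hF : MvPowerSeries.map (rho K Λ) F = f) :
    delta (FractionRing Λ) (FractionRing Λ ⊗[Λ] QR F) =
      qrank Λ (QR F) (integralClosure (QR F) (FractionRing (QR F))) :=
  delta_tensor (D.base_mem hF)

/-- the arc `γ` is delta-constant -/
def DC (L : Type u) [Field L] [Algebra K⟦X⟧ L] (f : P2 K) (g : Fin τ → P2 K)
    (γ : MvPowerSeries (Fin τ) K →ₐ[K] K⟦X⟧) : Prop :=
  delta L (L ⊗[K⟦X⟧] QR (Fam f g fun k => γ (MvPowerSeries.X k))) = delta K (QR f)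

lemma mem_stratumIdeal (L : Type u) [Field L] [Algebra K⟦X⟧ L] (h : MvPowerSeries (Fin τ) K) :
    h ∈ stratumIdeal L f g ↔ ∀ γ, DC L f g γ → γ h = 0 := by
  simp only [stratumIdeal, Ideal.mem_iInf, RingHom.mem_ker, DC]
  refine forall_congr' fun γ => ?_
  rw [map_family, fibreDelta]

lemma X_mem_mx {σ : Type} [Finite σ] (k : σ) :
    (MvPowerSeries.X k : MvPowerSeries σ K) ∈ mx K (MvPowerSeries σ K) := by
  rw [mx_mv]; exact X_mem_XI k

lemma Data.DC_iff (D : Data f) (γ : MvPowerSeries (Fin τ) K →ₐ[K] K⟦X⟧) :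
    DC (FractionRing K⟦X⟧) f g γ ↔
      ∃ z : D.V τ K⟦X⟧, D.IsG g z ∧ D.Gt z = fun k => γ (MvPowerSeries.X k) := by
  have ht : ∀ k, γ (MvPowerSeries.X k) ∈ mx K K⟦X⟧ := fun k => algHom_mem_mx γ (X_mem_mx k)
  rw [DC, D.delta_generic (red_Fam f g ht), D.delta_eq]
  constructor
  · intro h
    obtain ⟨X', Y', hL, h0⟩ := (D.exists_lift_of_qrank (mx_ps K) X_ne_zero (red_Fam f g ht)).2 h
    obtain ⟨z, hz, hz', -⟩ := hL.exists_G ht h0
    exact ⟨z, hz, hz'⟩
  · rintro ⟨z, hz, hz'⟩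
    exact ((D.isLift_G hz.mem).1.normalisation (red_Fam f g ht) (hz' ▸ hz.eq)).2

section geometric

variable [IsAlgClosed K] (p : ℕ) [ExpChar K p] (L : Type u) [Field L] [Algebra K⟦X⟧ L]
  [FaithfulSMul K⟦X⟧ L] [Algebra.IsAlgebraic K⟦X⟧ L]
include p

lemma Data.descent (D : Data f) (γ : MvPowerSeries (Fin τ) K →ₐ[K] K⟦X⟧) {n : ℕ}
    (h : (n : Cardinal) ≤ delta L (L ⊗[K⟦X⟧] QR (Fam f g fun k => γ (MvPowerSeries.X k)))) :
    ∃ s : K⟦X⟧ →ₐ[K] K⟦X⟧, Function.Injective s ∧ n ≤ D.δ ∧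
      (n = D.δ → DC (FractionRing K⟦X⟧) f g (s.comp γ)) := by
  have ht : ∀ k, γ (MvPowerSeries.X k) ∈ mx K K⟦X⟧ := fun k => algHom_mem_mx γ (X_mem_mx k)
  have : Module.IsTorsionFree K⟦X⟧ (QR (Fam f g fun k => γ (MvPowerSeries.X k))) :=
    Module.IsTorsionFree.of_smul_eq_zero fun r a hra => by
      by_cases hr : r = 0
      · exact Or.inl hr
      · exact Or.inr (mem_nonZeroDivisors_iff_left.mp
          (D.base_mem (red_Fam f g ht) r (mem_nonZeroDivisors_of_ne_zero hr)) a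
          ((Algebra.smul_def r a).symm.trans hra))
  obtain ⟨s, hs, h1⟩ := exists_descent p L _ h
  rw [map_Fam] at h1
  have ht' : ∀ k, s (γ (MvPowerSeries.X k)) ∈ mx K K⟦X⟧ := fun k => algHom_mem_mx s (ht k)
  have h2 := (D.exists_lift_of_qrank (mx_ps K) X_ne_zero (red_Fam f g ht')).1
  rw [← D.delta_generic (red_Fam f g ht')] at h2
  refine ⟨s, hs, by exact_mod_cast h1.trans h2, fun hn => ?_⟩
  rw [DC, D.delta_eq]
  exact le_antisymm h2 (hn ▸ h1)

lemma Data.DC_up (D : Data f) {γ : MvPowerSeries (Fin τ) K →ₐ[K] K⟦X⟧}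
    (h : DC (FractionRing K⟦X⟧) f g γ) : DC L f g γ := by
  have ht : ∀ k, γ (MvPowerSeries.X k) ∈ mx K K⟦X⟧ := fun k => algHom_mem_mx γ (X_mem_mx k)
  rw [DC, D.delta_generic (red_Fam f g ht), D.delta_eq] at h
  rw [DC, D.delta_eq]
  refine le_antisymm ?_ (ind_iff.mpr ((ind_iff.mp h.ge).up L))
  by_contra hlt
  have h1 := Order.succ_le_of_lt (not_le.mp hlt)
  rw [Cardinal.succ_natCast, ← Nat.cast_add_one] at h1
  obtain ⟨-, -, h2, -⟩ := D.descent p L γ h1
  omega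

lemma Data.DC_down (D : Data f) {γ : MvPowerSeries (Fin τ) K →ₐ[K] K⟦X⟧} (h : DC L f g γ) :
    ∃ s : K⟦X⟧ →ₐ[K] K⟦X⟧, Function.Injective s ∧ DC (FractionRing K⟦X⟧) f g (s.comp γ) := by
  rw [DC, D.delta_eq] at h
  obtain ⟨s, hs, -, h2⟩ := D.descent p L γ h.ge
  exact ⟨s, hs, h2 rfl⟩

end geometric

lemma finite_of_unique [IsAlgClosed K] (p : ℕ) [ExpChar K p] {d : ℕ}
    (φ : MvPowerSeries (Fin τ) K →ₐ[K] MvPowerSeries (Fin d) K)
    (huniq : ∀ β1 β2 : MvPowerSeries (Fin d) K →ₐ[K] K⟦X⟧, β1.comp φ = β2.comp φ → β1 = β2) :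
    φ.toRingHom.Finite := by
  let := φ.toRingHom.toAlgebra
  have : IsScalarTower K (MvPowerSeries (Fin τ) K) (MvPowerSeries (Fin d) K) :=
    IsScalarTower.of_algebraMap_eq fun c => (φ.commutes c).symm
  let I := (mx K (MvPowerSeries (Fin τ) K)).map
    (algebraMap (MvPowerSeries (Fin τ) K) (MvPowerSeries (Fin d) K))
  have hI : I ≤ mx K (MvPowerSeries (Fin d) K) :=
    Ideal.map_le_iff_le_comap.mpr fun a ha => algHom_mem_mx φ ha
  have hrad : XI (Fin d) K ≤ I.radical := by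
    rw [Ideal.radical_eq_sInf, le_sInf_iff]
    rintro 𝔮 ⟨h1, h2⟩
    by_contra h3
    obtain ⟨β, hβ, j, hj⟩ := exists_arc p 𝔮 h3
    apply hj
    let β0 : MvPowerSeries (Fin d) K →ₐ[K] K⟦X⟧ := (Algebra.ofId K K⟦X⟧).comp (ccAlg K (Fin d))
    have hβ0 : ∀ h ∈ mx K (MvPowerSeries (Fin d) K), β0 h = 0 := fun h hh => by
      change algebraMap K K⟦X⟧ (rho K _ h) = 0
      rw [mem_mx.mp hh, map_zero]
    rw [huniq β β0 (algHom_ext (mx K K⟦X⟧) _ _ (fun k => by
      have hk : φ (MvPowerSeries.X k) ∈ I := Ideal.mem_map_of_mem _ (X_mem_mx k)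
      rw [AlgHom.comp_apply, AlgHom.comp_apply, hβ _ (h1 hk), hβ0 _ (hI hk)])
      (fun k => algHom_mem_mx _ (X_mem_mx k)))]
    exact hβ0 _ (X_mem_mx j)
  obtain ⟨N, hN⟩ := Ideal.exists_pow_le_of_le_radical_of_fg hrad
    (Submodule.fg_span (Set.finite_range _))
  have h1 : Module.Finite K (MvPowerSeries (Fin d) K ⧸ I) :=
    finite_of_nilpotent (σ := Fin d) (K := K) (T := MvPowerSeries (Fin d) K ⧸ I)
      (Ideal.Quotient.mkₐ K I) Ideal.Quotient.mk_surjective N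
      fun h hh => Ideal.Quotient.eq_zero_iff_mem.mpr (hN hh)
  have h2 : IsHausdorff (mx K (MvPowerSeries (Fin τ) K)) (MvPowerSeries (Fin d) K) :=
    ⟨fun x hx => haus_zero (mx K (MvPowerSeries (Fin d) K)) fun n => by
      have := SModEq.zero.mp (hx n)
      rw [Ideal.smul_top_eq_map, Submodule.restrictScalars_mem, Ideal.map_pow] at this
      exact self_mem_smul_top.mpr (Ideal.pow_right_mono hI n this)⟩
  exact finite_of_quot (K := K) (Λ := MvPowerSeries (Fin τ) K) _ h1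

theorem Data.main [IsAlgClosed K] (p : ℕ) [ExpChar K p] (L : Type u) [Field L] [Algebra K⟦X⟧ L]
    [FaithfulSMul K⟦X⟧ L] [Algebra.IsAlgebraic K⟦X⟧ L] (D : Data f) (hg : Spans f g) :
    HasSmoothNormalisation K (MvPowerSeries (Fin τ) K ⧸ stratumIdeal L f g) := by
  obtain ⟨d, M, zB, hzB, hM, hrep⟩ := D.exists_universal hg
  obtain ⟨φ, hφ⟩ := exists_ev (R := K) (mx K (MvPowerSeries (Fin d) K)) (D.Gt zB)
    (D.isLift_G hzB.mem).2
  have hGt : ∀ β : MvPowerSeries (Fin d) K →ₐ[K] K⟦X⟧,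
      D.Gt (D.mapV β.toRingHom zB) = fun k => β.comp φ (MvPowerSeries.X k) := fun β => by
    funext k; rw [AlgHom.comp_apply, hφ]; rfl
  have huniq : ∀ β1 β2 : MvPowerSeries (Fin d) K →ₐ[K] K⟦X⟧, β1.comp φ = β2.comp φ → β1 = β2 := by
    intro β1 β2 h
    have h1 := (hzB.map β1).unique (hzB.map β2) (by rw [hGt, hGt, h])
    refine algHom_ext (mx K K⟦X⟧) _ _ (fun j => ?_) (fun k => algHom_mem_mx _ (X_mem_mx k))
    rw [← hM]
    exact (D.prj_mapV β1.toRingHom β1.commutes M zB j).symm.trans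
      (h1 ▸ D.prj_mapV β2.toRingHom β2.commutes M zB j)
  have hI : stratumIdeal L f g = RingHom.ker φ := by
    ext h
    rw [mem_stratumIdeal, RingHom.mem_ker]
    constructor
    · intro H
      by_contra hne
      obtain ⟨β, hβ⟩ := exists_arc_ne_zero _ hne
      exact hβ (H (β.comp φ) (D.DC_up p L ((D.DC_iff _).mpr ⟨_, hzB.map β, hGt β⟩)))
    · intro H γ hγ
      obtain ⟨s, hs, hγ'⟩ := D.DC_down p L hγ
      obtain ⟨z, hz, hz'⟩ := (D.DC_iff _).mp hγ'
      obtain ⟨β, rfl⟩ := hrep z hz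
      have : s.comp γ = β.comp φ := algHom_ext (mx K K⟦X⟧) _ _
        (fun k => congrFun (hz'.symm.trans (hGt β)) k) (fun k => algHom_mem_mx _ (X_mem_mx k))
      apply hs
      rw [← AlgHom.comp_apply, this, AlgHom.comp_apply, H, map_zero, map_zero]
  have hfin := finite_of_unique p φ huniq
  obtain ⟨z, hz, himm⟩ := D.exists_imm (Λ := K⟦X⟧) hg (w := X) (by simp [mem_mx, rho_ps])
  obtain ⟨β, rfl⟩ := hrep z hz
  obtain ⟨a, ha, ha'⟩ : ∃ a, β (φ a) ≠ 0 ∧ ∀ b, ∃ a', φ a' = φ a * b := by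
    let := φ.toRingHom.toAlgebra
    have : IsScalarTower K (MvPowerSeries (Fin τ) K) (MvPowerSeries (Fin d) K) :=
      IsScalarTower.of_algebraMap_eq fun c => (φ.commutes c).symm
    have : Module.Finite (MvPowerSeries (Fin τ) K) (MvPowerSeries (Fin d) K) := hfin
    refine exists_conductor_of_arc (A := MvPowerSeries (Fin τ) K) p β
      (fun β1 β2 h => huniq β1 β2 (AlgHom.ext h)) fun δ hδ hδ0 => ?_
    have hK : ∀ c, δ (algebraMap K _ c) = 0 := fun c => by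
      rw [← φ.commutes]; exact hδ0 _
    have h1 := hzB.deriv_zero β δ hδ hK (prime_C (mx_ps K) X_ne_zero)
      (by simp [mem_mx, rho_ps]) himm (fun k => by rw [← hφ]; exact hδ0 _)
    ext1 h
    exact deriv_vanish (closed_bot (mx K K⟦X⟧)) β.toRingHom
      (fun k => algHom_mem_mx β (X_mem_mx k)) δ (fun a b => by rw [hδ]; simp) (fun c => hK c)
      (fun j => by
        rw [← hM, D.prj_apply, map_sum]
        simp only [hδ, h1, hK, mul_zero, add_zero, Finset.sum_const_zero, Ideal.zero_mem]) h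
  let ψ : (MvPowerSeries (Fin τ) K ⧸ stratumIdeal L f g) →ₐ[K] MvPowerSeries (Fin d) K :=
    Ideal.Quotient.liftₐ _ φ fun a ha => by rwa [hI] at ha
  let := ψ.toRingHom.toAlgebra
  have : IsScalarTower K (MvPowerSeries (Fin τ) K ⧸ stratumIdeal L f g) (MvPowerSeries (Fin d) K) :=
    IsScalarTower.of_algebraMap_eq fun c => (ψ.commutes c).symm
  have : IsIntegrallyClosed (MvPowerSeries (Fin d) K) := (cn_mv K d).isIntegrallyClosed
  have : Module.Finite (MvPowerSeries (Fin τ) K ⧸ stratumIdeal L f g) (MvPowerSeries (Fin d) K) :=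
    RingHom.Finite.of_comp_finite (f := Ideal.Quotient.mk _) (g := ψ.toRingHom) hfin
  obtain ⟨E⟩ := exists_equiv_integralClosure (X := MvPowerSeries (Fin τ) K ⧸ stratumIdeal L f g)
    (N := MvPowerSeries (Fin d) K) (by
      rw [injective_iff_map_eq_zero]
      intro b hb
      obtain ⟨b, rfl⟩ := Ideal.Quotient.mk_surjective b
      rw [Ideal.Quotient.eq_zero_iff_mem, hI]
      exact hb)
    (Ideal.Quotient.mk _ a)
    (mem_nonZeroDivisors_of_ne_zero fun h => ha (by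
      have : φ a = 0 := h
      rw [this, map_zero]))
    (fun b => by
      obtain ⟨a', h⟩ := ha' b
      exact ⟨Ideal.Quotient.mk _ a', h⟩)
  exact ⟨d, ⟨(E.restrictScalars K).symm⟩⟩

end Pool.Agent.MP_f5cee0_ag.H4
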