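import Pool.Agent.MP_f5cee0_ag.H4.Cond

/-!
Normal domains finite over `K[[z]]` are power series rings; existence of arcs.
-/

namespace Pool.Agent.MP_f5cee0_ag.H4

open PowerSeries
open scoped nonZeroDivisors

lemma exists_idempotent_lift {S : Type*} [CommRing S] (I : Ideal S) [IsAdicComplete I S] (e0 : S)
    (h : e0 * e0 - e0 ∈ I) : ∃ e : S, e * e = e ∧ e - e0 ∈ I := by
  have hm : (Polynomial.X ^ 2 - Polynomial.X : Polynomial S).Monic := by
    cases subsingleton_or_nontrivial S
    · exact Polynomial.monic_of_subsingleton _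
    · apply Polynomial.Monic.sub_of_left (Polynomial.monic_X_pow 2)
      rw [Polynomial.degree_X_pow, Polynomial.degree_X]; decide
  obtain ⟨a, ha, ha'⟩ := HenselianRing.is_henselian (I := I) _ hm e0 (by simpa [sq] using h) (by
    apply IsUnit.of_mul_eq_one (Ideal.Quotient.mk I (2 * e0 - 1))
    rw [← map_mul, ← map_one (Ideal.Quotient.mk I), Ideal.Quotient.eq]
    have := I.mul_mem_left 4 h
    convert this using 1
    simp; ring)
  refine ⟨a, ?_, ha'⟩
  have : a ^ 2 - a = 0 := by simpa using ha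
  linear_combination this

lemma isUnit_of_sub_one_mem {S : Type*} [CommRing S] (I : Ideal S) [IsAdicComplete I S] {a : S}
    (h : a - 1 ∈ I) : IsUnit a := by
  have h2 := Ideal.mem_jacobson_bot.mp (IsAdicComplete.le_jacobson_bot I h) 1
  rwa [mul_one, sub_add_cancel] at h2

section base

variable {K Λ : Type*} [Field K] [CommRing Λ] [Algebra K Λ] [CBase K Λ]

lemma sub_rho_mem (r : Λ) : r - algebraMap K Λ (rho K Λ r) ∈ mx K Λ := by simp [mem_mx]

lemma finite_quot (O : Type*) [CommRing O] [Algebra Λ O] [Algebra K O] [IsScalarTower K Λ O]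
    [Module.Finite Λ O] (I : Ideal O) (hI : (mx K Λ).map (algebraMap Λ O) ≤ I) :
    Module.Finite K (O ⧸ I) := by
  classical
  obtain ⟨n, s, hs⟩ := Module.Finite.exists_fin (R := Λ) (M := O)
  refine ⟨⟨Finset.univ.image (fun j => Ideal.Quotient.mk I (s j)), ?_⟩⟩
  rw [eq_top_iff]
  rintro a -
  obtain ⟨a, rfl⟩ := Ideal.Quotient.mk_surjective a
  have ha : a ∈ Submodule.span Λ (Set.range s) := hs ▸ Submodule.mem_top
  obtain ⟨c, rfl⟩ := (Submodule.mem_span_range_iff_exists_fun Λ).mp ha
  rw [map_sum]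
  refine Submodule.sum_mem _ fun j _ => ?_
  have : Ideal.Quotient.mk I (c j • s j) = rho K Λ (c j) • Ideal.Quotient.mk I (s j) := by
    rw [← Ideal.Quotient.mkₐ_eq_mk K, ← map_smul, Ideal.Quotient.mkₐ_eq_mk, Ideal.Quotient.eq,
      ← algebraMap_smul Λ (rho K Λ (c j)), ← sub_smul, Algebra.smul_def]
    exact I.mul_mem_right _ (hI (Ideal.mem_map_of_mem _ (sub_rho_mem _)))
  rw [this]
  exact Submodule.smul_mem _ _ (Submodule.subset_span (by simp))

lemma isAdicComplete_of_free (M : Type*) [AddCommGroup M] [Module Λ M] [Module.Free Λ M]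
    [Module.Finite Λ M] : IsAdicComplete (mx K Λ) M :=
  isAdicComplete_equiv _ (Module.Free.chooseBasis Λ M).equivFun.symm

end base

section dvr

variable (K : Type*) [Field K] (O : Type*) [CommRing O] [IsDomain O] [Algebra K⟦X⟧ O]
  [Module.Finite K⟦X⟧ O] [FaithfulSMul K⟦X⟧ O] [Algebra K O] [IsScalarTower K K⟦X⟧ O]

include K in
lemma complete_of_finite : IsAdicComplete ((mx K K⟦X⟧).map (algebraMap K⟦X⟧ O)) O := by
  rw [IsAdicComplete.map_algebraMap_iff]
  exact isAdicComplete_of_free O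

include K in
lemma isLocalRing_of_finite : IsLocalRing O := by
  have := complete_of_finite K O
  set I := (mx K K⟦X⟧).map (algebraMap K⟦X⟧ O)
  have := finite_quot (K := K) (Λ := K⟦X⟧) O I le_rfl
  have : IsArtinianRing (O ⧸ I) := IsArtinianRing.of_finite K _
  apply IsLocalRing.of_isUnit_or_isUnit_one_sub_self
  intro a
  obtain ⟨n, y, hy⟩ := IsArtinian.exists_pow_succ_smul_dvd (Ideal.Quotient.mk I a) (1 : O ⧸ I)
  obtain ⟨y, rfl⟩ := Ideal.Quotient.mk_surjective y
  simp only [smul_eq_mul, mul_one, Nat.succ_eq_add_one] at hy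
  set A := Ideal.Quotient.mk I a
  set Y := Ideal.Quotient.mk I y
  have hk : ∀ k, A ^ (n + k) * Y ^ k = A ^ n := by
    intro k
    induction k with
    | zero => simp
    | succ k ih => rw [← ih]; linear_combination (A ^ k * Y ^ k) * hy
  obtain ⟨e, he, he'⟩ := exists_idempotent_lift I (a ^ (n + 1) * y ^ (n + 1)) (by
    rw [← Ideal.Quotient.eq, map_mul, map_mul, map_pow, map_pow]
    linear_combination (A * Y ^ (n + 1)) * hk (n + 1))
  have h01 : e = 0 ∨ e = 1 := by
    have : e * (e - 1) = 0 := by linear_combination he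
    rcases mul_eq_zero.mp this with h | h
    · exact Or.inl h
    · exact Or.inr (sub_eq_zero.mp h)
  rcases h01 with rfl | rfl
  · right
    have h1 : A ^ (n + 1) * Y ^ (n + 1) = 0 := by
      have := Ideal.Quotient.eq.mpr he'
      rw [map_zero, map_mul, map_pow, map_pow] at this
      exact this.symm
    have h2 : IsNilpotent A := ⟨n, by linear_combination (A ^ n) * h1 - hk (n + 1)⟩
    obtain ⟨u, hu⟩ := h2.isUnit_one_sub.exists_right_inv
    obtain ⟨u, rfl⟩ := Ideal.Quotient.mk_surjective u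
    apply isUnit_of_mul_isUnit_left (y := u)
    apply isUnit_of_sub_one_mem I
    rw [← Ideal.Quotient.eq, map_mul, map_sub, map_one]
    exact hu
  · left
    have := isUnit_of_sub_one_mem I (a := a ^ (n + 1) * y ^ (n + 1)) (by
      simpa using I.neg_mem he')
    exact isUnit_of_dvd_unit (Dvd.dvd.mul_right (dvd_pow_self a (Nat.succ_ne_zero n)) _) this

theorem exists_equiv_ps [IsAlgClosed K] [IsIntegrallyClosed O] : Nonempty (K⟦X⟧ ≃ₐ[K] O) := by
  have := complete_of_finite K O
  have := isLocalRing_of_finite K O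
  set I := (mx K K⟦X⟧).map (algebraMap K⟦X⟧ O) with hI
  have hinj := FaithfulSMul.algebraMap_injective K⟦X⟧ O
  have hnoeth : IsNoetherianRing O := IsNoetherianRing.of_finite K⟦X⟧ O
  have hdim : Ring.DimensionLEOne O := Ring.DimensionLEOne.of_isIntegral K⟦X⟧ O
  have hded : IsDedekindDomain O := { hnoeth, hdim, ‹IsIntegrallyClosed O› with }
  set z := algebraMap K⟦X⟧ O X with hz
  have hzI : z ∈ I := Ideal.mem_map_of_mem _ (by simp [mem_mx, rho_ps])
  have hIm : I ≤ IsLocalRing.maximalIdeal O := by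
    rw [← IsLocalRing.jacobson_eq_maximalIdeal ⊥ bot_ne_top]
    exact IsAdicComplete.le_jacobson_bot I
  have hz0 : z ≠ 0 := fun h => X_ne_zero (hinj (by rw [← hz, h, map_zero]))
  have hnf : ¬ IsField O := fun h => by
    rw [IsLocalRing.isField_iff_maximalIdeal_eq] at h
    exact hz0 (by simpa [h] using hIm hzI)
  have hdvr : IsDiscreteValuationRing O :=
    ((IsDiscreteValuationRing.TFAE O hnf).out 0 2).mpr hded
  obtain ⟨ϖ, hϖ⟩ := IsDiscreteValuationRing.exists_irreducible O
  have hmax : IsLocalRing.maximalIdeal O = Ideal.span {ϖ} := hϖ.maximalIdeal_eq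
  obtain ⟨e, u, hu⟩ := IsDiscreteValuationRing.associated_pow_irreducible hz0 hϖ
  have : IsAdicComplete (Ideal.span {ϖ}) O := by
    apply isAdicComplete_of_le (I := I) (c := e) (hmax ▸ hIm)
    rw [Ideal.span_singleton_pow, ← hu, Ideal.span_le, Set.singleton_subset_iff]
    exact I.mul_mem_right _ hzI
  have hϖm : ∀ _ : Unit, ϖ ∈ Ideal.span {ϖ} := fun _ => Ideal.mem_span_singleton_self ϖ
  let φ : K⟦X⟧ →ₐ[K] O := ev K (Ideal.span {ϖ}) (fun _ : Unit => ϖ)
  have hφ : φ X = ϖ := ev_X _ hϖm ()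
  refine ⟨AlgEquiv.ofBijective φ ⟨?_, ?_⟩⟩
  · rw [injective_iff_map_eq_zero]
    intro h hh
    by_contra h0
    obtain ⟨k, h', rfl, hh'⟩ := exists_X_pow_mul h0
    rw [map_mul, map_pow, hφ] at hh
    have hu' : IsUnit h' := isUnit_iff_constantCoeff.mpr (IsUnit.mk0 _ hh')
    exact mul_ne_zero (pow_ne_zero _ hϖ.ne_zero) (hu'.map φ).ne_zero hh
  · have hmap : (Ideal.span {X} : Ideal K⟦X⟧).map (φ : K⟦X⟧ →+* O) = Ideal.span {ϖ} := by
      rw [Ideal.map_span, Set.image_singleton]; congr 2
    have : IsHausdorff ((Ideal.span {X} : Ideal K⟦X⟧).map (φ : K⟦X⟧ →+* O)) O := by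
      rw [hmap]; infer_instance
    apply surjective_of_mk_map_comp_surjective (I := Ideal.span {X}) (φ : K⟦X⟧ →+* O)
    rw [hmap, ← hmax]
    have := finite_quot (K := K) (Λ := K⟦X⟧) O _ hIm
    have : IsDomain (O ⧸ IsLocalRing.maximalIdeal O) := Ideal.Quotient.isDomain _
    intro a
    obtain ⟨c, rfl⟩ := (IsAlgClosed.algebraMap_bijective_of_isIntegral
      (k := K) (K := O ⧸ IsLocalRing.maximalIdeal O)).2 a
    refine ⟨algebraMap K _ c, ?_⟩
    change Ideal.Quotient.mk _ (φ (algebraMap K _ c)) = _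
    rw [AlgHom.commutes]; rfl

theorem exists_embedding_ps [IsAlgClosed K] (p : ℕ) [ExpChar K p] :
    ∃ j : O →ₐ[K] K⟦X⟧, Function.Injective j := by
  let F := FractionRing K⟦X⟧
  let E := FractionRing O
  let : Algebra F E := FractionRing.liftAlgebra K⟦X⟧ E
  have : IsScalarTower K⟦X⟧ F E := FractionRing.isScalarTower_liftAlgebra K⟦X⟧ E
  have : FiniteDimensional F E := .of_isLocalization K⟦X⟧ O K⟦X⟧⁰
  let Es := separableClosure F E
  have : IsScalarTower K⟦X⟧ Es E := IsScalarTower.of_algebraMap_eq fun _ => rfl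
  let O' := integralClosure K⟦X⟧ Es
  have : Module.Finite K⟦X⟧ O' := IsIntegralClosure.finite K⟦X⟧ F Es O'
  have : IsIntegrallyClosed O' := integralClosure.isIntegrallyClosedOfFiniteExtension F
  have hinjE : Function.Injective (algebraMap K⟦X⟧ E) := FaithfulSMul.algebraMap_injective _ _
  have : FaithfulSMul K⟦X⟧ O' := by
    rw [faithfulSMul_iff_algebraMap_injective]
    intro a b hab
    apply hinjE
    have := congrArg (fun t : O' => ((t : Es) : E)) hab
    exact this
  let : Algebra K O' := ((algebraMap K⟦X⟧ O').comp (algebraMap K K⟦X⟧)).toAlgebra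
  have : IsScalarTower K K⟦X⟧ O' := IsScalarTower.of_algebraMap_eq fun _ => rfl
  obtain ⟨e⟩ := exists_equiv_ps K O'
  have : ExpChar Es p := expChar_of_injective_ringHom
    (f := (algebraMap K⟦X⟧ Es).comp (algebraMap K K⟦X⟧)) (RingHom.injective _) p
  set n := IsPurelyInseparable.exponent Es E
  let Φ : E →+* Es := IsPurelyInseparable.iterateFrobenius Es E p (le_refl n)
  have hΦ : ∀ a, ((Φ a : Es) : E) = a ^ p ^ n := fun a =>
    IsPurelyInseparable.algebraMap_iterateFrobenius Es p (le_refl n) a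
  have hint : ∀ a : O, (Φ.comp (algebraMap O E)) a ∈ O' := by
    intro a
    have h1 : IsIntegral K⟦X⟧ (algebraMap O E a) :=
      (Algebra.IsIntegral.isIntegral (R := K⟦X⟧) a).map (IsScalarTower.toAlgHom K⟦X⟧ O E)
    have h2 : IsIntegral K⟦X⟧ (algebraMap Es E (Φ (algebraMap O E a))) := by
      change IsIntegral K⟦X⟧ ((Φ (algebraMap O E a) : Es) : E)
      rw [hΦ]; exact h1.pow _
    exact (isIntegral_algebraMap_iff (algebraMap Es E).injective).mp h2
  let Φ' : O →+* O' := (Φ.comp (algebraMap O E)).codRestrict O' hint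
  let τ : K ≃+* K := (iterateFrobeniusEquiv K p n).symm
  let j : O →+* K⟦X⟧ := (PowerSeries.map τ.toRingHom).comp (e.symm.toRingEquiv.toRingHom.comp Φ')
  have hj : ∀ c : K, j (algebraMap K O c) = algebraMap K K⟦X⟧ c := by
    intro c
    have h1 : Φ' (algebraMap K O c) = algebraMap K O' (c ^ p ^ n) := by
      apply Subtype.ext
      apply Subtype.ext
      change ((Φ (algebraMap O E (algebraMap K O c)) : Es) : E) =
        algebraMap K⟦X⟧ E (algebraMap K K⟦X⟧ (c ^ p ^ n))
      rw [hΦ, map_pow, map_pow, IsScalarTower.algebraMap_apply K K⟦X⟧ O,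
        ← IsScalarTower.algebraMap_apply K⟦X⟧ O E]
    change PowerSeries.map τ.toRingHom (e.symm (Φ' (algebraMap K O c))) = _
    rw [h1, AlgEquiv.commutes, PowerSeries.algebraMap_apply, PowerSeries.algebraMap_apply,
      PowerSeries.map_C]
    congr 1
    change (iterateFrobeniusEquiv K p n).symm (c ^ p ^ n) = c
    rw [RingEquiv.symm_apply_eq]; rfl
  refine ⟨{ j with commutes' := hj }, ?_⟩
  refine (PowerSeries.map_injective τ.toRingHom τ.injective).comp (e.symm.injective.comp ?_)
  intro a b hab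
  exact IsFractionRing.injective O E (Φ.injective (congrArg Subtype.val hab))

end dvr

end Pool.Agent.MP_f5cee0_ag.H4
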