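import Mathlib

/-!
Definitions used in the statement on the normalised delta-constant stratum.
-/

open scoped TensorProduct

namespace Pool.Agent.MP_f5cee0_ag.H4

universe u

/-- The delta invariant of a `k`-algebra `R`: the `k`-dimension of the quotient of the
integral closure of `R` in its total ring of fractions by the image of `R`. -/
noncomputable def delta (k R : Type u) [Field k] [CommRing R] [Algebra k R] : Cardinal.{u} :=
  Module.rank k (integralClosure R (FractionRing R) ⧸
    LinearMap.range (Algebra.linearMap R (integralClosure R (FractionRing R))))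

/-- The family `F = f + ∑ t_i g_i`, a power series in `x, y` with coefficients in `K[[t]]`. -/
noncomputable def family {K : Type u} [Field K] {τ : ℕ} (f : MvPowerSeries (Fin 2) K)
    (g : Fin τ → MvPowerSeries (Fin 2) K) :
    MvPowerSeries (Fin 2) (MvPowerSeries (Fin τ) K) :=
  MvPowerSeries.map MvPowerSeries.C f +
    ∑ i, MvPowerSeries.C (MvPowerSeries.X i) * MvPowerSeries.map MvPowerSeries.C (g i)

/-- The delta invariant over the field `L` of the fibre `L ⊗ Λ[[x,y]]/(G)`, at the point
`Λ → L`, of the family of plane curve singularities `G = 0` over `Λ`. -/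
noncomputable def fibreDelta {Λ : Type u} [CommRing Λ] (L : Type u) [Field L] [Algebra Λ L]
    (G : MvPowerSeries (Fin 2) Λ) : Cardinal.{u} :=
  delta L (L ⊗[Λ] (MvPowerSeries (Fin 2) Λ ⧸ Ideal.span {G}))

/-- The ideal of the reduced delta-constant stratum: the power series `h(t)` that vanish on every
arc `γ : K[[t]] → K[[w]]` for which the generic fibre `L ⊗ K[[w]][[x,y]]/(γ F)` of the pulled-back
family has the same delta invariant as the special fibre `K[[x,y]]/(f)`. Here `L` is a field
over `K[[w]]`, such as `K((w))` or its algebraic closure. -/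
noncomputable def stratumIdeal {K : Type u} [Field K] (L : Type u) [Field L]
    [Algebra (PowerSeries K) L] {τ : ℕ} (f : MvPowerSeries (Fin 2) K)
    (g : Fin τ → MvPowerSeries (Fin 2) K) : Ideal (MvPowerSeries (Fin τ) K) :=
  ⨅ (γ : MvPowerSeries (Fin τ) K →ₐ[K] PowerSeries K)
    (_ : fibreDelta L (MvPowerSeries.map γ.toRingHom (family f g)) =
      delta K (MvPowerSeries (Fin 2) K ⧸ Ideal.span {f})),
    RingHom.ker γ

/-- The classes of `g_1, ..., g_τ` form a `K`-basis of `P / I`. -/
def RepresentsBasis (K : Type u) [Field K] {P : Type u} [CommRing P] [Algebra K P] (I : Ideal P)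
    {τ : ℕ} (g : Fin τ → P) : Prop :=
  ∃ b : Module.Basis (Fin τ) K (P ⧸ I), ∀ i, b i = Ideal.Quotient.mk I (g i)

/-- The normalisation of `A` (its integral closure in the total ring of fractions) is isomorphic,
as a `K`-algebra, to a ring of formal power series in finitely many variables over `K`. -/
def HasSmoothNormalisation (K A : Type u) [Field K] [CommRing A] [Algebra K A] : Prop :=
  ∃ d : ℕ, Nonempty (integralClosure A (FractionRing A) ≃ₐ[K] MvPowerSeries (Fin d) K)

end Pool.Agent.MP_f5cee0_ag.H4
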