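import Pool.Agent.MP_f5cee0_ag.H4.Normal

/-!
Formal properties of the delta invariant.
-/

namespace Pool.Agent.MP_f5cee0_ag.H4

open scoped nonZeroDivisors TensorProduct

universe u

/-- rank over `k` of the cokernel of `X → N` -/
noncomputable def qrank (k X N : Type u) [CommRing k] [CommRing X] [CommRing N] [Algebra k X]
    [Algebra X N] [Algebra k N] [IsScalarTower k X N] : Cardinal.{u} :=
  Module.rank k (N ⧸ LinearMap.range (Algebra.linearMap X N))

lemma delta_eq_qrank (k R : Type u) [Field k] [CommRing R] [Algebra k R] :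
    delta k R = qrank k R (integralClosure R (FractionRing R)) := rfl

section

variable {k X N X' N' : Type u} [CommRing k] [CommRing X] [CommRing N] [Algebra k X]
  [Algebra X N] [Algebra k N] [IsScalarTower k X N] [CommRing X'] [CommRing N'] [Algebra k X']
  [Algebra X' N'] [Algebra k N'] [IsScalarTower k X' N']

lemma qrank_eq_of_submodule (S : Submodule k N) (hS : ∀ n, n ∈ S ↔ ∃ x, algebraMap X N x = n) :
    qrank k X N = Module.rank k (N ⧸ S) := by
  have : S = (LinearMap.range (Algebra.linearMap X N)).restrictScalars k := by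
    ext n; simp [hS]
  subst this
  exact (Submodule.Quotient.restrictScalarsEquiv k _).rank_eq.symm

lemma qrank_congr (e : X ≃ X') (E : N ≃ₗ[k] N')
    (h : ∀ x, E (algebraMap X N x) = algebraMap X' N' (e x)) : qrank k X N = qrank k X' N' := by
  rw [qrank_eq_of_submodule ((LinearMap.range (Algebra.linearMap X N)).restrictScalars k)
      (by simp),
    qrank_eq_of_submodule ((LinearMap.range (Algebra.linearMap X' N')).restrictScalars k)
      (by simp)]
  refine (Submodule.Quotient.equiv _ _ E ?_).rank_eq
  ext n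
  simp only [Submodule.mem_map, Submodule.restrictScalars_mem, LinearMap.mem_range,
    Algebra.linearMap_apply, LinearEquiv.coe_coe, exists_exists_eq_and]
  constructor
  · rintro ⟨x, rfl⟩; exact ⟨e x, (h x).symm⟩
  · rintro ⟨x, rfl⟩; exact ⟨e.symm x, by rw [h]; simp⟩

lemma qrank_congr_right {N'' : Type u} [CommRing N''] [Algebra X N''] [Algebra k N'']
    [IsScalarTower k X N''] (E : N ≃ₐ[X] N'') : qrank k X N = qrank k X N'' :=
  qrank_congr (Equiv.refl X) (E.restrictScalars k).toLinearEquiv (fun x => E.commutes x)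

lemma qrank_of_compl [Nontrivial k] {P : Type*} [AddCommGroup P] [Module k P] {δ : ℕ}
    (Ψ : (P × (Fin δ → k)) ≃ₗ[k] N) (h : ∀ n, (∃ x, algebraMap X N x = n) ↔ ∃ p, Ψ (p, 0) = n) :
    qrank k X N = δ := by
  let π : N →ₗ[k] (Fin δ → k) := (LinearMap.snd k P _).comp Ψ.symm.toLinearMap
  rw [qrank_eq_of_submodule (LinearMap.ker π)]
  · have hs : Function.Surjective π := by
      intro v; exact ⟨Ψ (0, v), by simp [π]⟩
    rw [(π.quotKerEquivOfSurjective hs).rank_eq]
    simp
  · intro n
    rw [h, LinearMap.mem_ker]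
    constructor
    · intro hn
      refine ⟨(Ψ.symm n).1, ?_⟩
      have : ((Ψ.symm n).1, (0 : Fin δ → k)) = Ψ.symm n := Prod.ext rfl hn.symm
      rw [this]; simp
    · rintro ⟨p, rfl⟩; simp [π]

end

lemma delta_congr {k X X' : Type u} [Field k] [CommRing X] [Algebra k X] [CommRing X']
    [Algebra k X'] (e : X ≃ₐ[k] X') : delta k X = delta k X' := by
  rw [delta_eq_qrank, delta_eq_qrank]
  let E : FractionRing X ≃+* FractionRing X' := IsFractionRing.ringEquivOfRingEquiv e.toRingEquiv
  have hE : ∀ x, E (algebraMap X _ x) = algebraMap X' _ (e x) := fun x =>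
    IsFractionRing.ringEquivOfRingEquiv_algebraMap e.toRingEquiv x
  have hE' : ∀ x, E.symm (algebraMap X' _ x) = algebraMap X _ (e.symm x) := fun x => by
    rw [RingEquiv.symm_apply_eq, hE]; simp
  let F : integralClosure X (FractionRing X) ≃ₗ[k] integralClosure X' (FractionRing X') :=
    { toFun := fun z => ⟨E z, IsIntegral.map_of_comp_eq (e : X →+* X') E.toRingHom
        (by ext x; exact (hE x).symm) z.2⟩
      invFun := fun z => ⟨E.symm z, IsIntegral.map_of_comp_eq (e.symm : X' →+* X) E.symm.toRingHom
        (by ext x; exact (hE' x).symm) z.2⟩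
      map_add' := fun a b => by ext; simp
      map_smul' := fun c a => by
        ext
        simp only [RingHom.id_apply, SetLike.val_smul_of_tower]
        rw [Algebra.smul_def, Algebra.smul_def, map_mul,
          IsScalarTower.algebraMap_apply k X (FractionRing X), hE, AlgEquiv.commutes,
          ← IsScalarTower.algebraMap_apply]
      left_inv := fun a => by ext; simp
      right_inv := fun a => by ext; simp }
  exact qrank_congr e.toEquiv F (fun x => Subtype.ext (hE x))

lemma rank_eq_of_loc {Λ L M M' : Type u} [CommRing Λ] [Field L] [Algebra Λ L] [IsFractionRing Λ L]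
    [AddCommGroup M] [Module Λ M] [AddCommGroup M'] [Module Λ M'] [Module L M']
    [IsScalarTower Λ L M'] (f : M →ₗ[Λ] M') (h1 : ∀ v, f v = 0 → ∃ r ∈ Λ⁰, r • v = 0)
    (h2 : ∀ v', ∃ r ∈ Λ⁰, ∃ v, f v = r • v') : Module.rank L M' = Module.rank Λ M := by
  have : IsLocalizedModule Λ⁰ f :=
    { map_units := fun r => by
        rw [Module.End.isUnit_iff]
        have hr : algebraMap Λ L r ≠ 0 := (IsLocalization.map_units L r).ne_zero
        have e : ∀ v : M', (algebraMap Λ (Module.End Λ M') r) v = (algebraMap Λ L r) • v := by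
          intro v; simp
        constructor
        · intro a b hab
          rw [e, e] at hab
          exact smul_right_injective M' hr hab
        · intro b
          exact ⟨(algebraMap Λ L r)⁻¹ • b, by rw [e, smul_smul, mul_inv_cancel₀ hr, one_smul]⟩
      surj := fun y => by
        obtain ⟨r, hr, v, hv⟩ := h2 y
        exact ⟨(v, ⟨r, hr⟩), hv.symm⟩
      exists_of_eq := fun {x y} h => by
        obtain ⟨r, hr, hv⟩ := h1 (x - y) (by rw [map_sub, h, sub_self])
        exact ⟨⟨r, hr⟩, by simpa [smul_sub, sub_eq_zero] using hv⟩ }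
  rw [IsLocalization.rank_eq L Λ⁰ le_rfl, IsLocalizedModule.rank_eq Λ⁰ le_rfl f]

lemma delta_loc {Λ X L XL : Type u} [CommRing Λ] [CommRing X] [Algebra Λ X] [Field L]
    [Algebra Λ L] [IsFractionRing Λ L] [CommRing XL] [Algebra X XL] [Algebra L XL] [Algebra Λ XL]
    [IsScalarTower Λ X XL] [IsScalarTower Λ L XL]
    [IsLocalization (Algebra.algebraMapSubmonoid X Λ⁰) XL]
    (htf : ∀ r ∈ Λ⁰, algebraMap Λ X r ∈ X⁰) :
    delta L XL = qrank Λ X (integralClosure X (FractionRing X)) := by
  have hM : Algebra.algebraMapSubmonoid X Λ⁰ ≤ X⁰ := by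
    rintro _ ⟨r, hr, rfl⟩; exact htf r hr
  have hu : ∀ y : Algebra.algebraMapSubmonoid X Λ⁰, IsUnit (algebraMap X (FractionRing X) y) :=
    fun y => IsLocalization.map_units (FractionRing X) (⟨y.1, hM y.2⟩ : X⁰)
  let : Algebra XL (FractionRing X) := (IsLocalization.lift (S := XL) hu).toAlgebra
  have : IsScalarTower X XL (FractionRing X) := IsScalarTower.of_algebraMap_eq fun x =>
    (IsLocalization.lift_eq (S := XL) hu x).symm
  have : IsFractionRing XL (FractionRing X) :=
    IsFractionRing.isFractionRing_of_isLocalization (Algebra.algebraMapSubmonoid X Λ⁰) XL (FractionRing X) hM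
  let E : FractionRing X ≃ₐ[XL] FractionRing XL := IsLocalization.algEquiv XL⁰ _ _
  have hE : ∀ x : X, E (algebraMap X _ x) = algebraMap XL _ (algebraMap X XL x) := fun x => by
    rw [IsScalarTower.algebraMap_apply X XL (FractionRing X), AlgEquiv.commutes]
  have hΛ : ∀ r : Λ, algebraMap X XL (algebraMap Λ X r) = algebraMap Λ XL r := fun r =>
    (IsScalarTower.algebraMap_apply Λ X XL r).symm
  let g : integralClosure X (FractionRing X) →ₗ[Λ] integralClosure XL (FractionRing XL) :=
    { toFun := fun z => ⟨E z, IsIntegral.map_of_comp_eq (algebraMap X XL) E.toRingEquiv.toRingHom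
        (by ext x; exact (hE x).symm) z.2⟩
      map_add' := fun a b => by ext; simp
      map_smul' := fun c a => by
        ext
        simp only [RingHom.id_apply, SetLike.val_smul_of_tower]
        rw [Algebra.smul_def, Algebra.smul_def, map_mul,
          IsScalarTower.algebraMap_apply Λ X (FractionRing X), hE, hΛ,
          ← IsScalarTower.algebraMap_apply] }
  have hg : ∀ z, (g z : FractionRing XL) = E z := fun z => rfl
  rw [delta_eq_qrank, qrank, qrank]
  let S := LinearMap.range (Algebra.linearMap X (integralClosure X (FractionRing X)))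
  let S' := LinearMap.range (Algebra.linearMap XL (integralClosure XL (FractionRing XL)))
  have hSS : S.restrictScalars Λ ≤ (S'.restrictScalars Λ).comap g := by
    rintro _ ⟨x, rfl⟩
    exact ⟨algebraMap X XL x, Subtype.ext (hE x).symm⟩
  let G : (integralClosure X (FractionRing X) ⧸ S) →ₗ[Λ]
      (integralClosure XL (FractionRing XL) ⧸ S') :=
    (Submodule.Quotient.restrictScalarsEquiv Λ S').toLinearMap ∘ₗ
      (Submodule.mapQ _ _ g hSS) ∘ₗ (Submodule.Quotient.restrictScalarsEquiv Λ S).symm.toLinearMap
  have hG : ∀ z, G (Submodule.Quotient.mk z) = Submodule.Quotient.mk (g z) := fun z => rfl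
  apply rank_eq_of_loc G
  · intro v hv
    obtain ⟨z, rfl⟩ := Submodule.Quotient.mk_surjective _ v
    rw [hG, Submodule.Quotient.mk_eq_zero] at hv
    obtain ⟨y, hy⟩ := hv
    obtain ⟨⟨a, ⟨_, r, hr, rfl⟩⟩, ha⟩ :=
      IsLocalization.surj (Algebra.algebraMapSubmonoid X Λ⁰) y
    refine ⟨r, hr, ?_⟩
    rw [← Submodule.Quotient.mk_smul, Submodule.Quotient.mk_eq_zero]
    refine ⟨a, Subtype.ext (E.injective ?_)⟩
    have hy' : algebraMap XL (FractionRing XL) y = E z := congrArg Subtype.val hy
    change E (algebraMap X _ a) = E (r • (z : FractionRing X))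
    simp only at ha
    rw [hE, ← ha, map_mul, hy', Algebra.smul_def, map_mul,
      IsScalarTower.algebraMap_apply Λ X (FractionRing X), hE, mul_comm]
  · intro v'
    obtain ⟨z', rfl⟩ := Submodule.Quotient.mk_surjective _ v'
    have h1 : IsIntegral XL (E.symm z') := IsIntegral.map E.symm.toAlgHom z'.2
    obtain ⟨⟨_, r, hr, rfl⟩, hm⟩ :=
      h1.exists_multiple_integral_of_isLocalization (Algebra.algebraMapSubmonoid X Λ⁰)
    refine ⟨r, hr, Submodule.Quotient.mk ⟨_, hm⟩, ?_⟩
    rw [hG, ← Submodule.Quotient.mk_smul]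
    congr 1
    ext
    rw [hg]
    change E (algebraMap Λ X r • E.symm z') = r • (z' : FractionRing XL)
    rw [Algebra.smul_def, map_mul, hE, hΛ, AlgEquiv.apply_symm_apply, Algebra.smul_def,
      ← IsScalarTower.algebraMap_apply]

attribute [local instance] Algebra.TensorProduct.rightAlgebra in
lemma delta_tensor {Λ X : Type u} [CommRing Λ] [IsDomain Λ] [CommRing X] [Algebra Λ X]
    (htf : ∀ r ∈ Λ⁰, algebraMap Λ X r ∈ X⁰) :
    delta (FractionRing Λ) (FractionRing Λ ⊗[Λ] X) =
      qrank Λ X (integralClosure X (FractionRing X)) :=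
  delta_loc htf

end Pool.Agent.MP_f5cee0_ag.H4
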