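import Pool.Agent.MP_f5cee0_ag.H4.Mono

/-!
A delta-constant family over a complete discrete valuation ring with residue field `K` admits a
simultaneous normalisation.
-/

namespace Pool.Agent.MP_f5cee0_ag.H4

open PowerSeries
open scoped nonZeroDivisors

universe u

attribute [local instance] algD towerD

lemma mem_singleton_smul_top {Λ M : Type*} [CommRing Λ] [AddCommGroup M] [Module Λ M] (w : Λ)
    (v : M) : v ∈ (Ideal.span {w} • ⊤ : Submodule Λ M) ↔ ∃ v', w • v' = v := by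
  rw [Submodule.ideal_span_singleton_smul, Submodule.mem_smul_pointwise_iff_exists]
  simp

variable {K : Type u} [Field K] {f : P2 K} (D : Data f)
variable {Λ : Type u} [CommRing Λ] [Algebra K Λ] [CBase K Λ]

section

variable {F : P2 Λ} (hF : MvPowerSeries.map (rho K Λ) F = f)

/-- reduction followed by the normalisation of the special fibre -/
noncomputable def Data.nur : QR F →+* (Fin D.r → K⟦X⟧) :=
  Ideal.Quotient.lift _ ((nu K D.x D.y).toRingHom.comp (MvPowerSeries.map (rho K Λ)))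
    (fun a ha => by
      obtain ⟨q, rfl⟩ := Ideal.mem_span_singleton'.mp ha
      change nu K D.x D.y _ = 0
      rw [map_mul, hF, map_mul, D.nu_f, mul_zero])

lemma Data.nur_mk (h : P2 Λ) : D.nur hF (Ideal.Quotient.mk _ h) =
    nu K D.x D.y (MvPowerSeries.map (rho K Λ) h) := rfl

include hF in
lemma Data.hW : Function.Bijective (Wm D.m F) := D.Wm_facts isUnit_one (by rw [hF, one_mul])

lemma Data.nur_eq0 (s : Fin D.m → Λ⟦X⟧) :
    D.nur hF (eq0 F D.m s) = nu K D.x D.y (wr K D.m (mapN (rho K Λ) s)) := by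
  rw [eq0_apply, D.nur_mk, map_wr]; rfl

lemma Data.nur_alg (h : Λ⟦X⟧) : D.nur hF (algebraMap Λ⟦X⟧ (QR F) h) =
    nu K D.x D.y (iota K (PowerSeries.map (rho K Λ) h)) := by
  rw [algD_apply, D.nur_mk, map_iota]

/-- the basis as a linear equivalence over the base -/
noncomputable def Data.eqv : (Fin D.m → Λ⟦X⟧) ≃ₗ[Λ] QR F :=
  LinearEquiv.ofBijective ((eq0 F D.m).restrictScalars Λ) (eq0_bij (D.hW hF))

lemma Data.nur_ker (a : QR F) : a ∈ (mx K Λ • ⊤ : Submodule Λ (QR F)) ↔ D.nur hF a = 0 := by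
  obtain ⟨s, rfl⟩ := (D.eqv hF).surjective a
  rw [equiv_mem_smul_top, Red.mem_iff, red_N]
  change _ ↔ D.nur hF (eq0 F D.m s) = 0
  rw [D.nur_eq0]
  exact ⟨fun h => by rw [h, map_zero, map_zero], fun h => (D.he_inj _ 0 (by simpa using h)).1⟩

lemma Data.mem_nonZeroDivisors_of_nur {c : QR F} (hc : ∀ i, D.nur hF c i ≠ 0) :
    c ∈ (QR F)⁰ := by
  have : IsAdicComplete (mx K Λ) (QR F) := isAdicComplete_equiv _ (D.eqv hF)
  have := injective_of_red (mx_fg K Λ) (LinearMap.mulLeft Λ c)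
    (fl_equiv (D.eqv hF) (fl_pi (mx_fg K Λ) fun _ => fl_ps (mx_fg K Λ))) (fun v hv => by
      rw [D.nur_ker hF] at hv ⊢
      rw [LinearMap.mulLeft_apply, map_mul] at hv
      funext i
      exact (mul_eq_zero.mp (congrFun hv i)).resolve_left (hc i))
  rw [mem_nonZeroDivisors_iff_left]
  intro a ha
  exact this (by simpa using ha)

include D hF in
lemma Data.alg_mem_nonZeroDivisors [IsDomain Λ] {d : Λ⟦X⟧} (hd : d ≠ 0) :
    algebraMap Λ⟦X⟧ (QR F) d ∈ (QR F)⁰ := by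
  rw [mem_nonZeroDivisors_iff_left]
  intro a ha
  obtain ⟨s, rfl⟩ := (eq0_bij (D.hW hF)).2 a
  rw [← Algebra.smul_def, ← map_smul, ← map_zero (eq0 F D.m)] at ha
  have := (eq0_bij (D.hW hF)).1 ha
  rw [(smul_eq_zero.mp this).resolve_left hd, map_zero]

include D hF in
lemma Data.exists_d [IsDomain Λ] [IsIntegrallyClosed Λ⟦X⟧] :
    ∃ (d : Λ⟦X⟧) (n : ℕ), PowerSeries.map (rho K Λ) d = X ^ n ∧
      ∀ ξ : FractionRing (QR F), IsIntegral (QR F) ξ →
        ∃ a : QR F, algebraMap (QR F) _ a = algebraMap (QR F) _ (algebraMap Λ⟦X⟧ (QR F) d) * ξ := by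
  obtain ⟨P, p, q, hP, hs, hk, hq, hc⟩ := exists_monogenic (D.hW hF)
  have hfin : Module.Finite Λ⟦X⟧ (QR F) := Module.Finite.of_surjective _ (eq0_bij (D.hW hF)).2
  have hq' : IsUnit (MvPowerSeries.map (rho K Λ) q) := by
    apply D.isUnit_of_mul_eq (p := fun k => PowerSeries.map (rho K Λ) (p k))
    have := congrArg (MvPowerSeries.map (rho K Λ)) hq
    rwa [map_sub, map_pow, map_wr, MvPowerSeries.map_X, map_mul, hF] at this
  have hc0 : ∀ i, D.nur hF (Polynomial.aeval (yq F) P.derivative) i ≠ 0 := by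
    intro i
    rw [hc, D.nur_mk, map_mul, map_mul, map_pderiv, hF, Pi.mul_apply]
    exact mul_ne_zero ((hq'.map (nu K D.x D.y)).map (Pi.evalRingHom _ i)).ne_zero (D.hfy i)
  have hcond := conductor_deriv (yq F) P hP hs hk (D.mem_nonZeroDivisors_of_nur hF hc0)
  generalize Polynomial.aeval (yq F) P.derivative = c at hc0 hcond
  obtain ⟨a, ha⟩ := D.cond
  obtain ⟨b, v, hb⟩ := exists_pow_eq_mul D.hx hc0
  let S : Submodule Λ⟦X⟧ (QR F) := (Ideal.span {c}).restrictScalars Λ⟦X⟧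
  obtain ⟨d, n, hd, hd'⟩ := exists_ann (Q := QR F ⧸ S) ((mx K Λ).map (algebraMap Λ Λ⟦X⟧))
    (X ^ (a + b)) (fun t => by
      obtain ⟨t, rfl⟩ := S.mkQ_surjective t
      obtain ⟨h, hh⟩ := ha (v * D.nur hF t)
      have h1 : (X : Λ⟦X⟧) ^ (a + b) • t - c * Ideal.Quotient.mk _ (lfP Λ h) ∈
          (mx K Λ • ⊤ : Submodule Λ (QR F)) := by
        rw [D.nur_ker hF, map_sub, map_mul, D.nur_mk, mvps_red_lift, hh, Algebra.smul_def, map_mul,
          D.nur_alg, map_pow, map_X, map_pow, iota_X, map_pow, D.isLift_self.nuX, pow_add, hb]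
        ring
      have h2 : (X : Λ⟦X⟧) ^ (a + b) • t - c * Ideal.Quotient.mk _ (lfP Λ h) ∈
          ((mx K Λ).map (algebraMap Λ Λ⟦X⟧) • ⊤ : Submodule Λ⟦X⟧ (QR F)) := by
        rw [Ideal.smul_top_eq_map, Submodule.restrictScalars_mem] at h1 ⊢
        rwa [Ideal.map_map, ← IsScalarTower.algebraMap_eq]
      have h3 := map_mem_smul_top S.mkQ h2
      have h4 : S.mkQ (c * Ideal.Quotient.mk _ (lfP Λ h)) = 0 :=
        (Submodule.Quotient.mk_eq_zero S).mpr
          (Ideal.mul_mem_right _ _ (Ideal.mem_span_singleton_self c))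
      rwa [map_sub, h4, sub_zero, map_smul] at h3)
  refine ⟨d, (a + b) * n, ?_, fun ξ hξ => ?_⟩
  · rw [← Submodule.restrictScalars_mem Λ, ← Ideal.smul_top_eq_map, ps_red_iff, map_sub,
      sub_eq_zero] at hd
    rw [hd, ← pow_mul, map_pow, map_X]
  · have h1 := hd' (S.mkQ 1)
    rw [← map_smul, ← Algebra.algebraMap_eq_smul_one] at h1
    obtain ⟨c', hc'⟩ := Ideal.mem_span_singleton'.mp ((Submodule.Quotient.mk_eq_zero S).mp h1)
    obtain ⟨t, ht⟩ := hcond ξ (isIntegral_trans ξ hξ)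
    exact ⟨c' * t, by rw [← hc', map_mul, map_mul, ht, mul_assoc]⟩

end

section

variable {w : Λ} (hw : mx K Λ = Ideal.span {w})
include hw

lemma C_dvd_iff (h : Λ⟦X⟧) : C w ∣ h ↔ PowerSeries.map (rho K Λ) h = 0 := by
  rw [← ps_red_iff, hw, mem_singleton_smul_top]
  simp only [smul_eq_C_mul]
  exact ⟨fun ⟨a, ha⟩ => ⟨a, ha.symm⟩, fun ⟨a, ha⟩ => ⟨a, ha.symm⟩⟩

lemma prime_C (hw0 : w ≠ 0) : Prime (C w : Λ⟦X⟧) := by
  refine ⟨fun h => hw0 (C_injective (by rw [h, map_zero])), fun h => ?_, fun a b h => ?_⟩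
  · have := (C_dvd_iff hw 1).mp h.dvd
    simp at this
  · rwa [C_dvd_iff hw, map_mul, mul_eq_zero, ← C_dvd_iff hw, ← C_dvd_iff hw] at h

end

theorem Data.exists_rho [IsDomain Λ] [IsPrincipalIdealRing Λ] {w : Λ}
    (hw : mx K Λ = Ideal.span {w}) (hw0 : w ≠ 0) {F : P2 Λ}
    (hF : MvPowerSeries.map (rho K Λ) F = f) {S : Type u} [CommRing S] [Algebra (QR F) S]
    [Algebra Λ S] [IsScalarTower Λ (QR F) S] [Algebra.IsIntegral (QR F) S]
    (hinj : Function.Injective (algebraMap (QR F) S))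
    (hreg : ∀ c ∈ (QR F)⁰, ∀ ξ : S, algebraMap (QR F) S c * ξ = 0 → ξ = 0)
    {d : Λ⟦X⟧} {n : ℕ} (hdn : PowerSeries.map (rho K Λ) d = X ^ n)
    (hd : ∀ ξ : S, ∃ a : QR F,
      algebraMap (QR F) S a = algebraMap (QR F) S (algebraMap Λ⟦X⟧ (QR F) d) * ξ)
    (hS2 : ∀ (ξ : S) (a : QR F), algebraMap (QR F) S (w • a) =
      algebraMap (QR F) S (algebraMap Λ⟦X⟧ (QR F) d) * ξ → ∃ ζ, w • ζ = ξ) :
    ∃ ρ : S →+* (Fin D.r → K⟦X⟧), (∀ ξ, ξ ∈ (mx K Λ • ⊤ : Submodule Λ S) ↔ ρ ξ = 0) ∧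
      (qrank Λ (QR F) S ≤ D.δ ∧ (qrank Λ (QR F) S = D.δ → Function.Surjective ρ)) ∧
      IsAdicComplete (mx K Λ) S ∧ Fl (mx K Λ) S ∧
      ∀ a, ρ (algebraMap (QR F) S a) = D.nur hF a := by
  classical
  have hd0 : d ≠ 0 := fun h => by
    rw [h, map_zero] at hdn; exact pow_ne_zero n X_ne_zero hdn.symm
  have hwd : ¬ C w ∣ d := fun h => by
    rw [C_dvd_iff hw, hdn] at h; exact pow_ne_zero n X_ne_zero h
  have hdr := D.alg_mem_nonZeroDivisors hF hd0
  have hwr : ∀ ξ : S, w • ξ = 0 → ξ = 0 := fun ξ h => by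
    refine hreg _ (D.alg_mem_nonZeroDivisors hF (prime_C hw hw0).ne_zero) ξ ?_
    rw [← h, Algebra.smul_def, IsScalarTower.algebraMap_apply Λ (QR F) S,
      IsScalarTower.algebraMap_apply Λ Λ⟦X⟧ (QR F)]
    rfl
  have hbij := eq0_bij (D.hW hF)
  -- finiteness and freeness of the quotient
  let R := LinearMap.range (Algebra.linearMap (QR F) S)
  let := Algebra.compHom S (algebraMap Λ⟦X⟧ (QR F))
  have : IsScalarTower Λ⟦X⟧ (QR F) S := IsScalarTower.of_algebraMap_eq fun _ => rfl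
  have : IsScalarTower Λ Λ⟦X⟧ S := IsScalarTower.of_algebraMap_eq fun r => by
    rw [IsScalarTower.algebraMap_apply Λ (QR F) S, IsScalarTower.algebraMap_apply Λ Λ⟦X⟧ (QR F)]
    rfl
  have hfinX : Module.Finite Λ⟦X⟧ (QR F) := Module.Finite.of_surjective _ hbij.2
  have hfinS : Module.Finite Λ⟦X⟧ S := by
    choose T hT using hd
    let T' : S →ₗ[QR F] QR F :=
      { toFun := T
        map_add' := fun a b => hinj (by rw [map_add, hT, hT, hT, mul_add])
        map_smul' := fun c a => hinj (by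
          rw [hT, RingHom.id_apply, smul_eq_mul, map_mul, hT, Algebra.smul_def]; ring) }
    refine Module.Finite.of_injective (T'.restrictScalars Λ⟦X⟧) ?_
    rw [injective_iff_map_eq_zero]
    intro ξ hξ
    refine hreg _ hdr ξ ?_
    rw [← hT]
    exact (congrArg (algebraMap (QR F) S) hξ).trans (map_zero _)
  have hfinQ : Module.Finite Λ (S ⧸ R) := by
    refine finite_of_div (d := d) (n := n) (fun h => ?_) fun q => ?_
    · obtain ⟨⟨a, s⟩, rfl⟩ := (divMap_bij (K := K) (v := 1) (by simp) (by rw [hdn, mul_one])).2 h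
      exact ⟨a, s, rfl⟩
    · obtain ⟨ξ, rfl⟩ := R.mkQ_surjective q
      obtain ⟨a, ha⟩ := hd ξ
      exact (Submodule.Quotient.mk_eq_zero R).mpr ⟨a, ha.trans (Algebra.smul_def d ξ).symm⟩
  have hsat : ∀ ξ : S, w • ξ ∈ R → ξ ∈ R := by
    rintro ξ ⟨a, ha⟩
    obtain ⟨b, hb⟩ := hd ξ
    obtain ⟨s, rfl⟩ := hbij.2 a
    obtain ⟨t, rfl⟩ := hbij.2 b
    rw [Algebra.linearMap_apply] at ha
    have e1 : ∀ a : QR F, algebraMap (QR F) S ((C w : Λ⟦X⟧) • a) = w • algebraMap (QR F) S a := by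
      intro a
      rw [Algebra.smul_def, Algebra.smul_def, map_mul, IsScalarTower.algebraMap_apply Λ (QR F) S,
        IsScalarTower.algebraMap_apply Λ Λ⟦X⟧ (QR F)]
      rfl
    have e2 : d • s = (C w : Λ⟦X⟧) • t := hbij.1 (hinj (by
      rw [(eq0 F D.m).map_smul, (eq0 F D.m).map_smul, e1, hb, Algebra.smul_def d, map_mul, ha,
        mul_smul_comm]))
    have e3 : ∀ k, C w ∣ s k := fun k =>
      ((prime_C hw hw0).dvd_or_dvd ⟨t k, congrFun e2 k⟩).resolve_left hwd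
    choose s' hs' using e3
    have e4 : s = (C w : Λ⟦X⟧) • s' := funext hs'
    refine ⟨eq0 F D.m s', ?_⟩
    rw [e4, (eq0 F D.m).map_smul, e1, ← sub_eq_zero, ← smul_sub] at ha
    exact sub_eq_zero.mp (hwr _ ha)
  have htf : Module.IsTorsionFree Λ (S ⧸ R) := by
    refine Module.IsTorsionFree.of_smul_eq_zero fun r q hrq => ?_
    by_cases hr : r = 0
    · exact Or.inl hr
    right
    have hwu : ¬ IsUnit w := fun h => (mx_isMaximal K Λ).ne_top (by
      rw [hw, Ideal.span_singleton_eq_top]; exact h)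
    obtain ⟨k, a, ha, rfl⟩ := WfDvdMonoid.max_power_factor' hr hwu
    have hau : IsUnit a := isUnit_of_rho (K := K) fun h => ha (by
      rw [← Ideal.mem_span_singleton, ← hw]; exact h)
    rw [mul_comm, mul_smul, hau.smul_eq_zero] at hrq
    clear hr ha
    induction k with
    | zero => simpa using hrq
    | succ k ih =>
      apply ih
      rw [pow_succ', mul_smul] at hrq
      obtain ⟨ξ, hξ⟩ := R.mkQ_surjective (w ^ k • q)
      rw [← hξ] at hrq ⊢
      exact (Submodule.Quotient.mk_eq_zero R).mpr (hsat ξ ((Submodule.Quotient.mk_eq_zero R).mp hrq))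
  obtain ⟨δ', hδ'⟩ : ∃ δ' : ℕ, Module.finrank Λ (S ⧸ R) = δ' := ⟨_, rfl⟩
  have hq : qrank Λ (QR F) S = δ' := by rw [← hδ']; exact (Module.finrank_eq_rank Λ _).symm
  let b := Module.finBasisOfFinrankEq Λ (S ⧸ R) hδ'
  choose ε hε using fun j => R.mkQ_surjective (b j)
  let Ψ : ((Fin D.m → Λ⟦X⟧) × (Fin δ' → Λ)) →ₗ[Λ] S :=
    LinearMap.coprod ((IsScalarTower.toAlgHom Λ (QR F) S).toLinearMap.comp (D.eqv hF).toLinearMap)
      (Fintype.linearCombination Λ ε)
  have hΨ : ∀ v, Ψ v = algebraMap (QR F) S (eq0 F D.m v.1) + ∑ j, v.2 j • ε j := fun v => rfl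
  have hmk : ∀ v, R.mkQ.restrictScalars Λ (Ψ v) = ∑ j, v.2 j • b j := by
    intro v
    have : R.mkQ.restrictScalars Λ (algebraMap (QR F) S (eq0 F D.m v.1)) = 0 :=
      (Submodule.Quotient.mk_eq_zero R).mpr ⟨_, rfl⟩
    rw [hΨ, map_add, this, zero_add, map_sum]
    refine Finset.sum_congr rfl fun j _ => ?_
    rw [map_smul, LinearMap.restrictScalars_apply, hε]
  have hΨb : Function.Bijective Ψ := by
    constructor
    · rw [injective_iff_map_eq_zero]
      rintro ⟨s, c⟩ h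
      have h1 := hmk (s, c)
      rw [h, map_zero] at h1
      have h2 : c = 0 := funext (Fintype.linearIndependent_iff.mp b.linearIndependent c h1.symm)
      rw [hΨ, h2] at h
      simp only [Pi.zero_apply, zero_smul, Finset.sum_const_zero, add_zero] at h
      have h3 : eq0 F D.m s = eq0 F D.m 0 := hinj (by rw [h, map_zero, map_zero])
      exact Prod.ext (hbij.1 h3) h2
    · intro ξ
      have h1 := hmk (0, b.repr (R.mkQ ξ))
      rw [b.sum_repr] at h1
      obtain ⟨a, ha⟩ := (Submodule.Quotient.eq R).mp h1.symm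
      obtain ⟨s, rfl⟩ := hbij.2 a
      refine ⟨(s, b.repr (R.mkQ ξ)), ?_⟩
      rw [Algebra.linearMap_apply] at ha
      rw [hΨ, ha, hΨ]
      simp
  let E := LinearEquiv.ofBijective Ψ hΨb
  -- the reduction map
  have hnd : ∀ i, D.nur hF (algebraMap Λ⟦X⟧ (QR F) d) i ≠ 0 := fun i => by
    rw [D.nur_alg, hdn, map_pow, iota_X, map_pow, D.isLift_self.nuX]
    exact pow_ne_zero _ (D.x_ne_zero i)
  have : IsIntegrallyClosed K⟦X⟧ := (cn_ps (cn_field K)).isIntegrallyClosed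
  choose ρ' hρ' using fun i => exists_extend hinj _ hd ((Pi.evalRingHom _ i).comp (D.nur hF))
    (hnd i)
  let ρ : S →+* (Fin D.r → K⟦X⟧) := RingHom.pi ρ'
  have hρ : ∀ a, ρ (algebraMap (QR F) S a) = D.nur hF a := fun a => funext fun i => hρ' i a
  have hρs : ∀ (r : Λ) ξ, ρ (r • ξ) = rho K Λ r • ρ ξ := by
    intro r ξ
    rw [Algebra.smul_def, map_mul, IsScalarTower.algebraMap_apply Λ (QR F) S, hρ, 
      ← nu_C (K := K) D.x D.y]
    congr 1
    exact congrArg (nu K D.x D.y) (MvPowerSeries.map_C _ _)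
  have hker : ∀ ξ, ξ ∈ (mx K Λ • ⊤ : Submodule Λ S) ↔ ρ ξ = 0 := by
    intro ξ
    rw [hw, mem_singleton_smul_top]
    constructor
    · rintro ⟨ζ, rfl⟩
      rw [hρs, mem_mx.mp (hw ▸ Ideal.mem_span_singleton_self w), zero_smul]
    · intro h
      obtain ⟨a, ha⟩ := hd ξ
      have h1 := congrArg ρ ha
      rw [hρ, map_mul, h, mul_zero, ← D.nur_ker, hw, mem_singleton_smul_top] at h1
      obtain ⟨a', rfl⟩ := h1
      exact hS2 ξ a' ha
  have hρΨ : ∀ v, ρ (Ψ v) = nu K D.x D.y (wr K D.m (mapN (rho K Λ) v.1)) +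
      ∑ j, rho K Λ (v.2 j) • ρ (ε j) := fun v => by
    rw [hΨ, map_add, hρ, D.nur_eq0, map_sum]
    simp only [hρs]
  refine ⟨ρ, hker, ?_, isAdicComplete_equiv _ E, fl_equiv E (fl_prod
    (fl_pi (mx_fg K Λ) fun _ => fl_ps (mx_fg K Λ)) (fl_pi (mx_fg K Λ) fun _ => fl_self _)), hρ⟩
  let E0 := LinearEquiv.ofBijective _ D.isLift_self.Psi_bij
  have hE0 : ∀ v, E0 v = nu K D.x D.y (wr K D.m v.1) + ∑ j, v.2 j • D.e j := fun v => by
    change D.Psi _ _ v = _
    simp only [D.Psi_apply, lf_self]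
  let L : (Fin δ' → K) →ₗ[K] (Fin D.δ → K) := ((LinearMap.snd K _ _).comp
    E0.symm.toLinearMap).comp (Fintype.linearCombination K fun j => ρ (ε j))
  have hL : ∀ c, ∃ s, ∑ j, c j • ρ (ε j) = E0 (s, L c) := fun c =>
    ⟨(E0.symm (∑ j, c j • ρ (ε j))).1, (E0.apply_symm_apply _).symm⟩
  have hLi : Function.Injective L := by
    rw [injective_iff_map_eq_zero]
    intro c hc
    obtain ⟨s, hs⟩ := hL c
    have h1 : ρ (E (-lf Λ s, fun j => algebraMap K Λ (c j))) = 0 := by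
      refine (hρΨ _).trans ?_
      simp only [rho_algebraMap, hs, hc, hE0, map_neg, mapN_red_lift]
      simp
    rw [← hker, equiv_mem_smul_top, prod_mem_smul_top, pi_mem_smul_top (mx_fg K Λ),
      pi_mem_smul_top (mx_fg K Λ)] at h1
    funext j
    simpa [mem_mx] using h1.2 j
  rw [hq]
  refine ⟨by simpa using LinearMap.finrank_le_finrank_of_injective hLi, fun hq' v => ?_⟩
  obtain ⟨⟨s, c⟩, rfl⟩ := E0.surjective v
  obtain ⟨c, rfl⟩ := (LinearMap.injective_iff_surjective_of_finrank_eq_finrank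
    (by simpa using hq')).mp hLi c
  obtain ⟨s', hs'⟩ := hL c
  refine ⟨Ψ (lf Λ (s - s'), fun j => algebraMap K Λ (c j)), ?_⟩
  rw [hρΨ]
  simp only [rho_algebraMap, hs', hE0, mapN_red_lift, map_sub]
  abel

theorem Data.exists_lift_of_qrank [IsDomain Λ] [IsPrincipalIdealRing Λ] [IsIntegrallyClosed Λ⟦X⟧]
    {w : Λ} (hw : mx K Λ = Ideal.span {w}) (hw0 : w ≠ 0) {F : P2 Λ}
    (hF : MvPowerSeries.map (rho K Λ) F = f) :
    qrank Λ (QR F) (integralClosure (QR F) (FractionRing (QR F))) ≤ D.δ ∧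
    (qrank Λ (QR F) (integralClosure (QR F) (FractionRing (QR F))) = D.δ →
      ∃ X Y, D.IsLift X Y ∧ nu K X Y F = 0) := by
  obtain ⟨d, n, hdn, hd⟩ := D.exists_d hF
  have hfinX : Module.Finite Λ⟦X⟧ (QR F) := Module.Finite.of_surjective _ (eq0_bij (D.hW hF)).2
  have hu : ∀ e : Λ⟦X⟧, e ≠ 0 → IsUnit (algebraMap Λ⟦X⟧ (FractionRing (QR F)) e) := fun e he =>
    IsLocalization.map_units (FractionRing (QR F)) ⟨_, D.alg_mem_nonZeroDivisors hF he⟩
  obtain ⟨ρ, h1, h2, h3, h4, h5⟩ := D.exists_rho hw hw0 hF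
    (S := integralClosure (QR F) (FractionRing (QR F)))
    (fun a b h => IsFractionRing.injective (QR F) (FractionRing (QR F)) (congrArg Subtype.val h))
    (fun c hc ξ h => Subtype.ext ((IsLocalization.map_units (FractionRing (QR F))
      (⟨c, hc⟩ : (QR F)⁰)).mul_right_eq_zero.mp (congrArg Subtype.val h)))
    hdn (fun ξ => (hd ξ ξ.2).imp fun a ha => Subtype.ext ha)
    (fun ξ a h => by
      obtain ⟨w', hw'⟩ := (hu _ (prime_C hw hw0).ne_zero).exists_right_inv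
      have e1 : algebraMap Λ⟦X⟧ (FractionRing (QR F)) (C w) * (w' * ξ) = ξ := by
        rw [← mul_assoc, hw', one_mul]
      have e0 : algebraMap Λ⟦X⟧ (FractionRing (QR F)) (C w) * algebraMap (QR F) _ a =
          algebraMap Λ⟦X⟧ (FractionRing (QR F)) d * ξ := by
        refine Eq.trans ?_ (congrArg Subtype.val h)
        rw [Algebra.smul_def w a, map_mul, IsScalarTower.algebraMap_apply Λ Λ⟦X⟧ (QR F)]
        rfl
      have e2 : algebraMap Λ⟦X⟧ (FractionRing (QR F)) d * (w' * ξ) = algebraMap (QR F) _ a := by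
        linear_combination (-w') * e0 + (algebraMap (QR F) (FractionRing (QR F)) a) * hw'
      have e3 := isIntegral_of_two hu (prime_C hw hw0)
        (fun h => by rw [C_dvd_iff hw, hdn] at h; exact pow_ne_zero n X_ne_zero h)
        (ζ := w' * ξ) (by rw [e1]; exact isIntegral_trans _ ξ.2)
        (by rw [e2]; exact isIntegral_trans _ isIntegral_algebraMap)
      refine ⟨⟨w' * ξ, e3.tower_top⟩, Subtype.ext (Eq.trans ?_ e1)⟩
      change w • (w' * (ξ : FractionRing (QR F))) = _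
      rw [Algebra.smul_def, IsScalarTower.algebraMap_apply Λ Λ⟦X⟧ (FractionRing (QR F))]
      rfl)
  refine ⟨h2.1, fun hq => ?_⟩
  obtain ⟨σ, hσ⟩ := D.exists_split ρ h1 (h2.2 hq) h3 h4 (fun h => by rw [← D.nur_alg hF, ← h5]; rfl)
  let ν : P2 Λ →ₐ[Λ] (Fin D.r → Λ⟦X⟧) := (σ.comp (IsScalarTower.toAlgHom Λ (QR F) _)).comp
    (Ideal.Quotient.mkₐ Λ _)
  have hν : ∀ h, mapN (rho K Λ) (ν h) = nu K D.x D.y (MvPowerSeries.map (rho K Λ) h) :=
    fun h => (hσ _).trans (h5 _)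
  have hL : D.IsLift (ν (MvPowerSeries.X 0)) (ν (MvPowerSeries.X 1)) :=
    ⟨by rw [hν, MvPowerSeries.map_X, D.isLift_self.nuX],
      by rw [hν, MvPowerSeries.map_X, D.isLift_self.nuY]⟩
  refine ⟨_, _, hL, ?_⟩
  funext i
  have hv := vec_mem (hL.memX i) (hL.memY i)
  have := algHom_ext (JJ (mx K Λ)) (evJ K ![ν (MvPowerSeries.X 0) i, ν (MvPowerSeries.X 1) i])
    ((Pi.evalAlgHom Λ _ i).comp ν) (fun j => by
      rw [evJ_X hv]; fin_cases j <;> rfl) (fun j => by rw [evJ_X hv]; exact hv j)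
  rw [nu_apply, this]
  change σ (algebraMap (QR F) _ (Ideal.Quotient.mk _ F)) i = 0
  rw [Ideal.Quotient.eq_zero_iff_mem.mpr (Ideal.mem_span_singleton_self F), map_zero, map_zero]
  rfl

end Pool.Agent.MP_f5cee0_ag.H4
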