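import Pool.Agent.MP_f5cee0_ag.H4.Equi

/-!
Behaviour of the delta invariant of the generic fibre under algebraic field extensions.
-/

namespace Pool.Agent.MP_f5cee0_ag.H4

open PowerSeries
open scoped nonZeroDivisors TensorProduct

universe u

/-- There are `n` fractions integral over `A` that are independent modulo `A`. -/
def Ind (n : ℕ) (k A : Type u) [CommRing k] [CommRing A] [Algebra k A] : Prop :=
  ∃ (b : A) (a : Fin n → A) (m : Fin n → ℕ) (c : ∀ i, Fin (m i) → A), b ∈ A⁰ ∧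
    (∀ i, a i ^ m i + ∑ j, c i j * a i ^ (j : ℕ) * b ^ (m i - j) = 0) ∧
    ∀ (l : Fin n → k) (z : A), ∑ i, l i • a i = b * z → l = 0

lemma pow_mul_eq {Q : Type*} [CommRing Q] (b ξ : Q) {m : ℕ} (c : Fin m → Q) :
    b ^ m * (ξ ^ m + ∑ j, c j * ξ ^ (j : ℕ)) =
      (b * ξ) ^ m + ∑ j, c j * (b * ξ) ^ (j : ℕ) * b ^ (m - j) := by
  rw [mul_add, mul_pow, Finset.mul_sum]
  congr 1
  refine Finset.sum_congr rfl fun j _ => ?_
  have : b ^ m = b ^ (j : ℕ) * b ^ (m - j) := by rw [← pow_add, Nat.add_sub_cancel' j.2.le]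
  rw [this, mul_pow]; ring

lemma ind_iff {n : ℕ} {k A : Type u} [CommRing k] [Nontrivial k] [CommRing A] [Algebra k A] :
    (n : Cardinal) ≤ qrank k A (integralClosure A (FractionRing A)) ↔ Ind n k A := by
  rw [qrank, Module.le_rank_iff]
  let R := LinearMap.range (Algebra.linearMap A (integralClosure A (FractionRing A)))
  have hi := IsFractionRing.injective A (FractionRing A)
  have hsum : ∀ (l : Fin n → k) (ξ : Fin n → integralClosure A (FractionRing A)),
      ∑ i, l i • R.mkQ (ξ i) = 0 ↔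
        ∃ z, algebraMap A (FractionRing A) z = ∑ i, l i • (ξ i : FractionRing A) := by
    intro l ξ
    have e1 : ∑ i, l i • R.mkQ (ξ i) = R.mkQ (∑ i, l i • ξ i) := by
      rw [map_sum]; rfl
    have e2 : ((∑ i, l i • ξ i : integralClosure A (FractionRing A)) : FractionRing A) =
        ∑ i, l i • (ξ i : FractionRing A) := by
      rw [AddSubmonoidClass.coe_finsetSum]; rfl
    rw [e1, Submodule.mkQ_apply, Submodule.Quotient.mk_eq_zero, ← e2]
    exact ⟨fun ⟨z, hz⟩ => ⟨z, congrArg Subtype.val hz⟩, fun ⟨z, hz⟩ => ⟨z, Subtype.ext hz⟩⟩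
  have hs : ∀ (l : k) (a : A), algebraMap A (FractionRing A) (l • a) =
      l • algebraMap A (FractionRing A) a := fun l a => by
    rw [Algebra.smul_def, Algebra.smul_def, map_mul, ← IsScalarTower.algebraMap_apply]
  constructor
  · rintro ⟨v, hv⟩
    choose ξ hξ using fun i => R.mkQ_surjective (v i)
    obtain ⟨⟨b, hb⟩, hb'⟩ := IsLocalization.exist_integer_multiples_of_finite A⁰
      fun i => (ξ i : FractionRing A)
    choose a ha using hb'
    simp only [Algebra.smul_def] at ha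
    choose p hp hp' using fun i => (ξ i).2
    refine ⟨b, a, fun i => (p i).natDegree, fun i j => (p i).coeff j, hb, fun i => hi ?_,
      fun l z h => ?_⟩
    · have h1 := hp' i
      rw [← Polynomial.aeval_def, Polynomial.aeval_eq_sum_range, Finset.sum_range_succ,
        (hp i).coeff_natDegree, one_smul, Finset.sum_range, add_comm] at h1
      simp only [Algebra.smul_def] at h1
      simp only [map_add, map_sum, map_mul, map_pow, ha, map_zero]
      rw [← pow_mul_eq, h1, mul_zero]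
    · refine funext (Fintype.linearIndependent_iff.mp hv l ?_)
      simp only [← hξ]
      refine (hsum l ξ).mpr ⟨z, (IsLocalization.map_units (FractionRing A)
        (⟨b, hb⟩ : A⁰)).mul_left_cancel ?_⟩
      rw [← map_mul, ← h, map_sum, Finset.mul_sum]
      simp only [hs, ha, mul_smul_comm]
  · rintro ⟨b, a, m, c, hb, h1, h2⟩
    have hu := IsLocalization.map_units (FractionRing A) (⟨b, hb⟩ : A⁰)
    obtain ⟨b', hb'⟩ := hu.exists_right_inv
    have ha : ∀ i, algebraMap A (FractionRing A) b * (b' * algebraMap A _ (a i)) =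
        algebraMap A _ (a i) := fun i => by rw [← mul_assoc, hb', one_mul]
    have hint : ∀ i, IsIntegral A (b' * algebraMap A (FractionRing A) (a i)) := fun i => by
      refine ⟨Polynomial.X ^ m i + ∑ j, Polynomial.C (c i j) * Polynomial.X ^ (j : ℕ),
        Polynomial.monic_X_pow_add (Polynomial.degree_sum_fin_lt _), ?_⟩
      apply (hu.pow (m i)).mul_left_cancel
      have := congrArg (algebraMap A (FractionRing A)) (h1 i)
      simp only [map_add, map_sum, map_mul, map_pow, map_zero] at this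
      simp only [Polynomial.eval₂_add, Polynomial.eval₂_finsetSum, Polynomial.eval₂_mul,
        Polynomial.eval₂_X_pow, Polynomial.eval₂_C, mul_zero]
      rw [pow_mul_eq, ha, this]
    refine ⟨fun i => R.mkQ ⟨_, hint i⟩, Fintype.linearIndependent_iff.mpr fun l hl => ?_⟩
    obtain ⟨z, hz⟩ := (hsum l _).mp hl
    refine congrFun (h2 l z (hi ?_))
    rw [map_mul, hz, map_sum, Finset.mul_sum]
    simp only [hs, mul_smul_comm, ha]

lemma Ind.up {n : ℕ} {k A : Type u} [CommRing k] [CommRing A] [Algebra k A] (h : Ind n k A)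
    (L : Type u) [CommRing L] [Algebra k L] [Module.Flat k L] : Ind n L (L ⊗[k] A) := by
  obtain ⟨b, a, m, c, hb, h1, h2⟩ := h
  refine ⟨1 ⊗ₜ b, fun i => 1 ⊗ₜ a i, m, fun i j => 1 ⊗ₜ c i j, ?_, fun i => ?_, fun l z h => ?_⟩
  · have hinj : Function.Injective (LinearMap.mulLeft k b) := by
      rw [injective_iff_map_eq_zero]
      exact mem_nonZeroDivisors_iff_left.mp hb
    have h3 := Module.Flat.lTensor_preserves_injective_linearMap (M := L) _ hinj
    have h4 : ∀ z : L ⊗[k] A, (1 ⊗ₜ b) * z = (LinearMap.mulLeft k b).lTensor L z := by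
      intro z
      induction z using TensorProduct.induction_on with
      | zero => simp
      | add x y hx hy => rw [mul_add, map_add, hx, hy]
      | tmul x y => simp
    rw [mem_nonZeroDivisors_iff_left]
    intro z hz
    exact h3 (by rw [← h4, hz, map_zero])
  · have := congrArg (Algebra.TensorProduct.includeRight (R := k) (A := L)) (h1 i)
    simpa only [map_add, map_sum, map_mul, map_pow, map_zero,
      Algebra.TensorProduct.includeRight_apply] using this
  · let q := Ideal.Quotient.mkₐ k (Ideal.span {b})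
    have h3 : LinearIndependent k fun i => q (a i) := by
      refine Fintype.linearIndependent_iff.mpr fun l hl => ?_
      simp only [← map_smul, ← map_sum] at hl
      obtain ⟨z, hz⟩ := Ideal.mem_span_singleton.mp (Ideal.Quotient.eq_zero_iff_mem.mp hl)
      exact congrFun (h2 l z hz)
    refine funext (Fintype.linearIndependent_iff.mp
      (Module.Flat.linearIndependent_one_tmul (S := L) h3) l ?_)
    have h4 := congrArg (Algebra.TensorProduct.map (AlgHom.id L L) q) h
    have h5 : q b = 0 := Ideal.Quotient.eq_zero_iff_mem.mpr (Ideal.mem_span_singleton_self b)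
    simpa only [map_sum, map_smul, map_mul, Algebra.TensorProduct.map_tmul, h5,
      TensorProduct.tmul_zero, zero_mul, AlgHom.id_apply] using h4

lemma Ind.down {n : ℕ} {L T : Type u} [CommRing L] [CommRing T] [Algebra L T] (h : Ind n L T) :
    ∃ S : Set T, S.Finite ∧ ∀ (L' T' : Type u) [CommRing L'] [CommRing T'] [Algebra L' T']
      (ι : L' →+* L) (φ : T' →+* T), Function.Injective ι → Function.Injective φ →
      (∀ l t, φ (l • t) = ι l • φ t) → S ⊆ Set.range φ → Ind n L' T' := by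
  obtain ⟨b, a, m, c, hb, h1, h2⟩ := h
  refine ⟨{b} ∪ Set.range a ∪ Set.range (fun p : Σ i, Fin (m i) => c p.1 p.2),
    ((Set.finite_singleton b).union (Set.finite_range _)).union (Set.finite_range _),
    fun L' T' _ _ _ ι φ hι hφ hs hS => ?_⟩
  obtain ⟨b', rfl⟩ := hS (Or.inl (Or.inl rfl))
  choose a' ha' using fun i => hS (Or.inl (Or.inr ⟨i, rfl⟩))
  choose c' hc' using fun i j => hS (Or.inr ⟨⟨i, j⟩, rfl⟩)
  refine ⟨b', a', m, c', ?_, fun i => hφ ?_, fun l z h => ?_⟩
  · rw [mem_nonZeroDivisors_iff_left] at hb ⊢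
    exact fun z hz => hφ ((hb _ (by rw [← map_mul, hz, map_zero])).trans (map_zero φ).symm)
  · simp only [map_add, map_sum, map_mul, map_pow, map_zero, ha', hc', h1]
  · have := congrArg φ h
    simp only [map_sum, map_mul, hs, ha'] at this
    funext i
    exact hι ((congrFun (h2 _ _ this) i).trans (map_zero ι).symm)

section basechange

variable {Λ Λ' : Type u} [CommRing Λ] [CommRing Λ'] [Algebra Λ Λ']

lemma exists_baseChange [Module.Free Λ Λ'] [Module.Finite Λ Λ'] (F : P2 Λ) :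
    Nonempty (Λ' ⊗[Λ] QR F ≃ₐ[Λ'] QR (MvPowerSeries.map (algebraMap Λ Λ') F)) := by
  classical
  let s := MvPowerSeries.map (σ := Fin 2) (algebraMap Λ Λ')
  let e := Module.Free.chooseBasis Λ Λ'
  have hdec : ∀ h : P2 Λ', ∃ q : _ → P2 Λ, h = ∑ i, MvPowerSeries.C (e i) * s (q i) := by
    intro h
    refine ⟨fun i d => e.repr (MvPowerSeries.coeff d h) i, ?_⟩
    ext d
    rw [map_sum]
    conv_lhs => rw [← e.sum_repr (MvPowerSeries.coeff d h)]
    refine Finset.sum_congr rfl fun i _ => ?_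
    rw [MvPowerSeries.coeff_C_mul, MvPowerSeries.coeff_map, Algebra.smul_def, mul_comm]
    rfl
  have huniq : ∀ q : _ → P2 Λ, ∑ i, MvPowerSeries.C (e i) * s (q i) = 0 → ∀ i, q i = 0 := by
    intro q hq i
    ext d
    have := congrArg (MvPowerSeries.coeff d) hq
    rw [map_sum, map_zero] at this
    refine Fintype.linearIndependent_iff.mp e.linearIndependent
      (fun i => MvPowerSeries.coeff d (q i)) (Eq.trans ?_ this) i
    refine Finset.sum_congr rfl fun i _ => ?_
    rw [MvPowerSeries.coeff_C_mul, MvPowerSeries.coeff_map, Algebra.smul_def, mul_comm]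
  let ψ : QR F →ₐ[Λ] QR (s F) :=
    { Ideal.quotientMap (Ideal.span {s F}) s (by
        rw [Ideal.span_le, Set.singleton_subset_iff]
        exact Ideal.mem_span_singleton_self (s F)) with
      commutes' := fun r => congrArg (Ideal.Quotient.mk _) 
        ((MvPowerSeries.map_C (algebraMap Λ Λ') r).trans
          (MvPowerSeries.algebraMap_apply (R := Λ) (A := Λ') (r := r)).symm) }
  let θ : Λ' ⊗[Λ] QR F →ₐ[Λ'] QR (s F) :=
    Algebra.TensorProduct.lift (Algebra.ofId Λ' _) ψ fun _ _ => .all _ _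
  have hθ : ∀ q : _ → P2 Λ, θ (∑ i, e i ⊗ₜ Ideal.Quotient.mk _ (q i)) =
      Ideal.Quotient.mk _ (∑ i, MvPowerSeries.C (e i) * s (q i)) := by
    intro q
    rw [map_sum, map_sum]
    rfl
  have hgen : ∀ z : Λ' ⊗[Λ] QR F, ∃ q : _ → P2 Λ, z = ∑ i, e i ⊗ₜ Ideal.Quotient.mk _ (q i) := by
    intro z
    induction z using TensorProduct.induction_on with
    | zero => exact ⟨0, by simp⟩
    | add x y hx hy =>
      obtain ⟨q, rfl⟩ := hx
      obtain ⟨q', rfl⟩ := hy
      exact ⟨q + q', by simp [TensorProduct.tmul_add, Finset.sum_add_distrib]⟩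
    | tmul x y =>
      obtain ⟨y, rfl⟩ := Ideal.Quotient.mk_surjective y
      refine ⟨fun i => e.repr x i • y, ?_⟩
      conv_lhs => rw [← e.sum_repr x, TensorProduct.sum_tmul]
      exact Finset.sum_congr rfl fun i _ => TensorProduct.smul_tmul _ _ _
  refine ⟨AlgEquiv.ofBijective θ ⟨?_, fun a => ?_⟩⟩
  · rw [injective_iff_map_eq_zero]
    intro z hz
    obtain ⟨q, rfl⟩ := hgen z
    rw [hθ, Ideal.Quotient.eq_zero_iff_mem, Ideal.mem_span_singleton'] at hz
    obtain ⟨c, hc⟩ := hz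
    obtain ⟨c, rfl⟩ := hdec c
    have := huniq (fun i => q i - c i * F) (by
      simp only [map_sub, map_mul, mul_sub, Finset.sum_sub_distrib, ← hc, Finset.sum_mul,
        mul_assoc, sub_self])
    refine Finset.sum_eq_zero fun i _ => ?_
    rw [Ideal.Quotient.eq_zero_iff_mem.mpr (Ideal.mem_span_singleton'.mpr
      ⟨c i, (sub_eq_zero.mp (this i)).symm⟩), TensorProduct.tmul_zero]
  · obtain ⟨a, rfl⟩ := Ideal.Quotient.mk_surjective a
    obtain ⟨q, rfl⟩ := hdec a
    exact ⟨_, hθ q⟩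

end basechange

lemma exists_descent_hom {Λ Λ' Ω : Type u} [CommRing Λ] [IsDomain Λ] [IsPrincipalIdealRing Λ]
    [CommRing Λ'] [IsDomain Λ'] [Field Ω] [Algebra Λ Ω] (s : Λ →+* Λ') (hs : Function.Injective s)
    (hfin : s.Finite) (ι : FractionRing Λ' →+* Ω)
    (hι : ∀ r, ι (algebraMap Λ' _ (s r)) = algebraMap Λ Ω r) (F : P2 Λ)
    [Module.IsTorsionFree Λ (QR F)] :
    ∃ φ : FractionRing Λ' ⊗[Λ'] QR (MvPowerSeries.map s F) →+* Ω ⊗[Λ] QR F,
      Function.Injective φ ∧ (∀ l t, φ (l • t) = ι l • φ t) ∧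
      ∀ l x, ι l ⊗ₜ x ∈ Set.range φ := by
  let := s.toAlgebra
  have : Module.Finite Λ Λ' := hfin
  have : FaithfulSMul Λ Λ' := (faithfulSMul_iff_algebraMap_injective Λ Λ').mpr hs
  obtain ⟨e⟩ := exists_baseChange (Λ' := Λ') F
  let E : FractionRing Λ' ⊗[Λ'] QR (MvPowerSeries.map s F) ≃ₐ[FractionRing Λ']
      FractionRing Λ' ⊗[Λ] QR F :=
    (Algebra.TensorProduct.congr AlgEquiv.refl e.symm).trans
      (Algebra.TensorProduct.cancelBaseChange Λ Λ' (FractionRing Λ') (FractionRing Λ') (QR F))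
  let ι' : FractionRing Λ' →ₐ[Λ] Ω := { ι with commutes' := hι }
  let ψ := Algebra.TensorProduct.map ι' (AlgHom.id Λ (QR F))
  have hψ : Function.Injective ψ :=
    Module.Flat.rTensor_preserves_injective_linearMap (M := QR F) ι'.toLinearMap ι.injective
  have hψs : ∀ (l : FractionRing Λ') t, ψ (l • t) = ι l • ψ t := by
    intro l t
    induction t using TensorProduct.induction_on with
    | zero => simp
    | add x y hx hy => rw [smul_add, map_add, map_add, hx, hy, smul_add]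
    | tmul x y =>
      rw [TensorProduct.smul_tmul', Algebra.TensorProduct.map_tmul,
        Algebra.TensorProduct.map_tmul, TensorProduct.smul_tmul', smul_eq_mul, map_mul]
      rfl
  refine ⟨ψ.toRingHom.comp E.toRingEquiv.toRingHom, hψ.comp E.injective, fun l t => ?_,
    fun l x => ⟨E.symm (l ⊗ₜ x), ?_⟩⟩
  · exact (congrArg ψ (map_smul E l t)).trans (hψs l _)
  · exact congrArg ψ (E.apply_symm_apply _)

variable {K : Type u} [Field K]

lemma finite_to_ps {Λ : Type u} [CommRing Λ] [Algebra K Λ] [CBase K Λ] (s : Λ →ₐ[K] K⟦X⟧) {r : Λ}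
    (hr : r ∈ mx K Λ) (hr' : s r ≠ 0) : s.toRingHom.Finite := by
  let := s.toRingHom.toAlgebra
  have : IsScalarTower K Λ K⟦X⟧ := IsScalarTower.of_algebraMap_eq fun c => (s.commutes c).symm
  let I := (mx K Λ).map (algebraMap Λ K⟦X⟧)
  have hI : I ≤ mx K K⟦X⟧ := Ideal.map_le_iff_le_comap.mpr fun a ha => algHom_mem_mx s ha
  obtain ⟨N, v, hN, hv⟩ := exists_X_pow_mul hr'
  have h1 : Module.Finite K (K⟦X⟧ ⧸ I) :=
    finite_of_nilpotent (σ := Unit) (K := K) (T := K⟦X⟧ ⧸ I)
      (Ideal.Quotient.mkₐ K I) Ideal.Quotient.mk_surjective N fun h hh => by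
        apply Ideal.Quotient.eq_zero_iff_mem.mpr
        have e : XI Unit K = Ideal.span {(X : K⟦X⟧)} := (mx_mv K Unit).symm.trans (mx_ps K)
        rw [e, Ideal.span_singleton_pow] at hh
        refine (Ideal.span_singleton_le_iff_mem I).mpr ?_ hh
        rw [← Ideal.mul_unit_mem_iff_mem I (isUnit_iff_constantCoeff.mpr (IsUnit.mk0 _ hv)), ← hN]
        exact Ideal.mem_map_of_mem _ hr
  have h2 : IsHausdorff (mx K Λ) K⟦X⟧ :=
    ⟨fun x hx => haus_zero (mx K K⟦X⟧) fun n => by
      have := SModEq.zero.mp (hx n)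
      rw [Ideal.smul_top_eq_map, Submodule.restrictScalars_mem, Ideal.map_pow] at this
      exact self_mem_smul_top.mpr (Ideal.pow_right_mono hI n this)⟩
  exact finite_of_quot (K := K) (Λ := Λ) _ h1

lemma exists_lift_to_closed {O Λ' Ω : Type u} [CommRing O] [IsDomain O] [CommRing Λ'] [IsDomain Λ']
    [Field Ω] [IsAlgClosed Ω] (i : O →+* Ω) (hi : Function.Injective i) (j : O →+* Λ')
    (hj : Function.Injective j) (hfin : j.Finite) :
    ∃ ι : FractionRing Λ' →+* Ω, ∀ o, ι (algebraMap Λ' _ (j o)) = i o := by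
  let := i.toAlgebra
  let := j.toAlgebra
  have : Module.Finite O Λ' := hfin
  have : FaithfulSMul O Ω := (faithfulSMul_iff_algebraMap_injective O Ω).mpr hi
  have : FaithfulSMul O (FractionRing Λ') :=
    (faithfulSMul_iff_algebraMap_injective O _).mpr
      ((IsFractionRing.injective Λ' (FractionRing Λ')).comp hj)
  have : Algebra.IsAlgebraic Λ' (FractionRing Λ') := IsLocalization.isAlgebraic _ Λ'⁰
  have : Algebra.IsAlgebraic O (FractionRing Λ') := Algebra.IsAlgebraic.trans O Λ' _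
  let ι : FractionRing Λ' →ₐ[O] Ω := IsAlgClosed.lift
  exact ⟨ι.toRingHom, ι.commutes⟩

lemma exists_finite_level [IsAlgClosed K] (p : ℕ) [ExpChar K p] {Ω : Type u} [Field Ω]
    [IsAlgClosed Ω] [Algebra K⟦X⟧ Ω] [FaithfulSMul K⟦X⟧ Ω] [Algebra.IsAlgebraic K⟦X⟧ Ω]
    {S : Set Ω} (hS : S.Finite) : ∃ (s : K⟦X⟧ →ₐ[K] K⟦X⟧) (ι : FractionRing K⟦X⟧ →+* Ω),
      Function.Injective s ∧ (∀ r, ι (algebraMap K⟦X⟧ _ (s r)) = algebraMap K⟦X⟧ Ω r) ∧
      S ⊆ Set.range ι := by
  choose r hr hr' using fun l : Ω =>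
    (Algebra.IsAlgebraic.isAlgebraic (R := K⟦X⟧) l).exists_integral_multiple
  let O := Algebra.adjoin K⟦X⟧ ((fun l => r l • l) '' S)
  have : Module.Finite K⟦X⟧ O := .of_fg (fg_adjoin_of_finite (hS.image _) (by
    rintro _ ⟨l, -, rfl⟩; exact hr' l))
  have hinj : Function.Injective (algebraMap K⟦X⟧ O) := fun a b h =>
    FaithfulSMul.algebraMap_injective K⟦X⟧ Ω (congrArg Subtype.val h)
  have : FaithfulSMul K⟦X⟧ O := (faithfulSMul_iff_algebraMap_injective _ _).mpr hinj
  let : Algebra K O := Algebra.compHom O (algebraMap K K⟦X⟧)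
  have : IsScalarTower K K⟦X⟧ O := IsScalarTower.of_algebraMap_eq fun _ => rfl
  obtain ⟨j, hj⟩ := exists_embedding_ps K O p
  let s := j.comp (IsScalarTower.toAlgHom K K⟦X⟧ O)
  have hs : Function.Injective s := hj.comp hinj
  have hfin := finite_to_ps s (r := X) (by simp [mem_mx, rho_ps])
    fun h => X_ne_zero (hs (h.trans (map_zero s).symm))
  obtain ⟨ι, hι⟩ := exists_lift_to_closed O.val.toRingHom Subtype.val_injective j.toRingHom hj
    (RingHom.Finite.of_comp_finite (f := algebraMap K⟦X⟧ O) hfin)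
  refine ⟨s, ι, hs, fun a => hι _, fun l hl => ?_⟩
  refine ⟨algebraMap K⟦X⟧ _ (j ⟨r l • l, Algebra.subset_adjoin ⟨l, hl, rfl⟩⟩) /
    algebraMap K⟦X⟧ _ (s (r l)), ?_⟩
  have h1 : ι (algebraMap K⟦X⟧ _ (s (r l))) = algebraMap K⟦X⟧ Ω (r l) := hι _
  have h2 : ι (algebraMap K⟦X⟧ _ (j ⟨r l • l, Algebra.subset_adjoin ⟨l, hl, rfl⟩⟩)) = r l • l :=
    hι _
  rw [map_div₀, h1, h2, Algebra.smul_def, mul_div_cancel_left₀]
  simpa using hr l

theorem exists_descent [IsAlgClosed K] (p : ℕ) [ExpChar K p] (L : Type u) [Field L]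
    [Algebra K⟦X⟧ L] [FaithfulSMul K⟦X⟧ L] [Algebra.IsAlgebraic K⟦X⟧ L] (F : P2 K⟦X⟧)
    [Module.IsTorsionFree K⟦X⟧ (QR F)] {n : ℕ} (h : (n : Cardinal) ≤ delta L (L ⊗[K⟦X⟧] QR F)) :
    ∃ s : K⟦X⟧ →ₐ[K] K⟦X⟧, Function.Injective s ∧ (n : Cardinal) ≤ delta (FractionRing K⟦X⟧)
      (FractionRing K⟦X⟧ ⊗[K⟦X⟧] QR (MvPowerSeries.map s.toRingHom F)) := by
  let Ω := AlgebraicClosure L
  have : FaithfulSMul K⟦X⟧ Ω := (faithfulSMul_iff_algebraMap_injective _ _).mpr
    ((algebraMap L Ω).injective.comp (FaithfulSMul.algebraMap_injective K⟦X⟧ L))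
  have : Algebra.IsAlgebraic K⟦X⟧ Ω := Algebra.IsAlgebraic.trans K⟦X⟧ L Ω
  have h1 := ind_iff.mpr ((ind_iff.mp h).up Ω)
  rw [← delta_eq_qrank,
    delta_congr (Algebra.TensorProduct.cancelBaseChange K⟦X⟧ L Ω Ω (QR F))] at h1
  obtain ⟨S, hS, H⟩ := (ind_iff.mp h1).down
  choose t ht using fun z : Ω ⊗[K⟦X⟧] QR F => TensorProduct.exists_finset z
  obtain ⟨s, ι, hs, hι, hι'⟩ := exists_finite_level p (K := K)
    (S := ⋃ z ∈ S, Prod.fst '' (t z : Set (Ω × QR F)))
    (hS.biUnion fun z _ => (t z).finite_toSet.image _)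
  obtain ⟨φ, h2, h3, h4⟩ := exists_descent_hom s.toRingHom hs
    (finite_to_ps s (r := X) (by simp [mem_mx, rho_ps])
      fun h => X_ne_zero (hs (h.trans (map_zero s).symm))) ι hι F
  refine ⟨s, hs, ind_iff.mpr (H _ _ ι φ ι.injective h2 h3 fun z hz => ?_)⟩
  rw [ht z]
  refine φ.rangeS.sum_mem fun q hq => ?_
  obtain ⟨l, hl⟩ := hι' (Set.mem_biUnion hz ⟨q, hq, rfl⟩)
  rw [← hl]
  exact h4 l q.2

end Pool.Agent.MP_f5cee0_ag.H4
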