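import Pool.Agent.MP_f5cee0_ag.H4.Norm

/-!
An arc whose generic parametrisation is an immersion, and vanishing of relative derivations there.
-/

namespace Pool.Agent.MP_f5cee0_ag.H4

open PowerSeries

universe u

variable {K : Type u} [Field K] {f : P2 K} {D : Data f}
variable {Λ : Type u} [CommRing Λ] [Algebra K Λ] [CBase K Λ]
variable {τ : ℕ} {g : Fin τ → P2 K}

lemma ps_isUnit_of_red {h : Λ⟦X⟧} (hh : constantCoeff (PowerSeries.map (rho K Λ) h) ≠ 0) :
    IsUnit h := by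
  rw [isUnit_iff_constantCoeff]
  apply isUnit_of_rho (K := K)
  rwa [← coeff_zero_eq_constantCoeff_apply, coeff_map, coeff_zero_eq_constantCoeff_apply] at hh

/-- the parametrisation is an immersion away from `w = 0` -/
def Imm (w : Λ) {r : ℕ} (X Y : Fin r → Λ⟦X⟧) : Prop :=
  ∀ i, ∃ N : ℕ, C w ^ N ∈ Ideal.span {d⁄dX Λ (X i), d⁄dX Λ (Y i)}

lemma Data.imm_start (D : Data f) {w : Λ} (hw : w ∈ mx K Λ) :
    Imm w (lf Λ D.x) (lf Λ D.y + fun _ => C w * X) := by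
  intro i
  have h1 : d⁄dX Λ (lf Λ D.x i) = X ^ D.k i * PowerSeries.map (algebraMap K Λ) (D.v i) := by
    rw [mapN_apply, ← map_derivative, D.hk, map_mul, map_pow, map_X]
  have h2 : d⁄dX Λ ((lf Λ D.y + fun _ => C w * X : Fin D.r → Λ⟦X⟧) i) =
      C w - -PowerSeries.map (algebraMap K Λ) (d⁄dX K (D.y i)) := by
    rw [Pi.add_apply, mapN_apply, map_add, ← map_derivative, Derivation.leibniz]
    simp [add_comm]
  rw [h1, h2]
  by_cases hy : constantCoeff (d⁄dX K (D.y i)) = 0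
  · refine ⟨D.k i, ?_⟩
    obtain ⟨y', hy'⟩ := X_dvd_iff.mpr hy
    obtain ⟨v', hv'⟩ := (ps_isUnit_of_red (K := K) (h := PowerSeries.map (algebraMap K Λ) (D.v i))
      (by rw [ps_red_lift]; exact D.hv i)).exists_right_inv
    obtain ⟨q, hq⟩ := sub_dvd_pow_sub_pow (C w)
      (-PowerSeries.map (algebraMap K Λ) (d⁄dX K (D.y i))) (D.k i)
    rw [Ideal.mem_span_pair]
    refine ⟨v' * (-PowerSeries.map (algebraMap K Λ) y') ^ D.k i, q, ?_⟩
    rw [mul_comm q, ← hq, hy', map_mul, map_X, ← mul_neg, mul_pow]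
    linear_combination (X ^ D.k i * (-PowerSeries.map (algebraMap K Λ) y') ^ D.k i) * hv'
  · refine ⟨0, ?_⟩
    obtain ⟨v', hv'⟩ := (ps_isUnit_of_red (K := K)
      (h := C w - -PowerSeries.map (algebraMap K Λ) (d⁄dX K (D.y i)))
      (by simpa [mem_mx.mp hw] using hy)).exists_left_inv
    rw [Ideal.mem_span_pair]
    exact ⟨0, v', by rw [hv']; simp⟩

lemma Data.IsLift.imm_add {X Y : Fin D.r → Λ⟦X⟧} (hL : D.IsLift X Y) {w : Λ} (h : Imm w X Y)
    {α β : P2 Λ} (hα : α ∈ (mx K Λ • ⊤ : Submodule Λ (P2 Λ)))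
    (hβ : β ∈ (mx K Λ • ⊤ : Submodule Λ (P2 Λ))) :
    Imm w (X + nu K X Y α) (Y + nu K X Y β) := by
  intro i
  obtain ⟨N, hN⟩ := h i
  refine ⟨N, Ideal.span_le.mpr ?_ hN⟩
  have hz : ∀ j, ∀ γ ∈ (mx K Λ • ⊤ : Submodule Λ (P2 Λ)),
      PowerSeries.map (rho K Λ) (nu K X Y (MvPowerSeries.pderiv Λ j γ) i) = 0 := by
    intro j γ hγ
    rw [mvps_red_iff] at hγ
    rw [← mapN_apply, hL.red_nu, map_pderiv, hγ, map_zero, map_zero, Pi.zero_apply]
  obtain ⟨e, he⟩ := (ps_isUnit_of_red (K := K)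
    (h := (1 + nu K X Y (MvPowerSeries.pderiv Λ 0 α) i) *
      (1 + nu K X Y (MvPowerSeries.pderiv Λ 1 β) i) - nu K X Y (MvPowerSeries.pderiv Λ 1 α) i *
      nu K X Y (MvPowerSeries.pderiv Λ 0 β) i)
    (by simp [hz _ _ hα, hz _ _ hβ])).exists_left_inv
  simp only [Pi.add_apply, map_add, hL.chain]
  rintro _ (rfl | rfl)
  · rw [SetLike.mem_coe, Ideal.mem_span_pair]
    refine ⟨e * (1 + nu K X Y (MvPowerSeries.pderiv Λ 1 β) i),
      -e * nu K X Y (MvPowerSeries.pderiv Λ 1 α) i, ?_⟩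
    linear_combination (d⁄dX Λ (X i)) * he
  · rw [SetLike.mem_coe, Ideal.mem_span_pair]
    refine ⟨-e * nu K X Y (MvPowerSeries.pderiv Λ 0 β) i,
      e * (1 + nu K X Y (MvPowerSeries.pderiv Λ 0 α) i), ?_⟩
    linear_combination (d⁄dX Λ (Y i)) * he

theorem Data.exists_imm (D : Data f) (hg : Spans f g) {w : Λ} (hw : w ∈ mx K Λ) :
    ∃ z : D.V τ Λ, D.IsG g z ∧ Imm w (D.GX z) (D.GY z) := by
  have hL0 : D.IsLift (lf Λ D.x) (lf Λ D.y + fun _ => C w * X) := by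
    refine ⟨mapN_red_lift _, ?_⟩
    rw [map_add, mapN_red_lift]
    funext i
    simp [mem_mx.mp hw]
  have h0 := D.imm_start hw
  generalize lf Λ D.x = X0 at hL0 h0
  generalize (lf Λ D.y + fun _ => C w * X) = Y0 at hL0 h0
  obtain ⟨⟨t, α, β⟩, hz, h1, -⟩ := hL0.solve g (M := (Fin τ → Λ) × P2 Λ × P2 Λ)
    (LinearMap.prodMap LinearMap.id
      (LinearMap.prodMap (nu K X0 Y0).toLinearMap (nu K X0 Y0).toLinearMap))
    (d := 0) 0 0 (Submodule.zero_mem _) (fun h _ => by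
      obtain ⟨c, a, b, q, rfl⟩ := hg h
      refine ⟨(fun k => algebraMap K Λ (c k), lfP Λ a, lfP Λ b), ?_, fun j => j.elim0⟩
      rw [D.LL_apply]
      simp only [LinearMap.prodMap_apply, LinearMap.id_apply, AlgHom.toLinearMap_apply, map_add,
        map_mul, map_sum, mapN_smul, mapN_red_lift, hL0.red_nu, mvps_red_lift, rho_algebraMap,
        nu_C, D.nu_f]
      ring)
  obtain ⟨ht, hab⟩ := (prod_mem_smul_top _).mp hz
  obtain ⟨hα, hβ⟩ := (prod_mem_smul_top _).mp hab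
  have h2 := hL0.imm_add h0 hα hβ
  have hL1 := hL0.add (map_mem_smul_top (nu K X0 Y0).toLinearMap hα)
    (map_mem_smul_top (nu K X0 Y0).toLinearMap hβ)
  obtain ⟨z, hz1, -, hz2⟩ := hL1.exists_G
    (fun k => self_mem_smul_top.mp ((pi_mem_smul_top (mx_fg K Λ) _).mp ht k)) h1
  refine ⟨z, hz1, fun i => ?_⟩
  obtain ⟨U, hU, hX, hY⟩ := hz2 i
  obtain ⟨N, hN⟩ := h2 i
  obtain ⟨p, q, hpq⟩ := Ideal.mem_span_pair.mp hN
  obtain ⟨p', hp'⟩ := (sbs_bij hU).2 (p * d⁄dX Λ U)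
  obtain ⟨q', hq'⟩ := (sbs_bij hU).2 (q * d⁄dX Λ U)
  refine ⟨N, Ideal.mem_span_pair.mpr ⟨p', q', (sbs_bij hU).1 ?_⟩⟩
  have hX' := congrArg (d⁄dX Λ) hX
  have hY' := congrArg (d⁄dX Λ) hY
  rw [derivative_sbs (mem_JJ_of_red_X hU)] at hX' hY'
  rw [map_add, map_mul, map_mul, hp', hq', map_pow, sbs_C, ← hpq]
  simp only [AlgHom.toLinearMap_apply] at hX' hY'
  linear_combination p * hX' + q * hY'

omit [CBase K Λ] in
lemma pderiv_Fam (j : Fin 2) (t : Fin τ → Λ) : MvPowerSeries.pderiv Λ j (Fam f g t) =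
    Fam (MvPowerSeries.pderiv K j f) (fun k => MvPowerSeries.pderiv K j (g k)) t := by
  simp only [Fam, map_add, map_sum, Derivation.leibniz, map_pderiv, smul_eq_mul,
    MvPowerSeries.pderiv_C, mul_zero, add_zero]

section deriv

variable {B : Type u} [CommRing B] [Algebra K B] [CBase K B] (β : B →ₐ[K] Λ) (δ : B →+ Λ)
  (hδ : ∀ a b, δ (a * b) = β a * δ b + β b * δ a) (hδK : ∀ c, δ (algebraMap K B c) = 0)

/-- coefficientwise extension of an additive map -/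
noncomputable def dmap (δ : B →+ Λ) : B⟦X⟧ →+ Λ⟦X⟧ where
  toFun h := PowerSeries.mk fun j => δ (coeff j h)
  map_zero' := by ext j; simp
  map_add' a b := by ext j; simp

omit [Algebra K Λ] [CBase K Λ] [Algebra K B] [CBase K B] in
lemma coeff_dmap (h : B⟦X⟧) (j : ℕ) : coeff j (dmap δ h) = δ (coeff j h) :=
  coeff_mk j fun j => δ (coeff j h)

omit [CBase K Λ] [CBase K B] in
include hδ in
lemma dmap_mul (a b : B⟦X⟧) : dmap δ (a * b) =
    PowerSeries.map β.toRingHom a * dmap δ b + PowerSeries.map β.toRingHom b * dmap δ a := by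
  ext j
  rw [mul_comm (PowerSeries.map β.toRingHom b)]
  simp only [coeff_dmap, coeff_mul, map_sum, hδ, map_add, coeff_map, Finset.sum_add_distrib]
  congr 1
  exact Finset.sum_congr rfl fun p _ => mul_comm _ _

omit [Algebra K Λ] [CBase K Λ] [Algebra K B] [CBase K B] in
lemma dmap_C (r : B) : dmap δ (C r) = C (δ r) := by
  ext j
  rw [coeff_dmap, coeff_C, coeff_C]
  split_ifs <;> simp

include hδ hδK in
lemma dmap_evJ_lfP {a : Fin 2 → B⟦X⟧} (ha : ∀ j, a j ∈ JJ (mx K B)) (h : P2 K) :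
    dmap δ (evJ K a (lfP B h)) = ∑ j, PowerSeries.map β.toRingHom
      (evJ K a (lfP B (MvPowerSeries.pderiv K j h))) * dmap δ (a j) := by
  have := deriv_congr (closed_bot (JJ (mx K Λ)))
    (((PowerSeries.map β.toRingHom).comp (evJ K a).toRingHom).comp (lfP B))
    (fun j => by
      simpa [evJ_X ha] using map_mem_JJ β.toRingHom (fun r hr => algHom_mem_mx β hr) (ha j))
    (((dmap δ).comp (evJ K a).toRingHom.toAddMonoidHom).comp (lfP B).toAddMonoidHom)
    (fun p q => by simp [dmap_mul β δ hδ])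
    (fun c => by simp [evJ_C, dmap_C, hδK]) h
  simpa [evJ_X ha, sub_eq_zero] using this

include hδ hδK in
lemma dmap_evJ_Fam {a : Fin 2 → B⟦X⟧} (ha : ∀ j, a j ∈ JJ (mx K B)) {t : Fin τ → B}
    (ht : ∀ k, δ (t k) = 0) :
    dmap δ (evJ K a (Fam f g t)) = ∑ j, PowerSeries.map β.toRingHom
      (evJ K a (MvPowerSeries.pderiv B j (Fam f g t))) * dmap δ (a j) := by
  simp only [pderiv_Fam]
  simp only [Fam, map_add, map_sum, map_mul, dmap_mul β δ hδ, evJ_C, dmap_C, ht, map_zero,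
    mul_zero, add_zero, dmap_evJ_lfP β δ hδ hδK ha, Fin.sum_univ_two, add_mul, Finset.sum_mul,
    mul_add, Finset.sum_add_distrib, mul_assoc]

include hδ hδK in
theorem Data.IsG.deriv_zero [IsDomain Λ] {w : Λ} (hw : Prime (C w : Λ⟦X⟧)) (hw' : w ∈ mx K Λ)
    {z : D.V τ B} (hz : D.IsG g z)
    (himm : Imm w (D.GX (D.mapV β.toRingHom z)) (D.GY (D.mapV β.toRingHom z)))
    (ht : ∀ k, δ (D.Gt z k) = 0) (l : D.J τ) : δ (z.1 l) = 0 := by
  rcases l with k | ⟨i, j⟩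
  · exact ht k
  have hL := (D.isLift_G hz.mem).1
  have hz' := hz.map β
  have hL' := D.isLift_G hz'.mem
  have hβ : ∀ r ∈ mx K B, β.toRingHom r ∈ mx K Λ := fun r hr => algHom_mem_mx β hr
  have h1 := dmap_evJ_Fam (f := f) (g := g) β δ hδ hδK (vec_mem (hL.memX i) (hL.memY i)) ht
  simp only [← nu_apply, ← mapN_apply, mapN_nu _ hβ hL.memX hL.memY, map_pderiv, map_Fam,
    Fin.sum_univ_two, hz.eq, Pi.zero_apply, map_zero, Matrix.cons_val_zero,
    Matrix.cons_val_one] at h1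
  rw [← D.GX_mapV, ← D.GY_mapV, ← D.Gt_mapV] at h1
  have h2 := hL'.1.chain (Fam f g (D.Gt (D.mapV β.toRingHom z))) i
  rw [hz'.eq, Pi.zero_apply, map_zero] at h2
  have h3 : nu K (D.GX (D.mapV β.toRingHom z)) (D.GY (D.mapV β.toRingHom z))
      (MvPowerSeries.pderiv Λ 1 (Fam f g (D.Gt (D.mapV β.toRingHom z)))) i ≠ 0 := by
    intro h
    apply D.hfy i
    have := congrFun (hL'.1.red_nu
      (MvPowerSeries.pderiv Λ 1 (Fam f g (D.Gt (D.mapV β.toRingHom z))))) i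
    rw [map_pderiv, red_Fam f g hL'.2, mapN_apply, h, map_zero] at this
    exact this.symm
  obtain ⟨N, hN⟩ := himm i
  obtain ⟨p, q, hpq⟩ := Ideal.mem_span_pair.mp hN
  have hred : PowerSeries.map (rho K Λ) (d⁄dX Λ (D.GX (D.mapV β.toRingHom z) i)) =
      X ^ D.k i * D.v i := by
    rw [map_derivative, ← mapN_apply, hL'.1.hX, D.hk]
  generalize d⁄dX Λ (D.GX (D.mapV β.toRingHom z) i) = X' at h2 hpq hred
  generalize d⁄dX Λ (D.GY (D.mapV β.toRingHom z) i) = Y' at h2 hpq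
  have h4 : dmap δ (D.GX z i) * Y' - dmap δ (D.GY z i) * X' = 0 := by
    refine (mul_eq_zero.mp ?_).resolve_left h3
    linear_combination X' * h1 - dmap δ (D.GX z i) * h2
  have h5 : C w ^ N * dmap δ (D.GX z i) =
      X' * (p * dmap δ (D.GX z i) + q * dmap δ (D.GY z i)) := by
    rw [← hpq]; linear_combination q * h4
  have hnd : ¬ C w ∣ X' := by
    rintro ⟨e, rfl⟩
    rw [map_mul, map_C, mem_mx.mp hw', map_zero, zero_mul, ← D.hk] at hred
    exact D.hx' i hred.symm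
  obtain ⟨h', hh'⟩ := hw.pow_dvd_of_dvd_mul_left N hnd ⟨_, h5.symm⟩
  rw [hh', mul_left_comm] at h5
  have h6 := mul_left_cancel₀ (pow_ne_zero N hw.ne_zero) h5
  have h7 : dmap δ (D.GX z i) = pol Λ (D.k i) fun j => δ (z.1 (Sum.inr ⟨i, j⟩)) := by
    have e1 : dmap δ (PowerSeries.map (algebraMap K B) (D.x i)) = 0 := by
      ext n; simp [coeff_dmap, hδK]
    have e2 : ∀ n : ℕ, dmap δ (X ^ n) = 0 := by
      intro n; ext m
      rw [coeff_dmap, coeff_X_pow]
      split_ifs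
      · simpa using hδK 1
      · simp
    rw [D.GX_apply, map_add, e1, zero_add, pol_apply, pol_apply, map_sum]
    refine Finset.sum_congr rfl fun j _ => ?_
    rw [smul_eq_C_mul, smul_eq_C_mul, dmap_mul β δ hδ, e2, dmap_C]
    simp [mul_comm]
  have h8 : divMap (D.k i) X' (-h', fun j => δ (z.1 (Sum.inr ⟨i, j⟩))) = divMap (D.k i) X' 0 := by
    rw [map_zero, divMap_apply, ← h7, h6]; ring
  exact congrFun (congrArg Prod.snd ((divMap_bij (D.hv i) hred).1 h8)) j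

end deriv

end Pool.Agent.MP_f5cee0_ag.H4
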