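import Pool.Agent.MP_f5cee0_ag.H4.Red

/-!
Deformations of the parametrisation: flatness of the cokernel and unobstructedness.
-/

namespace Pool.Agent.MP_f5cee0_ag.H4

open PowerSeries

universe u

/-- The data of a normalisation of a plane curve singularity in good coordinates. -/
structure Data {K : Type u} [Field K] (f : P2 K) where
  /-- number of branches -/
  r : ℕ
  /-- first coordinate of the parametrisation -/
  x : Fin r → K⟦X⟧
  /-- second coordinate of the parametrisation -/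
  y : Fin r → K⟦X⟧
  hx : ∀ i, constantCoeff (x i) = 0
  hy : ∀ i, constantCoeff (y i) = 0
  ker : ∀ h, nu K x y h = 0 ↔ f ∣ h
  /-- order in `y` -/
  m : ℕ
  hord : ∃ v : K⟦X⟧, IsUnit v ∧ lineHom ![0, 1] f = X ^ m * v
  weier_inj : ∀ q s, q * f + wr K m s = 0 → q = 0 ∧ s = 0
  weier_surj : ∀ h, ∃ q s, h = q * f + wr K m s
  /-- basis of the normalisation over `K[[x]]` -/
  n : Fin m → Fin r → K⟦X⟧
  hn_inj : ∀ h : Fin m → K⟦X⟧, ∑ j, nu K x y (iota K (h j)) * n j = 0 → h = 0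
  hn_surj : ∀ v, ∃ h : Fin m → K⟦X⟧, v = ∑ j, nu K x y (iota K (h j)) * n j
  /-- the delta invariant -/
  δ : ℕ
  /-- basis of a complement of the local ring in its normalisation -/
  e : Fin δ → Fin r → K⟦X⟧
  he_inj : ∀ (s : Fin m → K⟦X⟧) (c : Fin δ → K),
    nu K x y (wr K m s) + ∑ j, c j • e j = 0 → s = 0 ∧ c = 0
  he_surj : ∀ v, ∃ (s : Fin m → K⟦X⟧) (c : Fin δ → K), v = nu K x y (wr K m s) + ∑ j, c j • e j
  hfy : ∀ i, nu K x y (MvPowerSeries.pderiv K 1 f) i ≠ 0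
  hx' : ∀ i, d⁄dX K (x i) ≠ 0
  cond : ∃ a : ℕ, ∀ v, ∃ h, nu K x y h = x ^ a * v

lemma exists_pow_eq_sum {D S : Type*} [CommRing D] [CommRing S] (ξ : D →+* S) {m : ℕ}
    (n : Fin m → S) (hsurj : ∀ v, ∃ h : Fin m → D, v = ∑ j, ξ (h j) * n j) (Y : S) :
    ∃ p : Fin m → D, Y ^ m = ∑ k, ξ (p k) * Y ^ (k : ℕ) := by
  cases subsingleton_or_nontrivial S
  · exact ⟨0, Subsingleton.elim _ _⟩
  let := ξ.toAlgebra
  have hspan : Submodule.span D (Set.range n) = ⊤ := by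
    rw [eq_top_iff]
    rintro v -
    obtain ⟨h, rfl⟩ := hsurj v
    exact Submodule.sum_mem _ fun j _ =>
      Submodule.smul_mem _ (h j) (Submodule.subset_span ⟨j, rfl⟩)
  have : Module.Finite D S := ⟨hspan ▸ Submodule.fg_span (Set.finite_range n)⟩
  obtain ⟨p, hp, hdeg, hp0⟩ := LinearMap.exists_monic_and_natDegree_eq_and_aeval_eq_zero D
    (Algebra.lmul D S Y)
  have hle : p.natDegree ≤ m := by
    rw [hdeg, ← hspan]
    refine le_trans (Submodule.spanFinrank_span_le_ncard_of_finite (Set.finite_range n)) ?_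
    rw [← Set.image_univ]
    refine le_trans (Set.ncard_image_le (Set.finite_univ)) ?_
    simp [Set.ncard_univ]
  have h1 : Polynomial.aeval Y p = 0 := by
    rw [Polynomial.aeval_algHom_apply] at hp0
    have := LinearMap.congr_fun hp0 1
    simpa using this
  have : Nontrivial D := ξ.domain_nontrivial
  let q := p * Polynomial.X ^ (m - p.natDegree)
  have hq : q.Monic := hp.mul (Polynomial.monic_X_pow _)
  have hqd : q.natDegree = m := by
    rw [hp.natDegree_mul (Polynomial.monic_X_pow _), Polynomial.natDegree_X_pow]; omega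
  have h2 : Polynomial.aeval Y q = 0 := by rw [map_mul, h1, zero_mul]
  rw [Polynomial.aeval_eq_sum_range, hqd, Finset.sum_range_succ, ← hqd, hq.coeff_natDegree,
    hqd, one_smul, Finset.sum_range] at h2
  refine ⟨fun k => -q.coeff k, ?_⟩
  simp only [map_neg, neg_mul, Finset.sum_neg_distrib]
  rw [eq_neg_iff_add_eq_zero, add_comm]
  exact h2

lemma mul_mem_pow_add {Λ S : Type*} [CommRing Λ] [CommRing S] [Algebra Λ S] (𝔪 : Ideal Λ)
    {a b : ℕ} {u v : S} (hu : u ∈ (𝔪 ^ a • ⊤ : Submodule Λ S))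
    (hv : v ∈ (𝔪 ^ b • ⊤ : Submodule Λ S)) : u * v ∈ (𝔪 ^ (a + b) • ⊤ : Submodule Λ S) := by
  simp only [Ideal.smul_top_eq_map, Submodule.restrictScalars_mem] at hu hv ⊢
  rw [pow_add, Ideal.map_mul]
  exact Ideal.mul_mem_mul hu hv

lemma mul_mem_pow_succ {Λ S : Type*} [CommRing Λ] [CommRing S] [Algebra Λ S] (𝔪 : Ideal Λ)
    {b : ℕ} {u v : S} (hu : u ∈ (𝔪 • ⊤ : Submodule Λ S))
    (hv : v ∈ (𝔪 ^ b • ⊤ : Submodule Λ S)) : u * v ∈ (𝔪 ^ (b + 1) • ⊤ : Submodule Λ S) := by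
  rw [mul_comm]
  exact mul_mem_pow_add 𝔪 hv (by simpa using hu)

variable {K : Type u} [Field K] {f : P2 K} (D : Data f)

lemma lineHom_iota (h : K⟦X⟧) : lineHom ![0, 1] (iota K h) = C (constantCoeff h) := by
  have := ps_hom_ext (Ideal.span {(X : K⟦X⟧)})
    ((lineHom (K := K) ![0, 1]).toRingHom.comp (iota K).toRingHom)
    ((C : K →+* K⟦X⟧).comp constantCoeff)
    (fun r => by simp [algHom_C]) (by simp [lineHom_X]) (by simp [lineHom_X])
  exact RingHom.congr_fun this h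

lemma isUnit_of_mul_eq {m : ℕ} {v : K⟦X⟧} (hf : lineHom ![0, 1] f = X ^ m * v)
    {q : P2 K} {p : Fin m → K⟦X⟧}
    (h : MvPowerSeries.X 1 ^ m - wr K m p = q * f) : IsUnit q := by
  have h1 := congrArg (fun h => coeff m (lineHom (K := K) ![0, 1] h)) h
  simp only [map_sub, map_mul, map_pow, lineHom_X, hf, wr_apply, map_sum, lineHom_iota] at h1
  have h2 : ∑ k : Fin m, coeff m (C (constantCoeff (p k)) *
      (C ((![0, 1] : Fin 2 → K) 1) * X) ^ (k : ℕ)) = 0 := by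
    refine Finset.sum_eq_zero fun k _ => ?_
    simp [coeff_X_pow, k.2.ne']
  rw [h2, mul_left_comm, coeff_X_pow_mul'] at h1
  simp only [Matrix.cons_val_one, Matrix.cons_val_zero, map_one, one_mul, coeff_X_pow_self,
    sub_zero, le_refl, if_true, tsub_self, coeff_zero_eq_constantCoeff, map_mul] at h1
  rw [MvPowerSeries.isUnit_iff_constantCoeff, isUnit_iff_ne_zero]
  intro h0
  have h3 : constantCoeff (lineHom (K := K) ![0, 1] q) = MvPowerSeries.constantCoeff q :=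
    rho_algHom (lineHom (K := K) ![0, 1]) q
  rw [h3, h0] at h1
  simp at h1

lemma Data.isUnit_of_mul_eq {q : P2 K} {p : Fin D.m → K⟦X⟧}
    (h : MvPowerSeries.X 1 ^ D.m - wr K D.m p = q * f) : IsUnit q := by
  obtain ⟨v, -, hf⟩ := D.hord
  exact H4.isUnit_of_mul_eq hf h

variable {Λ : Type u} [CommRing Λ] [Algebra K Λ] [CBase K Λ]

/-- `(X, Y)` is a deformation over `Λ` of the parametrisation `(x, y)`. -/
structure Data.IsLift (X Y : Fin D.r → Λ⟦X⟧) : Prop where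
  hX : mapN (rho K Λ) X = D.x
  hY : mapN (rho K Λ) Y = D.y

/-- constant lift -/
noncomputable abbrev lf (Λ : Type u) [CommRing Λ] [Algebra K Λ] {r : ℕ} :
    (Fin r → K⟦X⟧) →+* (Fin r → Λ⟦X⟧) := mapN (algebraMap K Λ)

/-- constant lift -/
noncomputable abbrev lfP (Λ : Type u) [CommRing Λ] [Algebra K Λ] : P2 K →+* P2 Λ :=
  MvPowerSeries.map (algebraMap K Λ)

/-- Division map -/
noncomputable def Wm (m : ℕ) (G : P2 Λ) : (P2 Λ × (Fin m → Λ⟦X⟧)) →ₗ[Λ] P2 Λ :=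
  LinearMap.coprod (LinearMap.mulRight Λ G) (wr Λ m)

lemma Wm_apply (m : ℕ) (G : P2 Λ) (v) : Wm m G v = v.1 * G + wr Λ m v.2 := rfl

lemma Data.Wm_facts {G : P2 Λ} {u : P2 K} (hu : IsUnit u)
    (hG : MvPowerSeries.map (rho K Λ) G = u * f) :
    Function.Bijective (Wm D.m G) := by
  let Ψ0 : P2 K × (Fin D.m → K⟦X⟧) → P2 K := fun v0 => v0.1 * (u * f) + wr K D.m v0.2
  have comm : ∀ v, Red.red K Λ (Wm D.m G v) = Ψ0 (Red.red K Λ v) := by
    intro v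
    simp only [Ψ0, Wm_apply, red_mv, map_add, map_mul, hG, map_wr, red_fst, red_snd]
    rfl
  refine ⟨inj_of_square _ Ψ0 comm ?_, surj_of_square _ Ψ0 comm ?_⟩
  · rintro ⟨q, s⟩ h
    simp only [Ψ0, ← mul_assoc] at h
    obtain ⟨h1, h2⟩ := D.weier_inj _ _ h
    exact Prod.ext (hu.mul_left_eq_zero.mp h1) h2
  · intro h
    obtain ⟨q, s, rfl⟩ := D.weier_surj h
    obtain ⟨u', hu'⟩ := hu.exists_left_inv
    exact ⟨(q * u', s), by simp only [Ψ0]; linear_combination (q * f) * hu'⟩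

namespace Data.IsLift

variable {D} {X Y : Fin D.r → Λ⟦X⟧} (hL : D.IsLift X Y)
include hL

lemma memX (i : Fin D.r) : X i ∈ JJ (mx K Λ) :=
  mem_JJ_of_red (by rw [← mapN_apply, hL.hX]; exact D.hx i)

lemma memY (i : Fin D.r) : Y i ∈ JJ (mx K Λ) :=
  mem_JJ_of_red (by rw [← mapN_apply, hL.hY]; exact D.hy i)

lemma red_nu (h : P2 Λ) :
    mapN (rho K Λ) (nu K X Y h) = nu K D.x D.y (MvPowerSeries.map (rho K Λ) h) := by
  rw [mapN_nu _ rho_mem_mx hL.memX hL.memY, hL.hX, hL.hY]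

lemma nuX : nu K X Y (MvPowerSeries.X 0) = X := nu_X0 hL.memX hL.memY

lemma nuY : nu K X Y (MvPowerSeries.X 1) = Y := nu_X1 hL.memX hL.memY

lemma add {a b : Fin D.r → Λ⟦X⟧} (ha : a ∈ (mx K Λ • ⊤ : Submodule Λ (Fin D.r → Λ⟦X⟧)))
    (hb : b ∈ (mx K Λ • ⊤ : Submodule Λ (Fin D.r → Λ⟦X⟧))) : D.IsLift (X + a) (Y + b) := by
  rw [Red.mem_iff, red_N] at ha hb
  exact ⟨by rw [map_add, hL.hX, ha, add_zero], by rw [map_add, hL.hY, hb, add_zero]⟩

lemma map {Λ' : Type u} [CommRing Λ'] [Algebra K Λ'] [CBase K Λ'] (β : Λ →ₐ[K] Λ') :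
    D.IsLift (mapN β.toRingHom X) (mapN β.toRingHom Y) := by
  have : ∀ v : Fin D.r → Λ⟦X⟧, mapN (rho K Λ') (mapN β.toRingHom v) = mapN (rho K Λ) v := by
    intro v; funext i; ext j; simp [rho_algHom]
  exact ⟨by rw [this, hL.hX], by rw [this, hL.hY]⟩

lemma basis_surj (v : Fin D.r → Λ⟦X⟧) :
    ∃ h : Fin D.m → Λ⟦X⟧, v = ∑ j, nu K X Y (iota Λ (h j)) * lf Λ (D.n j) := by
  let B : (Fin D.m → Λ⟦X⟧) →ₗ[Λ] (Fin D.r → Λ⟦X⟧) :=
    { toFun := fun h => ∑ j, nu K X Y (iota Λ (h j)) * lf Λ (D.n j)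
      map_add' := fun a b => by simp [add_mul, Finset.sum_add_distrib]
      map_smul' := fun c a => by simp [Finset.smul_sum] }
  have := surj_of_square (K := K) B
    (fun h => ∑ j, nu K D.x D.y (iota K (h j)) * D.n j) (fun h => by
      simp only [B, red_N, LinearMap.coe_mk, AddHom.coe_mk, map_sum, map_mul, hL.red_nu, map_iota,
        mapN_red_lift, mapN_apply])
    (fun v => (D.hn_surj v).imp fun _ h => h.symm)
  exact (this v).imp fun _ h => h.symm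

lemma exists_P : ∃ (G : P2 Λ) (u : P2 K), IsUnit u ∧ MvPowerSeries.map (rho K Λ) G = u * f ∧
    nu K X Y G = 0 := by
  obtain ⟨p, hp⟩ := exists_pow_eq_sum ((nu K X Y).toRingHom.comp (iota Λ).toRingHom)
    (fun j => lf Λ (D.n j)) hL.basis_surj Y
  have h0 : nu K X Y (MvPowerSeries.X 1 ^ D.m - wr Λ D.m p) = 0 := by
    rw [map_sub, map_pow, hL.nuY, hp, wr_apply, map_sum, sub_eq_zero]
    refine Finset.sum_congr rfl fun k _ => ?_
    rw [map_mul, map_pow, hL.nuY]; rfl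
  have h1 := hL.red_nu (MvPowerSeries.X 1 ^ D.m - wr Λ D.m p)
  rw [h0, map_zero, eq_comm, D.ker] at h1
  obtain ⟨q, hq⟩ := h1
  refine ⟨_, q, ?_, by rw [hq, mul_comm], h0⟩
  apply D.isUnit_of_mul_eq (p := fun k => PowerSeries.map (rho K Λ) (p k))
  rw [mul_comm, ← hq, map_sub, map_pow, map_wr, MvPowerSeries.map_X]

end Data.IsLift

/-- The splitting map -/
noncomputable def Data.Psi (X Y : Fin D.r → Λ⟦X⟧) :
    ((Fin D.m → Λ⟦X⟧) × (Fin D.δ → Λ)) →ₗ[Λ] (Fin D.r → Λ⟦X⟧) :=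
  LinearMap.coprod ((nu K X Y).toLinearMap.comp (wr Λ D.m))
    (Fintype.linearCombination Λ fun j => lf Λ (D.e j))

lemma Data.Psi_apply (X Y : Fin D.r → Λ⟦X⟧) (v) :
    D.Psi X Y v = nu K X Y (wr Λ D.m v.1) + ∑ j, v.2 j • lf Λ (D.e j) := rfl

/-- The splitting map on the special fibre -/
noncomputable def Data.Psi0 (v0 : (Fin D.m → K⟦X⟧) × (Fin D.δ → K)) : Fin D.r → K⟦X⟧ :=
  nu K D.x D.y (wr K D.m v0.1) + ∑ j, v0.2 j • D.e j

lemma mapN_smul {Λ' : Type u} [CommRing Λ'] (β : Λ →+* Λ') {r : ℕ} (c : Λ) (v : Fin r → Λ⟦X⟧) :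
    mapN β (c • v) = β c • mapN β v := by
  funext i; ext j; simp

namespace Data.IsLift

variable {D} {X Y : Fin D.r → Λ⟦X⟧} (hL : D.IsLift X Y)
include hL

lemma Psi_comm (v) : Red.red K Λ (D.Psi X Y v) = D.Psi0 (Red.red K Λ v) := by
  simp only [Data.Psi0, Data.Psi_apply, red_N, map_add, map_sum, hL.red_nu, map_wr, mapN_smul,
    mapN_red_lift]
  rfl

lemma Psi_bij : Function.Bijective (D.Psi X Y) :=
  ⟨inj_of_square _ D.Psi0 hL.Psi_comm
      fun _ h => Prod.ext (D.he_inj _ _ h).1 (D.he_inj _ _ h).2,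
    surj_of_square _ D.Psi0 hL.Psi_comm fun v => by
      obtain ⟨s, c, rfl⟩ := D.he_surj v
      exact ⟨(s, c), rfl⟩⟩

lemma Psi_strict (n : ℕ) (v) (hv : D.Psi X Y v ∈ (mx K Λ ^ n • ⊤ : Submodule Λ _)) :
    v ∈ (mx K Λ ^ n • ⊤ : Submodule Λ _) :=
  strict_of_square _ D.Psi0 hL.Psi_comm
    (fun _ h => Prod.ext (D.he_inj _ _ h).1 (D.he_inj _ _ h).2) n v hv

lemma exists_wr (h : P2 Λ) : ∃ s, nu K X Y h = D.Psi X Y (s, 0) := by
  obtain ⟨G, u, hu, hG, h0⟩ := hL.exists_P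
  obtain ⟨⟨q, s⟩, rfl⟩ := (D.Wm_facts hu hG).2 h
  exact ⟨s, by simp [Wm_apply, Data.Psi_apply, h0]⟩

/-- The obstruction lies in the local ring. -/
lemma unobstructed (n : ℕ) (h : P2 Λ) (hh : nu K X Y h ∈ (mx K Λ ^ n • ⊤ : Submodule Λ _)) :
    ∃ h' ∈ (mx K Λ ^ n • ⊤ : Submodule Λ (P2 Λ)), nu K X Y h' = nu K X Y h := by
  obtain ⟨s, hs⟩ := hL.exists_wr h
  rw [hs] at hh ⊢
  have := ((prod_mem_smul_top _).mp (hL.Psi_strict n _ hh)).1
  exact ⟨wr Λ D.m s, map_mem_smul_top _ this, by simp [Data.Psi_apply]⟩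

lemma ker_eq {G : P2 Λ} (hG : MvPowerSeries.map (rho K Λ) G = f) (h0 : nu K X Y G = 0)
    (h : P2 Λ) : nu K X Y h = 0 ↔ G ∣ h := by
  constructor
  · intro hh
    obtain ⟨⟨q, s⟩, rfl⟩ := (D.Wm_facts isUnit_one (by rw [hG, one_mul])).2 h
    have : D.Psi X Y (s, 0) = D.Psi X Y 0 := by
      simpa [Wm_apply, Data.Psi_apply, h0] using hh
    have hs : s = 0 := congrArg Prod.fst (hL.Psi_bij.1 this)
    simp [Wm_apply, hs]
  · rintro ⟨q, rfl⟩
    rw [map_mul, h0, zero_mul]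

end Data.IsLift

section family

variable {τ : ℕ} (f) (g : Fin τ → P2 K)

/-- the member of the family with parameter `t` -/
noncomputable def Fam (t : Fin τ → Λ) : P2 Λ :=
  lfP Λ f + ∑ k, MvPowerSeries.C (t k) * lfP Λ (g k)

lemma map_Fam {Λ' : Type u} [CommRing Λ'] [Algebra K Λ'] (β : Λ →ₐ[K] Λ') (t : Fin τ → Λ) :
    MvPowerSeries.map β.toRingHom (Fam f g t) = Fam f g (fun k => β (t k)) := by
  have : ∀ h : P2 K, MvPowerSeries.map β.toRingHom (lfP Λ h) = lfP Λ' h := by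
    intro h; ext d; simp
  simp only [Fam, map_add, map_sum, map_mul, this, MvPowerSeries.map_C]
  rfl

lemma red_Fam {t : Fin τ → Λ} (ht : ∀ k, t k ∈ mx K Λ) :
    MvPowerSeries.map (rho K Λ) (Fam f g t) = f := by
  simp only [Fam, map_add, map_sum, map_mul, mvps_red_lift, MvPowerSeries.map_C,
    fun k => mem_mx.mp (ht k), map_zero, zero_mul, Finset.sum_const_zero, add_zero]

variable {f}

/-- the linearisation of the equation -/
noncomputable def Data.LL : ((Fin τ → Λ) × (Fin D.r → Λ⟦X⟧) × (Fin D.r → Λ⟦X⟧)) →ₗ[Λ]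
    (Fin D.r → Λ⟦X⟧) :=
  LinearMap.coprod (Fintype.linearCombination Λ fun k => lf Λ (nu K D.x D.y (g k)))
    (LinearMap.coprod (LinearMap.mulLeft Λ (lf Λ (nu K D.x D.y (MvPowerSeries.pderiv K 0 f))))
      (LinearMap.mulLeft Λ (lf Λ (nu K D.x D.y (MvPowerSeries.pderiv K 1 f)))))

lemma Data.LL_apply (v : (Fin τ → Λ) × (Fin D.r → Λ⟦X⟧) × (Fin D.r → Λ⟦X⟧)) :
    D.LL g v = ∑ k, v.1 k • lf Λ (nu K D.x D.y (g k)) +
      (lf Λ (nu K D.x D.y (MvPowerSeries.pderiv K 0 f)) * v.2.1 +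
        lf Λ (nu K D.x D.y (MvPowerSeries.pderiv K 1 f)) * v.2.2) := rfl

variable {D}

lemma nu_C {r : ℕ} (X Y : Fin r → Λ⟦X⟧) (c : Λ) (v : Fin r → Λ⟦X⟧) :
    nu K X Y (MvPowerSeries.C c) * v = c • v := by
  rw [algHom_C, Algebra.smul_def]

lemma Data.IsLift.taylor {X Y : Fin D.r → Λ⟦X⟧} (hL : D.IsLift X Y) {t : Fin τ → Λ}
    (ht : ∀ k, t k ∈ mx K Λ) {n : ℕ} (hn : 1 ≤ n)
    (v : (Fin τ → Λ) × (Fin D.r → Λ⟦X⟧) × (Fin D.r → Λ⟦X⟧))
    (hv : v ∈ (mx K Λ ^ n • ⊤ : Submodule Λ _)) :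
    nu K (X + v.2.1) (Y + v.2.2) (Fam f g (t + v.1)) - nu K X Y (Fam f g t) - D.LL g v ∈
      (mx K Λ ^ (n + 1) • ⊤ : Submodule Λ (Fin D.r → Λ⟦X⟧)) := by
  obtain ⟨s, a, b⟩ := v
  obtain ⟨hs, hab⟩ := (prod_mem_smul_top _).mp hv
  obtain ⟨ha, hb⟩ := (prod_mem_smul_top _).mp hab
  simp only at hs ha hb ⊢
  have hL' : D.IsLift (X + a) (Y + b) :=
    hL.add (by simpa using pow_smul_mono _ hn ha) (by simpa using pow_smul_mono _ hn hb)
  have hF : Fam f g (t + s) = Fam f g t + ∑ k, MvPowerSeries.C (s k) * lfP Λ (g k) := by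
    simp [Fam, add_mul, Finset.sum_add_distrib, add_assoc]
  have h1 : nu K (X + a) (Y + b) (Fam f g t) - nu K X Y (Fam f g t) -
      (nu K X Y (MvPowerSeries.pderiv Λ 0 (Fam f g t)) * a +
        nu K X Y (MvPowerSeries.pderiv Λ 1 (Fam f g t)) * b) ∈
      (mx K Λ ^ (n + 1) • ⊤ : Submodule Λ (Fin D.r → Λ⟦X⟧)) := by
    rw [pi_mem_smul_top (mx_fg K Λ).pow] at ha hb ⊢
    intro i
    have := evJ_taylor (vec_mem (hL.memX i) (hL.memY i)) hn (v := ![a i, b i])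
      (fun j => by fin_cases j; exacts [ha i, hb i]) (Fam f g t)
    have e : (![X i, Y i] + ![a i, b i] : Fin 2 → Λ⟦X⟧) = ![(X + a) i, (Y + b) i] := by
      funext j; fin_cases j <;> rfl
    rw [e, Fin.sum_univ_two] at this
    exact this
  have h2 : ∀ j, nu K X Y (MvPowerSeries.pderiv Λ j (Fam f g t)) -
      lf Λ (nu K D.x D.y (MvPowerSeries.pderiv K j f)) ∈
      (mx K Λ • ⊤ : Submodule Λ (Fin D.r → Λ⟦X⟧)) := by
    intro j
    rw [Red.mem_iff, red_N, map_sub, hL.red_nu, map_pderiv, red_Fam f g ht, mapN_red_lift,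
      sub_self]
  have h3 : ∀ k, s k • (nu K (X + a) (Y + b) (lfP Λ (g k)) - lf Λ (nu K D.x D.y (g k))) ∈
      (mx K Λ ^ (n + 1) • ⊤ : Submodule Λ (Fin D.r → Λ⟦X⟧)) := by
    intro k
    refine smul_mem_pow_add _ (by simpa using (pi_mem_smul_top (mx_fg K Λ).pow _).mp hs k) ?_
    rw [pow_one, Red.mem_iff, red_N, map_sub, hL'.red_nu, mvps_red_lift, mapN_red_lift, sub_self]
  have h4 := Submodule.add_mem _ (Submodule.add_mem _ h1 (Submodule.add_mem _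
    (mul_mem_pow_succ _ (h2 0) ha) (mul_mem_pow_succ _ (h2 1) hb)))
    (Submodule.sum_mem _ fun k (_ : k ∈ Finset.univ) => h3 k)
  convert h4 using 1
  rw [hF, Data.LL_apply, map_add, map_sum]
  simp only [map_mul, nu_C, smul_sub, Finset.sum_sub_distrib]
  ring

/-- Solving the equation order by order. -/
theorem Data.IsLift.solve {X0 Y0 : Fin D.r → Λ⟦X⟧} (hL : D.IsLift X0 Y0)
    {M : Type u} [AddCommGroup M] [Module Λ M] [IsPrecomplete (mx K Λ) M]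
    (κ : M →ₗ[Λ] (Fin τ → Λ) × (Fin D.r → Λ⟦X⟧) × (Fin D.r → Λ⟦X⟧)) {d : ℕ}
    (π : M →ₗ[Λ] (Fin d → Λ)) (σ : Fin d → Λ) (hσ : σ ∈ (mx K Λ • ⊤ : Submodule Λ _))
    (hsurj : ∀ (h : P2 K) (c : Fin d → K), ∃ v : M,
      mapN (rho K Λ) (D.LL g (κ v)) = nu K D.x D.y h ∧ ∀ j, rho K Λ (π v j) = c j) :
    ∃ z ∈ (mx K Λ • ⊤ : Submodule Λ M),
      nu K (X0 + (κ z).2.1) (Y0 + (κ z).2.2) (Fam f g (κ z).1) = 0 ∧ π z = σ := by
  have hlift : ∀ z ∈ (mx K Λ • ⊤ : Submodule Λ M),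
      D.IsLift (X0 + (κ z).2.1) (Y0 + (κ z).2.2) ∧ ∀ k, (κ z).1 k ∈ mx K Λ := by
    intro z hz
    obtain ⟨hs, hab⟩ := (prod_mem_smul_top _).mp (map_mem_smul_top κ hz)
    obtain ⟨ha, hb⟩ := (prod_mem_smul_top _).mp hab
    exact ⟨hL.add ha hb, fun k => by simpa using (pi_mem_smul_top (mx_fg K Λ) _).mp hs k⟩
  let Φ : M → (Fin D.r → Λ⟦X⟧) × (Fin d → Λ) := fun z =>
    (nu K (X0 + (κ z).2.1) (Y0 + (κ z).2.2) (Fam f g (κ z).1), π z - σ)
  let L : M →ₗ[Λ] (Fin D.r → Λ⟦X⟧) × (Fin d → Λ) := LinearMap.prod ((D.LL g).comp κ) π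
  have htay : ∀ n, 1 ≤ n → ∀ z ∈ (mx K Λ • ⊤ : Submodule Λ M),
      ∀ v ∈ (mx K Λ ^ n • ⊤ : Submodule Λ M),
      Φ (z + v) - Φ z - L v ∈ (mx K Λ ^ (n + 1) • ⊤ : Submodule Λ _) := by
    intro n hn z hz v hv
    rw [prod_mem_smul_top]
    constructor
    · have := (hlift z hz).1.taylor g (hlift z hz).2 hn (κ v) (map_mem_smul_top κ hv)
      simpa [Φ, L, add_assoc] using this
    · simp [Φ, L]
  obtain ⟨z, hz, hΦ⟩ := newton_exists (mx K Λ) Φ (fun n hn z hz v hv => by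
      have := Submodule.add_mem _ (pow_smul_mono _ (Nat.le_succ n) (htay n hn z hz v hv))
        (map_mem_smul_top L hv)
      simpa using this)
    (fun n hn z hz hΦ => by
      obtain ⟨hΦ1, hΦ2⟩ := (prod_mem_smul_top _).mp hΦ
      obtain ⟨h', hh', hh''⟩ := (hlift z hz).1.unobstructed n _ hΦ1
      let ν : (P2 Λ × (Fin d → Λ)) →ₗ[Λ] (Fin D.r → Λ⟦X⟧) × (Fin d → Λ) :=
        LinearMap.prodMap (nu K (X0 + (κ z).2.1) (Y0 + (κ z).2.2)).toLinearMap LinearMap.id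
      obtain ⟨v, hv, hv'⟩ := lift_pow (mx K Λ) L ν (fun h => by
        obtain ⟨v, hv1, hv2⟩ := hsurj (MvPowerSeries.map (rho K Λ) h.1) (fun j => rho K Λ (h.2 j))
        refine ⟨v, ?_⟩
        rw [Red.mem_iff]
        refine Prod.ext ?_ ?_
        · change mapN (rho K Λ) (D.LL g (κ v) - nu K _ _ h.1) = 0
          rw [map_sub, hv1, (hlift z hz).1.red_nu, sub_self]
        · funext j
          change rho K Λ (π v j - h.2 j) = 0
          rw [map_sub, hv2, sub_self]) n (-(h', π z - σ))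
        (Submodule.neg_mem _ ((prod_mem_smul_top _).mpr ⟨hh', hΦ2⟩))
      refine ⟨v, hv, ?_⟩
      have h1 : ν (-(h', π z - σ)) = -Φ z := by
        rw [map_neg]; congr 1; exact Prod.ext hh'' rfl
      rw [h1] at hv'
      have := Submodule.add_mem _ (htay n hn z hz v hv) hv'
      convert this using 1
      abel)
    (by
      rw [prod_mem_smul_top]
      constructor
      · rw [Red.mem_iff, red_N]
        change mapN (rho K Λ) (nu K _ _ _) = 0
        rw [(hlift 0 (Submodule.zero_mem _)).1.red_nu,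
          red_Fam f g (hlift 0 (Submodule.zero_mem _)).2, D.ker]
      · simpa [Φ] using hσ)
  exact ⟨z, hz, congrArg Prod.fst hΦ, sub_eq_zero.mp (congrArg Prod.snd hΦ)⟩

end family

end Pool.Agent.MP_f5cee0_ag.H4
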