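import Pool.Agent.MP_f5cee0_ag.H4.Adic

/-!
Modules over a base ring with a finitely generated ideal: products, completeness, strictness,
Newton lemmas.
-/

namespace Pool.Agent.MP_f5cee0_ag.H4

section basic

variable {Λ : Type*} [CommRing Λ] {M M' : Type*} [AddCommGroup M] [Module Λ M]
  [AddCommGroup M'] [Module Λ M']

lemma mem_span_smul_top (s : Finset Λ) (v : M) :
    v ∈ (Ideal.span (s : Set Λ) • ⊤ : Submodule Λ M) ↔ ∃ w : Λ → M, v = ∑ μ ∈ s, μ • w μ := by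
  constructor
  · intro hv
    refine Submodule.smul_induction_on hv ?_ ?_
    · intro r hr m _
      obtain ⟨c, _, hc⟩ := Submodule.mem_span_finset.mp hr
      refine ⟨fun μ => c μ • m, ?_⟩
      rw [← hc, Finset.sum_smul]
      refine Finset.sum_congr rfl fun μ _ => ?_
      rw [smul_eq_mul, mul_comm, mul_smul]
    · rintro a b ⟨w, rfl⟩ ⟨w', rfl⟩
      exact ⟨w + w', by simp [Finset.sum_add_distrib]⟩
  · rintro ⟨w, rfl⟩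
    exact Submodule.sum_mem _ fun μ hμ =>
      Submodule.smul_mem_smul (Ideal.subset_span hμ) Submodule.mem_top

lemma map_mem_smul_top (f : M →ₗ[Λ] M') {𝔟 : Ideal Λ} {v : M}
    (hv : v ∈ (𝔟 • ⊤ : Submodule Λ M)) : f v ∈ (𝔟 • ⊤ : Submodule Λ M') := by
  have := Submodule.mem_map_of_mem (f := f) hv
  rw [Submodule.map_smul''] at this
  exact Submodule.smul_mono le_rfl le_top this

lemma equiv_mem_smul_top (e : M ≃ₗ[Λ] M') {𝔟 : Ideal Λ} {v : M} :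
    e v ∈ (𝔟 • ⊤ : Submodule Λ M') ↔ v ∈ (𝔟 • ⊤ : Submodule Λ M) :=
  ⟨fun h => by simpa using map_mem_smul_top e.symm.toLinearMap h,
    fun h => map_mem_smul_top e.toLinearMap h⟩

lemma self_mem_smul_top {𝔟 : Ideal Λ} {r : Λ} : r ∈ (𝔟 • ⊤ : Submodule Λ Λ) ↔ r ∈ 𝔟 := by
  simp

lemma pi_mem_smul_top {ι : Type*} {N : ι → Type*} [∀ i, AddCommGroup (N i)] [∀ i, Module Λ (N i)]
    {𝔟 : Ideal Λ} (fg : 𝔟.FG) (v : ∀ i, N i) :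
    v ∈ (𝔟 • ⊤ : Submodule Λ (∀ i, N i)) ↔ ∀ i, v i ∈ (𝔟 • ⊤ : Submodule Λ (N i)) := by
  constructor
  · intro h i
    exact map_mem_smul_top (LinearMap.proj i) h
  · intro h
    obtain ⟨s, rfl⟩ := fg
    simp only [mem_span_smul_top] at h ⊢
    choose w hw using h
    refine ⟨fun μ i => w i μ, ?_⟩
    funext i
    simp [Finset.sum_apply, hw i]

lemma prod_mem_smul_top {𝔟 : Ideal Λ} (v : M × M') :
    v ∈ (𝔟 • ⊤ : Submodule Λ (M × M')) ↔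
      v.1 ∈ (𝔟 • ⊤ : Submodule Λ M) ∧ v.2 ∈ (𝔟 • ⊤ : Submodule Λ M') := by
  constructor
  · intro h
    exact ⟨map_mem_smul_top (LinearMap.fst Λ M M') h, map_mem_smul_top (LinearMap.snd Λ M M') h⟩
  · rintro ⟨h1, h2⟩
    have := Submodule.add_mem _ (map_mem_smul_top (LinearMap.inl Λ M M') h1)
      (map_mem_smul_top (LinearMap.inr Λ M M') h2)
    simpa using this

lemma mvps_mem_smul_top {σ : Type*} {𝔟 : Ideal Λ} (fg : 𝔟.FG) (h : MvPowerSeries σ Λ) :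
    h ∈ (𝔟 • ⊤ : Submodule Λ (MvPowerSeries σ Λ)) ↔ ∀ d, MvPowerSeries.coeff d h ∈ 𝔟 := by
  have := pi_mem_smul_top (N := fun _ : σ →₀ ℕ => Λ) fg h
  simp only [self_mem_smul_top] at this
  exact this

lemma ps_mem_smul_top {𝔟 : Ideal Λ} (fg : 𝔟.FG) (h : PowerSeries Λ) :
    h ∈ (𝔟 • ⊤ : Submodule Λ (PowerSeries Λ)) ↔ ∀ j, PowerSeries.coeff j h ∈ 𝔟 := by
  have := mvps_mem_smul_top fg h
  refine this.trans ⟨fun H j => H _, fun H d => ?_⟩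
  rw [← PowerSeries.coeff_def (s := d) rfl]
  exact H _

lemma pow_smul_mono (𝔪 : Ideal Λ) {m n : ℕ} (h : m ≤ n) {v : M}
    (hv : v ∈ (𝔪 ^ n • ⊤ : Submodule Λ M)) : v ∈ (𝔪 ^ m • ⊤ : Submodule Λ M) :=
  Submodule.pow_smul_top_le 𝔪 M h hv

lemma smul_mem_pow_add (𝔪 : Ideal Λ) {m n : ℕ} {r : Λ} {v : M} (hr : r ∈ 𝔪 ^ m)
    (hv : v ∈ (𝔪 ^ n • ⊤ : Submodule Λ M)) : r • v ∈ (𝔪 ^ (m + n) • ⊤ : Submodule Λ M) := by
  rw [pow_add, mul_smul]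
  exact Submodule.smul_mem_smul hr hv

lemma haus_zero (𝔪 : Ideal Λ) [h : IsHausdorff 𝔪 M] {v : M}
    (hv : ∀ n, v ∈ (𝔪 ^ n • ⊤ : Submodule Λ M)) : v = 0 :=
  h.haus v fun n => SModEq.zero.mpr (hv n)

lemma isHausdorff_of_injective (𝔪 : Ideal Λ) (f : M →ₗ[Λ] M') (hf : Function.Injective f)
    [IsHausdorff 𝔪 M'] : IsHausdorff 𝔪 M :=
  ⟨fun x hx => hf (by
    rw [map_zero]
    exact haus_zero 𝔪 fun n => map_mem_smul_top f (SModEq.zero.mp (hx n)))⟩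

lemma isAdicComplete_equiv (𝔪 : Ideal Λ) (e : M ≃ₗ[Λ] M') [h : IsAdicComplete 𝔪 M] :
    IsAdicComplete 𝔪 M' where
  haus' := (isHausdorff_of_injective 𝔪 e.symm.toLinearMap e.symm.injective).haus'
  prec' f hf := by
    obtain ⟨L, hL⟩ := h.prec' (fun n => e.symm (f n)) (fun {m n} hmn => by
      rw [SModEq.sub_mem, ← map_sub, equiv_mem_smul_top]
      exact SModEq.sub_mem.mp (hf hmn))
    refine ⟨e L, fun n => ?_⟩
    have := SModEq.sub_mem.mp (hL n)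
    rw [← equiv_mem_smul_top e, map_sub, e.apply_symm_apply] at this
    exact SModEq.sub_mem.mpr this

lemma isAdicComplete_pi {ι : Type*} {N : ι → Type*} [∀ i, AddCommGroup (N i)]
    [∀ i, Module Λ (N i)] (𝔪 : Ideal Λ) (fg : 𝔪.FG) [h : ∀ i, IsAdicComplete 𝔪 (N i)] :
    IsAdicComplete 𝔪 (∀ i, N i) where
  haus' x hx := by
    funext i
    exact haus_zero 𝔪 fun n => (pi_mem_smul_top (fg.pow) x).mp (SModEq.zero.mp (hx n)) i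
  prec' f hf := by
    have : ∀ i, ∃ L : N i, ∀ n, f n i ≡ L [SMOD (𝔪 ^ n • ⊤ : Submodule Λ (N i))] := fun i =>
      (h i).prec' (fun n => f n i) (fun {m n} hmn => by
        rw [SModEq.sub_mem]
        exact (pi_mem_smul_top (fg.pow) _).mp (SModEq.sub_mem.mp (hf hmn)) i)
    choose L hL using this
    refine ⟨L, fun n => ?_⟩
    rw [SModEq.sub_mem, pi_mem_smul_top (fg.pow)]
    exact fun i => SModEq.sub_mem.mp (hL i n)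

lemma isAdicComplete_prod (𝔪 : Ideal Λ) [h : IsAdicComplete 𝔪 M] [h' : IsAdicComplete 𝔪 M'] :
    IsAdicComplete 𝔪 (M × M') where
  haus' x hx := by
    ext
    · exact haus_zero 𝔪 fun n => ((prod_mem_smul_top x).mp (SModEq.zero.mp (hx n))).1
    · exact haus_zero 𝔪 fun n => ((prod_mem_smul_top x).mp (SModEq.zero.mp (hx n))).2
  prec' f hf := by
    obtain ⟨L, hL⟩ := h.prec' (fun n => (f n).1) (fun {m n} hmn => by
        rw [SModEq.sub_mem]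
        exact ((prod_mem_smul_top _).mp (SModEq.sub_mem.mp (hf hmn))).1)
    obtain ⟨L', hL'⟩ := h'.prec' (fun n => (f n).2) (fun {m n} hmn => by
        rw [SModEq.sub_mem]
        exact ((prod_mem_smul_top _).mp (SModEq.sub_mem.mp (hf hmn))).2)
    refine ⟨(L, L'), fun n => ?_⟩
    rw [SModEq.sub_mem, prod_mem_smul_top]
    exact ⟨SModEq.sub_mem.mp (hL n), SModEq.sub_mem.mp (hL' n)⟩

lemma isAdicComplete_mvps {σ : Type*} (𝔪 : Ideal Λ) (fg : 𝔪.FG) [IsAdicComplete 𝔪 Λ] :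
    IsAdicComplete 𝔪 (MvPowerSeries σ Λ) :=
  isAdicComplete_pi (N := fun _ : σ →₀ ℕ => Λ) 𝔪 fg

lemma isAdicComplete_ps (𝔪 : Ideal Λ) (fg : 𝔪.FG) [IsAdicComplete 𝔪 Λ] :
    IsAdicComplete 𝔪 (PowerSeries Λ) :=
  isAdicComplete_mvps 𝔪 fg

/-- Comparison of adic topologies. -/
lemma isAdicComplete_of_le {I J : Ideal Λ} {c : ℕ} (hIJ : I ≤ J) (hJI : J ^ c ≤ I)
    [h : IsAdicComplete I M] : IsAdicComplete J M where
  haus' x hx := by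
    apply haus_zero I
    intro n
    have := SModEq.zero.mp (hx (c * n))
    refine Submodule.smul_mono ?_ le_rfl this
    rw [pow_mul]; exact Ideal.pow_right_mono hJI n
  prec' f hf := by
    have hle : ∀ n, (J ^ ((c + 1) * n) • ⊤ : Submodule Λ M) ≤ I ^ n • ⊤ := by
      intro n
      refine Submodule.smul_mono ?_ le_rfl
      rw [pow_mul]
      exact Ideal.pow_right_mono (le_trans (Ideal.pow_le_pow_right (Nat.le_succ c)) hJI) n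
    obtain ⟨L, hL⟩ := h.prec' (fun n => f ((c + 1) * n)) (fun {m n} hmn =>
      SModEq.mono (hle m) (hf (Nat.mul_le_mul_left _ hmn)))
    refine ⟨L, fun n => ?_⟩
    have h1 : f n ≡ f ((c + 1) * n) [SMOD (J ^ n • ⊤ : Submodule Λ M)] :=
      hf (Nat.le_mul_of_pos_left n (Nat.succ_pos c))
    exact h1.trans (SModEq.mono (Submodule.smul_mono (Ideal.pow_right_mono hIJ n) le_rfl) (hL n))

/-- A flatness-type property. -/
def Fl (𝔪 : Ideal Λ) (M : Type*) [AddCommGroup M] [Module Λ M] : Prop :=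
  ∀ (n : ℕ) (s : Finset Λ),
    (∀ a : Λ → Λ, ∑ μ ∈ s, μ * a μ ∈ 𝔪 ^ (n + 1) → ∀ μ ∈ s, a μ ∈ 𝔪) →
    ∀ w : Λ → M, ∑ μ ∈ s, μ • w μ ∈ (𝔪 ^ (n + 1) • ⊤ : Submodule Λ M) →
      ∀ μ ∈ s, w μ ∈ (𝔪 • ⊤ : Submodule Λ M)

lemma fl_self (𝔪 : Ideal Λ) : Fl 𝔪 Λ := by
  intro n s hs w hw μ hμ
  rw [self_mem_smul_top] at hw ⊢
  exact hs w hw μ hμ

lemma fl_pi {ι : Type*} {N : ι → Type*} [∀ i, AddCommGroup (N i)] [∀ i, Module Λ (N i)]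
    {𝔪 : Ideal Λ} (fg : 𝔪.FG) (h : ∀ i, Fl 𝔪 (N i)) : Fl 𝔪 (∀ i, N i) := by
  intro n s hs w hw μ hμ
  rw [pi_mem_smul_top fg]
  intro i
  refine h i n s hs (fun μ => w μ i) ?_ μ hμ
  have := (pi_mem_smul_top (fg.pow) _).mp hw i
  simpa [Finset.sum_apply] using this

lemma fl_prod {𝔪 : Ideal Λ} (h : Fl 𝔪 M) (h' : Fl 𝔪 M') : Fl 𝔪 (M × M') := by
  intro n s hs w hw μ hμ
  rw [prod_mem_smul_top] at hw ⊢
  constructor
  · refine h n s hs (fun μ => (w μ).1) ?_ μ hμ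
    simpa [Prod.fst_sum] using hw.1
  · refine h' n s hs (fun μ => (w μ).2) ?_ μ hμ
    simpa [Prod.snd_sum] using hw.2

lemma fl_equiv {𝔪 : Ideal Λ} (e : M ≃ₗ[Λ] M') (h : Fl 𝔪 M) : Fl 𝔪 M' := by
  intro n s hs w hw μ hμ
  rw [← equiv_mem_smul_top e.symm]
  refine h n s hs (fun μ => e.symm (w μ)) ?_ μ hμ
  rw [← equiv_mem_smul_top e.symm] at hw
  simpa using hw

lemma fl_mvps {σ : Type*} {𝔪 : Ideal Λ} (fg : 𝔪.FG) : Fl 𝔪 (MvPowerSeries σ Λ) :=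
  fl_pi (N := fun _ : σ →₀ ℕ => Λ) fg fun _ => fl_self 𝔪

lemma fl_ps {𝔪 : Ideal Λ} (fg : 𝔪.FG) : Fl 𝔪 (PowerSeries Λ) := fl_mvps fg

lemma exists_min_gens (𝔪 : Ideal Λ) [hm : 𝔪.IsMaximal] (fg : 𝔪.FG) (n : ℕ) :
    ∃ s : Finset Λ, (∀ μ ∈ s, μ ∈ 𝔪 ^ n) ∧ 𝔪 ^ n ≤ Ideal.span (s : Set Λ) ⊔ 𝔪 ^ (n + 1) ∧
      (∀ a : Λ → Λ, ∑ μ ∈ s, μ * a μ ∈ 𝔪 ^ (n + 1) → ∀ μ ∈ s, a μ ∈ 𝔪) := by
  classical
  have hex : ∃ k, ∃ s : Finset Λ, s.card = k ∧ (∀ μ ∈ s, μ ∈ 𝔪 ^ n) ∧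
      𝔪 ^ n ≤ Ideal.span (s : Set Λ) ⊔ 𝔪 ^ (n + 1) := by
    obtain ⟨s, hs⟩ := fg.pow (n := n)
    exact ⟨s.card, s, rfl, fun μ hμ => hs ▸ Ideal.subset_span hμ, hs ▸ le_sup_left⟩
  obtain ⟨s, hcard, h1, h2⟩ := Nat.find_spec hex
  refine ⟨s, h1, h2, ?_⟩
  intro a ha μ hμ
  by_contra hna
  have hlt : (s.erase μ).card < Nat.find hex := by
    rw [← hcard]; exact Finset.card_erase_lt_of_mem hμ
  apply Nat.find_min hex hlt
  refine ⟨s.erase μ, rfl, fun ν hν => h1 ν (Finset.mem_of_mem_erase hν), le_trans h2 ?_⟩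
  refine sup_le ?_ le_sup_right
  rw [Ideal.span_le]
  intro ν hν
  by_cases hνμ : ν = μ
  · subst hνμ
    obtain ⟨b, m, hm', hbm⟩ := hm.exists_inv hna
    have e1 : ν = b * (∑ μ ∈ s, μ * a μ) - b * (∑ μ ∈ s.erase ν, μ * a μ) + ν * m := by
      rw [← Finset.add_sum_erase s _ hμ]
      linear_combination (-ν) * hbm
    suffices H : b * (∑ μ ∈ s, μ * a μ) - b * (∑ μ ∈ s.erase ν, μ * a μ) + ν * m ∈
        Ideal.span ((s.erase ν : Finset Λ) : Set Λ) ⊔ 𝔪 ^ (n + 1) by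
      rw [← e1] at H; exact H
    refine Ideal.add_mem _ (Ideal.sub_mem _ ?_ ?_) ?_
    · exact Ideal.mem_sup_right (Ideal.mul_mem_left _ _ ha)
    · refine Ideal.mem_sup_left (Ideal.mul_mem_left _ _ (Ideal.sum_mem _ fun μ hμ => ?_))
      exact Ideal.mul_mem_right _ _ (Ideal.subset_span hμ)
    · refine Ideal.mem_sup_right ?_
      rw [pow_succ]; exact Ideal.mul_mem_mul (h1 _ hμ) hm'
  · exact Ideal.mem_sup_left (Ideal.subset_span (Finset.mem_coe.mpr (Finset.mem_erase.mpr ⟨hνμ, hν⟩)))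

lemma strict_step {𝔪 : Ideal Λ} [𝔪.IsMaximal] (fg : 𝔪.FG) (Ψ : M →ₗ[Λ] M') (hFl : Fl 𝔪 M')
    (hinj : ∀ v, Ψ v ∈ (𝔪 • ⊤ : Submodule Λ M') → v ∈ (𝔪 • ⊤ : Submodule Λ M)) (n : ℕ) (v : M)
    (hv : v ∈ (𝔪 ^ n • ⊤ : Submodule Λ M)) (hΨ : Ψ v ∈ (𝔪 ^ (n + 1) • ⊤ : Submodule Λ M')) :
    v ∈ (𝔪 ^ (n + 1) • ⊤ : Submodule Λ M) := by
  obtain ⟨s, h1, h2, h3⟩ := exists_min_gens 𝔪 fg n
  have hv' := Submodule.smul_mono h2 le_rfl hv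
  rw [Submodule.sup_smul] at hv'
  obtain ⟨v1, hv1, v2, hv2, rfl⟩ := Submodule.mem_sup.mp hv'
  obtain ⟨w, rfl⟩ := (mem_span_smul_top s v1).mp hv1
  refine Submodule.add_mem _ ?_ hv2
  have h4 : ∑ μ ∈ s, μ • Ψ (w μ) ∈ (𝔪 ^ (n + 1) • ⊤ : Submodule Λ M') := by
    have := Submodule.sub_mem _ hΨ (map_mem_smul_top Ψ hv2)
    simpa using this
  refine Submodule.sum_mem _ fun μ hμ => ?_
  have := hinj _ (hFl n s h3 _ h4 μ hμ)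
  exact smul_mem_pow_add 𝔪 (h1 μ hμ) (by simpa using this)

lemma strict_pow {𝔪 : Ideal Λ} [𝔪.IsMaximal] (fg : 𝔪.FG) (Ψ : M →ₗ[Λ] M') (hFl : Fl 𝔪 M')
    (hinj : ∀ v, Ψ v ∈ (𝔪 • ⊤ : Submodule Λ M') → v ∈ (𝔪 • ⊤ : Submodule Λ M)) (n : ℕ) (v : M)
    (hΨ : Ψ v ∈ (𝔪 ^ n • ⊤ : Submodule Λ M')) : v ∈ (𝔪 ^ n • ⊤ : Submodule Λ M) := by
  induction n with
  | zero => simp
  | succ n ih => exact strict_step fg Ψ hFl hinj n v (ih (pow_smul_mono 𝔪 (Nat.le_succ n) hΨ)) hΨ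

lemma injective_of_red {𝔪 : Ideal Λ} [𝔪.IsMaximal] (fg : 𝔪.FG) [IsHausdorff 𝔪 M]
    (Ψ : M →ₗ[Λ] M') (hFl : Fl 𝔪 M')
    (hinj : ∀ v, Ψ v ∈ (𝔪 • ⊤ : Submodule Λ M') → v ∈ (𝔪 • ⊤ : Submodule Λ M)) :
    Function.Injective Ψ := by
  rw [injective_iff_map_eq_zero]
  intro v hv
  exact haus_zero 𝔪 fun n => strict_pow fg Ψ hFl hinj n v (by simp [hv])

lemma surjective_of_red (𝔪 : Ideal Λ) [IsPrecomplete 𝔪 M] [IsHausdorff 𝔪 M'] (Ψ : M →ₗ[Λ] M')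
    (hsurj : ∀ w, ∃ v, Ψ v - w ∈ (𝔪 • ⊤ : Submodule Λ M')) : Function.Surjective Ψ := by
  apply surjective_of_mkQ_comp_surjective (I := 𝔪)
  intro y
  obtain ⟨w, rfl⟩ := Submodule.mkQ_surjective _ y
  obtain ⟨v, hv⟩ := hsurj w
  exact ⟨v, (Submodule.Quotient.eq _).mpr hv⟩

lemma lift_pow {P : Type*} [AddCommGroup P] [Module Λ P] (𝔪 : Ideal Λ) (L : M →ₗ[Λ] M')
    (ν : P →ₗ[Λ] M') (h1 : ∀ h, ∃ v, L v - ν h ∈ (𝔪 • ⊤ : Submodule Λ M')) (n : ℕ) (h : P)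
    (hh : h ∈ (𝔪 ^ n • ⊤ : Submodule Λ P)) :
    ∃ v ∈ (𝔪 ^ n • ⊤ : Submodule Λ M), L v - ν h ∈ (𝔪 ^ (n + 1) • ⊤ : Submodule Λ M') := by
  refine Submodule.smul_induction_on hh ?_ ?_
  · intro r hr p _
    obtain ⟨v, hv⟩ := h1 p
    refine ⟨r • v, Submodule.smul_mem_smul hr Submodule.mem_top, ?_⟩
    rw [map_smul, map_smul, ← smul_sub]
    exact smul_mem_pow_add 𝔪 hr (by simpa using hv)
  · rintro a b ⟨v, hv, hv'⟩ ⟨w, hw, hw'⟩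
    refine ⟨v + w, Submodule.add_mem _ hv hw, ?_⟩
    have := Submodule.add_mem _ hv' hw'
    convert this using 1
    simp only [map_add]; abel

lemma newton_exists (𝔪 : Ideal Λ) [hp : IsPrecomplete 𝔪 M] [IsHausdorff 𝔪 M'] (Φ : M → M')
    (hcont : ∀ n, 1 ≤ n → ∀ z ∈ (𝔪 • ⊤ : Submodule Λ M), ∀ v ∈ (𝔪 ^ n • ⊤ : Submodule Λ M),
      Φ (z + v) - Φ z ∈ (𝔪 ^ n • ⊤ : Submodule Λ M'))
    (hstep : ∀ n, 1 ≤ n → ∀ z ∈ (𝔪 • ⊤ : Submodule Λ M), Φ z ∈ (𝔪 ^ n • ⊤ : Submodule Λ M') →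
      ∃ v ∈ (𝔪 ^ n • ⊤ : Submodule Λ M), Φ (z + v) ∈ (𝔪 ^ (n + 1) • ⊤ : Submodule Λ M'))
    (h0 : Φ 0 ∈ (𝔪 • ⊤ : Submodule Λ M')) :
    ∃ z ∈ (𝔪 • ⊤ : Submodule Λ M), Φ z = 0 := by
  have hstep' : ∀ n, ∀ z : {z : M // z ∈ (𝔪 • ⊤ : Submodule Λ M) ∧
      Φ z ∈ (𝔪 ^ (n + 1) • ⊤ : Submodule Λ M')},
      ∃ z' : {z : M // z ∈ (𝔪 • ⊤ : Submodule Λ M) ∧
        Φ z ∈ (𝔪 ^ (n + 1 + 1) • ⊤ : Submodule Λ M')},
        z'.1 - z.1 ∈ (𝔪 ^ (n + 1) • ⊤ : Submodule Λ M) := by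
    rintro n ⟨z, hz, hΦ⟩
    obtain ⟨v, hv, hv'⟩ := hstep (n + 1) (Nat.le_add_left 1 n) z hz hΦ
    refine ⟨⟨z + v, Submodule.add_mem _ hz ?_, hv'⟩, by simpa using hv⟩
    simpa using pow_smul_mono 𝔪 (Nat.le_add_left 1 n) hv
  choose nxt hnxt using hstep'
  let seq : ∀ n, {z : M // z ∈ (𝔪 • ⊤ : Submodule Λ M) ∧
      Φ z ∈ (𝔪 ^ (n + 1) • ⊤ : Submodule Λ M')} := fun n =>
    Nat.rec ⟨0, Submodule.zero_mem _, by simpa using h0⟩ (fun n z => nxt n z) n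
  have hseq : ∀ n, (seq (n + 1)).1 - (seq n).1 ∈ (𝔪 ^ (n + 1) • ⊤ : Submodule Λ M) :=
    fun n => hnxt n (seq n)
  have hcau : ∀ m k, (seq (m + k)).1 - (seq m).1 ∈ (𝔪 ^ (m + 1) • ⊤ : Submodule Λ M) := by
    intro m k
    induction k with
    | zero => simp
    | succ k ih =>
      have := Submodule.add_mem _ (pow_smul_mono 𝔪 (by omega : m + 1 ≤ m + k + 1) (hseq (m + k))) ih
      convert this using 1
      rw [← add_assoc]; abel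
  obtain ⟨L, hL⟩ := hp.prec' (fun n => (seq n).1) (fun {m n} hmn => by
    obtain ⟨k, rfl⟩ := Nat.exists_eq_add_of_le hmn
    exact (SModEq.sub_mem.mpr (pow_smul_mono 𝔪 (Nat.le_succ m) (hcau m k))).symm)
  have hL' : ∀ n, L - (seq n).1 ∈ (𝔪 ^ n • ⊤ : Submodule Λ M) :=
    fun n => SModEq.sub_mem.mp (hL n).symm
  refine ⟨L, ?_, ?_⟩
  · have := Submodule.add_mem _ (seq 1).2.1 (by simpa using hL' 1)
    simpa using this
  · apply haus_zero 𝔪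
    intro n
    have h1 := hcont (n + 1) (Nat.le_add_left 1 n) _ (seq (n + 1)).2.1 _ (hL' (n + 1))
    have h2 := pow_smul_mono 𝔪 (Nat.le_succ (n + 1)) (seq (n + 1)).2.2
    have := Submodule.add_mem _ h1 h2
    simp only [add_sub_cancel, sub_add_cancel] at this
    exact pow_smul_mono 𝔪 (Nat.le_succ n) this

lemma newton_unique (𝔪 : Ideal Λ) [IsHausdorff 𝔪 M] {T : Type*} (Φ : M → T)
    (hstep : ∀ n, 1 ≤ n → ∀ z ∈ (𝔪 • ⊤ : Submodule Λ M), ∀ v ∈ (𝔪 ^ n • ⊤ : Submodule Λ M),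
      Φ (z + v) = Φ z → v ∈ (𝔪 ^ (n + 1) • ⊤ : Submodule Λ M))
    {z z' : M} (hz : z ∈ (𝔪 • ⊤ : Submodule Λ M)) (hz' : z' ∈ (𝔪 • ⊤ : Submodule Λ M))
    (h : Φ z' = Φ z) : z' = z := by
  rw [← sub_eq_zero]
  apply haus_zero 𝔪
  have : ∀ n, z' - z ∈ (𝔪 ^ (n + 1) • ⊤ : Submodule Λ M) := by
    intro n
    induction n with
    | zero => simpa using Submodule.sub_mem _ hz' hz
    | succ n ih => exact hstep (n + 1) (Nat.le_add_left 1 n) z hz _ ih (by simpa using h)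
  exact fun n => pow_smul_mono 𝔪 (Nat.le_succ n) (this n)

end basic

end Pool.Agent.MP_f5cee0_ag.H4
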