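import Pool.Agent.MP_f5cee0_ag.H4.Split

/-!
The local ring of a hypersurface in Weierstrass position as a monogenic algebra.
-/

namespace Pool.Agent.MP_f5cee0_ag.H4

open PowerSeries
open scoped nonZeroDivisors

universe u

lemma exists_extend {A B S : Type*} [CommRing A] [CommRing B] [CommRing S] [IsDomain S]
    [IsIntegrallyClosed S] [Algebra A B] [Algebra.IsIntegral A B]
    (hinj : Function.Injective (algebraMap A B)) (d : A)
    (hd : ∀ ξ, ∃ a, algebraMap A B a = algebraMap A B d * ξ) (φ : A →+* S) (hφ : φ d ≠ 0) :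
    ∃ ψ : B →+* S, ∀ a, ψ (algebraMap A B a) = φ a := by
  choose T hT using hd
  let E := FractionRing S
  let φ' : A →+* E := (algebraMap S E).comp φ
  have hd' : φ' d ≠ 0 := by simpa [φ'] using hφ
  have hT1 : ∀ a, T (algebraMap A B a) = d * a := fun a => hinj (by rw [hT, map_mul])
  let ψ : B →+* E :=
    { toFun := fun ξ => φ' (T ξ) / φ' d
      map_one' := by rw [← map_one (algebraMap A B), hT1, mul_one, div_self hd']
      map_mul' := fun a b => by
        have : d * T (a * b) = T a * T b := hinj (by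
          rw [map_mul, map_mul, hT, hT, hT]; ring)
        have h2 := congrArg φ' this
        rw [map_mul, map_mul] at h2
        rw [div_mul_div_comm, div_eq_div_iff hd' (mul_ne_zero hd' hd')]
        linear_combination (φ' d) * h2
      map_zero' := by rw [← map_zero (algebraMap A B), hT1, mul_zero, map_zero, zero_div]
      map_add' := fun a b => by
        have : T (a + b) = T a + T b := hinj (by rw [map_add, hT, hT, hT, mul_add])
        rw [this, map_add, add_div] }
  have hψ : ∀ a, ψ (algebraMap A B a) = algebraMap S E (φ a) := fun a => by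
    change φ' (T _) / φ' d = _
    rw [hT1, map_mul, mul_div_cancel_left₀ _ hd']; rfl
  have hint : ∀ ξ, ∃ s, algebraMap S E s = ψ ξ := fun ξ =>
    IsIntegrallyClosed.isIntegral_iff.mp (IsIntegral.map_of_comp_eq φ ψ
      (by ext a; exact (hψ a).symm) (Algebra.IsIntegral.isIntegral ξ))
  choose s hs using hint
  have hi := IsFractionRing.injective S E
  refine ⟨{ toFun := s
            map_one' := hi (by rw [hs, map_one, map_one])
            map_mul' := fun a b => hi (by rw [hs, map_mul, map_mul, hs, hs])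
            map_zero' := hi (by rw [hs, map_zero, map_zero])
            map_add' := fun a b => hi (by rw [hs, map_add, map_add, hs, hs]) }, fun a => hi ?_⟩
  exact (hs _).trans (hψ a)

variable {Λ : Type u} [CommRing Λ]

lemma finite_of_div {Q : Type u} [AddCommGroup Q] [Module Λ⟦X⟧ Q] [Module Λ Q]
    [IsScalarTower Λ Λ⟦X⟧ Q] [Module.Finite Λ⟦X⟧ Q] {d : Λ⟦X⟧} {n : ℕ}
    (hdiv : ∀ h, ∃ a s, h = d * a + pol Λ n s) (hd : ∀ q : Q, d • q = 0) : Module.Finite Λ Q := by
  obtain ⟨k, b, hb⟩ := Module.Finite.exists_fin (R := Λ⟦X⟧) (M := Q)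
  let T : (Fin k → Fin n → Λ) →ₗ[Λ] Q :=
    { toFun := fun s => ∑ j, pol Λ n (s j) • b j
      map_add' := fun s t => by simp [add_smul, Finset.sum_add_distrib]
      map_smul' := fun c s => by simp [Finset.smul_sum] }
  refine Module.Finite.of_surjective T fun q => ?_
  have hq : q ∈ Submodule.span Λ⟦X⟧ (Set.range b) := hb ▸ Submodule.mem_top
  obtain ⟨c, rfl⟩ := (Submodule.mem_span_range_iff_exists_fun _).mp hq
  choose a s h using fun j => hdiv (c j)
  refine ⟨s, ?_⟩
  change ∑ j, pol Λ n (s j) • b j = _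
  refine Finset.sum_congr rfl fun j _ => ?_
  rw [h j, add_smul, mul_smul, hd, zero_add]

/-- the structure of algebra over the power series in `x` -/
@[reducible] noncomputable def algD (F : P2 Λ) : Algebra Λ⟦X⟧ (QR F) :=
  ((Ideal.Quotient.mk (Ideal.span {F})).comp (iota Λ).toRingHom).toAlgebra

attribute [local instance] algD

lemma algD_apply (F : P2 Λ) (h : Λ⟦X⟧) :
    algebraMap Λ⟦X⟧ (QR F) h = Ideal.Quotient.mk _ (iota Λ h) := rfl

lemma towerD (F : P2 Λ) : IsScalarTower Λ Λ⟦X⟧ (QR F) :=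
  IsScalarTower.of_algebraMap_eq fun r => by
    rw [algD_apply, (iota Λ).commutes]; rfl

attribute [local instance] towerD

/-- the class of `y` -/
noncomputable def yq (F : P2 Λ) : QR F := Ideal.Quotient.mk _ (MvPowerSeries.X 1)

/-- the basis map -/
noncomputable def eq0 (F : P2 Λ) (m : ℕ) : (Fin m → Λ⟦X⟧) →ₗ[Λ⟦X⟧] QR F :=
  Fintype.linearCombination Λ⟦X⟧ fun k => yq F ^ (k : ℕ)

lemma eq0_apply (F : P2 Λ) (m : ℕ) (s : Fin m → Λ⟦X⟧) :
    eq0 F m s = Ideal.Quotient.mk _ (wr Λ m s) := by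
  rw [eq0, Fintype.linearCombination_apply, wr_apply, map_sum]
  rfl

lemma eq0_bij {F : P2 Λ} {m : ℕ} (hW : Function.Bijective (Wm m F)) :
    Function.Bijective (eq0 F m) := by
  constructor
  · rw [injective_iff_map_eq_zero]
    intro s hs
    rw [eq0_apply, Ideal.Quotient.eq_zero_iff_mem, Ideal.mem_span_singleton'] at hs
    obtain ⟨q, hq⟩ := hs
    have : Wm m F (-q, s) = Wm m F 0 := by rw [map_zero, Wm_apply, ← hq]; ring
    exact congrArg Prod.snd (hW.1 this)
  · intro a
    obtain ⟨a, rfl⟩ := Ideal.Quotient.mk_surjective a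
    obtain ⟨⟨q, s⟩, rfl⟩ := hW.2 a
    refine ⟨s, ?_⟩
    rw [eq0_apply, Ideal.Quotient.eq, Wm_apply, Ideal.mem_span_singleton']
    exact ⟨-q, by ring⟩

lemma pderiv_eval₂ (P : Polynomial Λ⟦X⟧) :
    MvPowerSeries.pderiv Λ 1 (P.eval₂ (iota Λ).toRingHom (MvPowerSeries.X 1)) =
      P.derivative.eval₂ (iota Λ).toRingHom (MvPowerSeries.X 1) := by
  induction P using Polynomial.induction_on' with
  | add p q hp hq => simp only [Polynomial.eval₂_add, map_add, hp, hq]
  | monomial n a =>
    rw [Polynomial.derivative_monomial, Polynomial.eval₂_monomial, Polynomial.eval₂_monomial,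
      Derivation.leibniz, Derivation.leibniz_pow, MvPowerSeries.pderiv_X_self]
    have := pderiv_one_iota a
    simp only [AlgHom.toRingHom_eq_coe, RingHom.coe_coe, this, smul_eq_mul, mul_one, mul_zero,
      add_zero, map_mul, map_natCast, nsmul_eq_mul, mul_assoc]

theorem exists_monogenic [Nontrivial Λ] {F : P2 Λ} {m : ℕ} (hW : Function.Bijective (Wm m F)) :
    ∃ (P : Polynomial Λ⟦X⟧) (p : Fin m → Λ⟦X⟧) (q : P2 Λ), P.Monic ∧
      Function.Surjective (Polynomial.aeval (yq F) : Polynomial Λ⟦X⟧ → QR F) ∧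
      (∀ h, Polynomial.aeval (yq F) h = 0 ↔ P ∣ h) ∧
      MvPowerSeries.X 1 ^ m - wr Λ m p = q * F ∧
      Polynomial.aeval (yq F) P.derivative =
        Ideal.Quotient.mk _ (q * MvPowerSeries.pderiv Λ 1 F) := by
  obtain ⟨p, hp⟩ := (eq0_bij hW).2 (yq F ^ m)
  have h1 : MvPowerSeries.X 1 ^ m - wr Λ m p ∈ Ideal.span {F} := by
    rw [← Ideal.Quotient.eq, ← eq0_apply, hp]; rfl
  obtain ⟨q, hq⟩ := Ideal.mem_span_singleton'.mp h1
  let P : Polynomial Λ⟦X⟧ := Polynomial.X ^ m - ∑ k, Polynomial.C (p k) * Polynomial.X ^ (k : ℕ)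
  have hdeg := Polynomial.degree_sum_fin_lt p
  have hP : P.Monic := Polynomial.monic_X_pow_sub hdeg
  have hPd : P.degree = m := by
    rw [Polynomial.degree_sub_eq_left_of_degree_lt (by rwa [Polynomial.degree_X_pow]),
      Polynomial.degree_X_pow]
  have hsum : ∀ s : Fin m → Λ⟦X⟧, Polynomial.aeval (yq F)
      (∑ k, Polynomial.C (s k) * Polynomial.X ^ (k : ℕ)) = eq0 F m s := by
    intro s
    simp only [map_sum, map_mul, map_pow, Polynomial.aeval_C, Polynomial.aeval_X, eq0,
      Fintype.linearCombination_apply, Algebra.smul_def]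
  have hP0 : Polynomial.aeval (yq F) P = 0 := by
    rw [map_sub, hsum, hp, map_pow, Polynomial.aeval_X, sub_self]
  have hev : ∀ h : Polynomial Λ⟦X⟧, Polynomial.aeval (yq F) h =
      Ideal.Quotient.mk _ (h.eval₂ (iota Λ).toRingHom (MvPowerSeries.X 1)) := fun h => by
    rw [Polynomial.hom_eval₂]; rfl
  refine ⟨P, p, q, hP, fun a => ?_, fun h => ⟨fun hh => ?_, ?_⟩, hq.symm, ?_⟩
  · obtain ⟨s, rfl⟩ := (eq0_bij hW).2 a
    exact ⟨_, hsum s⟩
  · rw [← Polynomial.modByMonic_eq_zero_iff_dvd hP]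
    have h2 : h %ₘ P ∈ Polynomial.degreeLT Λ⟦X⟧ m := by
      rw [Polynomial.mem_degreeLT, ← hPd]; exact Polynomial.degree_modByMonic_lt h hP
    have h3 := Polynomial.degreeLTEquiv_eq_zero_iff_eq_zero h2
    rw [← h3]
    apply (eq0_bij hW).1
    rw [map_zero, ← hsum, ← hh, ← Polynomial.aeval_modByMonic_eq_self_of_root (p := h) hP0]
    congr 1
    have := congrArg Subtype.val ((Polynomial.degreeLTEquiv Λ⟦X⟧ m).symm_apply_apply ⟨_, h2⟩)
    refine Eq.trans ?_ this
    simp only [Polynomial.C_mul_X_pow_eq_monomial]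
    rfl
  · rintro ⟨c, rfl⟩
    rw [map_mul, hP0, zero_mul]
  · have e : P.eval₂ (iota Λ).toRingHom (MvPowerSeries.X 1) = q * F := by
      rw [hq, wr_apply]
      simp [P, Polynomial.eval₂_sub, Polynomial.eval₂_finsetSum]
    rw [hev, ← pderiv_eval₂, e, Derivation.leibniz, Ideal.Quotient.eq, Ideal.mem_span_singleton']
    exact ⟨MvPowerSeries.pderiv Λ 1 q, by simp only [smul_eq_mul]; ring⟩

end Pool.Agent.MP_f5cee0_ag.H4
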