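import Pool.Agent.MP_f5cee0_ag.H4.Lift

/-!
Reparametrisations and the normal form of the first coordinate of a branch.
-/

namespace Pool.Agent.MP_f5cee0_ag.H4

open PowerSeries

universe u

lemma map_mem_pow_succ {Λ M M' : Type*} [CommRing Λ] [AddCommGroup M] [Module Λ M]
    [AddCommGroup M'] [Module Λ M'] (𝔪 : Ideal Λ) (T : M →ₗ[Λ] M')
    (hT : ∀ v, T v ∈ (𝔪 • ⊤ : Submodule Λ M')) {n : ℕ} {v : M}
    (hv : v ∈ (𝔪 ^ n • ⊤ : Submodule Λ M)) : T v ∈ (𝔪 ^ (n + 1) • ⊤ : Submodule Λ M') := by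
  refine Submodule.smul_induction_on hv ?_ ?_
  · intro r hr m _
    rw [map_smul]
    exact smul_mem_pow_add 𝔪 hr (by simpa using hT m)
  · intro a b ha hb
    rw [map_add]; exact Submodule.add_mem _ ha hb

variable (K : Type u) {Λ : Type u} [Field K] [CommRing Λ] [Algebra K Λ] [CBase K Λ]

/-- substitution `u ↦ U` -/
noncomputable def sbs (U : Λ⟦X⟧) : Λ⟦X⟧ →ₐ[Λ] Λ⟦X⟧ := evJ K (fun _ : Unit => U)

variable {K}

lemma sbs_X {U : Λ⟦X⟧} (hU : U ∈ JJ (mx K Λ)) : sbs K U X = U :=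
  evJ_X (σ := Unit) (fun _ => hU) ()

lemma sbs_C (U : Λ⟦X⟧) (r : Λ) : sbs K U (C r) = C r := evJ_C (σ := Unit) _ r

lemma sbs_self : sbs K (X : Λ⟦X⟧) = AlgHom.id Λ _ :=
  algHom_ext (σ := Unit) (JJ (mx K Λ)) _ _ (fun _ => sbs_X (X_mem_JJ _))
    (fun _ => by
      change sbs K X X ∈ _
      rw [sbs_X (X_mem_JJ _)]; exact X_mem_JJ _)

lemma mem_JJ_of_red_X {U : Λ⟦X⟧} (hU : PowerSeries.map (rho K Λ) U = X) : U ∈ JJ (mx K Λ) :=
  mem_JJ_of_red (by rw [hU]; simp)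

lemma red_sbs {U : Λ⟦X⟧} (hU : PowerSeries.map (rho K Λ) U = X) (h : Λ⟦X⟧) :
    PowerSeries.map (rho K Λ) (sbs K U h) = PowerSeries.map (rho K Λ) h := by
  have := map_evJ (σ := Unit) (rho K Λ) rho_mem_mx (a := fun _ => U)
    (fun _ => mem_JJ_of_red_X hU) h
  simp only [hU] at this
  exact this.trans (congrArg (fun φ : K⟦X⟧ →ₐ[K] K⟦X⟧ => φ _) (sbs_self (K := K)))

lemma sbs_bij {U : Λ⟦X⟧} (hU : PowerSeries.map (rho K Λ) U = X) :
    Function.Bijective (sbs K U) :=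
  ⟨inj_of_square (K := K) (sbs K U).toLinearMap id (red_sbs hU) fun _ h => h,
    surj_of_square (K := K) (sbs K U).toLinearMap id (red_sbs hU) Function.surjective_id⟩

lemma derivative_sbs {U : Λ⟦X⟧} (hU : U ∈ JJ (mx K Λ)) (h : Λ⟦X⟧) :
    d⁄dX Λ (sbs K U h) = sbs K U (d⁄dX Λ h) * d⁄dX Λ U := by
  have := derivative_evJ (σ := Unit) (a := fun _ => U) (fun _ => hU) h
  rw [Fintype.sum_unique] at this
  exact this

lemma sbs_mem_JJ {U : Λ⟦X⟧} (hU : PowerSeries.map (rho K Λ) U = X) {h : Λ⟦X⟧}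
    (hh : h ∈ JJ (mx K Λ)) : sbs K U h ∈ JJ (mx K Λ) := by
  apply mem_JJ_of_red
  rw [red_sbs hU, ← coeff_zero_eq_constantCoeff_apply, coeff_map,
    coeff_zero_eq_constantCoeff_apply]
  exact hh

lemma sbs_evJ {σ : Type} [Finite σ] {U : Λ⟦X⟧} (hU : PowerSeries.map (rho K Λ) U = X)
    {a : σ → Λ⟦X⟧} (ha : ∀ i, a i ∈ JJ (mx K Λ)) (h : MvPowerSeries σ Λ) :
    sbs K U (evJ K a h) = evJ K (fun i => sbs K U (a i)) h := by
  have ha' := fun i => sbs_mem_JJ hU (ha i)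
  have := algHom_ext (JJ (mx K Λ)) ((sbs K U).comp (evJ K a)) (evJ K (fun i => sbs K U (a i)))
    (fun i => by simp [evJ_X ha, evJ_X ha']) (fun i => by simpa [evJ_X ha] using ha' i)
  exact AlgHom.congr_fun this h

/-- polynomials of degree `< k` -/
noncomputable def pol (Λ : Type u) [CommRing Λ] (k : ℕ) : (Fin k → Λ) →ₗ[Λ] Λ⟦X⟧ :=
  Fintype.linearCombination Λ fun j => X ^ (j : ℕ)

lemma pol_apply {Λ : Type u} [CommRing Λ] (k : ℕ) (s : Fin k → Λ) :
    pol Λ k s = ∑ j, s j • (X : Λ⟦X⟧) ^ (j : ℕ) := rfl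

lemma map_pol {Λ Λ' : Type u} [CommRing Λ] [CommRing Λ'] (β : Λ →+* Λ') (k : ℕ) (s : Fin k → Λ) :
    PowerSeries.map β (pol Λ k s) = pol Λ' k (fun j => β (s j)) := by
  simp [pol_apply, smul_eq_C_mul]

lemma coeff_pol {Λ : Type u} [CommRing Λ] (k : ℕ) (s : Fin k → Λ) (j : Fin k) :
    coeff j (pol Λ k s) = s j := by
  rw [pol_apply, map_sum, Finset.sum_eq_single j]
  · simp
  · intro b _ hb
    have : (j : ℕ) ≠ b := fun h => hb (Fin.ext h.symm)
    simp [coeff_X_pow, this]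
  · simp

lemma div_inj {k : ℕ} {v : K⟦X⟧} (hv : constantCoeff v ≠ 0) (a : K⟦X⟧) (s : Fin k → K)
    (h : X ^ k * v * a + pol K k s = 0) : a = 0 ∧ s = 0 := by
  have hs : s = 0 := by
    funext j
    have := congrArg (coeff j) h
    rwa [map_add, coeff_pol, mul_assoc, coeff_X_pow_mul', if_neg (by omega), zero_add,
      map_zero] at this
  refine ⟨?_, hs⟩
  rw [hs, map_zero, add_zero] at h
  have hv' : v ≠ 0 := fun h0 => hv (by rw [h0, map_zero])
  exact (mul_eq_zero.mp h).resolve_left (mul_ne_zero (pow_ne_zero _ X_ne_zero) hv')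

lemma div_surj (k : ℕ) {v : K⟦X⟧} (hv : constantCoeff v ≠ 0) (h : K⟦X⟧) :
    ∃ (a : K⟦X⟧) (s : Fin k → K), X ^ k * v * a + pol K k s = h := by
  obtain ⟨v', hv'⟩ := (isUnit_iff_constantCoeff.mpr (IsUnit.mk0 _ hv)).exists_right_inv
  refine ⟨v' * PowerSeries.mk fun i => coeff (i + k) h, fun j => coeff j h, ?_⟩
  conv_rhs => rw [eq_X_pow_mul_shift_add_trunc k h, coe_trunc_eq_sum, Finset.sum_range]
  simp only [pol_apply, smul_eq_C_mul]
  linear_combination (X ^ k * PowerSeries.mk fun i => coeff (i + k) h) * hv'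

/-- linearised normal form map -/
noncomputable def divMap (k : ℕ) (H : Λ⟦X⟧) : (Λ⟦X⟧ × (Fin k → Λ)) →ₗ[Λ] Λ⟦X⟧ :=
  LinearMap.coprod (LinearMap.mulLeft Λ H) (pol Λ k)

lemma divMap_apply (k : ℕ) (H : Λ⟦X⟧) (z) : divMap k H z = H * z.1 + pol Λ k z.2 := rfl

section div

variable {k : ℕ} {v : K⟦X⟧} (hv : constantCoeff v ≠ 0) {H : Λ⟦X⟧}
  (hH : PowerSeries.map (rho K Λ) H = X ^ k * v)
include hH

lemma divMap_comm (z) : Red.red K Λ (divMap k H z) = divMap k (X ^ k * v) (Red.red K Λ z) := by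
  simp only [divMap_apply, red_ps, map_add, map_mul, hH, map_pol]
  rfl

include hv

lemma divMap_bij : Function.Bijective (divMap k H) :=
  ⟨inj_of_square _ (divMap k (X ^ k * v)) (divMap_comm hH)
      fun _ h => Prod.ext (div_inj hv _ _ h).1 (div_inj hv _ _ h).2,
    surj_of_square _ (divMap k (X ^ k * v)) (divMap_comm hH) fun h => by
      obtain ⟨a, s, rfl⟩ := div_surj k hv h
      exact ⟨(a, s), rfl⟩⟩

lemma divMap_strict (n : ℕ) (z) (hz : divMap k H z ∈ (mx K Λ ^ n • ⊤ : Submodule Λ _)) :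
    z ∈ (mx K Λ ^ n • ⊤ : Submodule Λ _) :=
  strict_of_square _ (divMap k (X ^ k * v)) (divMap_comm hH)
    (fun _ h => Prod.ext (div_inj hv _ _ h).1 (div_inj hv _ _ h).2) n z hz

end div

section nf

variable (k : ℕ) (x : K⟦X⟧)

/-- the normal form map -/
noncomputable def nfMap (z : Λ⟦X⟧ × (Fin k → Λ)) : Λ⟦X⟧ :=
  sbs K (X + z.1) (PowerSeries.map (algebraMap K Λ) x + pol Λ k z.2)

lemma red_X_add {a : Λ⟦X⟧} (ha : a ∈ (mx K Λ • ⊤ : Submodule Λ Λ⟦X⟧)) :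
    PowerSeries.map (rho K Λ) (X + a) = X := by
  rw [ps_red_iff] at ha
  rw [map_add, ha, map_X, add_zero]

lemma nf_taylor {n : ℕ} (hn : 1 ≤ n) (z) (hz : z ∈ (mx K Λ • ⊤ : Submodule Λ _)) (v)
    (hv : v ∈ (mx K Λ ^ n • ⊤ : Submodule Λ _)) :
    nfMap k x (z + v) - nfMap k x z -
      divMap k (PowerSeries.map (algebraMap K Λ) (d⁄dX K x)) v ∈
      (mx K Λ ^ (n + 1) • ⊤ : Submodule Λ Λ⟦X⟧) := by
  obtain ⟨a, s⟩ := z
  obtain ⟨b, σ⟩ := v
  obtain ⟨ha, hs⟩ := (prod_mem_smul_top _).mp hz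
  obtain ⟨hb, hσ⟩ := (prod_mem_smul_top _).mp hv
  simp only at ha hs hb hσ
  have hU := red_X_add ha
  have hU' := red_X_add (Submodule.add_mem _ ha (by simpa using pow_smul_mono _ hn hb))
  set H := PowerSeries.map (algebraMap K Λ) x + pol Λ k s with hH
  have h1 := evJ_taylor (σ := Unit) (a := fun _ => X + a) (v := fun _ => b)
    (fun _ => mem_JJ_of_red_X hU) hn (fun _ => hb) H
  rw [Fintype.sum_unique] at h1
  have h1' : sbs K (X + (a + b)) H - sbs K (X + a) H - sbs K (X + a) (d⁄dX Λ H) * b ∈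
      (mx K Λ ^ (n + 1) • ⊤ : Submodule Λ Λ⟦X⟧) := by
    rw [← add_assoc]; exact h1
  have h2 : sbs K (X + a) (d⁄dX Λ H) - PowerSeries.map (algebraMap K Λ) (d⁄dX K x) ∈
      (mx K Λ • ⊤ : Submodule Λ Λ⟦X⟧) := by
    have := (ps_red_iff _).mp (map_mem_smul_top (pol Λ k) hs)
    rw [ps_red_iff, map_sub, red_sbs hU, map_derivative, hH, map_add, this, ps_red_lift,
      ps_red_lift, add_zero, sub_self]
  have h3 := map_mem_pow_succ (mx K Λ) ((sbs K (X + (a + b))).toLinearMap - LinearMap.id)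
    (fun h => by
      rw [ps_red_iff]
      simp [red_sbs hU']) (map_mem_smul_top (pol Λ k) hσ)
  have h4 := Submodule.add_mem _ (Submodule.add_mem _ h1' (mul_mem_pow_succ _ h2 hb)) h3
  convert h4 using 1
  simp only [nfMap, divMap_apply, Prod.fst_add, Prod.snd_add, map_add, hH, LinearMap.sub_apply,
    AlgHom.toLinearMap_apply, LinearMap.id_apply]
  ring

variable {k x} {v : K⟦X⟧} (hv : constantCoeff v ≠ 0) (hx : d⁄dX K x = X ^ k * v)
include hv hx

lemma nf_exists {H : Λ⟦X⟧} (hH : PowerSeries.map (rho K Λ) H = x) :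
    ∃ z ∈ (mx K Λ • ⊤ : Submodule Λ _), nfMap k x z = H := by
  have hL : PowerSeries.map (rho K Λ) (PowerSeries.map (algebraMap K Λ) (d⁄dX K x)) =
    X ^ k * v := by rw [ps_red_lift, hx]
  obtain ⟨z, hz, h⟩ := newton_exists (mx K Λ) (fun z => nfMap k x z - H)
    (fun n hn z hz w hw => by
      have := Submodule.add_mem _ (pow_smul_mono _ (Nat.le_succ n) (nf_taylor k x hn z hz w hw))
        (map_mem_smul_top (divMap k (PowerSeries.map (algebraMap K Λ) (d⁄dX K x))) hw)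
      simpa using this)
    (fun n hn z hz hΦ => by
      obtain ⟨w, hw⟩ := (divMap_bij hv hL).2 (-(nfMap k x z - H))
      have hw' := divMap_strict hv hL n w (hw ▸ Submodule.neg_mem _ hΦ)
      refine ⟨w, hw', ?_⟩
      have := nf_taylor k x hn z hz w hw'
      rw [hw] at this
      convert this using 1
      ring)
    (by
      rw [ps_red_iff, map_sub, nfMap, red_sbs (by simp)]
      simp [hH])
  exact ⟨z, hz, sub_eq_zero.mp h⟩

lemma nf_unique {z z' : Λ⟦X⟧ × (Fin k → Λ)} (hz : z ∈ (mx K Λ • ⊤ : Submodule Λ _))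
    (hz' : z' ∈ (mx K Λ • ⊤ : Submodule Λ _)) (h : nfMap k x z' = nfMap k x z) : z' = z := by
  have hL : PowerSeries.map (rho K Λ) (PowerSeries.map (algebraMap K Λ) (d⁄dX K x)) =
    X ^ k * v := by rw [ps_red_lift, hx]
  refine newton_unique (mx K Λ) (nfMap k x) (fun n hn z hz w hw h => ?_) hz hz' h
  have := nf_taylor k x hn z hz w hw
  rw [h, sub_self, zero_sub, Submodule.neg_mem_iff] at this
  exact divMap_strict hv hL _ _ this

end nf

end Pool.Agent.MP_f5cee0_ag.H4
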