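import Pool.Agent.MP_f5cee0_ag.H4.Univ

/-!
A deformation of the parametrisation is a simultaneous normalisation; uniqueness of lifts.
-/

namespace Pool.Agent.MP_f5cee0_ag.H4

open PowerSeries
open scoped nonZeroDivisors

universe u

lemma exists_ann {D Q : Type*} [CommRing D] [AddCommGroup Q] [Module D Q] [Module.Finite D Q]
    (I : Ideal D) (z : D) (h : ∀ q : Q, z • q ∈ (I • ⊤ : Submodule D Q)) :
    ∃ (d : D) (n : ℕ), d - z ^ n ∈ I ∧ ∀ q : Q, d • q = 0 := by
  cases subsingleton_or_nontrivial D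
  · exact ⟨0, 0, by rw [Subsingleton.elim (0 - z ^ 0) 0]; exact I.zero_mem, fun q => zero_smul _ _⟩
  obtain ⟨p, hp, -, hc, h0⟩ :=
    LinearMap.exists_monic_and_natDegree_eq_and_coeff_mem_pow_and_aeval_eq_zero D
      (algebraMap D (Module.End D Q) z) I (by rintro _ ⟨q, rfl⟩; exact h q)
  refine ⟨p.eval z, p.natDegree, ?_, fun q => ?_⟩
  · rw [Polynomial.eval_eq_sum_range, Finset.sum_range_succ, hp.coeff_natDegree, one_mul,
      add_sub_cancel_right]
    refine Ideal.sum_mem _ fun k hk => Ideal.mul_mem_right _ _ ?_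
    have := Finset.mem_range.mp hk
    exact Ideal.pow_le_self (by omega) (hc k)
  · rw [Polynomial.aeval_algebraMap_apply_eq_algebraMap_eval] at h0
    exact LinearMap.congr_fun h0 q

lemma pi_mem_nonZeroDivisors {ι S : Type*} [CommRing S] [NoZeroDivisors S] {c : ι → S}
    (hc : ∀ i, c i ≠ 0) : c ∈ (ι → S)⁰ := by
  rw [mem_nonZeroDivisors_iff_left]
  intro a ha
  funext i
  exact (mul_eq_zero.mp (congrFun ha i)).resolve_left (hc i)

variable {K : Type u} [Field K] {f : P2 K} {D : Data f}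
variable {Λ : Type u} [CommRing Λ] [Algebra K Λ] [CBase K Λ]

lemma Data.x_ne_zero (D : Data f) (i : Fin D.r) : D.x i ≠ 0 := fun h => D.hx' i (by simp [h])

lemma red_zero_of_mem_map {h : P2 Λ} (hh : h ∈ (mx K Λ).map (algebraMap Λ (P2 Λ))) :
    MvPowerSeries.map (rho K Λ) h = 0 := by
  rw [← mvps_red_iff, Ideal.smul_top_eq_map, Submodule.restrictScalars_mem]
  exact hh

/-- the local ring of the total space -/
abbrev QR (F : P2 Λ) : Type u := P2 Λ ⧸ Ideal.span {F}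

namespace Data.IsLift

variable {X Y : Fin D.r → Λ⟦X⟧} (hL : D.IsLift X Y)
include hL

lemma finite : (nu K X Y).toRingHom.Finite := by
  classical
  let := (nu K X Y).toRingHom.toAlgebra
  refine ⟨⟨Finset.univ.image fun j => lf Λ (D.n j), ?_⟩⟩
  rw [eq_top_iff]
  rintro v -
  obtain ⟨h, rfl⟩ := hL.basis_surj v
  refine Submodule.sum_mem _ fun j _ => ?_
  exact Submodule.smul_mem _ (iota Λ (h j)) (Submodule.subset_span (by simp))

lemma exists_conductor : ∃ c : P2 Λ, (∀ i, nu K X Y c i ≠ 0) ∧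
    ∀ v, ∃ h, nu K X Y h = nu K X Y c * v := by
  let := (nu K X Y).toRingHom.toAlgebra
  have : Module.Finite (P2 Λ) (Fin D.r → Λ⟦X⟧) := hL.finite
  have : IsScalarTower Λ (P2 Λ) (Fin D.r → Λ⟦X⟧) :=
    IsScalarTower.of_algebraMap_eq fun r => ((nu K X Y).commutes r).symm
  obtain ⟨a, ha⟩ := D.cond
  let S := LinearMap.range (Algebra.linearMap (P2 Λ) (Fin D.r → Λ⟦X⟧))
  obtain ⟨c, n, hc, hc'⟩ := exists_ann (Q := (Fin D.r → Λ⟦X⟧) ⧸ S)
    ((mx K Λ).map (algebraMap Λ (P2 Λ))) (MvPowerSeries.X 0 ^ a) (fun q => by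
      obtain ⟨v, rfl⟩ := S.mkQ_surjective q
      obtain ⟨h, hh⟩ := ha (mapN (rho K Λ) v)
      have h1 : X ^ a * v - nu K X Y (lfP Λ h) ∈ (mx K Λ • ⊤ : Submodule Λ _) := by
        rw [Red.mem_iff, red_N, map_sub, hL.red_nu, mvps_red_lift, hh, map_mul, map_pow, hL.hX,
          sub_self]
      have h2 : X ^ a * v - nu K X Y (lfP Λ h) ∈
          ((mx K Λ).map (algebraMap Λ (P2 Λ)) • ⊤ : Submodule (P2 Λ) (Fin D.r → Λ⟦X⟧)) := by
        rw [Ideal.smul_top_eq_map, Submodule.restrictScalars_mem] at h1 ⊢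
        rwa [Ideal.map_map, ← IsScalarTower.algebraMap_eq]
      have h3 := map_mem_smul_top S.mkQ h2
      have h4 : S.mkQ (nu K X Y (lfP Λ h)) = 0 := (Submodule.Quotient.mk_eq_zero S).mpr ⟨_, rfl⟩
      rw [map_sub, h4, sub_zero] at h3
      convert h3 using 1
      rw [← map_smul]
      congr 1
      change nu K X Y _ * v = _
      rw [map_pow, hL.nuX])
  refine ⟨c, fun i hi => ?_, fun v => ?_⟩
  · have h1 := hL.red_nu c
    have h2 := red_zero_of_mem_map hc
    rw [map_sub, sub_eq_zero] at h2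
    simp only [h2, map_pow, MvPowerSeries.map_X, D.isLift_self.nuX] at h1
    have h3 := congrFun h1 i
    rw [mapN_apply, hi, map_zero] at h3
    exact D.x_ne_zero i (eq_zero_of_pow_eq_zero (eq_zero_of_pow_eq_zero h3.symm))
  · have := hc' (S.mkQ v)
    rw [← map_smul] at this
    exact (Submodule.Quotient.mk_eq_zero S).mp this

theorem normalisation [IsDomain Λ] [IsIntegrallyClosed Λ⟦X⟧] {F : P2 Λ}
    (hF : MvPowerSeries.map (rho K Λ) F = f) (h0 : nu K X Y F = 0) :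
    (∃ E : (Fin D.r → Λ⟦X⟧) ≃+* integralClosure (QR F) (FractionRing (QR F)),
      ∀ h, E (nu K X Y h) = algebraMap (QR F) _ (Ideal.Quotient.mk _ h)) ∧
    qrank Λ (QR F) (integralClosure (QR F) (FractionRing (QR F))) = D.δ := by
  let ν : QR F →ₐ[Λ] (Fin D.r → Λ⟦X⟧) := Ideal.Quotient.liftₐ _ (nu K X Y) (fun a ha =>
    (hL.ker_eq hF h0 a).mpr (Ideal.mem_span_singleton.mp ha))
  have hν : ∀ h, ν (Ideal.Quotient.mk _ h) = nu K X Y h := fun h => rfl
  let := ν.toRingHom.toAlgebra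
  have : IsScalarTower Λ (QR F) (Fin D.r → Λ⟦X⟧) :=
    IsScalarTower.of_algebraMap_eq fun r => (ν.commutes r).symm
  have : IsIntegrallyClosed (Fin D.r → Λ⟦X⟧) := isIntegrallyClosed_pi
  have hfin : Module.Finite (QR F) (Fin D.r → Λ⟦X⟧) :=
    RingHom.Finite.of_comp_finite (f := Ideal.Quotient.mk _) (g := ν.toRingHom) hL.finite
  obtain ⟨c, hc, hc'⟩ := hL.exists_conductor
  obtain ⟨E⟩ := exists_equiv_integralClosure (X := QR F) (N := Fin D.r → Λ⟦X⟧) (by
      rw [injective_iff_map_eq_zero]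
      intro a ha
      obtain ⟨a, rfl⟩ := Ideal.Quotient.mk_surjective a
      exact Ideal.Quotient.eq_zero_iff_mem.mpr
        (Ideal.mem_span_singleton.mpr ((hL.ker_eq hF h0 a).mp ha)))
    (Ideal.Quotient.mk _ c) (pi_mem_nonZeroDivisors hc)
    (fun v => by
      obtain ⟨h, hh⟩ := hc' v
      exact ⟨Ideal.Quotient.mk _ h, hh⟩)
  refine ⟨⟨E.toRingEquiv, fun h => E.commutes (Ideal.Quotient.mk _ h)⟩, ?_⟩
  rw [← qrank_congr_right E]
  refine qrank_of_compl (LinearEquiv.ofBijective _ hL.Psi_bij) fun v => ⟨?_, ?_⟩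
  · rintro ⟨a, rfl⟩
    obtain ⟨a, rfl⟩ := Ideal.Quotient.mk_surjective a
    obtain ⟨s, hs⟩ := hL.exists_wr a
    exact ⟨s, hs.symm⟩
  · rintro ⟨s, rfl⟩
    exact ⟨Ideal.Quotient.mk _ (wr Λ D.m s), by
      change nu K X Y _ = D.Psi X Y _
      simp [Data.Psi_apply]⟩

/-- Two lifts with the same equation differ by a reparametrisation. -/
theorem exists_reparam [IsDomain Λ] [IsIntegrallyClosed Λ⟦X⟧] {F : P2 Λ}
    (hF : MvPowerSeries.map (rho K Λ) F = f) (h0 : nu K X Y F = 0)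
    {X' Y' : Fin D.r → Λ⟦X⟧} (hL' : D.IsLift X' Y') (h0' : nu K X' Y' F = 0) (i : Fin D.r) :
    ∃ U : Λ⟦X⟧, PowerSeries.map (rho K Λ) U = PowerSeries.X ∧
      sbs K U (X i) = X' i ∧ sbs K U (Y i) = Y' i := by
  classical
  obtain ⟨E, hE⟩ := (hL.normalisation hF h0).1
  obtain ⟨E', hE'⟩ := (hL'.normalisation hF h0').1
  have hα0 : ∀ h, E'.symm (E (nu K X Y h)) = nu K X' Y' h := fun h => by
    rw [hE, ← hE', RingEquiv.symm_apply_apply]
  let α : (Fin D.r → Λ⟦X⟧) →ₐ[Λ] (Fin D.r → Λ⟦X⟧) :=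
    { (E.trans E'.symm).toRingHom with
      commutes' := fun r => by
        have := hα0 (MvPowerSeries.C r)
        rwa [algHom_C, algHom_C] at this }
  have hα : ∀ h, α (nu K X Y h) = nu K X' Y' h := hα0
  have hred : ∀ v, mapN (rho K Λ) (α v) = mapN (rho K Λ) v := by
    intro v
    obtain ⟨a, ha⟩ := D.cond
    obtain ⟨h, hh⟩ := ha (mapN (rho K Λ) v)
    have h1 : nu K X Y (MvPowerSeries.X 0 ^ a) * v - nu K X Y (lfP Λ h) ∈
        (mx K Λ • ⊤ : Submodule Λ _) := by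
      rw [Red.mem_iff, red_N, map_sub, hL.red_nu, mvps_red_lift, hh, map_pow, hL.nuX, map_mul,
        map_pow, hL.hX, sub_self]
    have h2 := map_mem_smul_top α.toLinearMap h1
    rw [Red.mem_iff, red_N, AlgHom.toLinearMap_apply, map_sub, map_mul, hα, hα, map_sub,
      hL'.red_nu, mvps_red_lift, hh, map_pow, hL'.nuX, map_mul, map_pow, hL'.hX, ← mul_sub] at h2
    exact sub_eq_zero.mp (mem_nonZeroDivisors_iff_left.mp
      (pow_mem (pi_mem_nonZeroDivisors D.x_ne_zero) a) _ h2)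
  have hε : α (Pi.single i 1) i = 1 := by
    have h1 : α (Pi.single i 1) i * (α (Pi.single i 1) i - 1) = 0 := by
      rw [mul_sub, ← Pi.mul_apply, ← map_mul, ← Pi.single_mul, mul_one, mul_one, sub_self]
    refine sub_eq_zero.mp ((mul_eq_zero.mp h1).resolve_left fun h2 => ?_)
    have h3 := congrFun (hred (Pi.single i 1)) i
    rw [mapN_apply, mapN_apply, h2] at h3
    simp at h3
  let αi : Λ⟦X⟧ →+* Λ⟦X⟧ :=
    ((Pi.evalRingHom _ i).comp α.toRingHom).comp (Pi.constRingHom (Fin D.r) Λ⟦X⟧)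
  have hαi : ∀ v, αi (v i) = α v i := by
    intro v
    have h1 : Pi.single i 1 * (Function.const _ (v i)) = Pi.single i 1 * v := by
      funext j
      by_cases hj : j = i
      · subst hj; simp
      · simp [hj]
    have h2 := congrArg (fun v => α v i) h1
    simp only [map_mul, Pi.mul_apply, hε, one_mul] at h2
    exact h2
  have hU : PowerSeries.map (rho K Λ) (αi PowerSeries.X) = PowerSeries.X := by
    have := congrFun (hred (Function.const _ PowerSeries.X)) i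
    rw [mapN_apply, mapN_apply, Function.const_apply, map_X] at this
    exact this
  have hsb : (sbs K (αi PowerSeries.X)).toRingHom = αi :=
    ps_hom_ext (JJ (mx K Λ)) _ _ (fun r => by
        have := congrFun (α.commutes r) i
        exact (sbs_C _ r).trans this.symm)
      (sbs_X (mem_JJ_of_red_X hU))
      (by
        change sbs K _ PowerSeries.X ∈ _
        rw [sbs_X (mem_JJ_of_red_X hU)]; exact mem_JJ_of_red_X hU)
  refine ⟨_, hU, ?_, ?_⟩
  · refine (RingHom.congr_fun hsb _).trans ?_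
    have := hα (MvPowerSeries.X 0)
    rw [hL.nuX, hL'.nuX] at this
    rw [hαi, this]
  · refine (RingHom.congr_fun hsb _).trans ?_
    have := hα (MvPowerSeries.X 1)
    rw [hL.nuY, hL'.nuY] at this
    rw [hαi, this]

end Data.IsLift

variable {τ : ℕ} {g : Fin τ → P2 K}

lemma Data.V_mem_iff (D : Data f) (z : D.V τ Λ) : z ∈ (mx K Λ • ⊤ : Submodule Λ (D.V τ Λ)) ↔
    (∀ l, z.1 l ∈ mx K Λ) ∧ z.2 ∈ (mx K Λ • ⊤ : Submodule Λ (Fin D.r → Λ⟦X⟧)) := by
  rw [prod_mem_smul_top, pi_mem_smul_top (mx_fg K Λ)]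
  simp only [self_mem_smul_top]

lemma Data.GX_apply (D : Data f) (z : D.V τ Λ) (i : Fin D.r) : D.GX z i =
    PowerSeries.map (algebraMap K Λ) (D.x i) + pol Λ (D.k i) fun j => z.1 (Sum.inr ⟨i, j⟩) := rfl

/-- A point of the functor over a normal base is determined by its base point. -/
theorem Data.IsG.unique [IsDomain Λ] [IsIntegrallyClosed Λ⟦X⟧] {z z' : D.V τ Λ} (hz : D.IsG g z)
    (hz' : D.IsG g z') (ht : D.Gt z = D.Gt z') : z = z' := by
  have hL := D.isLift_G hz.mem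
  have hL' := D.isLift_G hz'.mem
  have key : ∀ i, (fun j => z.1 (Sum.inr ⟨i, j⟩)) = (fun j => z'.1 (Sum.inr ⟨i, j⟩)) ∧
      D.GY z i = D.GY z' i := by
    intro i
    obtain ⟨U, hU, h1, h2⟩ := hL.1.exists_reparam (red_Fam f g hL.2) hz.eq hL'.1
      (ht ▸ hz'.eq) i
    have hm : ∀ {z : D.V τ Λ}, D.IsG g z → (fun j => z.1 (Sum.inr ⟨i, j⟩)) ∈
        (mx K Λ • ⊤ : Submodule Λ (Fin (D.k i) → Λ)) := fun hz =>
      (pi_mem_smul_top (mx_fg K Λ) _).mpr fun j =>
        self_mem_smul_top.mpr (((D.V_mem_iff _).mp hz.mem).1 _)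
    have h3 := nf_unique (D.hv i) (D.hk i) (z := (0, fun j => z'.1 (Sum.inr ⟨i, j⟩)))
      (z' := (U - PowerSeries.X, fun j => z.1 (Sum.inr ⟨i, j⟩)))
      ((prod_mem_smul_top _).mpr ⟨Submodule.zero_mem _, hm hz'⟩)
      ((prod_mem_smul_top _).mpr ⟨by rw [ps_red_iff, map_sub, hU, map_X, sub_self], hm hz⟩)
      (by
        simp only [nfMap, add_sub_cancel, add_zero, sbs_self, AlgHom.id_apply]
        exact h1)
    have h4 : U = PowerSeries.X := sub_eq_zero.mp (congrArg Prod.fst h3)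
    rw [h4, sbs_self] at h2
    exact ⟨congrArg Prod.snd h3, h2⟩
  refine Prod.ext ?_ ?_
  · funext l
    rcases l with k | ⟨i, j⟩
    · exact congrFun ht k
    · exact congrFun (key i).1 j
  · funext i
    exact add_left_cancel (key i).2

/-- Every lift can be brought into normal form. -/
theorem Data.IsLift.exists_G {X Y : Fin D.r → Λ⟦X⟧} (hL : D.IsLift X Y) {t : Fin τ → Λ}
    (ht : ∀ k, t k ∈ mx K Λ) (h0 : nu K X Y (Fam f g t) = 0) :
    ∃ z : D.V τ Λ, D.IsG g z ∧ D.Gt z = t ∧ ∀ i, ∃ U : Λ⟦X⟧,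
      PowerSeries.map (rho K Λ) U = PowerSeries.X ∧
        sbs K U (D.GX z i) = X i ∧ sbs K U (D.GY z i) = Y i := by
  choose w hw hw' using fun i => nf_exists (D.hv i) (D.hk i) (congrFun hL.hX i)
  have hU : ∀ i, PowerSeries.map (rho K Λ) (PowerSeries.X + (w i).1) = PowerSeries.X := fun i =>
    red_X_add ((prod_mem_smul_top _).mp (hw i)).1
  choose Y' hY' using fun i => (sbs_bij (hU i)).2 (Y i)
  let z : D.V τ Λ := (Sum.elim t fun p => (w p.1).2 p.2, Y' - lf Λ D.y)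
  have hz : z ∈ (mx K Λ • ⊤ : Submodule Λ (D.V τ Λ)) := by
    rw [D.V_mem_iff]
    constructor
    · rintro (k | ⟨i, j⟩)
      · exact ht k
      · exact self_mem_smul_top.mp ((pi_mem_smul_top (mx_fg K Λ) _).mp
          ((prod_mem_smul_top _).mp (hw i)).2 j)
    · rw [Red.mem_iff, red_N, map_sub, mapN_red_lift, sub_eq_zero, ← hL.hY]
      funext i
      rw [mapN_apply, mapN_apply, ← hY', red_sbs (hU i)]
  have h1 : ∀ i, sbs K (PowerSeries.X + (w i).1) (D.GX z i) = X i := hw'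
  have h2 : ∀ i, sbs K (PowerSeries.X + (w i).1) (D.GY z i) = Y i := fun i => by
    rw [← hY']
    congr 1
    exact add_sub_cancel _ _
  refine ⟨z, ⟨hz, ?_⟩, rfl, fun i => ⟨_, hU i, h1 i, h2 i⟩⟩
  funext i
  have hL' := (D.isLift_G hz).1
  apply (sbs_bij (hU i)).1
  rw [nu_apply, sbs_evJ (hU i) (vec_mem (hL'.memX i) (hL'.memY i)), Pi.zero_apply, map_zero]
  refine Eq.trans ?_ (congrFun h0 i)
  rw [nu_apply]
  congr 2
  funext j
  fin_cases j
  · exact h1 i
  · exact h2 i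

end Pool.Agent.MP_f5cee0_ag.H4
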