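import Pool.Agent.MP_f5cee0_ag.H4.PS
import Pool.Agent.MP_f5cee0_ag.H4.Defs

/-!
Normality of power series rings, identification of integral closures, and the delta invariant.
-/

namespace Pool.Agent.MP_f5cee0_ag.H4

open PowerSeries
open scoped nonZeroDivisors TensorProduct

universe u

section CN

/-- completely normal rings, stated without fractions -/
def CN (R : Type*) [CommRing R] : Prop :=
  ∀ a b d : R, b ≠ 0 → d ≠ 0 → (∀ n : ℕ, b ^ n ∣ d * a ^ n) → b ∣ a

lemma cn_field (K : Type*) [Field K] : CN K := fun _ _ _ hb _ _ => (IsUnit.mk0 _ hb).dvd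

lemma cn_equiv {R S : Type*} [CommRing R] [CommRing S] (e : R ≃+* S) (h : CN R) : CN S := by
  intro a b d hb hd H
  have := h (e.symm a) (e.symm b) (e.symm d) (by simpa using hb) (by simpa using hd) (fun n => by
    have := map_dvd e.symm (H n)
    simpa using this)
  simpa using map_dvd e this

lemma cn_sub {R : Type*} [CommRing R] {a b d : R} (q : R) (H : ∀ n : ℕ, b ^ n ∣ d * a ^ n)
    (n : ℕ) : b ^ n ∣ d * (a - q * b) ^ n := by
  rw [sub_eq_add_neg, add_pow, Finset.mul_sum]
  refine Finset.dvd_sum fun i hi => ?_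
  have hi' : i ≤ n := Nat.lt_succ_iff.mp (Finset.mem_range.mp hi)
  obtain ⟨c, hc⟩ := H i
  refine ⟨c * (-q) ^ (n - i) * (n.choose i : R), ?_⟩
  have : b ^ n = b ^ i * b ^ (n - i) := by rw [← pow_add, Nat.add_sub_cancel' hi']
  rw [this, ← neg_mul, mul_pow]
  linear_combination ((-q) ^ (n - i) * b ^ (n - i) * (n.choose i : R)) * hc

lemma exists_X_pow_mul {R : Type*} [CommRing R] {h : R⟦X⟧} (hh : h ≠ 0) :
    ∃ (k : ℕ) (h' : R⟦X⟧), h = X ^ k * h' ∧ constantCoeff h' ≠ 0 := by
  refine ⟨h.order.toNat, divXPowOrder h, (X_pow_order_mul_divXPowOrder).symm, ?_⟩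
  rw [constantCoeff_divXPowOrder]
  exact coeff_order hh

lemma cn_ps {R : Type*} [CommRing R] [IsDomain R] (h : CN R) : CN R⟦X⟧ := by
  intro a b d hb hd H
  obtain ⟨k, b', rfl, hb'⟩ := exists_X_pow_mul hb
  obtain ⟨l, d', rfl, hd'⟩ := exists_X_pow_mul hd
  have hXb : ∀ n, ¬ (X : R⟦X⟧) ∣ b' ^ n := fun n hn => by
    rw [X_dvd_iff, map_pow] at hn
    exact hb' (eq_zero_of_pow_eq_zero hn)
  -- the key step
  have step : ∀ (j : ℕ) (a'' : R⟦X⟧), (∀ n : ℕ, b' ^ n ∣ X ^ l * d' * (X ^ j * a'') ^ n) →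
      ∃ c : R, (X : R⟦X⟧) ^ (j + 1) ∣ X ^ j * a'' - C c * X ^ j * b' := by
    intro j a'' H
    have : constantCoeff b' ∣ constantCoeff a'' := by
      apply h _ _ _ hb' hd'
      intro n
      obtain ⟨c, hc⟩ := H n
      have h1 : (X : R⟦X⟧) ^ (l + j * n) ∣ b' ^ n * c :=
        ⟨d' * a'' ^ n, by rw [← hc]; ring⟩
      obtain ⟨c', rfl⟩ := X_prime.pow_dvd_of_dvd_mul_left _ (hXb n) h1
      have h2 : d' * a'' ^ n = b' ^ n * c' := by
        apply mul_left_cancel₀ (pow_ne_zero (l + j * n) (X_ne_zero (R := R)))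
        linear_combination hc
      refine ⟨constantCoeff c', ?_⟩
      simpa using congrArg constantCoeff h2
    obtain ⟨c, hc⟩ := this
    refine ⟨c, ?_⟩
    have : (X : R⟦X⟧) ^ j * a'' - C c * X ^ j * b' = X ^ j * (a'' - C c * b') := by ring
    rw [this, pow_succ]
    refine mul_dvd_mul_left _ ?_
    rw [X_dvd_iff]; simp [hc, mul_comm]
  -- remove the power of `X` in the denominator
  have hk : (X : R⟦X⟧) ^ k ∣ a := by
    by_cases ha : a = 0
    · simp [ha]
    obtain ⟨s, a', rfl, ha'⟩ := exists_X_pow_mul ha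
    by_cases hs : k ≤ s
    · exact Dvd.dvd.mul_right (pow_dvd_pow _ hs) _
    exfalso
    obtain ⟨c, hc⟩ := H (l + 1)
    obtain ⟨e, rfl⟩ := Nat.exists_eq_add_of_lt (not_le.mp hs)
    have h2 : d' * a' ^ (l + 1) = X * (X ^ (e * (l + 1)) * b' ^ (l + 1) * c) := by
      apply mul_left_cancel₀ (pow_ne_zero (l + s * (l + 1)) (X_ne_zero (R := R)))
      linear_combination hc
    have := congrArg constantCoeff h2
    simp [hd', ha'] at this
  obtain ⟨a', rfl⟩ := hk
  refine mul_dvd_mul_left _ ?_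
  have H' : ∀ n : ℕ, b' ^ n ∣ X ^ l * d' * a' ^ n := by
    intro n
    obtain ⟨c, hc⟩ := H n
    refine ⟨c, ?_⟩
    apply mul_left_cancel₀ (pow_ne_zero (k * n) (X_ne_zero (R := R)))
    linear_combination hc
  obtain ⟨c0, hc0⟩ := step 0 a' (by simpa using H')
  have hmem : ∀ (n : ℕ) (v : R⟦X⟧), v ∈ ((Ideal.span {X} : Ideal R⟦X⟧) ^ n • ⊤ :
      Submodule R⟦X⟧ R⟦X⟧) ↔ X ^ n ∣ v := by
    intro n v
    rw [self_mem_smul_top, Ideal.span_singleton_pow, Ideal.mem_span_singleton]
  obtain ⟨z, -, hz⟩ := newton_exists (M := R⟦X⟧) (M' := R⟦X⟧) (Ideal.span {X})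
    (fun z => a' - (C c0 + z) * b') (fun n _ z _ v hv => by
      rw [hmem] at hv ⊢
      have : a' - (C c0 + (z + v)) * b' - (a' - (C c0 + z) * b') = v * (-b') := by ring
      rw [this]; exact Dvd.dvd.mul_right hv _)
    (fun n _ z _ hz => by
      rw [hmem] at hz
      obtain ⟨a'', ha''⟩ := hz
      obtain ⟨c, hc⟩ := step n a'' (by rw [← ha'']; exact cn_sub _ H')
      refine ⟨C c * X ^ n, (hmem _ _).mpr (Dvd.intro_left _ rfl), (hmem _ _).mpr ?_⟩
      convert hc using 1
      rw [← ha'']; ring)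
    (by
      have := (hmem 1 _).mpr (by simpa using hc0)
      simpa using this)
  exact ⟨C c0 + z, by linear_combination hz⟩

lemma CN.isIntegrallyClosed {R : Type*} [CommRing R] [IsDomain R] (h : CN R) :
    IsIntegrallyClosed R := by
  rw [isIntegrallyClosed_iff (FractionRing R)]
  intro x hx
  obtain ⟨r, hr, H⟩ := hx.isAlmostIntegral
  obtain ⟨a, b, hb, rfl⟩ := IsFractionRing.div_surjective (A := R) x
  have hb0 : b ≠ 0 := nonZeroDivisors.ne_zero hb
  have hb1 : algebraMap R (FractionRing R) b ≠ 0 := by simpa using hb0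
  obtain ⟨c, rfl⟩ := h a b r hb0 (nonZeroDivisors.ne_zero hr) (fun n => by
    obtain ⟨c, hc⟩ := H n
    refine ⟨c, IsFractionRing.injective R (FractionRing R) ?_⟩
    rw [map_mul, map_mul, hc, Algebra.smul_def, map_pow, map_pow, div_pow]
    field_simp)
  exact ⟨c, by rw [map_mul]; field_simp⟩

instance mvps_isDomain (σ R : Type*) [CommRing R] [IsDomain R] : IsDomain (MvPowerSeries σ R) :=
  NoZeroDivisors.to_isDomain _

lemma cn_mv (K : Type*) [Field K] (d : ℕ) : CN (MvPowerSeries (Fin d) K) := by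
  induction d with
  | zero => exact cn_equiv (MvPowerSeries.isEmptyEquiv (Fin 0) K).toRingEquiv.symm (cn_field K)
  | succ d ih => exact cn_equiv (MvPowerSeries.finSuccEquiv K d).toRingEquiv.symm (cn_ps ih)

lemma isIntegrallyClosed_pi {ι S : Type*} [CommRing S] [IsDomain S] [IsIntegrallyClosed S] :
    IsIntegrallyClosed (ι → S) := by
  classical
  rw [isIntegrallyClosed_iff (FractionRing (ι → S))]
  intro x hx
  have hne : ∀ (b : (ι → S)⁰) (i : ι), (b : ι → S) i ≠ 0 := by
    intro b i hb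
    have h1 : (b : ι → S) * Pi.single i 1 = 0 := by
      funext j
      by_cases hj : j = i
      · subst hj; simp [hb]
      · simp [hj]
    have := (mem_nonZeroDivisors_iff.mp b.2).1 _ h1
    simpa using congrFun this i
  obtain ⟨⟨a, b⟩, rfl⟩ := IsLocalization.mk'_surjective (ι → S)⁰ x
  have : ∀ i, ∃ y : S, a i = y * (b : ι → S) i := by
    intro i
    let g : (ι → S) →+* FractionRing S := (algebraMap S _).comp (Pi.evalRingHom (fun _ => S) i)
    have hg : ∀ y : (ι → S)⁰, IsUnit (g y) := fun y =>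
      IsUnit.mk0 _ (by simpa [g] using hne y i)
    have h1 := hx.map_of_comp_eq (Pi.evalRingHom (fun _ => S) i)
      (IsLocalization.lift (S := FractionRing (ι → S)) hg) (by ext; simp [g])
    obtain ⟨y, hy⟩ := IsIntegrallyClosed.algebraMap_eq_of_integral h1
    refine ⟨y, IsFractionRing.injective S (FractionRing S) ?_⟩
    have h2 := congrArg (IsLocalization.lift (S := FractionRing (ι → S)) hg)
      (IsLocalization.mk'_spec (FractionRing (ι → S)) a b)
    rw [map_mul, IsLocalization.lift_eq, IsLocalization.lift_eq] at h2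
    rw [map_mul, hy]
    exact h2.symm
  choose y hy using this
  refine ⟨y, ?_⟩
  rw [IsLocalization.eq_mk'_iff_mul_eq, ← map_mul]
  congr 1
  funext i
  exact (hy i).symm

end CN

section IC

variable {X N : Type*} [CommRing X] [CommRing N] [Algebra X N]

lemma isFractionRing_of_conductor (hinj : Function.Injective (algebraMap X N)) (c : X)
    (hc : algebraMap X N c ∈ N⁰) (hcN : ∀ n : N, ∃ a, algebraMap X N a = algebraMap X N c * n) :
    IsFractionRing X (FractionRing N) := by
  rw [IsFractionRing, isLocalization_iff]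
  refine ⟨?_, ?_, ?_⟩
  · rintro ⟨y, hy⟩
    have : algebraMap X N y ∈ N⁰ := by
      rw [mem_nonZeroDivisors_iff_left]
      intro n hn
      obtain ⟨a, ha⟩ := hcN n
      have h1 : y * a = 0 := hinj (by rw [map_mul, ha, map_zero]; linear_combination (algebraMap X N c) * hn)
      have h2 : a = 0 := (mem_nonZeroDivisors_iff_left.mp hy) a h1
      rw [h2, map_zero] at ha
      exact (mem_nonZeroDivisors_iff_left.mp hc) n ha.symm
    rw [IsScalarTower.algebraMap_apply X N (FractionRing N)]
    exact IsLocalization.map_units (FractionRing N) (⟨_, this⟩ : N⁰)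
  · intro z
    obtain ⟨⟨a, b⟩, rfl⟩ := IsLocalization.mk'_surjective N⁰ z
    obtain ⟨a', ha'⟩ := hcN a
    obtain ⟨b', hb'⟩ := hcN b
    have hb'' : b' ∈ X⁰ := by
      rw [mem_nonZeroDivisors_iff_left]
      intro r hr
      apply hinj
      have h1 : algebraMap X N b' ∈ N⁰ := hb' ▸ mul_mem hc b.2
      rw [map_zero]
      apply (mem_nonZeroDivisors_iff_left.mp h1)
      rw [← map_mul, hr, map_zero]
    refine ⟨(a', ⟨b', hb''⟩), ?_⟩
    simp only
    rw [IsScalarTower.algebraMap_apply X N (FractionRing N),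
      IsScalarTower.algebraMap_apply X N (FractionRing N) a', ha', hb', map_mul, map_mul,
      mul_left_comm, IsLocalization.mk'_spec]
  · intro x y h
    rw [IsScalarTower.algebraMap_apply X N (FractionRing N),
      IsScalarTower.algebraMap_apply X N (FractionRing N) y] at h
    exact ⟨1, by rw [hinj (IsFractionRing.injective N _ h)]⟩

lemma exists_equiv_integralClosure [IsIntegrallyClosed N] [Algebra.IsIntegral X N]
    (hinj : Function.Injective (algebraMap X N)) (c : X)
    (hc : algebraMap X N c ∈ N⁰) (hcN : ∀ n : N, ∃ a, algebraMap X N a = algebraMap X N c * n) :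
    Nonempty (N ≃ₐ[X] integralClosure X (FractionRing X)) := by
  have := isFractionRing_of_conductor hinj c hc hcN
  have h1 : IsIntegralClosure N X (FractionRing N) := inferInstance
  exact ⟨(IsIntegralClosure.equiv X N (FractionRing N) (integralClosure X (FractionRing N))).trans
    (IsLocalization.algEquiv X⁰ (FractionRing N) (FractionRing X)).mapIntegralClosure⟩

end IC

end Pool.Agent.MP_f5cee0_ag.H4
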