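import Pool.Agent.MP_f5cee0_ag.H4.Mod

/-!
One-variable power series over a complete base; complete bases with residue field `K`.
-/

namespace Pool.Agent.MP_f5cee0_ag.H4

open PowerSeries

section ev

variable {σ : Type*} [Finite σ] (R : Type*) {S : Type*} [CommRing R] [CommRing S] [Algebra R S]

open Classical in
/-- Evaluation of power series at elements of an ideal for which the target is complete. -/
noncomputable def ev (I : Ideal S) [IsAdicComplete I S] (a : σ → S) :
    MvPowerSeries σ R →ₐ[R] S :=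
  if h : ∀ i, a i ∈ I then (exists_ev I a h).choose
  else (exists_ev I (fun _ => 0) (fun _ => I.zero_mem)).choose

variable {R}

lemma ev_X (I : Ideal S) [IsAdicComplete I S] {a : σ → S} (h : ∀ i, a i ∈ I) (i : σ) :
    ev R I a (MvPowerSeries.X i) = a i := by
  rw [ev, dif_pos h]; exact (exists_ev I a h).choose_spec i

omit [Finite σ] in
lemma algHom_C (φ : MvPowerSeries σ R →ₐ[R] S) (r : R) :
    φ (MvPowerSeries.C r) = algebraMap R S r := by
  have h1 := φ.commutes r
  rw [MvPowerSeries.algebraMap_apply] at h1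
  simpa using h1

end ev

section J

variable {Λ : Type*} [CommRing Λ]

/-- The ideal of power series whose constant coefficient lies in `𝔪`. -/
noncomputable def JJ (𝔪 : Ideal Λ) : Ideal Λ⟦X⟧ := 𝔪.comap constantCoeff

lemma mem_JJ {𝔪 : Ideal Λ} {h : Λ⟦X⟧} : h ∈ JJ 𝔪 ↔ constantCoeff h ∈ 𝔪 := Iff.rfl

lemma X_mem_JJ (𝔪 : Ideal Λ) : (X : Λ⟦X⟧) ∈ JJ 𝔪 := by simp [mem_JJ]

lemma C_mem_JJ_pow {𝔪 : Ideal Λ} {n : ℕ} {r : Λ} (hr : r ∈ 𝔪 ^ n) : C r ∈ JJ 𝔪 ^ n := by
  have h1 : 𝔪.map (C : Λ →+* Λ⟦X⟧) ≤ JJ 𝔪 := by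
    rw [Ideal.map_le_iff_le_comap]; intro x hx; simpa [mem_JJ] using hx
  have := Ideal.mem_map_of_mem (C : Λ →+* Λ⟦X⟧) hr
  rw [Ideal.map_pow] at this
  exact Ideal.pow_right_mono h1 n this

lemma coe_trunc_eq_sum (n : ℕ) (h : Λ⟦X⟧) :
    ((trunc n h : Polynomial Λ) : Λ⟦X⟧) = ∑ j ∈ Finset.range n, C (coeff j h) * X ^ j := by
  ext k
  rw [Polynomial.coeff_coe, coeff_trunc, map_sum]
  simp only [coeff_C_mul, coeff_X_pow, mul_ite, mul_one, mul_zero]
  rw [Finset.sum_ite_eq]
  simp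

lemma mem_JJ_pow {𝔪 : Ideal Λ} {n : ℕ} {h : Λ⟦X⟧} :
    h ∈ JJ 𝔪 ^ n ↔ ∀ j, coeff j h ∈ 𝔪 ^ (n - j) := by
  constructor
  · induction n generalizing h with
    | zero => intro _ j; simp
    | succ n ih =>
      intro hh
      rw [pow_succ] at hh
      refine Submodule.mul_induction_on hh ?_ ?_
      · intro a ha b hb j
        rw [coeff_mul]
        refine Ideal.sum_mem _ fun p hp => ?_
        have hp' : p.1 + p.2 = j := by simpa using hp
        by_cases h2 : p.2 = 0
        · have h3 : n + 1 - j ≤ (n - p.1) + 1 := by omega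
          refine Ideal.pow_le_pow_right h3 ?_
          rw [pow_succ]
          refine Ideal.mul_mem_mul (ih ha _) ?_
          rw [h2]; simpa [mem_JJ] using hb
        · have h3 : n + 1 - j ≤ n - p.1 := by omega
          exact Ideal.mul_mem_right _ _ (Ideal.pow_le_pow_right h3 (ih ha _))
      · intro a b ha hb j
        rw [map_add]; exact Ideal.add_mem _ (ha j) (hb j)
  · intro hh
    rw [eq_X_pow_mul_shift_add_trunc n h]
    refine Ideal.add_mem _ (Ideal.mul_mem_right _ _ (Ideal.pow_mem_pow (X_mem_JJ 𝔪) n)) ?_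
    rw [coe_trunc_eq_sum]
    refine Ideal.sum_mem _ fun j hj => ?_
    have hj' : j ≤ n := (Finset.mem_range.mp hj).le
    have : JJ 𝔪 ^ n = JJ 𝔪 ^ (n - j) * JJ 𝔪 ^ j := by rw [← pow_add, Nat.sub_add_cancel hj']
    rw [this]
    exact Ideal.mul_mem_mul (C_mem_JJ_pow (hh j)) (Ideal.pow_mem_pow (X_mem_JJ 𝔪) j)

instance isAdicComplete_JJ (𝔪 : Ideal Λ) [hc : IsAdicComplete 𝔪 Λ] :
    IsAdicComplete (JJ 𝔪) Λ⟦X⟧ where
  haus' x hx := by
    ext j
    rw [map_zero]
    apply haus_zero 𝔪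
    intro n
    have := SModEq.zero.mp (hx (n + j))
    rw [self_mem_smul_top, mem_JJ_pow] at this
    simpa using this j
  prec' f hf := by
    have hf' : ∀ {m n}, m ≤ n → ∀ j, coeff j (f m) - coeff j (f n) ∈ 𝔪 ^ (m - j) := by
      intro m n hmn j
      have := SModEq.sub_mem.mp (hf hmn)
      rw [self_mem_smul_top, mem_JJ_pow] at this
      simpa using this j
    have : ∀ j, ∃ L : Λ, ∀ n, coeff j (f (n + j)) ≡ L [SMOD (𝔪 ^ n • ⊤ : Submodule Λ Λ)] :=
      fun j => hc.prec' (fun n => coeff j (f (n + j))) (fun {m n} hmn => by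
        rw [SModEq.sub_mem, self_mem_smul_top]
        simpa using hf' (Nat.add_le_add_right hmn j) j)
    choose L hL using this
    refine ⟨PowerSeries.mk L, fun n => ?_⟩
    rw [SModEq.sub_mem, self_mem_smul_top, mem_JJ_pow]
    intro j
    rw [map_sub, coeff_mk]
    by_cases hj : j ≤ n
    · have := SModEq.sub_mem.mp (hL j (n - j))
      rwa [self_mem_smul_top, Nat.sub_add_cancel hj] at this
    · rw [Nat.sub_eq_zero_of_le (by omega)]; simp

lemma mem_map_C_iff {𝔟 : Ideal Λ} (fg : 𝔟.FG) (h : Λ⟦X⟧) :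
    h ∈ 𝔟.map (algebraMap Λ Λ⟦X⟧) ↔ ∀ j, coeff j h ∈ 𝔟 := by
  rw [← ps_mem_smul_top fg, Ideal.smul_top_eq_map, Submodule.restrictScalars_mem]

lemma closed_JJ {𝔪 : Ideal Λ} (fg : 𝔪.FG) (n : ℕ) :
    Closed (JJ 𝔪) ((𝔪 ^ n).map (algebraMap Λ Λ⟦X⟧)) := by
  intro s hs
  rw [mem_map_C_iff fg.pow]
  intro j
  obtain ⟨a, ha, b, hb, rfl⟩ := Submodule.mem_sup.mp (hs (n + j))
  rw [map_add]
  refine Ideal.add_mem _ ((mem_map_C_iff fg.pow a).mp ha j) ?_
  simpa using mem_JJ_pow.mp hb j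

end J

/-- A complete base: a `K`-algebra with an augmentation whose kernel is finitely generated and
for which it is adically complete. -/
class CBase (K Λ : Type*) [Field K] [CommRing Λ] [Algebra K Λ] where
  /-- the augmentation -/
  res : Λ →ₐ[K] K
  fg : (RingHom.ker res).FG
  complete : IsAdicComplete (RingHom.ker res) Λ

section base

variable (K Λ : Type*) [Field K] [CommRing Λ] [Algebra K Λ] [CBase K Λ]

/-- the augmentation as a ring homomorphism -/
noncomputable def rho : Λ →+* K := (CBase.res : Λ →ₐ[K] K).toRingHom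

/-- the maximal ideal of a complete base -/
noncomputable def mx : Ideal Λ := RingHom.ker (rho K Λ)

lemma mx_fg : (mx K Λ).FG := CBase.fg

instance mx_complete : IsAdicComplete (mx K Λ) Λ := CBase.complete

@[simp] lemma rho_algebraMap (c : K) : rho K Λ (algebraMap K Λ c) = c :=
  (CBase.res : Λ →ₐ[K] K).commutes c

lemma rho_surjective : Function.Surjective (rho K Λ) := fun c => ⟨_, rho_algebraMap K Λ c⟩

instance mx_isMaximal : (mx K Λ).IsMaximal :=
  RingHom.ker_isMaximal_of_surjective _ (rho_surjective K Λ)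

variable {K Λ}

lemma mem_mx {r : Λ} : r ∈ mx K Λ ↔ rho K Λ r = 0 := Iff.rfl

lemma isUnit_of_rho {r : Λ} (h : rho K Λ r ≠ 0) : IsUnit r := by
  have hj := IsAdicComplete.le_jacobson_bot (mx K Λ)
  have h1 : r * algebraMap K Λ (rho K Λ r)⁻¹ - 1 ∈ mx K Λ := by
    rw [mem_mx]; simp [h]
  have h2 := Ideal.mem_jacobson_bot.mp (hj h1) 1
  rw [mul_one, sub_add_cancel] at h2
  exact isUnit_of_mul_isUnit_left h2

lemma ps_red_iff (h : Λ⟦X⟧) :
    h ∈ (mx K Λ • ⊤ : Submodule Λ Λ⟦X⟧) ↔ PowerSeries.map (rho K Λ) h = 0 := by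
  rw [ps_mem_smul_top (mx_fg K Λ), PowerSeries.ext_iff]
  simp [mem_mx]

lemma mvps_red_iff {σ : Type*} (h : MvPowerSeries σ Λ) :
    h ∈ (mx K Λ • ⊤ : Submodule Λ (MvPowerSeries σ Λ)) ↔
      MvPowerSeries.map (rho K Λ) h = 0 := by
  rw [mvps_mem_smul_top (mx_fg K Λ), MvPowerSeries.ext_iff]
  simp [mem_mx]

@[simp] lemma ps_red_lift (h : K⟦X⟧) :
    PowerSeries.map (rho K Λ) (PowerSeries.map (algebraMap K Λ) h) = h := by
  ext j; simp

@[simp] lemma mvps_red_lift {σ : Type*} (h : MvPowerSeries σ K) :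
    MvPowerSeries.map (rho K Λ) (MvPowerSeries.map (algebraMap K Λ) h) = h := by
  ext j; simp

variable (K Λ) in
instance ps_complete : IsAdicComplete (mx K Λ) Λ⟦X⟧ := isAdicComplete_ps _ (mx_fg K Λ)

variable (K Λ) in
instance mvps_complete {σ : Type*} : IsAdicComplete (mx K Λ) (MvPowerSeries σ Λ) :=
  isAdicComplete_mvps _ (mx_fg K Λ)

variable (K Λ) in
instance pi_complete {ι : Type*} {N : ι → Type*} [∀ i, AddCommGroup (N i)]
    [∀ i, Module Λ (N i)] [∀ i, IsAdicComplete (mx K Λ) (N i)] :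
    IsAdicComplete (mx K Λ) (∀ i, N i) := isAdicComplete_pi _ (mx_fg K Λ)

variable (K Λ) in
instance prod_complete {M M' : Type*} [AddCommGroup M] [Module Λ M]
    [AddCommGroup M'] [Module Λ M'] [IsAdicComplete (mx K Λ) M] [IsAdicComplete (mx K Λ) M'] :
    IsAdicComplete (mx K Λ) (M × M') := isAdicComplete_prod _

/-- A `K`-algebra homomorphism between complete bases is compatible with the augmentations. -/
lemma rho_algHom {Λ' : Type*} [CommRing Λ'] [Algebra K Λ'] [CBase K Λ'] (β : Λ →ₐ[K] Λ')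
    (r : Λ) : rho K Λ' (β r) = rho K Λ r := by
  by_contra hne
  have h1 : rho K Λ (r - algebraMap K Λ (rho K Λ' (β r))) ≠ 0 := by
    simpa [sub_eq_zero] using fun h => hne h.symm
  have h2 := (isUnit_of_rho h1).map β
  have h3 := h2.map (rho K Λ')
  simp at h3

lemma algHom_mem_mx {Λ' : Type*} [CommRing Λ'] [Algebra K Λ'] [CBase K Λ'] (β : Λ →ₐ[K] Λ')
    {r : Λ} (hr : r ∈ mx K Λ) : β r ∈ mx K Λ' := by
  rw [mem_mx, rho_algHom]; exact hr

end base

section instances

variable (K : Type*) [Field K]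

/-- the constant coefficient as an algebra homomorphism -/
noncomputable def ccAlg (σ : Type*) : MvPowerSeries σ K →ₐ[K] K :=
  { MvPowerSeries.constantCoeff with
    commutes' := fun c => by simp [MvPowerSeries.algebraMap_apply] }

lemma ker_ccAlg (σ : Type*) [Finite σ] : RingHom.ker (ccAlg K σ) = XI σ K := by
  ext h
  exact ⟨fun hh => mem_XI_of_constantCoeff hh, fun hh => constantCoeff_of_mem_XI hh⟩

noncomputable instance cbaseMv (σ : Type*) [Finite σ] : CBase K (MvPowerSeries σ K) where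
  res := ccAlg K σ
  fg := by rw [ker_ccAlg]; exact Submodule.fg_span (Set.finite_range _)
  complete := by rw [ker_ccAlg]; infer_instance

noncomputable instance cbasePS : CBase K K⟦X⟧ := cbaseMv K Unit

noncomputable instance cbaseSelf : CBase K K where
  res := AlgHom.id K K
  fg := by
    have : RingHom.ker (AlgHom.id K K) = ⊥ := by ext; simp
    rw [this]; exact Submodule.fg_bot
  complete := by
    have : RingHom.ker (AlgHom.id K K) = ⊥ := by ext; simp
    rw [this]; infer_instance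

lemma rho_mv (σ : Type*) [Finite σ] (h : MvPowerSeries σ K) :
    rho K (MvPowerSeries σ K) h = MvPowerSeries.constantCoeff h := rfl

lemma rho_ps (h : K⟦X⟧) : rho K K⟦X⟧ h = constantCoeff h := rfl

lemma rho_self (c : K) : rho K K c = c := rfl

lemma mx_mv (σ : Type*) [Finite σ] : mx K (MvPowerSeries σ K) = XI σ K := ker_ccAlg K σ

lemma mx_ps : mx K K⟦X⟧ = Ideal.span {X} := by
  ext h
  rw [mem_mx, rho_ps, Ideal.mem_span_singleton, X_dvd_iff]

lemma mx_self : mx K K = ⊥ := by ext; simp [mem_mx, rho_self]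

end instances

end Pool.Agent.MP_f5cee0_ag.H4
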