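import Pool.Agent.MP_f5cee0_ag.H4.Core

/-!
The normalisation of a reduced curve singularity is a product of power series rings.
-/

namespace Pool.Agent.MP_f5cee0_ag.H4

open PowerSeries
open scoped nonZeroDivisors

universe u

lemma isIntegral_pi {R ι : Type*} [CommRing R] [Fintype ι] {A : ι → Type*} [∀ i, CommRing (A i)]
    [∀ i, Algebra R (A i)] (x : ∀ i, A i) (h : ∀ i, IsIntegral R (x i)) : IsIntegral R x := by
  classical
  choose p hp hp' using h
  refine ⟨∏ i, p i, Polynomial.monic_prod_of_monic _ _ fun i _ => hp i, ?_⟩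
  funext i
  change Pi.evalAlgHom R A i (Polynomial.aeval x _) = 0
  rw [← Polynomial.aeval_algHom_apply, map_prod]
  exact Finset.prod_eq_zero (Finset.mem_univ i) (hp' i)

theorem exists_pi_equiv {K R : Type u} [Field K] [IsAlgClosed K] [CommRing R] [IsReduced R]
    [Algebra K⟦X⟧ R] [Algebra K R] [IsScalarTower K K⟦X⟧ R] [Module.Finite K⟦X⟧ R]
    (htf : ∀ d : K⟦X⟧, d ≠ 0 → algebraMap K⟦X⟧ R d ∈ R⁰)
    (hfin : Module.Finite K⟦X⟧ (integralClosure R (FractionRing R))) :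
    ∃ r : ℕ, Nonempty (integralClosure R (FractionRing R) ≃ₐ[K] (Fin r → K⟦X⟧)) := by
  classical
  let Q := FractionRing R
  let E := FractionRing K⟦X⟧
  have hu : ∀ y : K⟦X⟧⁰, IsUnit (algebraMap K⟦X⟧ Q y) := fun y =>
    IsLocalization.map_units Q ⟨_, htf _ (nonZeroDivisors.ne_zero y.2)⟩
  let : Algebra E Q := (IsLocalization.lift (S := E) hu).toAlgebra
  have : IsScalarTower K⟦X⟧ E Q := IsScalarTower.of_algebraMap_eq fun x =>
    (IsLocalization.lift_eq (S := E) hu x).symm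
  have : IsLocalization (Algebra.algebraMapSubmonoid R K⟦X⟧⁰) Q := by
    refine (IsLocalization.iff_of_le_of_exists_dvd _ R⁰ ?_ ?_).mpr inferInstance
    · rintro _ ⟨d, hd, rfl⟩; exact htf d (nonZeroDivisors.ne_zero hd)
    · intro b hb
      obtain ⟨d, b', hd, h⟩ := exists_mul_eq_algebraMap (D := K⟦X⟧) hb
        (Algebra.IsIntegral.isIntegral b)
      exact ⟨_, ⟨d, mem_nonZeroDivisors_of_ne_zero hd, rfl⟩, b', h.symm⟩
  have : Module.Finite E Q := .of_isLocalization K⟦X⟧ R K⟦X⟧⁰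
  have : IsArtinianRing Q := IsArtinianRing.of_finite E Q
  have := Fintype.ofFinite (MaximalSpectrum Q)
  let e := (IsArtinianRing.equivPi Q).restrictScalars K⟦X⟧
  let π : ∀ m : MaximalSpectrum Q, integralClosure R Q →ₐ[K⟦X⟧]
      integralClosure K⟦X⟧ (Q ⧸ m.asIdeal) := fun m =>
    ((Ideal.Quotient.mkₐ K⟦X⟧ m.asIdeal).comp
      ((integralClosure R Q).val.restrictScalars K⟦X⟧)).codRestrict _ fun ξ =>
        (isIntegral_trans (R := K⟦X⟧) (ξ : Q) ξ.2).map (Ideal.Quotient.mkₐ K⟦X⟧ m.asIdeal)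
  have hπ : Function.Bijective (AlgHom.pi π) := by
    constructor
    · intro a b h
      refine Subtype.ext (e.injective (funext fun m => ?_))
      exact congrArg Subtype.val (congrFun h m)
    · intro v
      have h1 : IsIntegral K⟦X⟧ (e.symm fun m => (v m : Q ⧸ m.asIdeal)) :=
        (isIntegral_pi _ fun m => (v m).2).map e.symm.toAlgHom
      refine ⟨⟨_, h1.tower_top⟩, funext fun m => Subtype.ext ?_⟩
      exact congrFun (e.apply_symm_apply _) m
  have key : ∀ m : MaximalSpectrum Q,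
      Nonempty (K⟦X⟧ ≃ₐ[K] integralClosure K⟦X⟧ (Q ⧸ m.asIdeal)) := by
    intro m
    have := m.isMaximal
    let := Ideal.Quotient.field m.asIdeal
    have : IsIntegrallyClosed (integralClosure K⟦X⟧ (Q ⧸ m.asIdeal)) :=
      integralClosure.isIntegrallyClosedOfFiniteExtension E
    have : Module.Finite K⟦X⟧ (integralClosure K⟦X⟧ (Q ⧸ m.asIdeal)) :=
      Module.Finite.of_surjective (π m).toLinearMap fun v => by
        obtain ⟨ξ, hξ⟩ := hπ.2 (Pi.single m v)
        exact ⟨ξ, (congrFun hξ m).trans (by simp)⟩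
    have : FaithfulSMul K⟦X⟧ (integralClosure K⟦X⟧ (Q ⧸ m.asIdeal)) := by
      rw [faithfulSMul_iff_algebraMap_injective, injective_iff_map_eq_zero]
      intro d hd
      by_contra hne
      exact ((hu ⟨d, mem_nonZeroDivisors_of_ne_zero hne⟩).map
        (Ideal.Quotient.mk m.asIdeal)).ne_zero (congrArg Subtype.val hd)
    exact exists_equiv_ps K _
  refine ⟨Nat.card (MaximalSpectrum Q), ⟨?_⟩⟩
  exact ((AlgEquiv.ofBijective _ hπ).restrictScalars K).trans
    ((AlgEquiv.piCongrRight fun m => (key m).some.symm).trans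
      (AlgEquiv.piCongrLeft' K (fun _ => K⟦X⟧) (Finite.equivFin _)))

section weier

variable {K : Type u} [Field K]

lemma exists_ev_ringHom {σ R S : Type*} [Finite σ] [CommRing R] [CommRing S] (ι : R →+* S)
    (I : Ideal S) [IsAdicComplete I S] (a : σ → S) (ha : ∀ i, a i ∈ I) :
    ∃ φ : MvPowerSeries σ R →+* S, (∀ r, φ (MvPowerSeries.C r) = ι r) ∧
      ∀ i, φ (MvPowerSeries.X i) = a i := by
  let := ι.toAlgebra
  obtain ⟨φ, hφ⟩ := exists_ev (R := R) I a ha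
  exact ⟨φ.toRingHom, algHom_C φ, hφ⟩

lemma exists_iso2 : ∃ E : P2 K ≃+* K⟦X⟧⟦X⟧, (∀ h, E (iota K h) = C h) ∧
    E (MvPowerSeries.X 1) = X ∧
    ∀ h, PowerSeries.map (rho K K⟦X⟧) (E h) = lineHom ![0, 1] h := by
  have hv : ∀ j, (![C X, X] : Fin 2 → K⟦X⟧⟦X⟧) j ∈ JJ (mx K K⟦X⟧) :=
    vec_mem (by simp [mem_JJ, mem_mx, rho_ps]) (X_mem_JJ _)
  obtain ⟨φ, hφC, hφ⟩ := exists_ev_ringHom ((C : K⟦X⟧ →+* K⟦X⟧⟦X⟧).comp (C : K →+* K⟦X⟧))
    (JJ (mx K K⟦X⟧)) ![C X, X] hv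
  obtain ⟨ψ, hψC, hψ⟩ := exists_ev_ringHom (σ := Unit) (iota K).toRingHom (XI (Fin 2) K)
    (fun _ => MvPowerSeries.X 1) (fun _ => X_mem_XI _)
  have hψX : ψ (X : K⟦X⟧⟦X⟧) = MvPowerSeries.X 1 := hψ ()
  have hψC' : ∀ h, ψ (C h : K⟦X⟧⟦X⟧) = iota K h := hψC
  have hφι : ∀ h, φ (iota K h) = C h := fun h => RingHom.congr_fun
    (ps_hom_ext (JJ (mx K K⟦X⟧)) (φ.comp (iota K).toRingHom) C
      (fun r => by
        change φ (iota K (C r)) = _
        rw [iota_C, hφC]; rfl)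
      (by
        change φ (iota K X) = _
        rw [iota_X, hφ]; rfl)
      (by
        change φ (iota K X) ∈ _
        rw [iota_X, hφ]; exact hv 0)) h
  have h0 : ∀ j, ψ (φ (MvPowerSeries.X j)) = MvPowerSeries.X j := fun j => by
    rw [hφ]
    fin_cases j
    · exact (hψC' X).trans iota_X
    · exact hψX
  have h1 : ψ.comp φ = RingHom.id _ := hom_ext (XI (Fin 2) K) _ _
    (fun r => by
      change ψ (φ (MvPowerSeries.C r)) = MvPowerSeries.C r
      rw [← iota_C, hφι, hψC'])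
    h0 (fun j => by
      change ψ (φ _) ∈ _
      rw [h0]; exact X_mem_XI _)
  have h2 : φ.comp ψ = RingHom.id _ := ps_hom_ext (JJ (mx K K⟦X⟧)) _ _
    (fun r => by
      change φ (ψ (C r : K⟦X⟧⟦X⟧)) = _
      rw [hψC', hφι]; rfl)
    (by
      change φ (ψ (X : K⟦X⟧⟦X⟧)) = _
      rw [hψX, hφ]; rfl)
    (by
      change φ (ψ (X : K⟦X⟧⟦X⟧)) ∈ _
      rw [hψX, hφ]; exact hv 1)
  refine ⟨RingEquiv.ofRingHom φ ψ h2 h1, hφι, hφ 1, fun h => ?_⟩
  refine RingHom.congr_fun (hom_ext (Ideal.span {(X : K⟦X⟧)})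
    ((PowerSeries.map (rho K K⟦X⟧)).comp φ) (lineHom (K := K) ![0, 1]).toRingHom
    (fun r => ?_) (fun j => ?_) (fun j => ?_)) h
  · change PowerSeries.map (rho K K⟦X⟧) (φ (MvPowerSeries.C r)) =
      lineHom (K := K) ![0, 1] (MvPowerSeries.C r)
    rw [← iota_C, hφι, lineHom_iota, map_C]; rfl
  · change PowerSeries.map (rho K K⟦X⟧) (φ (MvPowerSeries.X j)) =
      lineHom (K := K) ![0, 1] (MvPowerSeries.X j)
    rw [hφ, lineHom_X]
    fin_cases j <;> simp [rho_ps]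
  · change PowerSeries.map (rho K K⟦X⟧) (φ (MvPowerSeries.X j)) ∈ _
    rw [hφ]
    fin_cases j <;> simp [rho_ps]

lemma weier_bij {f : P2 K} {m : ℕ} {v : K⟦X⟧} (hv : constantCoeff v ≠ 0)
    (hf : lineHom ![0, 1] f = X ^ m * v) : Function.Bijective (Wm m f) := by
  obtain ⟨E, h1, h2, h3⟩ := exists_iso2 (K := K)
  have hb := divMap_bij (Λ := K⟦X⟧) (H := E f) hv (by rw [h3, hf])
  have hE : ∀ q s, E (Wm m f (q, s)) = divMap m (E f) (E q, s) := fun q s => by
    simp only [Wm_apply, divMap_apply, wr_apply, pol_apply, map_add, map_mul, map_sum, map_pow,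
      h1, h2, smul_eq_C_mul, mul_comm]
  constructor
  · rintro ⟨q, s⟩ ⟨q', s'⟩ h
    have := hb.1 ((hE q s).symm.trans ((congrArg E h).trans (hE q' s')))
    exact Prod.ext (E.injective (Prod.ext_iff.mp this).1) (Prod.ext_iff.mp this).2
  · intro h
    obtain ⟨⟨q, s⟩, hq⟩ := hb.2 (E h)
    obtain ⟨q, rfl⟩ := E.surjective q
    exact ⟨(q, s), E.injective ((hE q s).trans hq)⟩

end weier

end Pool.Agent.MP_f5cee0_ag.H4
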