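import Pool.Agent.MP_f5cee0_ag.H4.ArcLemma

/-!
Reduction modulo the maximal ideal of a complete base, and parametrisations.
-/

namespace Pool.Agent.MP_f5cee0_ag.H4

open PowerSeries

universe u

/-- Modules of product type over a complete base, with their reduction map. -/
class Red (K Λ : Type u) [Field K] [CommRing Λ] [Algebra K Λ] [CBase K Λ] (M : Type u)
    [AddCommGroup M] [Module Λ M] (M0 : outParam (Type u)) [outParam (AddCommGroup M0)] where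
  /-- the reduction map -/
  red : M →+ M0
  mem_iff : ∀ v, v ∈ (mx K Λ • ⊤ : Submodule Λ M) ↔ red v = 0
  surj : Function.Surjective red
  complete : IsAdicComplete (mx K Λ) M
  fl : Fl (mx K Λ) M

section

variable (K Λ : Type u) [Field K] [CommRing Λ] [Algebra K Λ] [CBase K Λ]

noncomputable instance redSelf : Red K Λ Λ K where
  red := (rho K Λ).toAddMonoidHom
  mem_iff v := by rw [self_mem_smul_top]; rfl
  surj := rho_surjective K Λ
  complete := inferInstance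
  fl := fl_self _

noncomputable instance redPS : Red K Λ Λ⟦X⟧ K⟦X⟧ where
  red := (PowerSeries.map (rho K Λ)).toAddMonoidHom
  mem_iff := ps_red_iff
  surj h := ⟨_, ps_red_lift h⟩
  complete := inferInstance
  fl := fl_ps (mx_fg K Λ)

noncomputable instance redMv (σ : Type) : Red K Λ (MvPowerSeries σ Λ) (MvPowerSeries σ K) where
  red := (MvPowerSeries.map (rho K Λ)).toAddMonoidHom
  mem_iff := mvps_red_iff
  surj h := ⟨_, mvps_red_lift h⟩
  complete := inferInstance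
  fl := fl_mvps (mx_fg K Λ)

noncomputable instance redPi {ι : Type} (N : ι → Type u) (N0 : ι → Type u)
    [∀ i, AddCommGroup (N i)] [∀ i, Module Λ (N i)] [∀ i, AddCommGroup (N0 i)]
    [h : ∀ i, Red K Λ (N i) (N0 i)] : Red K Λ (∀ i, N i) (∀ i, N0 i) where
  red := AddMonoidHom.pi fun i => (Red.red K Λ).comp (Pi.evalAddMonoidHom N i)
  mem_iff v := by
    rw [pi_mem_smul_top (mx_fg K Λ), funext_iff]
    exact forall_congr' fun i => (h i).mem_iff (v i)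
  surj v := by
    choose w hw using fun i => (h i).surj (v i)
    exact ⟨w, funext hw⟩
  complete := by
    have := fun i => (h i).complete
    infer_instance
  fl := fl_pi (mx_fg K Λ) fun i => (h i).fl

noncomputable instance redProd (M M0 M' M0' : Type u) [AddCommGroup M] [Module Λ M]
    [AddCommGroup M0] [AddCommGroup M'] [Module Λ M'] [AddCommGroup M0']
    [h : Red K Λ M M0] [h' : Red K Λ M' M0'] : Red K Λ (M × M') (M0 × M0') where
  red := AddMonoidHom.prodMap (Red.red K Λ) (Red.red K Λ)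
  mem_iff v := by
    rw [prod_mem_smul_top, Prod.ext_iff, h.mem_iff, h'.mem_iff]; rfl
  surj v := by
    obtain ⟨a, ha⟩ := h.surj v.1
    obtain ⟨b, hb⟩ := h'.surj v.2
    exact ⟨(a, b), Prod.ext ha hb⟩
  complete := by
    have := h.complete
    have := h'.complete
    infer_instance
  fl := fl_prod h.fl h'.fl

variable {K Λ}

@[simp] lemma red_self (r : Λ) : Red.red K Λ r = rho K Λ r := rfl

@[simp] lemma red_ps (h : Λ⟦X⟧) : Red.red K Λ h = PowerSeries.map (rho K Λ) h := rfl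

@[simp] lemma red_mv {σ : Type} (h : MvPowerSeries σ Λ) :
    Red.red K Λ h = MvPowerSeries.map (rho K Λ) h := rfl

@[simp] lemma red_pi {ι : Type} {N : ι → Type u} {N0 : ι → Type u}
    [∀ i, AddCommGroup (N i)] [∀ i, Module Λ (N i)] [∀ i, AddCommGroup (N0 i)]
    [h : ∀ i, Red K Λ (N i) (N0 i)] (v : ∀ i, N i) (i : ι) :
    Red.red K Λ v i = Red.red K Λ (v i) := rfl

@[simp] lemma red_fst {M M0 M' M0' : Type u} [AddCommGroup M] [Module Λ M]
    [AddCommGroup M0] [AddCommGroup M'] [Module Λ M'] [AddCommGroup M0']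
    [h : Red K Λ M M0] [h' : Red K Λ M' M0'] (v : M × M') :
    (Red.red K Λ v).1 = Red.red K Λ v.1 := rfl

@[simp] lemma red_snd {M M0 M' M0' : Type u} [AddCommGroup M] [Module Λ M]
    [AddCommGroup M0] [AddCommGroup M'] [Module Λ M'] [AddCommGroup M0']
    [h : Red K Λ M M0] [h' : Red K Λ M' M0'] (v : M × M') :
    (Red.red K Λ v).2 = Red.red K Λ v.2 := rfl

variable {M M0 M' M0' : Type u} [AddCommGroup M] [Module Λ M]
    [AddCommGroup M0] [AddCommGroup M'] [Module Λ M'] [AddCommGroup M0']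
    [h : Red K Λ M M0] [h' : Red K Λ M' M0']

lemma red_inj_of_square (Ψ : M →ₗ[Λ] M') (Ψ0 : M0 → M0')
    (comm : ∀ v, Red.red K Λ (Ψ v) = Ψ0 (Red.red K Λ v)) (h0 : ∀ v0, Ψ0 v0 = 0 → v0 = 0) (v : M)
    (hv : Ψ v ∈ (mx K Λ • ⊤ : Submodule Λ M')) : v ∈ (mx K Λ • ⊤ : Submodule Λ M) := by
  rw [h'.mem_iff, comm] at hv
  rw [h.mem_iff]; exact h0 _ hv

lemma red_surj_of_square (Ψ : M →ₗ[Λ] M') (Ψ0 : M0 → M0')
    (comm : ∀ v, Red.red K Λ (Ψ v) = Ψ0 (Red.red K Λ v)) (h0 : Function.Surjective Ψ0) (w : M') :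
    ∃ v, Ψ v - w ∈ (mx K Λ • ⊤ : Submodule Λ M') := by
  obtain ⟨v0, hv0⟩ := h0 (Red.red K Λ w)
  obtain ⟨v, rfl⟩ := h.surj v0
  exact ⟨v, by rw [h'.mem_iff, map_sub, comm, hv0, sub_self]⟩

lemma strict_of_square (Ψ : M →ₗ[Λ] M') (Ψ0 : M0 → M0')
    (comm : ∀ v, Red.red K Λ (Ψ v) = Ψ0 (Red.red K Λ v)) (h0 : ∀ v0, Ψ0 v0 = 0 → v0 = 0) (n : ℕ)
    (v : M) (hv : Ψ v ∈ (mx K Λ ^ n • ⊤ : Submodule Λ M')) :
    v ∈ (mx K Λ ^ n • ⊤ : Submodule Λ M) :=
  strict_pow (mx_fg K Λ) Ψ h'.fl (red_inj_of_square Ψ Ψ0 comm h0) n v hv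

lemma inj_of_square (Ψ : M →ₗ[Λ] M') (Ψ0 : M0 → M0')
    (comm : ∀ v, Red.red K Λ (Ψ v) = Ψ0 (Red.red K Λ v)) (h0 : ∀ v0, Ψ0 v0 = 0 → v0 = 0) :
    Function.Injective Ψ :=
  have := h.complete
  injective_of_red (mx_fg K Λ) Ψ h'.fl (red_inj_of_square Ψ Ψ0 comm h0)

lemma surj_of_square (Ψ : M →ₗ[Λ] M') (Ψ0 : M0 → M0')
    (comm : ∀ v, Red.red K Λ (Ψ v) = Ψ0 (Red.red K Λ v)) (h0 : Function.Surjective Ψ0) :
    Function.Surjective Ψ :=
  have := h.complete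
  have := h'.complete
  surjective_of_red (mx K Λ) Ψ (red_surj_of_square Ψ Ψ0 comm h0)

end

/-- power series in the two plane variables -/
abbrev P2 (Λ : Type u) := MvPowerSeries (Fin 2) Λ

/-- power series in `x` as elements of the plane ring -/
noncomputable def iota (Λ : Type u) [CommRing Λ] : Λ⟦X⟧ →ₐ[Λ] P2 Λ := toMvPowerSeries 0

section

variable {Λ Λ' : Type u} [CommRing Λ] [CommRing Λ']

@[simp] lemma iota_X : iota Λ X = MvPowerSeries.X 0 := toMvPowerSeries_X 0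

@[simp] lemma iota_C (r : Λ) : iota Λ (C r) = MvPowerSeries.C r := toMvPowerSeries_C 0 r

lemma X_mem_XI {σ R : Type*} [CommRing R] (i : σ) : MvPowerSeries.X i ∈ XI σ R :=
  Ideal.subset_span ⟨i, rfl⟩

lemma ps_hom_ext {S : Type*} [CommRing S] (I : Ideal S) [IsHausdorff I S] (φ ψ : Λ⟦X⟧ →+* S)
    (hC : ∀ r, φ (C r) = ψ (C r)) (hX : φ X = ψ X) (hφ : φ X ∈ I) : φ = ψ :=
  hom_ext (σ := Unit) I φ ψ hC (fun _ => hX) (fun _ => hφ)

lemma map_iota (β : Λ →+* Λ') (h : Λ⟦X⟧) :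
    MvPowerSeries.map β (iota Λ h) = iota Λ' (PowerSeries.map β h) := by
  have := ps_hom_ext (XI (Fin 2) Λ') ((MvPowerSeries.map β).comp (iota Λ).toRingHom)
    ((iota Λ').toRingHom.comp (PowerSeries.map β)) (fun r => by simp) (by simp)
    (by simpa using X_mem_XI (R := Λ') (0 : Fin 2))
  exact RingHom.congr_fun this h

lemma map_pderiv {σ : Type*} (β : Λ →+* Λ') (i : σ) (h : MvPowerSeries σ Λ) :
    MvPowerSeries.map β (MvPowerSeries.pderiv Λ i h) =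
      MvPowerSeries.pderiv Λ' i (MvPowerSeries.map β h) := by
  ext d
  simp [MvPowerSeries.coeff_pderiv]

lemma map_derivative (β : Λ →+* Λ') (h : Λ⟦X⟧) :
    PowerSeries.map β (d⁄dX Λ h) = d⁄dX Λ' (PowerSeries.map β h) := map_pderiv β () h

lemma pderiv_one_iota (h : Λ⟦X⟧) : MvPowerSeries.pderiv Λ 1 (iota Λ h) = 0 := by
  have := deriv_vanish (σ := Unit) (closed_bot (XI (Fin 2) Λ)) (iota Λ).toRingHom
    (fun _ => by
      change iota Λ X ∈ _
      rw [iota_X]; exact Ideal.subset_span ⟨0, rfl⟩)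
    ((MvPowerSeries.pderiv Λ 1).toLinearMap.toAddMonoidHom.comp (iota Λ).toRingHom.toAddMonoidHom)
    (fun a b => by
      change MvPowerSeries.pderiv Λ 1 (iota Λ (a * b)) - (iota Λ a *
        MvPowerSeries.pderiv Λ 1 (iota Λ b) + iota Λ b * MvPowerSeries.pderiv Λ 1 (iota Λ a)) ∈ _
      rw [map_mul, Derivation.leibniz]; simp)
    (fun r => by
      change MvPowerSeries.pderiv Λ 1 (iota Λ (C r)) ∈ _
      simp)
    (fun _ => by
      change MvPowerSeries.pderiv Λ 1 (iota Λ X) ∈ _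
      rw [iota_X, MvPowerSeries.pderiv_X_of_ne (by decide)]; simp) h
  exact this

/-- `r ↦ ∑ r_k(x) y^k` -/
noncomputable def wr (Λ : Type u) [CommRing Λ] (m : ℕ) : (Fin m → Λ⟦X⟧) →ₗ[Λ] P2 Λ where
  toFun r := ∑ k, iota Λ (r k) * MvPowerSeries.X 1 ^ (k : ℕ)
  map_add' a b := by simp [add_mul, Finset.sum_add_distrib]
  map_smul' c a := by simp [Finset.smul_sum]

lemma wr_apply (m : ℕ) (r : Fin m → Λ⟦X⟧) :
    wr Λ m r = ∑ k, iota Λ (r k) * MvPowerSeries.X 1 ^ (k : ℕ) := rfl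

lemma map_wr (β : Λ →+* Λ') (m : ℕ) (r : Fin m → Λ⟦X⟧) :
    MvPowerSeries.map β (wr Λ m r) = wr Λ' m (fun k => PowerSeries.map β (r k)) := by
  simp [wr_apply, map_iota]

/-- coefficientwise map on products of power series rings -/
noncomputable def mapN {r : ℕ} (β : Λ →+* Λ') : (Fin r → Λ⟦X⟧) →+* (Fin r → Λ'⟦X⟧) :=
  RingHom.pi fun i => (PowerSeries.map β).comp (Pi.evalRingHom _ i)

@[simp] lemma mapN_apply {r : ℕ} (β : Λ →+* Λ') (v : Fin r → Λ⟦X⟧) (i : Fin r) :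
    mapN β v i = PowerSeries.map β (v i) := rfl

end

section nu

variable (K : Type u) {Λ Λ' : Type u} [Field K] [CommRing Λ] [Algebra K Λ] [CBase K Λ]
  [CommRing Λ'] [Algebra K Λ'] [CBase K Λ']

/-- evaluation of a power series in finitely many variables at series with small constant term -/
noncomputable def evJ {σ : Type} [Finite σ] (a : σ → Λ⟦X⟧) : MvPowerSeries σ Λ →ₐ[Λ] Λ⟦X⟧ :=
  ev Λ (JJ (mx K Λ)) a

variable {K}

lemma evJ_X {σ : Type} [Finite σ] {a : σ → Λ⟦X⟧} (ha : ∀ i, a i ∈ JJ (mx K Λ)) (i : σ) :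
    evJ K a (MvPowerSeries.X i) = a i := ev_X _ ha i

lemma evJ_C {σ : Type} [Finite σ] (a : σ → Λ⟦X⟧) (r : Λ) :
    evJ K a (MvPowerSeries.C r) = C r := algHom_C _ r

lemma map_mem_JJ (β : Λ →+* Λ') (hβ : ∀ r ∈ mx K Λ, β r ∈ mx K Λ') {h : Λ⟦X⟧}
    (hh : h ∈ JJ (mx K Λ)) : PowerSeries.map β h ∈ JJ (mx K Λ') := by
  rw [mem_JJ, ← coeff_zero_eq_constantCoeff_apply, coeff_map, coeff_zero_eq_constantCoeff_apply]
  exact hβ _ hh

lemma map_evJ {σ : Type} [Finite σ] (β : Λ →+* Λ') (hβ : ∀ r ∈ mx K Λ, β r ∈ mx K Λ')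
    {a : σ → Λ⟦X⟧} (ha : ∀ i, a i ∈ JJ (mx K Λ)) (h : MvPowerSeries σ Λ) :
    PowerSeries.map β (evJ K a h) =
      evJ K (fun i => PowerSeries.map β (a i)) (MvPowerSeries.map β h) := by
  have ha' := fun i => map_mem_JJ β hβ (ha i)
  have := hom_ext (JJ (mx K Λ')) ((PowerSeries.map β).comp (evJ K a).toRingHom)
    ((evJ K (fun i => PowerSeries.map β (a i))).toRingHom.comp (MvPowerSeries.map β))
    (fun r => by simp [evJ_C]) (fun i => by simp [evJ_X ha, evJ_X ha'])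
    (fun i => by simpa [evJ_X ha] using ha' i)
  exact RingHom.congr_fun this h

lemma rho_mem_mx (r : Λ) (hr : r ∈ mx K Λ) : rho K Λ r ∈ mx K K := hr

lemma algebraMap_mem_mx (r : K) (hr : r ∈ mx K K) : algebraMap K Λ r ∈ mx K Λ := by
  rw [mem_mx, rho_algebraMap]; exact hr

lemma mem_JJ_of_red {h : Λ⟦X⟧} (hh : constantCoeff (PowerSeries.map (rho K Λ) h) = 0) :
    h ∈ JJ (mx K Λ) := by
  rwa [← coeff_zero_eq_constantCoeff_apply, coeff_map, coeff_zero_eq_constantCoeff_apply] at hh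

/-- Taylor expansion to first order. -/
lemma evJ_taylor {σ : Type} [Fintype σ] {a v : σ → Λ⟦X⟧} (ha : ∀ i, a i ∈ JJ (mx K Λ)) {n : ℕ}
    (hn : 1 ≤ n) (hv : ∀ i, v i ∈ (mx K Λ ^ n • ⊤ : Submodule Λ Λ⟦X⟧)) (h : MvPowerSeries σ Λ) :
    evJ K (a + v) h - evJ K a h - ∑ i, evJ K a (MvPowerSeries.pderiv Λ i h) * v i ∈
      (mx K Λ ^ (n + 1) • ⊤ : Submodule Λ Λ⟦X⟧) := by
  simp only [Ideal.smul_top_eq_map, Submodule.restrictScalars_mem] at hv ⊢
  have hav : ∀ i, (a + v) i ∈ JJ (mx K Λ) := fun i => by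
    refine Ideal.add_mem _ (ha i) ?_
    have := (mem_map_C_iff (mx_fg K Λ).pow _).mp (hv i) 0
    rw [coeff_zero_eq_constantCoeff_apply] at this
    exact mem_JJ.mpr (Ideal.pow_le_self (by omega : n ≠ 0) this)
  have h1 : ∀ h, evJ K (a + v) h - evJ K a h ∈ (mx K Λ ^ n).map (algebraMap Λ Λ⟦X⟧) :=
    hom_congr (closed_JJ (mx_fg K Λ) n) (evJ K (a + v)).toRingHom (evJ K a).toRingHom
      (fun r => by simp [evJ_C]) (fun i => by simpa [evJ_X ha, evJ_X hav] using hv i)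
      (fun i => by simpa [evJ_X hav] using hav i) (fun i => by simpa [evJ_X ha] using ha i)
  have h2 := deriv_congr (closed_JJ (mx_fg K Λ) (n + 1)) (evJ K a).toRingHom
    (fun i => by simpa [evJ_X ha] using ha i)
    ((evJ K (a + v)).toRingHom.toAddMonoidHom - (evJ K a).toRingHom.toAddMonoidHom)
    (fun p q => by
      have h3 := Ideal.mul_mem_mul (h1 p) (h1 q)
      rw [← Ideal.map_mul, ← pow_add] at h3
      have h4 := Ideal.map_mono (f := algebraMap Λ Λ⟦X⟧)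
        (Ideal.pow_le_pow_right (I := mx K Λ) (by omega : n + 1 ≤ n + n)) h3
      convert h4 using 1
      simp; ring)
    (fun r => by simp [evJ_C]) h
  simpa [evJ_X ha, evJ_X hav] using h2

/-- Chain rule. -/
lemma derivative_evJ {σ : Type} [Fintype σ] {a : σ → Λ⟦X⟧} (ha : ∀ i, a i ∈ JJ (mx K Λ))
    (h : MvPowerSeries σ Λ) :
    d⁄dX Λ (evJ K a h) = ∑ i, evJ K a (MvPowerSeries.pderiv Λ i h) * d⁄dX Λ (a i) := by
  have h2 := deriv_congr (closed_bot (JJ (mx K Λ))) (evJ K a).toRingHom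
    (fun i => by simpa [evJ_X ha] using ha i)
    ((d⁄dX Λ).toLinearMap.toAddMonoidHom.comp (evJ K a).toRingHom.toAddMonoidHom)
    (fun p q => by simp [Derivation.leibniz])
    (fun r => by simp [evJ_C]) h
  simpa [evJ_X ha, sub_eq_zero] using h2

variable (K) in
/-- the homomorphism attached to a parametrisation with `r` branches -/
noncomputable def nu {r : ℕ} (X Y : Fin r → Λ⟦X⟧) : P2 Λ →ₐ[Λ] (Fin r → Λ⟦X⟧) :=
  AlgHom.pi fun i => evJ K ![X i, Y i]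

lemma nu_apply {r : ℕ} (X Y : Fin r → Λ⟦X⟧) (h : P2 Λ) (i : Fin r) :
    nu K X Y h i = evJ K ![X i, Y i] h := rfl

lemma vec_mem {I : Ideal Λ⟦X⟧} {a b : Λ⟦X⟧} (ha : a ∈ I) (hb : b ∈ I) : ∀ j, ![a, b] j ∈ I := by
  intro j; fin_cases j <;> simpa

lemma nu_X0 {r : ℕ} {X Y : Fin r → Λ⟦X⟧} (hX : ∀ i, X i ∈ JJ (mx K Λ))
    (hY : ∀ i, Y i ∈ JJ (mx K Λ)) : nu K X Y (MvPowerSeries.X 0) = X := by
  funext i; rw [nu_apply, evJ_X (vec_mem (hX i) (hY i))]; rfl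

lemma nu_X1 {r : ℕ} {X Y : Fin r → Λ⟦X⟧} (hX : ∀ i, X i ∈ JJ (mx K Λ))
    (hY : ∀ i, Y i ∈ JJ (mx K Λ)) : nu K X Y (MvPowerSeries.X 1) = Y := by
  funext i; rw [nu_apply, evJ_X (vec_mem (hX i) (hY i))]; rfl

lemma mapN_nu {r : ℕ} (β : Λ →+* Λ') (hβ : ∀ r ∈ mx K Λ, β r ∈ mx K Λ')
    {X Y : Fin r → Λ⟦X⟧} (hX : ∀ i, X i ∈ JJ (mx K Λ)) (hY : ∀ i, Y i ∈ JJ (mx K Λ))
    (h : P2 Λ) : mapN β (nu K X Y h) = nu K (mapN β X) (mapN β Y) (MvPowerSeries.map β h) := by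
  funext i
  rw [mapN_apply, nu_apply, nu_apply, map_evJ β hβ (vec_mem (hX i) (hY i))]
  congr 2
  funext j; fin_cases j <;> rfl

lemma red_N {r : ℕ} (v : Fin r → Λ⟦X⟧) : Red.red K Λ v = mapN (rho K Λ) v := rfl

@[simp] lemma mapN_red_lift {r : ℕ} (v : Fin r → K⟦X⟧) :
    mapN (rho K Λ) (mapN (algebraMap K Λ) v) = v := by
  funext i; simp

end nu

end Pool.Agent.MP_f5cee0_ag.H4
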