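import Pool.Agent.MP_f5cee0_ag.H4.Build

/-!
A generic linear change of coordinates, and the main theorem.
-/

namespace Pool.Agent.MP_f5cee0_ag.H4

open PowerSeries
open scoped nonZeroDivisors TensorProduct

universe u

section shear

variable {Λ : Type u} [CommRing Λ]

lemma shear_mem (c : Λ) : ∀ j, (![MvPowerSeries.X 0 + MvPowerSeries.C c * MvPowerSeries.X 1,
    MvPowerSeries.X 1] : Fin 2 → P2 Λ) j ∈ XI (Fin 2) Λ := by
  intro j
  fin_cases j
  · exact Ideal.add_mem _ (X_mem_XI _) (Ideal.mul_mem_left _ _ (X_mem_XI _))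
  · exact X_mem_XI _

/-- the substitution `x ↦ x + c y` -/
noncomputable def shear (c : Λ) : P2 Λ →ₐ[Λ] P2 Λ :=
  ev Λ (XI (Fin 2) Λ)
    ![MvPowerSeries.X 0 + MvPowerSeries.C c * MvPowerSeries.X 1, MvPowerSeries.X 1]

lemma shear_X0 (c : Λ) : shear c (MvPowerSeries.X 0) =
    MvPowerSeries.X 0 + MvPowerSeries.C c * MvPowerSeries.X 1 := ev_X _ (shear_mem c) 0

lemma shear_X1 (c : Λ) : shear c (MvPowerSeries.X 1) = MvPowerSeries.X 1 := ev_X _ (shear_mem c) 1

lemma shear_C (c r : Λ) : shear c (MvPowerSeries.C r) = MvPowerSeries.C r := algHom_C _ r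

lemma shear_X_mem (c : Λ) (j : Fin 2) : shear c (MvPowerSeries.X j) ∈ XI (Fin 2) Λ := by
  rw [shear, ev_X _ (shear_mem c)]; exact shear_mem c j

lemma shear_comp {c c' : Λ} (h : c + c' = 0) : (shear c).comp (shear c') = AlgHom.id Λ _ := by
  have key : ∀ j, ((shear c).comp (shear c')) (MvPowerSeries.X j) = MvPowerSeries.X j := by
    rw [Fin.forall_fin_two]
    constructor
    · rw [AlgHom.comp_apply, shear_X0, map_add, map_mul, shear_X0, shear_X1, shear_C, add_assoc,
        ← add_mul, ← map_add, h, map_zero, zero_mul, add_zero]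
    · rw [AlgHom.comp_apply, shear_X1, shear_X1]
  exact algHom_ext (XI (Fin 2) Λ) _ _ key fun j => by rw [key]; exact X_mem_XI j

/-- the substitution as an automorphism -/
noncomputable def shearE (c : Λ) : P2 Λ ≃ₐ[Λ] P2 Λ :=
  AlgEquiv.ofAlgHom (shear c) (shear (-c)) (shear_comp (add_neg_cancel c))
    (shear_comp (neg_add_cancel c))

lemma map_shear {Λ' : Type u} [CommRing Λ'] (β : Λ →+* Λ') (c : Λ) (h : P2 Λ) :
    MvPowerSeries.map β (shear c h) = shear (β c) (MvPowerSeries.map β h) := by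
  refine (RingHom.congr_fun (hom_ext (XI (Fin 2) Λ')
    ((shear (β c)).toRingHom.comp (MvPowerSeries.map β))
    ((MvPowerSeries.map β).comp (shear c).toRingHom) (fun r => by simp [shear_C]) ?_
    (fun j => by simpa using shear_X_mem (β c) j)) h).symm
  rw [Fin.forall_fin_two]
  simp [shear_X0, shear_X1]

lemma pderiv_shear (c : Λ) (j : Fin 2) (h : P2 Λ) : MvPowerSeries.pderiv Λ j (shear c h) =
    shear c (MvPowerSeries.pderiv Λ 0 h) * MvPowerSeries.pderiv Λ j (shear c (MvPowerSeries.X 0)) +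
    shear c (MvPowerSeries.pderiv Λ 1 h) *
      MvPowerSeries.pderiv Λ j (shear c (MvPowerSeries.X 1)) := by
  have := deriv_congr (closed_bot (XI (Fin 2) Λ)) (shear c).toRingHom (shear_X_mem c)
    ((MvPowerSeries.pderiv Λ j).toLinearMap.toAddMonoidHom.comp (shear c).toRingHom.toAddMonoidHom)
    (fun p q => by simp [Derivation.leibniz]) (fun r => by simp [shear_C]) h
  simpa [sub_eq_zero] using this

lemma pderiv0_shear (c : Λ) (h : P2 Λ) :
    MvPowerSeries.pderiv Λ 0 (shear c h) = shear c (MvPowerSeries.pderiv Λ 0 h) := by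
  rw [pderiv_shear, shear_X0, shear_X1]
  simp [Derivation.leibniz, MvPowerSeries.pderiv_X_of_ne]

lemma pderiv1_shear (c : Λ) (h : P2 Λ) : MvPowerSeries.pderiv Λ 1 (shear c h) =
    shear c (MvPowerSeries.C c * MvPowerSeries.pderiv Λ 0 h + MvPowerSeries.pderiv Λ 1 h) := by
  rw [pderiv_shear, shear_X0, shear_X1, map_add (shear c), map_mul, shear_C]
  simp [Derivation.leibniz, MvPowerSeries.pderiv_X_of_ne, mul_comm]

/-- the induced isomorphism of local rings -/
noncomputable def shearQ (c : Λ) (F : P2 Λ) : QR F ≃ₐ[Λ] QR (shear c F) :=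
  Ideal.quotientEquivAlg _ _ (shearE c) (by rw [Ideal.map_span, Set.image_singleton]; rfl)

end shear

variable {K : Type u} [Field K] {f : P2 K} {τ : ℕ} {g : Fin τ → P2 K}

lemma Fam_shear {Λ : Type u} [CommRing Λ] [Algebra K Λ] (c : K) (t : Fin τ → Λ) :
    Fam (shear c f) (fun k => shear c (g k)) t = shear (algebraMap K Λ c) (Fam f g t) := by
  simp only [Fam, map_add, map_sum, map_mul, map_shear, shear_C]

lemma delta_tensor_congr {Λ L A B : Type u} [CommRing Λ] [Field L] [Algebra Λ L] [CommRing A]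
    [CommRing B] [Algebra Λ A] [Algebra Λ B] (e : A ≃ₐ[Λ] B) :
    delta L (L ⊗[Λ] A) = delta L (L ⊗[Λ] B) :=
  delta_congr (Algebra.TensorProduct.congr AlgEquiv.refl e)

lemma stratumIdeal_shear (L : Type u) [Field L] [Algebra K⟦X⟧ L] (c : K) :
    stratumIdeal L (shear c f) (fun k => shear c (g k)) = stratumIdeal L f g := by
  ext h
  rw [mem_stratumIdeal, mem_stratumIdeal]
  refine forall_congr' fun γ => ?_
  rw [DC, DC, Fam_shear, ← delta_congr (shearQ c f),
    ← delta_tensor_congr (shearQ _ _)]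

lemma Spans.shear (hg : Spans f g) (c : K) : Spans (shear c f) (fun k => shear c (g k)) := by
  intro h
  obtain ⟨h, rfl⟩ := (shearE c).surjective h
  obtain ⟨e, a, b, q, rfl⟩ := hg h
  refine ⟨e, H4.shear c (a - b * MvPowerSeries.C c), H4.shear c b, H4.shear c q, ?_⟩
  change H4.shear c _ = _
  simp only [pderiv0_shear, pderiv1_shear, map_add, map_sub, map_mul, map_sum, shear_C]
  ring

lemma lineHom_shear (c : K) (h : P2 K) : lineHom ![0, 1] (shear c h) = lineHom ![c, 1] h := by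
  refine AlgHom.congr_fun (algHom_ext (mx K K⟦X⟧) ((lineHom ![0, 1]).comp (shear c))
    (lineHom ![c, 1]) ?_ fun j => algHom_mem_mx _ (X_mem_mx j)) h
  rw [Fin.forall_fin_two]
  simp [shear_X0, shear_X1, lineHom_X, algHom_C]

lemma lineHom_scale (a b : K) (hb : b ≠ 0) (h : P2 K) :
    lineHom ![a, b] h = sbs K (C b * X) (lineHom ![a / b, 1] h) := by
  have hm : (C b * X : K⟦X⟧) ∈ JJ (mx K K) := Ideal.mul_mem_left _ _ (X_mem_JJ _)
  refine AlgHom.congr_fun (algHom_ext (mx K K⟦X⟧) (lineHom ![a, b])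
    ((sbs K (C b * X)).comp (lineHom ![a / b, 1])) ?_ fun j => algHom_mem_mx _ (X_mem_mx j)) h
  rw [Fin.forall_fin_two]
  simp only [lineHom_X, AlgHom.comp_apply, map_mul, sbs_C, sbs_X hm, Matrix.cons_val_zero,
    Matrix.cons_val_one, map_one, one_mul, and_true]
  rw [← mul_assoc, ← map_mul, div_mul_cancel₀ _ hb]

lemma exists_good_line [Infinite K] (hf : f ≠ 0) (B : Finset K) :
    ∃ c ∉ B, lineHom ![c, 1] f ≠ 0 := by
  obtain ⟨p, hp, H⟩ := exists_initial_form f hf
  have hq : p * MvPolynomial.X 1 *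
      ∏ b ∈ B, (MvPolynomial.X 0 - MvPolynomial.C b * MvPolynomial.X 1) ≠ 0 := by
    refine mul_ne_zero (mul_ne_zero hp (MvPolynomial.X_ne_zero _)) ?_
    rw [Finset.prod_ne_zero_iff]
    intro b _ h
    have := congrArg (MvPolynomial.eval ![1, 0]) h
    simp at this
  obtain ⟨c, hc⟩ : ∃ c, MvPolynomial.eval c (p * MvPolynomial.X 1 *
      ∏ b ∈ B, (MvPolynomial.X 0 - MvPolynomial.C b * MvPolynomial.X 1)) ≠ 0 := by
    by_contra h0
    push Not at h0
    exact hq (MvPolynomial.funext fun c => by rw [h0 c, map_zero])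
  rw [map_mul, map_mul, map_prod, mul_ne_zero_iff, mul_ne_zero_iff, Finset.prod_ne_zero_iff,
    MvPolynomial.eval_X] at hc
  obtain ⟨⟨h1, h2⟩, h3⟩ := hc
  refine ⟨c 0 / c 1, fun hB => h3 _ hB (by simp [div_mul_cancel₀ _ h2]), fun h => H c h1 ?_⟩
  have : c = ![c 0, c 1] := by funext j; fin_cases j <;> rfl
  rw [this, lineHom_scale _ _ h2, h, map_zero]

lemma not_both_mem (hg : Spans f g) {𝔭 : Ideal (P2 K)} (h𝔭 : 𝔭 ∈ (Ideal.span {f}).minimalPrimes)
    (h0 : MvPowerSeries.pderiv K 0 f ∈ 𝔭) (h1 : MvPowerSeries.pderiv K 1 f ∈ 𝔭) : False := by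
  have hp := h𝔭.1.1
  have hf : f ∈ 𝔭 := h𝔭.1.2 (Ideal.mem_span_singleton_self f)
  have hfin : Module.Finite K (P2 K ⧸ 𝔭) := by
    refine Module.Finite.of_surjective
      (Fintype.linearCombination K fun k => Ideal.Quotient.mk 𝔭 (g k)) fun a => ?_
    obtain ⟨a, rfl⟩ := Ideal.Quotient.mk_surjective a
    obtain ⟨e, a, b, q, rfl⟩ := hg a
    refine ⟨e, ?_⟩
    simp only [Fintype.linearCombination_apply, map_add, map_mul, map_sum,
      Ideal.Quotient.eq_zero_iff_mem.mpr hf, Ideal.Quotient.eq_zero_iff_mem.mpr h0,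
      Ideal.Quotient.eq_zero_iff_mem.mpr h1, mul_zero, add_zero]
    exact Finset.sum_congr rfl fun k _ => Algebra.smul_def (e k) (Ideal.Quotient.mk 𝔭 (g k))
  have hX : ∀ j, MvPowerSeries.X j ∈ 𝔭 := by
    intro j
    by_contra hj
    have hu : IsUnit (Ideal.Quotient.mk 𝔭 (MvPowerSeries.X j)) :=
      (Algebra.IsIntegral.isIntegral (R := K) _).isUnit
        fun h => hj (Ideal.Quotient.eq_zero_iff_mem.mp h)
    obtain ⟨b, hb⟩ := hu.exists_right_inv
    obtain ⟨b, rfl⟩ := Ideal.Quotient.mk_surjective b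
    rw [← map_mul, ← map_one (Ideal.Quotient.mk 𝔭), Ideal.Quotient.eq] at hb
    refine hp.ne_top (Ideal.eq_top_of_isUnit_mem _ hb ?_)
    rw [MvPowerSeries.isUnit_iff_constantCoeff]
    simp
  let 𝔮 : Ideal (P2 K) := RingHom.ker (lineHom (K := K) ![0, 1])
  have hq : 𝔮.IsPrime := RingHom.ker_isPrime _
  have e1 : (⊥ : Ideal (P2 K)) < 𝔮 := by
    refine bot_lt_iff_ne_bot.mpr fun h => ?_
    have : (MvPowerSeries.X 0 : P2 K) ∈ 𝔮 := by simp [𝔮, lineHom_X]
    rw [h, Ideal.mem_bot] at this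
    have := congrArg (lineHom (K := K) ![1, 0]) this
    simp [lineHom_X] at this
  have e2 : 𝔮 < 𝔭 := by
    refine lt_of_le_of_ne (fun h hh => ?_) fun h => ?_
    · have : h ∈ XI (Fin 2) K := by
        apply mem_XI_of_constantCoeff
        have := rho_algHom (lineHom (K := K) ![0, 1]) h
        rw [RingHom.mem_ker.mp hh, map_zero] at this
        exact this.symm
      exact Ideal.span_le.mpr (by rintro _ ⟨j, rfl⟩; exact hX j) this
    · have := hX 1
      rw [← h] at this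
      simp [𝔮, lineHom_X] at this
  have e3 := Ideal.height_le_one_of_isPrincipal_of_mem_minimalPrimes _ 𝔭 h𝔭
  have e4 := Ideal.height_add_one_le_of_lt_of_isPrime e1
  have e5 := Ideal.height_add_one_le_of_lt_of_isPrime e2
  have e6 : (1 : ℕ∞) + 1 ≤ 1 :=
    le_trans (add_le_add (le_trans le_add_self e4) le_rfl) (le_trans e5 e3)
  exact absurd e6 (by decide)

theorem main_of_spans [IsAlgClosed K] (p : ℕ) [ExpChar K p] (L : Type u) [Field L]
    [Algebra K⟦X⟧ L] [FaithfulSMul K⟦X⟧ L] [Algebra.IsAlgebraic K⟦X⟧ L] (hf0 : f ≠ 0)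
    (hred : IsReduced (QR f)) (hg : Spans f g) :
    HasSmoothNormalisation K (MvPowerSeries (Fin τ) K ⧸ stratumIdeal L f g) := by
  classical
  have hfin := Ideal.finite_minimalPrimes_of_isNoetherianRing (P2 K) (Ideal.span {f})
  have hB : {c : K | ∃ 𝔭 ∈ (Ideal.span {f}).minimalPrimes,
      MvPowerSeries.C c * MvPowerSeries.pderiv K 0 f + MvPowerSeries.pderiv K 1 f ∈ 𝔭}.Finite := by
    refine (hfin.biUnion (t := fun 𝔭 => {c : K |
      MvPowerSeries.C c * MvPowerSeries.pderiv K 0 f + MvPowerSeries.pderiv K 1 f ∈ 𝔭})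
      fun 𝔭 h𝔭 => Set.Subsingleton.finite fun a ha b hb => ?_).subset
      fun c ⟨𝔭, h1, h2⟩ => Set.mem_biUnion h1 h2
    by_contra hab
    have h1 := 𝔭.sub_mem ha hb
    rw [add_sub_add_right_eq_sub, ← sub_mul, ← map_sub] at h1
    have h2 := (Ideal.unit_mul_mem_iff_mem 𝔭
      ((IsUnit.mk0 _ (sub_ne_zero.mpr hab)).map MvPowerSeries.C)).mp h1
    exact not_both_mem hg h𝔭 h2 ((Ideal.add_mem_iff_right 𝔭 (𝔭.mul_mem_left _ h2)).mp ha)
  obtain ⟨c, hc, hc'⟩ := exists_good_line hf0 hB.toFinset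
  rw [Set.Finite.mem_toFinset] at hc
  have hrad : (Ideal.span {f}).radical = Ideal.span {f} :=
    ((Ideal.isRadical_iff_quotient_reduced _).mpr hred).radical
  have hreg : Ideal.Quotient.mk (Ideal.span {f})
      (MvPowerSeries.C c * MvPowerSeries.pderiv K 0 f + MvPowerSeries.pderiv K 1 f) ∈ (QR f)⁰ := by
    rw [mem_nonZeroDivisors_iff_left]
    intro a ha
    obtain ⟨a, rfl⟩ := Ideal.Quotient.mk_surjective a
    rw [← map_mul, Ideal.Quotient.eq_zero_iff_mem] at ha
    rw [Ideal.Quotient.eq_zero_iff_mem]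
    by_contra hna
    have := (Set.ext_iff.mp (Ideal.iUnion_minimalPrimes (I := Ideal.span {f}))
      (MvPowerSeries.C c * MvPowerSeries.pderiv K 0 f + MvPowerSeries.pderiv K 1 f)).mpr
      ⟨a, by rwa [hrad], by rwa [hrad]⟩
    simp only [Set.mem_iUnion, SetLike.mem_coe, exists_prop] at this
    exact hc this
  obtain ⟨D⟩ := exists_data (f := shear c f)
    (isReduced_of_injective (shearQ c f).symm (shearQ c f).symm.injective)
    (by rwa [lineHom_shear]) (by
      rw [pderiv1_shear]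
      exact (MulEquivClass.map_nonZeroDivisors (shearQ c f)).le ⟨_, hreg, rfl⟩)
  rw [← stratumIdeal_shear L c]
  exact D.main p L (hg.shear c)

end Pool.Agent.MP_f5cee0_ag.H4
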