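import Pool.Agent.MP_f5cee0_ag.H4.Bir

/-!
A flat complete deformation of the normalisation is trivial.
-/

namespace Pool.Agent.MP_f5cee0_ag.H4

open PowerSeries

universe u

lemma idem_eq_zero {S : Type*} [CommRing S] (I : Ideal S) [IsAdicComplete I S] {e : S}
    (he : e * e = e) (h : e ∈ I) : e = 0 := by
  have hu := isUnit_of_sub_one_mem I (a := 1 - e) (by simpa using h)
  exact hu.mul_right_eq_zero.mp (by linear_combination -he)

variable {K : Type u} [Field K] {f : P2 K} (D : Data f)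

lemma exists_pow_eq_mul {r : ℕ} {x c : Fin r → K⟦X⟧} (hx : ∀ i, constantCoeff (x i) = 0)
    (hc : ∀ i, c i ≠ 0) : ∃ (b : ℕ) (v : Fin r → K⟦X⟧), x ^ b = c * v := by
  choose k v hk hv using fun i => exists_X_pow_mul (hc i)
  refine ⟨∑ i, k i, ?_⟩
  have : ∀ i, c i ∣ x i ^ ∑ i, k i := by
    intro i
    rw [hk, (isUnit_iff_constantCoeff.mpr (IsUnit.mk0 _ (hv i))).mul_right_dvd]
    exact pow_dvd_pow_of_dvd_of_le (X_dvd_iff.mpr (hx i))
      (Finset.single_le_sum (fun _ _ => Nat.zero_le _) (Finset.mem_univ i))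
  choose w hw using this
  exact ⟨w, funext hw⟩

variable {Λ : Type u} [CommRing Λ] [Algebra K Λ] [CBase K Λ]

theorem Data.exists_split {S : Type u} [CommRing S] [Algebra Λ S] [Algebra Λ⟦X⟧ S]
    [IsScalarTower Λ Λ⟦X⟧ S] (ρ : S →+* (Fin D.r → K⟦X⟧))
    (hker : ∀ ξ, ξ ∈ (mx K Λ • ⊤ : Submodule Λ S) ↔ ρ ξ = 0) (hsurj : Function.Surjective ρ)
    (hc : IsAdicComplete (mx K Λ) S) (hfl : Fl (mx K Λ) S)
    (hρ : ∀ h, ρ (algebraMap Λ⟦X⟧ S h) =
      nu K D.x D.y (iota K (PowerSeries.map (rho K Λ) h))) :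
    ∃ σ : S →ₐ[Λ] (Fin D.r → Λ⟦X⟧), ∀ ξ, mapN (rho K Λ) (σ ξ) = ρ ξ := by
  classical
  let : Red K Λ S (Fin D.r → K⟦X⟧) := ⟨ρ.toAddMonoidHom, hker, hsurj, hc, hfl⟩
  have hred : ∀ ξ : S, Red.red K Λ ξ = ρ ξ := fun _ => rfl
  choose n hn using fun j => hsurj (D.n j)
  let B : (Fin D.m → Λ⟦X⟧) →ₗ[Λ⟦X⟧] S := Fintype.linearCombination Λ⟦X⟧ n
  let B0 : (Fin D.m → K⟦X⟧) → (Fin D.r → K⟦X⟧) :=
    fun h => ∑ j, nu K D.x D.y (iota K (h j)) * D.n j
  have hB : ∀ h, Red.red K Λ (B.restrictScalars Λ h) = B0 (Red.red K Λ h) := by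
    intro h
    simp only [hred, B, B0, LinearMap.restrictScalars_apply, Fintype.linearCombination_apply,
      map_sum, Algebra.smul_def, map_mul, hρ, hn, red_pi, red_ps]
  have hBb : Function.Bijective B :=
    ⟨inj_of_square (B.restrictScalars Λ) B0 hB D.hn_inj,
      surj_of_square (B.restrictScalars Λ) B0 hB fun v => (D.hn_surj v).imp fun _ h => h.symm⟩
  have hJfg : (JJ (mx K Λ)).FG := by
    have : JJ (mx K Λ) = (mx K Λ).map (algebraMap Λ Λ⟦X⟧) ⊔ Ideal.span {X} := by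
      apply le_antisymm
      · intro h hh
        rw [eq_X_mul_shift_add_const h, add_comm]
        exact Submodule.add_mem_sup (Ideal.mem_map_of_mem _ hh)
          (Ideal.mul_mem_right _ _ (Ideal.mem_span_singleton_self _))
      · refine sup_le ?_ ((Ideal.span_singleton_le_iff_mem _).mpr (X_mem_JJ _))
        rw [Ideal.map_le_iff_le_comap]
        intro r hr
        simpa [mem_JJ] using hr
    rw [this]
    exact Submodule.FG.sup ((mx_fg K Λ).map _) (Submodule.fg_span_singleton _)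
  have h1 : IsAdicComplete (JJ (mx K Λ)) (Fin D.m → Λ⟦X⟧) := isAdicComplete_pi _ hJfg
  have h2 : IsAdicComplete (JJ (mx K Λ)) S :=
    isAdicComplete_equiv _ (LinearEquiv.ofBijective B hBb)
  have h3 : IsAdicComplete ((JJ (mx K Λ)).map (algebraMap Λ⟦X⟧ S)) S := by
    rw [IsAdicComplete.map_algebraMap_iff]; exact h2
  have h4 : IsAdicComplete ((mx K Λ).map (algebraMap Λ S)) S := by
    rw [IsAdicComplete.map_algebraMap_iff]; exact hc
  have hker' : ∀ ξ, ρ ξ = 0 → ξ ∈ (mx K Λ).map (algebraMap Λ S) := fun ξ h => by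
    rw [← hker, Ideal.smul_top_eq_map, Submodule.restrictScalars_mem] at h
    exact h
  let J : Ideal S := (Ideal.span {fun _ => X}).comap ρ
  have hx : ρ (algebraMap Λ⟦X⟧ S X) = D.x := by
    rw [hρ, map_X, iota_X, D.isLift_self.nuX]
  have hIJ : (JJ (mx K Λ)).map (algebraMap Λ⟦X⟧ S) ≤ J := by
    rw [Ideal.map_le_iff_le_comap]
    intro h hh
    have e1 : X ∣ PowerSeries.map (rho K Λ) h :=
      X_dvd_iff.mpr (map_mem_JJ (rho K Λ) rho_mem_mx hh)
    obtain ⟨h', e2⟩ := e1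
    choose x' hx' using fun i => X_dvd_iff.mpr (D.hx i)
    rw [Ideal.mem_comap, Ideal.mem_comap, hρ, e2, map_mul, map_mul, iota_X, D.isLift_self.nuX]
    refine Ideal.mul_mem_right _ _ (Ideal.mem_span_singleton.mpr ⟨x', funext hx'⟩)
  obtain ⟨c, v, hcv⟩ := exists_pow_eq_mul (x := fun _ => (X : K⟦X⟧)) (fun _ => by simp) D.x_ne_zero
  have hJI : J ^ c ≤ (JJ (mx K Λ)).map (algebraMap Λ⟦X⟧ S) := by
    intro ξ hξ
    have e1 := Ideal.le_comap_pow ρ c hξ
    rw [Ideal.mem_comap, Ideal.span_singleton_pow, Ideal.mem_span_singleton, hcv] at e1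
    obtain ⟨v', e2⟩ := e1
    obtain ⟨η, hη⟩ := hsurj (v * v')
    have e3 := hker' (ξ - algebraMap Λ⟦X⟧ S X * η) (by
      rw [map_sub, map_mul, hx, hη, e2, mul_assoc, sub_self])
    rw [← sub_add_cancel ξ (algebraMap Λ⟦X⟧ S X * η)]
    refine Ideal.add_mem _ ?_ (Ideal.mul_mem_right _ _ (Ideal.mem_map_of_mem _ (X_mem_JJ _)))
    rw [IsScalarTower.algebraMap_eq Λ Λ⟦X⟧ S, ← Ideal.map_map] at e3
    refine Ideal.map_mono ?_ e3
    rw [Ideal.map_le_iff_le_comap]
    intro r hr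
    simpa [mem_JJ] using hr
  have h5 : IsAdicComplete J S := isAdicComplete_of_le hIJ hJI
  obtain ⟨U, hU⟩ := hsurj fun _ => X
  obtain ⟨φ, hφ⟩ := exists_ev (σ := Unit) (R := Λ) J (fun _ => U) (fun _ => by
    rw [Ideal.mem_comap, hU]; exact Ideal.mem_span_singleton_self _)
  have hφX : φ (X : Λ⟦X⟧) = U := hφ ()
  have hρφ : ∀ (h : Λ⟦X⟧) i, ρ (φ h) i = PowerSeries.map (rho K Λ) h := by
    intro h i
    have := ps_hom_ext (JJ (mx K K)) (((Pi.evalRingHom _ i).comp ρ).comp φ.toRingHom)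
      (PowerSeries.map (rho K Λ)) (fun r => by
        change ρ (φ (MvPowerSeries.C r)) i = _
        rw [algHom_C, IsScalarTower.algebraMap_apply Λ Λ⟦X⟧ S, hρ]
        change nu K D.x D.y (iota K (PowerSeries.map (rho K Λ) (C r))) i = _
        rw [map_C, iota_C, algHom_C]; rfl)
      (by
        change ρ (φ (X : Λ⟦X⟧)) i = _
        rw [hφX, hU, map_X])
      (by
        change ρ (φ (X : Λ⟦X⟧)) i ∈ _
        rw [hφX, hU]; exact X_mem_JJ _)
    exact RingHom.congr_fun this h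
  have hE : ∀ i, ∃ E : S, E * E = E ∧ ρ E = Pi.single i 1 := by
    intro i
    obtain ⟨e0, he0⟩ := hsurj (Pi.single i 1)
    obtain ⟨E, hE1, hE2⟩ := exists_idempotent_lift _ e0 (hker' _ (by
      rw [map_sub, map_mul, he0, ← Pi.single_mul, mul_one, sub_self]))
    refine ⟨E, hE1, ?_⟩
    rw [← he0, ← sub_eq_zero, ← map_sub, ← hker, Ideal.smul_top_eq_map,
      Submodule.restrictScalars_mem]
    exact hE2
  choose E hE1 hE2 using hE
  have hE3 : ∀ i j, i ≠ j → E i * E j = 0 := fun i j hij =>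
    idem_eq_zero _ (by rw [mul_mul_mul_comm, hE1, hE1]) (hker' _ (by
      rw [map_mul, hE2, hE2]
      funext l
      by_cases h : l = i
      · subst h; simp [hij]
      · simp [h]))
  have hE4 : ∀ i (a : Fin D.r → S), E i * ∑ j, E j * a j = E i * a i := by
    intro i a
    rw [Finset.mul_sum, Finset.sum_eq_single i, ← mul_assoc, hE1]
    · intro j _ hj; rw [← mul_assoc, hE3 i j hj.symm, zero_mul]
    · simp
  have hE5 : ∑ i, E i = 1 := by
    have e1 : (∑ i, E i) * ∑ i, E i = ∑ i, E i := by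
      rw [Finset.sum_mul]
      refine Finset.sum_congr rfl fun i _ => ?_
      simpa using hE4 i 1
    refine (sub_eq_zero.mp (idem_eq_zero _ (by linear_combination e1) (hker' _ ?_))).symm
    rw [map_sub, map_sum, map_one, sub_eq_zero]
    simp only [hE2]
    exact (Finset.univ_sum_single (1 : Fin D.r → K⟦X⟧)).symm
  let θ : (Fin D.r → Λ⟦X⟧) →ₐ[Λ] S :=
    { toFun := fun v => ∑ i, E i * φ (v i)
      map_one' := by simpa using hE5
      map_mul' := fun a b => by
        rw [Finset.sum_mul]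
        refine Finset.sum_congr rfl fun i _ => ?_
        rw [mul_right_comm, hE4, Pi.mul_apply, map_mul]; ring
      map_zero' := by simp
      map_add' := fun a b => by simp [mul_add, Finset.sum_add_distrib]
      commutes' := fun r => by
        simp only [Pi.algebraMap_apply, AlgHom.commutes]
        rw [← Finset.sum_mul, hE5, one_mul] }
  have hθ : ∀ v, Red.red K Λ (θ.toLinearMap v) = id (Red.red K Λ v) := by
    intro v
    funext i
    change ρ (∑ j, E j * φ (v j)) i = PowerSeries.map (rho K Λ) (v i)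
    rw [map_sum, Finset.sum_apply, Finset.sum_eq_single i]
    · rw [map_mul, Pi.mul_apply, hE2, hρφ]; simp
    · intro j _ hj; rw [map_mul, Pi.mul_apply, hE2]; simp [hj.symm]
    · simp
  let Θ := AlgEquiv.ofBijective θ ⟨inj_of_square θ.toLinearMap id hθ fun _ h => h,
    surj_of_square θ.toLinearMap id hθ Function.surjective_id⟩
  refine ⟨Θ.symm, fun ξ => ?_⟩
  obtain ⟨v, rfl⟩ := Θ.surjective ξ
  have := hθ v
  exact (congrArg (mapN (rho K Λ)) (Θ.symm_apply_apply v)).trans this.symm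

end Pool.Agent.MP_f5cee0_ag.H4
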