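import Pool.Agent.MP_f5cee0_ag.H4.NF

/-!
The functor of normalised deformations of the parametrisation and its smooth hull.
-/

namespace Pool.Agent.MP_f5cee0_ag.H4

open PowerSeries

universe u

variable {K : Type u} [Field K] {f : P2 K} (D : Data f) {τ : ℕ} (g : Fin τ → P2 K)

/-- order of the derivative of the first coordinate -/
noncomputable def Data.k (i : Fin D.r) : ℕ := (exists_X_pow_mul (D.hx' i)).choose

/-- unit part of the derivative of the first coordinate -/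
noncomputable def Data.v (i : Fin D.r) : K⟦X⟧ := (exists_X_pow_mul (D.hx' i)).choose_spec.choose

lemma Data.hk (i : Fin D.r) : d⁄dX K (D.x i) = X ^ D.k i * D.v i :=
  (exists_X_pow_mul (D.hx' i)).choose_spec.choose_spec.1

lemma Data.hv (i : Fin D.r) : constantCoeff (D.v i) ≠ 0 :=
  (exists_X_pow_mul (D.hx' i)).choose_spec.choose_spec.2

/-- index set of the finite-dimensional parameters -/
abbrev Data.J (τ : ℕ) : Type := Fin τ ⊕ (Σ i : Fin D.r, Fin (D.k i))

/-- parameter module -/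
abbrev Data.V (τ : ℕ) (Λ : Type u) [CommRing Λ] : Type u := (D.J τ → Λ) × (Fin D.r → Λ⟦X⟧)

section

variable (τ) (Λ : Type u) [CommRing Λ]

/-- from parameters to triples -/
noncomputable def Data.kap :
    D.V τ Λ →ₗ[Λ] (Fin τ → Λ) × (Fin D.r → Λ⟦X⟧) × (Fin D.r → Λ⟦X⟧) where
  toFun z := (fun k => z.1 (Sum.inl k), fun i => pol Λ (D.k i) fun j => z.1 (Sum.inr ⟨i, j⟩), z.2)
  map_add' a b := by
    refine Prod.ext rfl (Prod.ext ?_ rfl)
    funext i
    exact (pol Λ (D.k i)).map_add _ _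
  map_smul' c a := by
    refine Prod.ext rfl (Prod.ext ?_ rfl)
    funext i
    exact (pol Λ (D.k i)).map_smul _ _

variable {τ Λ}

/-- change of base on parameters -/
noncomputable def Data.mapV {Λ' : Type u} [CommRing Λ'] (β : Λ →+* Λ') (z : D.V τ Λ) : D.V τ Λ' :=
  (fun l => β (z.1 l), mapN β z.2)

lemma Data.kap_mapV {Λ' : Type u} [CommRing Λ'] (β : Λ →+* Λ') (z : D.V τ Λ) :
    D.kap τ Λ' (D.mapV β z) = (fun k => β ((D.kap τ Λ z).1 k), mapN β (D.kap τ Λ z).2.1,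
      mapN β (D.kap τ Λ z).2.2) := by
  refine Prod.ext rfl (Prod.ext ?_ rfl)
  funext i
  exact (map_pol β _ _).symm

/-- the projection given by a matrix with entries in `K` -/
noncomputable def Data.prj [Algebra K Λ] {d : ℕ} (M : Fin d → D.J τ → K) :
    D.V τ Λ →ₗ[Λ] (Fin d → Λ) where
  toFun z := fun j => ∑ l, algebraMap K Λ (M j l) * z.1 l
  map_add' a b := by funext j; simp [mul_add, Finset.sum_add_distrib]
  map_smul' c a := by
    funext j
    simp only [Prod.smul_fst, Pi.smul_apply, smul_eq_mul, RingHom.id_apply, Finset.mul_sum,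
      mul_left_comm]

lemma Data.prj_apply [Algebra K Λ] {d : ℕ} (M : Fin d → D.J τ → K) (z : D.V τ Λ) (j : Fin d) :
    D.prj M z j = ∑ l, algebraMap K Λ (M j l) * z.1 l := rfl

lemma Data.prj_mapV [Algebra K Λ] {Λ' : Type u} [CommRing Λ'] [Algebra K Λ'] (β : Λ →+* Λ')
    (hβ : ∀ c, β (algebraMap K Λ c) = algebraMap K Λ' c) {d : ℕ} (M : Fin d → D.J τ → K)
    (z : D.V τ Λ) (j : Fin d) : D.prj M (D.mapV β z) j = β (D.prj M z j) := by
  simp [Data.prj_apply, Data.mapV, hβ]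

end

variable {Λ : Type u} [CommRing Λ] [Algebra K Λ] [CBase K Λ]

lemma Data.red_V (z : D.V τ Λ) : Red.red K Λ z = D.mapV (rho K Λ) z := rfl

lemma lf_self {r : ℕ} (v : Fin r → K⟦X⟧) : lf K v = v := by
  funext i; ext j; simp

omit [CBase K Λ] in
lemma mapN_lf {Λ' : Type u} [CommRing Λ'] [Algebra K Λ'] (β : Λ →+* Λ')
    (hβ : ∀ c, β (algebraMap K Λ c) = algebraMap K Λ' c) {r : ℕ} (v : Fin r → K⟦X⟧) :
    mapN β (lf Λ v) = lf Λ' v := by
  funext i; ext j; simp [hβ]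

lemma Data.LL_mapV {Λ' : Type u} [CommRing Λ'] [Algebra K Λ'] [CBase K Λ'] (β : Λ →+* Λ')
    (hβ : ∀ c, β (algebraMap K Λ c) = algebraMap K Λ' c) (z : D.V τ Λ) :
    D.LL g (D.kap τ Λ' (D.mapV β z)) = mapN β (D.LL g (D.kap τ Λ z)) := by
  rw [D.kap_mapV, D.LL_apply, D.LL_apply]
  simp only [map_add, map_sum, map_mul, mapN_smul, mapN_lf β hβ]

lemma Data.isLift_lf : D.IsLift (lf Λ D.x) (lf Λ D.y) := ⟨mapN_red_lift _, mapN_red_lift _⟩

lemma Data.isLift_self : D.IsLift D.x D.y := by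
  have := D.isLift_lf (Λ := K)
  rwa [lf_self, lf_self] at this

lemma Data.IsLift.chain {D : Data f} {X Y : Fin D.r → Λ⟦X⟧} (hL : D.IsLift X Y) (h : P2 Λ)
    (i : Fin D.r) : d⁄dX Λ (nu K X Y h i) =
      nu K X Y (MvPowerSeries.pderiv Λ 0 h) i * d⁄dX Λ (X i) +
        nu K X Y (MvPowerSeries.pderiv Λ 1 h) i * d⁄dX Λ (Y i) := by
  rw [nu_apply, derivative_evJ (vec_mem (hL.memX i) (hL.memY i)), Fin.sum_univ_two]
  rfl

/-- the `g k` span the Tjurina algebra -/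
def Spans (f : P2 K) (g : Fin τ → P2 K) : Prop :=
  ∀ h : P2 K, ∃ (c : Fin τ → K) (a b q : P2 K), h = ∑ k, MvPowerSeries.C (c k) * g k +
    a * MvPowerSeries.pderiv K 0 f + b * MvPowerSeries.pderiv K 1 f + q * f

lemma Data.nu_f : nu K D.x D.y f = 0 := (D.ker f).mpr dvd_rfl

lemma Data.LL_surj (hg : Spans f g) (h : P2 K) :
    ∃ z : D.V τ K, D.LL g (D.kap τ K z) = nu K D.x D.y h := by
  obtain ⟨c, a, b, q, rfl⟩ := hg h
  choose e s he using fun i => div_surj (D.k i) (D.hv i) (nu K D.x D.y a i)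
  refine ⟨(Sum.elim c fun p => s p.1 p.2,
    nu K D.x D.y b - fun i => e i * d⁄dX K (D.y i)), ?_⟩
  rw [D.LL_apply]
  simp only [lf_self, map_add, map_mul, map_sum, nu_C, D.nu_f, mul_zero, add_zero]
  funext i
  have h1 := D.isLift_self.chain f i
  rw [D.nu_f, D.hk] at h1
  simp only [Pi.zero_apply, map_zero] at h1
  simp only [Data.kap, LinearMap.coe_mk, AddHom.coe_mk, Sum.elim_inl, Sum.elim_inr, Pi.add_apply,
    Pi.mul_apply, Pi.sub_apply]
  linear_combination (nu K D.x D.y (MvPowerSeries.pderiv K 0 f) i) * he i + e i * h1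

lemma Data.exists_prj : ∃ (d : ℕ) (M : Fin d → D.J τ → K),
    (∀ z : D.V τ K, D.LL g (D.kap τ K z) = 0 → D.prj M z = 0 → z = 0) ∧
    ∀ c : Fin d → K, ∃ z : D.V τ K, D.LL g (D.kap τ K z) = 0 ∧ D.prj M z = c := by
  classical
  let T := LinearMap.ker ((D.LL g).comp (D.kap τ K))
  let p : T →ₗ[K] (D.J τ → K) := (LinearMap.fst K _ _).comp T.subtype
  have hp : LinearMap.ker p = ⊥ := by
    rw [LinearMap.ker_eq_bot']
    rintro ⟨⟨z, b⟩, hz⟩ h0
    have h1 : z = 0 := h0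
    subst h1
    have h2 : D.LL g (D.kap τ K (0, b)) = 0 := hz
    rw [D.LL_apply] at h2
    refine Subtype.ext (Prod.ext rfl ?_)
    funext i
    have h3 := congrFun h2 i
    have h4 : pol K (D.k i) (fun _ => (0 : K)) = 0 := (pol K (D.k i)).map_zero
    simp only [lf_self, Data.kap, LinearMap.coe_mk, AddHom.coe_mk, Pi.zero_apply, zero_smul,
      Finset.sum_const_zero, zero_add, Pi.add_apply, Pi.mul_apply, h4, mul_zero] at h3
    exact (mul_eq_zero.mp h3).resolve_left (D.hfy i)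
  have : Module.Finite K T := Module.Finite.of_injective p (LinearMap.ker_eq_bot.mp hp)
  obtain ⟨q, hq⟩ := p.exists_leftInverse_of_injective hp
  let b := Module.finBasis K T
  let π0 : (D.J τ → K) →ₗ[K] (Fin (Module.finrank K T) → K) := b.equivFun.toLinearMap.comp q
  have hπ : ∀ z : D.V τ K, D.prj (fun j l => π0 (Pi.single l 1) j) z = π0 z.1 := by
    intro z
    funext j
    rw [D.prj_apply, LinearMap.pi_apply_eq_sum_univ π0 z.1, Finset.sum_apply]
    refine Finset.sum_congr rfl fun l _ => ?_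
    have : (fun j => if l = j then (1 : K) else 0) = Pi.single l 1 := by
      funext j; simp [Pi.single_apply, eq_comm]
    rw [this]
    simp [mul_comm]
  have hπT : ∀ z : T, π0 (z : D.V τ K).1 = b.equivFun z := fun z =>
    congrArg b.equivFun (LinearMap.congr_fun hq z)
  refine ⟨_, fun j l => π0 (Pi.single l 1) j, fun z h1 h2 => ?_, fun c => ?_⟩
  · rw [hπ, hπT ⟨z, h1⟩, LinearEquiv.map_eq_zero_iff] at h2
    exact congrArg Subtype.val h2
  · refine ⟨b.equivFun.symm c, (b.equivFun.symm c).2, ?_⟩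
    rw [hπ, hπT, LinearEquiv.apply_symm_apply]

/-- first coordinate attached to a parameter -/
noncomputable def Data.GX (z : D.V τ Λ) : Fin D.r → Λ⟦X⟧ := lf Λ D.x + (D.kap τ Λ z).2.1

/-- second coordinate attached to a parameter -/
noncomputable def Data.GY (z : D.V τ Λ) : Fin D.r → Λ⟦X⟧ := lf Λ D.y + (D.kap τ Λ z).2.2

/-- base point attached to a parameter -/
noncomputable def Data.Gt (z : D.V τ Λ) : Fin τ → Λ := (D.kap τ Λ z).1

/-- points of the functor -/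
structure Data.IsG (z : D.V τ Λ) : Prop where
  mem : z ∈ (mx K Λ • ⊤ : Submodule Λ (D.V τ Λ))
  eq : nu K (D.GX z) (D.GY z) (Fam f g (D.Gt z)) = 0

lemma Data.isLift_G {z : D.V τ Λ} (hz : z ∈ (mx K Λ • ⊤ : Submodule Λ (D.V τ Λ))) :
    D.IsLift (D.GX z) (D.GY z) ∧ ∀ k, D.Gt z k ∈ mx K Λ := by
  obtain ⟨hs, hab⟩ := (prod_mem_smul_top _).mp (map_mem_smul_top (D.kap τ Λ) hz)
  obtain ⟨ha, hb⟩ := (prod_mem_smul_top _).mp hab
  exact ⟨D.isLift_lf.add ha hb, fun k =>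
    self_mem_smul_top.mp ((pi_mem_smul_top (mx_fg K Λ) _).mp hs k)⟩

section functor

variable {Λ' : Type u} [CommRing Λ'] [Algebra K Λ'] [CBase K Λ'] (β : Λ →ₐ[K] Λ')

omit [CBase K Λ] [CBase K Λ'] in
lemma Data.GX_mapV (z : D.V τ Λ) : D.GX (D.mapV β.toRingHom z) = mapN β.toRingHom (D.GX z) := by
  rw [Data.GX, Data.GX, D.kap_mapV, map_add, mapN_lf β.toRingHom β.commutes]

omit [CBase K Λ] [CBase K Λ'] in
lemma Data.GY_mapV (z : D.V τ Λ) : D.GY (D.mapV β.toRingHom z) = mapN β.toRingHom (D.GY z) := by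
  rw [Data.GY, Data.GY, D.kap_mapV, map_add, mapN_lf β.toRingHom β.commutes]

omit [CBase K Λ] [CBase K Λ'] in
lemma Data.Gt_mapV (z : D.V τ Λ) : D.Gt (D.mapV β.toRingHom z) = fun k => β (D.Gt z k) := rfl

variable {D g} in
lemma Data.IsG.map {z : D.V τ Λ} (hz : D.IsG g z) : D.IsG g (D.mapV β.toRingHom z) := by
  constructor
  · have h := hz.mem
    rw [Red.mem_iff, D.red_V] at h ⊢
    rw [← h]
    refine Prod.ext ?_ ?_
    · funext l; exact rho_algHom β _
    · funext i; ext j; simp [Data.mapV, rho_algHom]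
  · have hL := (D.isLift_G hz.mem).1
    rw [D.GX_mapV, D.GY_mapV, D.Gt_mapV, ← map_Fam,
      ← mapN_nu _ (fun r hr => algHom_mem_mx β hr) hL.memX hL.memY, hz.eq, map_zero]

end functor

variable {g} {d : ℕ} {M : Fin d → D.J τ → K}

lemma Data.G_unique
    (hM : ∀ z : D.V τ K, D.LL g (D.kap τ K z) = 0 → D.prj M z = 0 → z = 0)
    {z z' : D.V τ Λ} (hz : D.IsG g z) (hz' : D.IsG g z') (h : D.prj M z' = D.prj M z) :
    z' = z := by
  let L : D.V τ Λ →ₗ[Λ] (Fin D.r → Λ⟦X⟧) × (Fin d → Λ) :=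
    LinearMap.prod ((D.LL g).comp (D.kap τ Λ)) (D.prj M)
  let L0 : D.V τ K → (Fin D.r → K⟦X⟧) × (Fin d → K) := fun z =>
    (D.LL g (D.kap τ K z), D.prj M z)
  have comm : ∀ v, Red.red K Λ (L v) = L0 (Red.red K Λ v) := by
    intro v
    refine Prod.ext ?_ ?_
    · exact (D.LL_mapV g (rho K Λ) (rho_algebraMap K Λ) v).symm
    · funext j
      exact (D.prj_mapV (rho K Λ) (rho_algebraMap K Λ) M v j).symm
  refine newton_unique (mx K Λ)
    (fun z => (nu K (D.GX z) (D.GY z) (Fam f g (D.Gt z)), D.prj M z))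
    (fun n hn z hz v hv h => ?_) hz.mem hz'.mem (Prod.ext (hz'.eq.trans hz.eq.symm) h)
  apply strict_of_square L L0 comm
    (fun v h => hM v (congrArg Prod.fst h) (congrArg Prod.snd h))
  rw [prod_mem_smul_top]
  constructor
  · have h1 := (D.isLift_G hz).1.taylor g (D.isLift_G hz).2 hn (D.kap τ Λ v)
      (map_mem_smul_top _ hv)
    have h2 : nu K (D.GX z + (D.kap τ Λ v).2.1) (D.GY z + (D.kap τ Λ v).2.2)
        (Fam f g (D.Gt z + (D.kap τ Λ v).1)) = nu K (D.GX z) (D.GY z) (Fam f g (D.Gt z)) := by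
      refine Eq.trans ?_ (congrArg Prod.fst h)
      simp only [Data.GX, Data.GY, Data.Gt, map_add, Prod.fst_add, Prod.snd_add, add_assoc]
    rw [h2, sub_self, zero_sub, Submodule.neg_mem_iff] at h1
    exact h1
  · have h2 : D.prj M (z + v) = D.prj M z := congrArg Prod.snd h
    rw [map_add, add_eq_left] at h2
    change D.prj M v ∈ _
    rw [h2]; exact Submodule.zero_mem _

lemma Data.G_exists (hg : Spans f g)
    (hM : ∀ c : Fin d → K, ∃ z : D.V τ K, D.LL g (D.kap τ K z) = 0 ∧ D.prj M z = c)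
    (σ : Fin d → Λ) (hσ : ∀ j, σ j ∈ mx K Λ) : ∃ z : D.V τ Λ, D.IsG g z ∧ D.prj M z = σ := by
  have := (inferInstance : Red K Λ (D.V τ Λ) (D.V τ K)).complete
  obtain ⟨z, hz, h1, h2⟩ := (D.isLift_lf (Λ := Λ)).solve g (D.kap τ Λ) (D.prj M) σ
    ((pi_mem_smul_top (mx_fg K Λ) _).mpr fun j => by simpa using hσ j) (fun h c => by
      obtain ⟨z1, hz1⟩ := D.LL_surj g hg h
      obtain ⟨z2, hz2, hz2'⟩ := hM (c - D.prj M z1)
      obtain ⟨z, hz⟩ := (inferInstance : Red K Λ (D.V τ Λ) (D.V τ K)).surj (z1 + z2)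
      rw [D.red_V] at hz
      refine ⟨z, ?_, fun j => ?_⟩
      · rw [← D.LL_mapV g (rho K Λ) (rho_algebraMap K Λ), hz, map_add, map_add, hz1, hz2,
          add_zero]
      · rw [← D.prj_mapV (rho K Λ) (rho_algebraMap K Λ), hz, map_add, hz2', add_sub_cancel])
  exact ⟨z, ⟨hz, h1⟩, h2⟩

lemma Data.G_rep
    (hM : ∀ z : D.V τ K, D.LL g (D.kap τ K z) = 0 → D.prj M z = 0 → z = 0)
    {zB : D.V τ (MvPowerSeries (Fin d) K)} (hzB : D.IsG g zB)
    (hzB' : ∀ j, D.prj M zB j = MvPowerSeries.X j) {z : D.V τ Λ} (hz : D.IsG g z) :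
    ∃ β : MvPowerSeries (Fin d) K →ₐ[K] Λ, D.mapV β.toRingHom zB = z := by
  have h0 : D.prj M z ∈ (mx K Λ • ⊤ : Submodule Λ (Fin d → Λ)) :=
    map_mem_smul_top (D.prj M) hz.mem
  have hmem : ∀ j, D.prj M z j ∈ mx K Λ := fun j =>
    self_mem_smul_top.mp ((pi_mem_smul_top (mx_fg K Λ) _).mp h0 j)
  obtain ⟨β, hβ⟩ := exists_ev (R := K) (mx K Λ) (D.prj M z) hmem
  have h1 : D.IsG g (D.mapV β.toRingHom zB) := hzB.map β
  refine ⟨β, D.G_unique hM hz h1 ?_⟩
  funext j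
  rw [D.prj_mapV β.toRingHom β.commutes, hzB']
  exact hβ j

/-- The universal point. -/
theorem Data.exists_universal (hg : Spans f g) :
    ∃ (d : ℕ) (M : Fin d → D.J τ → K) (zB : D.V τ (MvPowerSeries (Fin d) K)), D.IsG g zB ∧
      (∀ j, D.prj M zB j = MvPowerSeries.X j) ∧
      ∀ z : D.V τ K⟦X⟧, D.IsG g z →
        ∃ β : MvPowerSeries (Fin d) K →ₐ[K] K⟦X⟧, D.mapV β.toRingHom zB = z := by
  obtain ⟨d, M, h1, h2⟩ := D.exists_prj g
  obtain ⟨zB, hzB, hzB'⟩ := D.G_exists (Λ := MvPowerSeries (Fin d) K) hg h2 MvPowerSeries.X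
    (fun j => by rw [mx_mv]; exact X_mem_XI j)
  exact ⟨d, M, zB, hzB, congrFun hzB', fun z hz => D.G_rep h1 hzB (congrFun hzB') hz⟩

end Pool.Agent.MP_f5cee0_ag.H4
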